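import Pool.Agent.Gen.F5.X12DC13m6.S000
import Pool.Agent.Gen.F5.X12DC13m6.S001
import Pool.Agent.Gen.F5.X12DC13m6.S002
import Pool.Agent.Gen.F5.X12DC13m6.S003
import Pool.Agent.Gen.F5.X12DC13m6.S004
import Pool.Agent.Gen.F5.X12DC13m6.S005
import Pool.Agent.Gen.F5.X12DC13m6.S006
import Pool.Agent.Gen.F5.X12DC13m6.S007
import Pool.Agent.Gen.F5.X12DC13m6.S008
import Pool.Agent.Gen.F5.X12DC13m6.S009
import Pool.Agent.Gen.F5.X12DC13m6.S010
import Pool.Agent.Gen.F5.X12DC13m6.S011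
import Pool.Agent.Gen.F5.X12DC13m6.S012

set_option autoImplicit false
set_option maxRecDepth 100000

namespace Pool.Agent.Gen.F5.X12DC13m6

open Pool.Agent.Helper72.F5

def n0 : Cl (O (nat_lit 6)) (R (nat_lit 102673))
    (p (nat_lit 0xc9) (nat_lit 1) (p (nat_lit 0x10e8f100e0f9a) (nat_lit 0) (p (nat_lit 0x8e0e8f8d8f1a) (nat_lit 0) (p (nat_lit 0x10d8e0f0d0c9a) (nat_lit 0) (p (nat_lit 0x8d0d8e8c8c1a) (nat_lit 0) (p (nat_lit 0x2680d2680d000000c8e0c0d8a) (nat_lit 0) (p (nat_lit 0x2680d2680d000000c0d8b8b0a) (nat_lit 0) (p (nat_lit 0x10000c) (nat_lit 0) (p (nat_lit 0x100014) (nat_lit 0) (p (nat_lit 0x108004) (nat_lit 0) (p (nat_lit 0x1fc014) (nat_lit 0) (p (nat_lit 0x1fc00c) (nat_lit 0) (p (nat_lit 0xb0004) (nat_lit 1) (p (nat_lit 0x101) (nat_lit 0) (p (nat_lit 0x380c2) (nat_lit 0) (p (nat_lit 0x3cc2a) (nat_lit 2) (p (nat_lit 0x109) (nat_lit 1) (p (nat_lit 0xc9) (nat_lit 1) (p (nat_lit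 0xc1) (nat_lit 0) (p (nat_lit 0x119) (nat_lit 1) (p (nat_lit 0xd1) (nat_lit 0) (p (nat_lit 0x89) (nat_lit 0) (p (nat_lit 0x41) (nat_lit 0) (p (nat_lit 0x1098a0b090a9a) (nat_lit 0) (p (nat_lit 0x89098a888a1a) (nat_lit 0) (p (nat_lit 0x108890a08079a) (nat_lit 0) (p (nat_lit 0x88088987871a) (nat_lit 0) (p (nat_lit 0x8000080000000078907088a) (nat_lit 0) (p (nat_lit 0x8000080000000070886860a) (nat_lit 0) (p (nat_lit 0x10708060782) (nat_lit 0) (p (nat_lit 0x8687858702) (nat_lit 0) (p (nat_lit 0x10607050482) (nat_lit 0) (p (nat_lit 0x8586848402) (nat_lit 0) (p (nat_lit 0x160004) (nat_lit 0) (p (nat_lit 0x50612) (nat_lit 0) (p (nat_lit 0x40592) (nat_lit 0) (p (nat_lit 0x40492) (nat_lit 0) (p (nat_lit 0x30412) (nat_lit 0) (p (nat_lit 0x30212) (nat_lit 0) (p (nat_lit 0x20192) (nat_lit 0) (p (nat_lit 0x20092) (nat_lit 0) (p (nat_lit 0x10012) (nat_lit 0) pn))))))))))))))))))))))))))))))))))))))))))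 :=
  Cl.node (nat_lit 0x81) (nat_lit 2) (by decide +kernel) (ClAll.succ (ClAll.succ ClAll.zero s123) s124)

def n1 : Cl (O (nat_lit 6)) (R (nat_lit 102673))
    (p (nat_lit 0x10e8f100e0f9a) (nat_lit 0) (p (nat_lit 0x8e0e8f8d8f1a) (nat_lit 0) (p (nat_lit 0x10d8e0f0d0c9a) (nat_lit 0) (p (nat_lit 0x8d0d8e8c8c1a) (nat_lit 0) (p (nat_lit 0x2680d2680d000000c8e0c0d8a) (nat_lit 0) (p (nat_lit 0x2680d2680d000000c0d8b8b0a) (nat_lit 0) (p (nat_lit 0x10000c) (nat_lit 0) (p (nat_lit 0x100014) (nat_lit 0) (p (nat_lit 0x108004) (nat_lit 0) (p (nat_lit 0x1fc014) (nat_lit 0) (p (nat_lit 0x1fc00c) (nat_lit 0) (p (nat_lit 0xb0004) (nat_lit 1) (p (nat_lit 0x101) (nat_lit 0) (p (nat_lit 0x380c2) (nat_lit 0) (p (nat_lit 0x3cc2a) (nat_lit 2) (p (nat_lit 0x109) (nat_lit 1) (p (nat_lit 0xc9) (nat_lit 1) (p (nat_lit 0xc1) (nat_lit 0) (p (nat_lit 0x119) (nat_lit 1) (p (nat_lit 0xd1) (nat_lit 0) (p (nat_lit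 0x89) (nat_lit 0) (p (nat_lit 0x41) (nat_lit 0) (p (nat_lit 0x1098a0b090a9a) (nat_lit 0) (p (nat_lit 0x89098a888a1a) (nat_lit 0) (p (nat_lit 0x108890a08079a) (nat_lit 0) (p (nat_lit 0x88088987871a) (nat_lit 0) (p (nat_lit 0x8000080000000078907088a) (nat_lit 0) (p (nat_lit 0x8000080000000070886860a) (nat_lit 0) (p (nat_lit 0x10708060782) (nat_lit 0) (p (nat_lit 0x8687858702) (nat_lit 0) (p (nat_lit 0x10607050482) (nat_lit 0) (p (nat_lit 0x8586848402) (nat_lit 0) (p (nat_lit 0x160004) (nat_lit 0) (p (nat_lit 0x50612) (nat_lit 0) (p (nat_lit 0x40592) (nat_lit 0) (p (nat_lit 0x40492) (nat_lit 0) (p (nat_lit 0x30412) (nat_lit 0) (p (nat_lit 0x30212) (nat_lit 0) (p (nat_lit 0x20192) (nat_lit 0) (p (nat_lit 0x20092) (nat_lit 0) (p (nat_lit 0x10012) (nat_lit 0) pn))))))))))))))))))))))))))))))))))))))))) :=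
  Cl.node (nat_lit 0xc9) (nat_lit 2) (by decide +kernel) (ClAll.succ (ClAll.succ ClAll.zero s122) n0)

def n2 : Cl (O (nat_lit 6)) (R (nat_lit 102673))
    (p (nat_lit 0x81) (nat_lit 0) (p (nat_lit 0x10e8f100e0f9a) (nat_lit 0) (p (nat_lit 0x8e0e8f8d8f1a) (nat_lit 0) (p (nat_lit 0x10d8e0f0d0c9a) (nat_lit 0) (p (nat_lit 0x8d0d8e8c8c1a) (nat_lit 0) (p (nat_lit 0x2a825a680d000000c8e0c0d8a) (nat_lit 0) (p (nat_lit 0x2a825a680d000000c0d8b8b0a) (nat_lit 0) (p (nat_lit 0x10000c) (nat_lit 0) (p (nat_lit 0x1fc014) (nat_lit 0) (p (nat_lit 0x1fc00c) (nat_lit 0) (p (nat_lit 0xb0004) (nat_lit 1) (p (nat_lit 0x380c2) (nat_lit 0) (p (nat_lit 0x444aa) (nat_lit 7) (p (nat_lit 0x81) (nat_lit 1) (p (nat_lit 0xc9) (nat_lit 1) (p (nat_lit 0x109) (nat_lit 1) (p (nat_lit 0x101) (nat_lit 0) (p (nat_lit 0x119) (nat_lit 0) (p (nat_lit 0xd1) (nat_lit 0) (p (nat_lit 0x89) (nat_lit 0) (p (nat_lit 0x41) (nat_lit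 0) (p (nat_lit 0x1098a0b090a9a) (nat_lit 0) (p (nat_lit 0x89098a888a1a) (nat_lit 0) (p (nat_lit 0x108890a08079a) (nat_lit 0) (p (nat_lit 0x88088987871a) (nat_lit 0) (p (nat_lit 0x8000080000000078907088a) (nat_lit 0) (p (nat_lit 0x8000080000000070886860a) (nat_lit 0) (p (nat_lit 0x10708060782) (nat_lit 0) (p (nat_lit 0x8687858702) (nat_lit 0) (p (nat_lit 0x10607050482) (nat_lit 0) (p (nat_lit 0x8586848402) (nat_lit 0) (p (nat_lit 0x160004) (nat_lit 0) (p (nat_lit 0x50612) (nat_lit 0) (p (nat_lit 0x40592) (nat_lit 0) (p (nat_lit 0x40492) (nat_lit 0) (p (nat_lit 0x30412) (nat_lit 0) (p (nat_lit 0x30212) (nat_lit 0) (p (nat_lit 0x20192) (nat_lit 0) (p (nat_lit 0x20092) (nat_lit 0) (p (nat_lit 0x10012) (nat_lit 0) pn)))))))))))))))))))))))))))))))))))))))) :=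
  Cl.node (nat_lit 0x111) (nat_lit 2) (by decide +kernel) (ClAll.succ (ClAll.succ ClAll.zero s35) s36)

def n3 : Cl (O (nat_lit 6)) (R (nat_lit 102673))
    (p (nat_lit 0x8e0e8f8d8f1a) (nat_lit 0) (p (nat_lit 0x10d8e0f0d0c9a) (nat_lit 0) (p (nat_lit 0x8d0d8e8c8c1a) (nat_lit 0) (p (nat_lit 0x2680d2680d000000c8e0c0d8a) (nat_lit 0) (p (nat_lit 0x2680d2680d000000c0d8b8b0a) (nat_lit 0) (p (nat_lit 0x10000c) (nat_lit 0) (p (nat_lit 0x100014) (nat_lit 0) (p (nat_lit 0x108004) (nat_lit 0) (p (nat_lit 0x1fc014) (nat_lit 0) (p (nat_lit 0x1fc00c) (nat_lit 0) (p (nat_lit 0xb0004) (nat_lit 1) (p (nat_lit 0x101) (nat_lit 0) (p (nat_lit 0x380c2) (nat_lit 0) (p (nat_lit 0x3cc2a) (nat_lit 2) (p (nat_lit 0x109) (nat_lit 1) (p (nat_lit 0xc9) (nat_lit 1) (p (nat_lit 0xc1) (nat_lit 0) (p (nat_lit 0x119) (nat_lit 1) (p (nat_lit 0xd1) (nat_lit 0) (p (nat_lit 0x89) (nat_lit 0) (p (nat_lit 0x41) (nat_lit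 0) (p (nat_lit 0x1098a0b090a9a) (nat_lit 0) (p (nat_lit 0x89098a888a1a) (nat_lit 0) (p (nat_lit 0x108890a08079a) (nat_lit 0) (p (nat_lit 0x88088987871a) (nat_lit 0) (p (nat_lit 0x8000080000000078907088a) (nat_lit 0) (p (nat_lit 0x8000080000000070886860a) (nat_lit 0) (p (nat_lit 0x10708060782) (nat_lit 0) (p (nat_lit 0x8687858702) (nat_lit 0) (p (nat_lit 0x10607050482) (nat_lit 0) (p (nat_lit 0x8586848402) (nat_lit 0) (p (nat_lit 0x160004) (nat_lit 0) (p (nat_lit 0x50612) (nat_lit 0) (p (nat_lit 0x40592) (nat_lit 0) (p (nat_lit 0x40492) (nat_lit 0) (p (nat_lit 0x30412) (nat_lit 0) (p (nat_lit 0x30212) (nat_lit 0) (p (nat_lit 0x20192) (nat_lit 0) (p (nat_lit 0x20092) (nat_lit 0) (p (nat_lit 0x10012) (nat_lit 0) pn)))))))))))))))))))))))))))))))))))))))) :=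
  Cl.node (nat_lit 0x10e8f100e0f9a) (nat_lit 1) (by decide +kernel) (ClAll.succ ClAll.zero n1)

def n4 : Cl (O (nat_lit 6)) (R (nat_lit 102673))
    (p (nat_lit 0x10e8f100e0f9a) (nat_lit 0) (p (nat_lit 0x8e0e8f8d8f1a) (nat_lit 0) (p (nat_lit 0x10d8e0f0d0c9a) (nat_lit 0) (p (nat_lit 0x8d0d8e8c8c1a) (nat_lit 0) (p (nat_lit 0x2a825a680d000000c8e0c0d8a) (nat_lit 0) (p (nat_lit 0x2a825a680d000000c0d8b8b0a) (nat_lit 0) (p (nat_lit 0x10000c) (nat_lit 0) (p (nat_lit 0x1fc014) (nat_lit 0) (p (nat_lit 0x1fc00c) (nat_lit 0) (p (nat_lit 0xb0004) (nat_lit 1) (p (nat_lit 0x380c2) (nat_lit 0) (p (nat_lit 0x444aa) (nat_lit 7) (p (nat_lit 0x81) (nat_lit 1) (p (nat_lit 0xc9) (nat_lit 1) (p (nat_lit 0x109) (nat_lit 1) (p (nat_lit 0x101) (nat_lit 0) (p (nat_lit 0x119) (nat_lit 0) (p (nat_lit 0xd1) (nat_lit 0) (p (nat_lit 0x89) (nat_lit 0) (p (nat_lit 0x41) (nat_lit 0) (p (nat_lit 0x1098a0b090a9a) (nat_lit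 0) (p (nat_lit 0x89098a888a1a) (nat_lit 0) (p (nat_lit 0x108890a08079a) (nat_lit 0) (p (nat_lit 0x88088987871a) (nat_lit 0) (p (nat_lit 0x8000080000000078907088a) (nat_lit 0) (p (nat_lit 0x8000080000000070886860a) (nat_lit 0) (p (nat_lit 0x10708060782) (nat_lit 0) (p (nat_lit 0x8687858702) (nat_lit 0) (p (nat_lit 0x10607050482) (nat_lit 0) (p (nat_lit 0x8586848402) (nat_lit 0) (p (nat_lit 0x160004) (nat_lit 0) (p (nat_lit 0x50612) (nat_lit 0) (p (nat_lit 0x40592) (nat_lit 0) (p (nat_lit 0x40492) (nat_lit 0) (p (nat_lit 0x30412) (nat_lit 0) (p (nat_lit 0x30212) (nat_lit 0) (p (nat_lit 0x20192) (nat_lit 0) (p (nat_lit 0x20092) (nat_lit 0) (p (nat_lit 0x10012) (nat_lit 0) pn))))))))))))))))))))))))))))))))))))))) :=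
  Cl.node (nat_lit 0x81) (nat_lit 2) (by decide +kernel) (ClAll.succ (ClAll.succ ClAll.zero n2) s37)

def n5 : Cl (O (nat_lit 6)) (R (nat_lit 102673))
    (p (nat_lit 0x10d8e0f0d0c9a) (nat_lit 0) (p (nat_lit 0x8d0d8e8c8c1a) (nat_lit 0) (p (nat_lit 0x2680d2680d000000c8e0c0d8a) (nat_lit 0) (p (nat_lit 0x2680d2680d000000c0d8b8b0a) (nat_lit 0) (p (nat_lit 0x10000c) (nat_lit 0) (p (nat_lit 0x100014) (nat_lit 0) (p (nat_lit 0x108004) (nat_lit 0) (p (nat_lit 0x1fc014) (nat_lit 0) (p (nat_lit 0x1fc00c) (nat_lit 0) (p (nat_lit 0xb0004) (nat_lit 1) (p (nat_lit 0x101) (nat_lit 0) (p (nat_lit 0x380c2) (nat_lit 0) (p (nat_lit 0x3cc2a) (nat_lit 2) (p (nat_lit 0x109) (nat_lit 1) (p (nat_lit 0xc9) (nat_lit 1) (p (nat_lit 0xc1) (nat_lit 0) (p (nat_lit 0x119) (nat_lit 1) (p (nat_lit 0xd1) (nat_lit 0) (p (nat_lit 0x89) (nat_lit 0) (p (nat_lit 0x41) (nat_lit 0) (p (nat_lit 0x1098a0b090a9a) (nat_lit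 0) (p (nat_lit 0x89098a888a1a) (nat_lit 0) (p (nat_lit 0x108890a08079a) (nat_lit 0) (p (nat_lit 0x88088987871a) (nat_lit 0) (p (nat_lit 0x8000080000000078907088a) (nat_lit 0) (p (nat_lit 0x8000080000000070886860a) (nat_lit 0) (p (nat_lit 0x10708060782) (nat_lit 0) (p (nat_lit 0x8687858702) (nat_lit 0) (p (nat_lit 0x10607050482) (nat_lit 0) (p (nat_lit 0x8586848402) (nat_lit 0) (p (nat_lit 0x160004) (nat_lit 0) (p (nat_lit 0x50612) (nat_lit 0) (p (nat_lit 0x40592) (nat_lit 0) (p (nat_lit 0x40492) (nat_lit 0) (p (nat_lit 0x30412) (nat_lit 0) (p (nat_lit 0x30212) (nat_lit 0) (p (nat_lit 0x20192) (nat_lit 0) (p (nat_lit 0x20092) (nat_lit 0) (p (nat_lit 0x10012) (nat_lit 0) pn))))))))))))))))))))))))))))))))))))))) :=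
  Cl.node (nat_lit 0x8e0e8f8d8f1a) (nat_lit 1) (by decide +kernel) (ClAll.succ ClAll.zero n3)

def n6 : Cl (O (nat_lit 6)) (R (nat_lit 102673))
    (p (nat_lit 0x8e0e8f8d8f1a) (nat_lit 0) (p (nat_lit 0x10d8e0f0d0c9a) (nat_lit 0) (p (nat_lit 0x8d0d8e8c8c1a) (nat_lit 0) (p (nat_lit 0x2a825a680d000000c8e0c0d8a) (nat_lit 0) (p (nat_lit 0x2a825a680d000000c0d8b8b0a) (nat_lit 0) (p (nat_lit 0x10000c) (nat_lit 0) (p (nat_lit 0x1fc014) (nat_lit 0) (p (nat_lit 0x1fc00c) (nat_lit 0) (p (nat_lit 0xb0004) (nat_lit 1) (p (nat_lit 0x380c2) (nat_lit 0) (p (nat_lit 0x444aa) (nat_lit 7) (p (nat_lit 0x81) (nat_lit 1) (p (nat_lit 0xc9) (nat_lit 1) (p (nat_lit 0x109) (nat_lit 1) (p (nat_lit 0x101) (nat_lit 0) (p (nat_lit 0x119) (nat_lit 0) (p (nat_lit 0xd1) (nat_lit 0) (p (nat_lit 0x89) (nat_lit 0) (p (nat_lit 0x41) (nat_lit 0) (p (nat_lit 0x1098a0b090a9a) (nat_lit 0) (p (nat_lit 0x89098a888a1a) (nat_lit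 0) (p (nat_lit 0x108890a08079a) (nat_lit 0) (p (nat_lit 0x88088987871a) (nat_lit 0) (p (nat_lit 0x8000080000000078907088a) (nat_lit 0) (p (nat_lit 0x8000080000000070886860a) (nat_lit 0) (p (nat_lit 0x10708060782) (nat_lit 0) (p (nat_lit 0x8687858702) (nat_lit 0) (p (nat_lit 0x10607050482) (nat_lit 0) (p (nat_lit 0x8586848402) (nat_lit 0) (p (nat_lit 0x160004) (nat_lit 0) (p (nat_lit 0x50612) (nat_lit 0) (p (nat_lit 0x40592) (nat_lit 0) (p (nat_lit 0x40492) (nat_lit 0) (p (nat_lit 0x30412) (nat_lit 0) (p (nat_lit 0x30212) (nat_lit 0) (p (nat_lit 0x20192) (nat_lit 0) (p (nat_lit 0x20092) (nat_lit 0) (p (nat_lit 0x10012) (nat_lit 0) pn)))))))))))))))))))))))))))))))))))))) :=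
  Cl.node (nat_lit 0x10e8f100e0f9a) (nat_lit 1) (by decide +kernel) (ClAll.succ ClAll.zero n4)

def n7 : Cl (O (nat_lit 6)) (R (nat_lit 102673))
    (p (nat_lit 0x8d0d8e8c8c1a) (nat_lit 0) (p (nat_lit 0x2680d2680d000000c8e0c0d8a) (nat_lit 0) (p (nat_lit 0x2680d2680d000000c0d8b8b0a) (nat_lit 0) (p (nat_lit 0x10000c) (nat_lit 0) (p (nat_lit 0x100014) (nat_lit 0) (p (nat_lit 0x108004) (nat_lit 0) (p (nat_lit 0x1fc014) (nat_lit 0) (p (nat_lit 0x1fc00c) (nat_lit 0) (p (nat_lit 0xb0004) (nat_lit 1) (p (nat_lit 0x101) (nat_lit 0) (p (nat_lit 0x380c2) (nat_lit 0) (p (nat_lit 0x3cc2a) (nat_lit 2) (p (nat_lit 0x109) (nat_lit 1) (p (nat_lit 0xc9) (nat_lit 1) (p (nat_lit 0xc1) (nat_lit 0) (p (nat_lit 0x119) (nat_lit 1) (p (nat_lit 0xd1) (nat_lit 0) (p (nat_lit 0x89) (nat_lit 0) (p (nat_lit 0x41) (nat_lit 0) (p (nat_lit 0x1098a0b090a9a) (nat_lit 0) (p (nat_lit 0x89098a888a1a) (nat_lit 0) (p (nat_lit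 0x108890a08079a) (nat_lit 0) (p (nat_lit 0x88088987871a) (nat_lit 0) (p (nat_lit 0x8000080000000078907088a) (nat_lit 0) (p (nat_lit 0x8000080000000070886860a) (nat_lit 0) (p (nat_lit 0x10708060782) (nat_lit 0) (p (nat_lit 0x8687858702) (nat_lit 0) (p (nat_lit 0x10607050482) (nat_lit 0) (p (nat_lit 0x8586848402) (nat_lit 0) (p (nat_lit 0x160004) (nat_lit 0) (p (nat_lit 0x50612) (nat_lit 0) (p (nat_lit 0x40592) (nat_lit 0) (p (nat_lit 0x40492) (nat_lit 0) (p (nat_lit 0x30412) (nat_lit 0) (p (nat_lit 0x30212) (nat_lit 0) (p (nat_lit 0x20192) (nat_lit 0) (p (nat_lit 0x20092) (nat_lit 0) (p (nat_lit 0x10012) (nat_lit 0) pn)))))))))))))))))))))))))))))))))))))) :=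
  Cl.node (nat_lit 0x10d8e0f0d0c9a) (nat_lit 1) (by decide +kernel) (ClAll.succ ClAll.zero n5)

def n8 : Cl (O (nat_lit 6)) (R (nat_lit 102673))
    (p (nat_lit 0x10d8e0f0d0c9a) (nat_lit 0) (p (nat_lit 0x8d0d8e8c8c1a) (nat_lit 0) (p (nat_lit 0x2a825a680d000000c8e0c0d8a) (nat_lit 0) (p (nat_lit 0x2a825a680d000000c0d8b8b0a) (nat_lit 0) (p (nat_lit 0x10000c) (nat_lit 0) (p (nat_lit 0x1fc014) (nat_lit 0) (p (nat_lit 0x1fc00c) (nat_lit 0) (p (nat_lit 0xb0004) (nat_lit 1) (p (nat_lit 0x380c2) (nat_lit 0) (p (nat_lit 0x444aa) (nat_lit 7) (p (nat_lit 0x81) (nat_lit 1) (p (nat_lit 0xc9) (nat_lit 1) (p (nat_lit 0x109) (nat_lit 1) (p (nat_lit 0x101) (nat_lit 0) (p (nat_lit 0x119) (nat_lit 0) (p (nat_lit 0xd1) (nat_lit 0) (p (nat_lit 0x89) (nat_lit 0) (p (nat_lit 0x41) (nat_lit 0) (p (nat_lit 0x1098a0b090a9a) (nat_lit 0) (p (nat_lit 0x89098a888a1a) (nat_lit 0) (p (nat_lit 0x108890a08079a) (nat_lit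 0) (p (nat_lit 0x88088987871a) (nat_lit 0) (p (nat_lit 0x8000080000000078907088a) (nat_lit 0) (p (nat_lit 0x8000080000000070886860a) (nat_lit 0) (p (nat_lit 0x10708060782) (nat_lit 0) (p (nat_lit 0x8687858702) (nat_lit 0) (p (nat_lit 0x10607050482) (nat_lit 0) (p (nat_lit 0x8586848402) (nat_lit 0) (p (nat_lit 0x160004) (nat_lit 0) (p (nat_lit 0x50612) (nat_lit 0) (p (nat_lit 0x40592) (nat_lit 0) (p (nat_lit 0x40492) (nat_lit 0) (p (nat_lit 0x30412) (nat_lit 0) (p (nat_lit 0x30212) (nat_lit 0) (p (nat_lit 0x20192) (nat_lit 0) (p (nat_lit 0x20092) (nat_lit 0) (p (nat_lit 0x10012) (nat_lit 0) pn))))))))))))))))))))))))))))))))))))) :=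
  Cl.node (nat_lit 0x8e0e8f8d8f1a) (nat_lit 1) (by decide +kernel) (ClAll.succ ClAll.zero n6)

def n9 : Cl (O (nat_lit 6)) (R (nat_lit 102673))
    (p (nat_lit 0x2680d2680d000000c8e0c0d8a) (nat_lit 0) (p (nat_lit 0x2680d2680d000000c0d8b8b0a) (nat_lit 0) (p (nat_lit 0x10000c) (nat_lit 0) (p (nat_lit 0x100014) (nat_lit 0) (p (nat_lit 0x108004) (nat_lit 0) (p (nat_lit 0x1fc014) (nat_lit 0) (p (nat_lit 0x1fc00c) (nat_lit 0) (p (nat_lit 0xb0004) (nat_lit 1) (p (nat_lit 0x101) (nat_lit 0) (p (nat_lit 0x380c2) (nat_lit 0) (p (nat_lit 0x3cc2a) (nat_lit 2) (p (nat_lit 0x109) (nat_lit 1) (p (nat_lit 0xc9) (nat_lit 1) (p (nat_lit 0xc1) (nat_lit 0) (p (nat_lit 0x119) (nat_lit 1) (p (nat_lit 0xd1) (nat_lit 0) (p (nat_lit 0x89) (nat_lit 0) (p (nat_lit 0x41) (nat_lit 0) (p (nat_lit 0x1098a0b090a9a) (nat_lit 0) (p (nat_lit 0x89098a888a1a) (nat_lit 0) (p (nat_lit 0x108890a08079a) (nat_lit 0) (p (nat_lit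 0x88088987871a) (nat_lit 0) (p (nat_lit 0x8000080000000078907088a) (nat_lit 0) (p (nat_lit 0x8000080000000070886860a) (nat_lit 0) (p (nat_lit 0x10708060782) (nat_lit 0) (p (nat_lit 0x8687858702) (nat_lit 0) (p (nat_lit 0x10607050482) (nat_lit 0) (p (nat_lit 0x8586848402) (nat_lit 0) (p (nat_lit 0x160004) (nat_lit 0) (p (nat_lit 0x50612) (nat_lit 0) (p (nat_lit 0x40592) (nat_lit 0) (p (nat_lit 0x40492) (nat_lit 0) (p (nat_lit 0x30412) (nat_lit 0) (p (nat_lit 0x30212) (nat_lit 0) (p (nat_lit 0x20192) (nat_lit 0) (p (nat_lit 0x20092) (nat_lit 0) (p (nat_lit 0x10012) (nat_lit 0) pn))))))))))))))))))))))))))))))))))))) :=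
  Cl.node (nat_lit 0x8d0d8e8c8c1a) (nat_lit 1) (by decide +kernel) (ClAll.succ ClAll.zero n7)

def n10 : Cl (O (nat_lit 6)) (R (nat_lit 102673))
    (p (nat_lit 0x8d0d8e8c8c1a) (nat_lit 0) (p (nat_lit 0x2a825a680d000000c8e0c0d8a) (nat_lit 0) (p (nat_lit 0x2a825a680d000000c0d8b8b0a) (nat_lit 0) (p (nat_lit 0x10000c) (nat_lit 0) (p (nat_lit 0x1fc014) (nat_lit 0) (p (nat_lit 0x1fc00c) (nat_lit 0) (p (nat_lit 0xb0004) (nat_lit 1) (p (nat_lit 0x380c2) (nat_lit 0) (p (nat_lit 0x444aa) (nat_lit 7) (p (nat_lit 0x81) (nat_lit 1) (p (nat_lit 0xc9) (nat_lit 1) (p (nat_lit 0x109) (nat_lit 1) (p (nat_lit 0x101) (nat_lit 0) (p (nat_lit 0x119) (nat_lit 0) (p (nat_lit 0xd1) (nat_lit 0) (p (nat_lit 0x89) (nat_lit 0) (p (nat_lit 0x41) (nat_lit 0) (p (nat_lit 0x1098a0b090a9a) (nat_lit 0) (p (nat_lit 0x89098a888a1a) (nat_lit 0) (p (nat_lit 0x108890a08079a) (nat_lit 0) (p (nat_lit 0x88088987871a) (nat_lit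 0) (p (nat_lit 0x8000080000000078907088a) (nat_lit 0) (p (nat_lit 0x8000080000000070886860a) (nat_lit 0) (p (nat_lit 0x10708060782) (nat_lit 0) (p (nat_lit 0x8687858702) (nat_lit 0) (p (nat_lit 0x10607050482) (nat_lit 0) (p (nat_lit 0x8586848402) (nat_lit 0) (p (nat_lit 0x160004) (nat_lit 0) (p (nat_lit 0x50612) (nat_lit 0) (p (nat_lit 0x40592) (nat_lit 0) (p (nat_lit 0x40492) (nat_lit 0) (p (nat_lit 0x30412) (nat_lit 0) (p (nat_lit 0x30212) (nat_lit 0) (p (nat_lit 0x20192) (nat_lit 0) (p (nat_lit 0x20092) (nat_lit 0) (p (nat_lit 0x10012) (nat_lit 0) pn)))))))))))))))))))))))))))))))))))) :=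
  Cl.node (nat_lit 0x10d8e0f0d0c9a) (nat_lit 1) (by decide +kernel) (ClAll.succ ClAll.zero n8)

def n11 : Cl (O (nat_lit 6)) (R (nat_lit 102673))
    (p (nat_lit 0x2680d2680d000000c0d8b8b0a) (nat_lit 0) (p (nat_lit 0x10000c) (nat_lit 0) (p (nat_lit 0x100014) (nat_lit 0) (p (nat_lit 0x108004) (nat_lit 0) (p (nat_lit 0x1fc014) (nat_lit 0) (p (nat_lit 0x1fc00c) (nat_lit 0) (p (nat_lit 0xb0004) (nat_lit 1) (p (nat_lit 0x101) (nat_lit 0) (p (nat_lit 0x380c2) (nat_lit 0) (p (nat_lit 0x3cc2a) (nat_lit 2) (p (nat_lit 0x109) (nat_lit 1) (p (nat_lit 0xc9) (nat_lit 1) (p (nat_lit 0xc1) (nat_lit 0) (p (nat_lit 0x119) (nat_lit 1) (p (nat_lit 0xd1) (nat_lit 0) (p (nat_lit 0x89) (nat_lit 0) (p (nat_lit 0x41) (nat_lit 0) (p (nat_lit 0x1098a0b090a9a) (nat_lit 0) (p (nat_lit 0x89098a888a1a) (nat_lit 0) (p (nat_lit 0x108890a08079a) (nat_lit 0) (p (nat_lit 0x88088987871a) (nat_lit 0) (p (nat_lit 0x8000080000000078907088a)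 (nat_lit 0) (p (nat_lit 0x8000080000000070886860a) (nat_lit 0) (p (nat_lit 0x10708060782) (nat_lit 0) (p (nat_lit 0x8687858702) (nat_lit 0) (p (nat_lit 0x10607050482) (nat_lit 0) (p (nat_lit 0x8586848402) (nat_lit 0) (p (nat_lit 0x160004) (nat_lit 0) (p (nat_lit 0x50612) (nat_lit 0) (p (nat_lit 0x40592) (nat_lit 0) (p (nat_lit 0x40492) (nat_lit 0) (p (nat_lit 0x30412) (nat_lit 0) (p (nat_lit 0x30212) (nat_lit 0) (p (nat_lit 0x20192) (nat_lit 0) (p (nat_lit 0x20092) (nat_lit 0) (p (nat_lit 0x10012) (nat_lit 0) pn)))))))))))))))))))))))))))))))))))) :=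
  Cl.node (nat_lit 0x2680d2680d000000c8e0c0d8a) (nat_lit 1) (by decide +kernel) (ClAll.succ ClAll.zero n9)

def n12 : Cl (O (nat_lit 6)) (R (nat_lit 102673))
    (p (nat_lit 0x100014) (nat_lit 0) (p (nat_lit 0x10000c) (nat_lit 0) (p (nat_lit 0x380c2) (nat_lit 0) (p (nat_lit 0x3cc2a) (nat_lit 2) (p (nat_lit 0x41) (nat_lit 0) (p (nat_lit 0x200014) (nat_lit 0) (p (nat_lit 0x20000c) (nat_lit 0) (p (nat_lit 0xc1) (nat_lit 1) (p (nat_lit 0x119) (nat_lit 1) (p (nat_lit 0xc9) (nat_lit 0) (p (nat_lit 0x89) (nat_lit 1) (p (nat_lit 0x109) (nat_lit 1) (p (nat_lit 0x101) (nat_lit 0) (p (nat_lit 0x111) (nat_lit 0) (p (nat_lit 0xd1) (nat_lit 1) (p (nat_lit 0x81) (nat_lit 0) (p (nat_lit 0x41) (nat_lit 1) (p (nat_lit 0x1098a0b090a9a) (nat_lit 0) (p (nat_lit 0x89098a888a1a) (nat_lit 0) (p (nat_lit 0x108890a08079a) (nat_lit 0) (p (nat_lit 0x88088987871a) (nat_lit 0) (p (nat_lit 0x8000080000000078907088a)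 (nat_lit 0) (p (nat_lit 0x8000080000000070886860a) (nat_lit 0) (p (nat_lit 0x10708060782) (nat_lit 0) (p (nat_lit 0x8687858702) (nat_lit 0) (p (nat_lit 0x10607050482) (nat_lit 0) (p (nat_lit 0x8586848402) (nat_lit 0) (p (nat_lit 0x160004) (nat_lit 0) (p (nat_lit 0x50612) (nat_lit 0) (p (nat_lit 0x40592) (nat_lit 0) (p (nat_lit 0x40492) (nat_lit 0) (p (nat_lit 0x30412) (nat_lit 0) (p (nat_lit 0x30212) (nat_lit 0) (p (nat_lit 0x20192) (nat_lit 0) (p (nat_lit 0x20092) (nat_lit 0) (p (nat_lit 0x10012) (nat_lit 0) pn)))))))))))))))))))))))))))))))))))) :=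
  Cl.node (nat_lit 0x111) (nat_lit 2) (by decide +kernel) (ClAll.succ (ClAll.succ ClAll.zero s706) s707)

def n13 : Cl (O (nat_lit 6)) (R (nat_lit 102673))
    (p (nat_lit 0x2a825a680d000000c8e0c0d8a) (nat_lit 0) (p (nat_lit 0x2a825a680d000000c0d8b8b0a) (nat_lit 0) (p (nat_lit 0x10000c) (nat_lit 0) (p (nat_lit 0x1fc014) (nat_lit 0) (p (nat_lit 0x1fc00c) (nat_lit 0) (p (nat_lit 0xb0004) (nat_lit 1) (p (nat_lit 0x380c2) (nat_lit 0) (p (nat_lit 0x444aa) (nat_lit 7) (p (nat_lit 0x81) (nat_lit 1) (p (nat_lit 0xc9) (nat_lit 1) (p (nat_lit 0x109) (nat_lit 1) (p (nat_lit 0x101) (nat_lit 0) (p (nat_lit 0x119) (nat_lit 0) (p (nat_lit 0xd1) (nat_lit 0) (p (nat_lit 0x89) (nat_lit 0) (p (nat_lit 0x41) (nat_lit 0) (p (nat_lit 0x1098a0b090a9a) (nat_lit 0) (p (nat_lit 0x89098a888a1a) (nat_lit 0) (p (nat_lit 0x108890a08079a) (nat_lit 0) (p (nat_lit 0x88088987871a) (nat_lit 0) (p (nat_lit 0x8000080000000078907088a)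 (nat_lit 0) (p (nat_lit 0x8000080000000070886860a) (nat_lit 0) (p (nat_lit 0x10708060782) (nat_lit 0) (p (nat_lit 0x8687858702) (nat_lit 0) (p (nat_lit 0x10607050482) (nat_lit 0) (p (nat_lit 0x8586848402) (nat_lit 0) (p (nat_lit 0x160004) (nat_lit 0) (p (nat_lit 0x50612) (nat_lit 0) (p (nat_lit 0x40592) (nat_lit 0) (p (nat_lit 0x40492) (nat_lit 0) (p (nat_lit 0x30412) (nat_lit 0) (p (nat_lit 0x30212) (nat_lit 0) (p (nat_lit 0x20192) (nat_lit 0) (p (nat_lit 0x20092) (nat_lit 0) (p (nat_lit 0x10012) (nat_lit 0) pn))))))))))))))))))))))))))))))))))) :=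
  Cl.node (nat_lit 0x8d0d8e8c8c1a) (nat_lit 1) (by decide +kernel) (ClAll.succ ClAll.zero n10)

def n14 : Cl (O (nat_lit 6)) (R (nat_lit 102673))
    (p (nat_lit 0x10000c) (nat_lit 0) (p (nat_lit 0x100014) (nat_lit 0) (p (nat_lit 0x108004) (nat_lit 0) (p (nat_lit 0x1fc014) (nat_lit 0) (p (nat_lit 0x1fc00c) (nat_lit 0) (p (nat_lit 0xb0004) (nat_lit 1) (p (nat_lit 0x101) (nat_lit 0) (p (nat_lit 0x380c2) (nat_lit 0) (p (nat_lit 0x3cc2a) (nat_lit 2) (p (nat_lit 0x109) (nat_lit 1) (p (nat_lit 0xc9) (nat_lit 1) (p (nat_lit 0xc1) (nat_lit 0) (p (nat_lit 0x119) (nat_lit 1) (p (nat_lit 0xd1) (nat_lit 0) (p (nat_lit 0x89) (nat_lit 0) (p (nat_lit 0x41) (nat_lit 0) (p (nat_lit 0x1098a0b090a9a) (nat_lit 0) (p (nat_lit 0x89098a888a1a) (nat_lit 0) (p (nat_lit 0x108890a08079a) (nat_lit 0) (p (nat_lit 0x88088987871a) (nat_lit 0) (p (nat_lit 0x8000080000000078907088a) (nat_lit 0) (p (nat_lit 0x8000080000000070886860a)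 (nat_lit 0) (p (nat_lit 0x10708060782) (nat_lit 0) (p (nat_lit 0x8687858702) (nat_lit 0) (p (nat_lit 0x10607050482) (nat_lit 0) (p (nat_lit 0x8586848402) (nat_lit 0) (p (nat_lit 0x160004) (nat_lit 0) (p (nat_lit 0x50612) (nat_lit 0) (p (nat_lit 0x40592) (nat_lit 0) (p (nat_lit 0x40492) (nat_lit 0) (p (nat_lit 0x30412) (nat_lit 0) (p (nat_lit 0x30212) (nat_lit 0) (p (nat_lit 0x20192) (nat_lit 0) (p (nat_lit 0x20092) (nat_lit 0) (p (nat_lit 0x10012) (nat_lit 0) pn))))))))))))))))))))))))))))))))))) :=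
  Cl.node (nat_lit 0x2680d2680d000000c0d8b8b0a) (nat_lit 1) (by decide +kernel) (ClAll.succ ClAll.zero n11)

def n15 : Cl (O (nat_lit 6)) (R (nat_lit 102673))
    (p (nat_lit 0x10000c) (nat_lit 0) (p (nat_lit 0x380c2) (nat_lit 0) (p (nat_lit 0x3cc2a) (nat_lit 2) (p (nat_lit 0x41) (nat_lit 0) (p (nat_lit 0x200014) (nat_lit 0) (p (nat_lit 0x20000c) (nat_lit 0) (p (nat_lit 0xc1) (nat_lit 1) (p (nat_lit 0x119) (nat_lit 1) (p (nat_lit 0xc9) (nat_lit 0) (p (nat_lit 0x89) (nat_lit 1) (p (nat_lit 0x109) (nat_lit 1) (p (nat_lit 0x101) (nat_lit 0) (p (nat_lit 0x111) (nat_lit 0) (p (nat_lit 0xd1) (nat_lit 1) (p (nat_lit 0x81) (nat_lit 0) (p (nat_lit 0x41) (nat_lit 1) (p (nat_lit 0x1098a0b090a9a) (nat_lit 0) (p (nat_lit 0x89098a888a1a) (nat_lit 0) (p (nat_lit 0x108890a08079a) (nat_lit 0) (p (nat_lit 0x88088987871a) (nat_lit 0) (p (nat_lit 0x8000080000000078907088a) (nat_lit 0) (p (nat_lit 0x8000080000000070886860a)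 (nat_lit 0) (p (nat_lit 0x10708060782) (nat_lit 0) (p (nat_lit 0x8687858702) (nat_lit 0) (p (nat_lit 0x10607050482) (nat_lit 0) (p (nat_lit 0x8586848402) (nat_lit 0) (p (nat_lit 0x160004) (nat_lit 0) (p (nat_lit 0x50612) (nat_lit 0) (p (nat_lit 0x40592) (nat_lit 0) (p (nat_lit 0x40492) (nat_lit 0) (p (nat_lit 0x30412) (nat_lit 0) (p (nat_lit 0x30212) (nat_lit 0) (p (nat_lit 0x20192) (nat_lit 0) (p (nat_lit 0x20092) (nat_lit 0) (p (nat_lit 0x10012) (nat_lit 0) pn))))))))))))))))))))))))))))))))))) :=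
  Cl.node (nat_lit 0x100014) (nat_lit 2) (by decide +kernel) (ClAll.succ (ClAll.succ ClAll.zero n12) s708)

def n16 : Cl (O (nat_lit 6)) (R (nat_lit 102673))
    (p (nat_lit 0x2a825a680d000000c0d8b8b0a) (nat_lit 0) (p (nat_lit 0x10000c) (nat_lit 0) (p (nat_lit 0x1fc014) (nat_lit 0) (p (nat_lit 0x1fc00c) (nat_lit 0) (p (nat_lit 0xb0004) (nat_lit 1) (p (nat_lit 0x380c2) (nat_lit 0) (p (nat_lit 0x444aa) (nat_lit 7) (p (nat_lit 0x81) (nat_lit 1) (p (nat_lit 0xc9) (nat_lit 1) (p (nat_lit 0x109) (nat_lit 1) (p (nat_lit 0x101) (nat_lit 0) (p (nat_lit 0x119) (nat_lit 0) (p (nat_lit 0xd1) (nat_lit 0) (p (nat_lit 0x89) (nat_lit 0) (p (nat_lit 0x41) (nat_lit 0) (p (nat_lit 0x1098a0b090a9a) (nat_lit 0) (p (nat_lit 0x89098a888a1a) (nat_lit 0) (p (nat_lit 0x108890a08079a) (nat_lit 0) (p (nat_lit 0x88088987871a) (nat_lit 0) (p (nat_lit 0x8000080000000078907088a) (nat_lit 0) (p (nat_lit 0x8000080000000070886860a)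 (nat_lit 0) (p (nat_lit 0x10708060782) (nat_lit 0) (p (nat_lit 0x8687858702) (nat_lit 0) (p (nat_lit 0x10607050482) (nat_lit 0) (p (nat_lit 0x8586848402) (nat_lit 0) (p (nat_lit 0x160004) (nat_lit 0) (p (nat_lit 0x50612) (nat_lit 0) (p (nat_lit 0x40592) (nat_lit 0) (p (nat_lit 0x40492) (nat_lit 0) (p (nat_lit 0x30412) (nat_lit 0) (p (nat_lit 0x30212) (nat_lit 0) (p (nat_lit 0x20192) (nat_lit 0) (p (nat_lit 0x20092) (nat_lit 0) (p (nat_lit 0x10012) (nat_lit 0) pn)))))))))))))))))))))))))))))))))) :=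
  Cl.node (nat_lit 0x2a825a680d000000c8e0c0d8a) (nat_lit 1) (by decide +kernel) (ClAll.succ ClAll.zero n13)

def n17 : Cl (O (nat_lit 6)) (R (nat_lit 102673))
    (p (nat_lit 0x10000c) (nat_lit 0) (p (nat_lit 0x81) (nat_lit 0) (p (nat_lit 0x1fc014) (nat_lit 0) (p (nat_lit 0x1fc00c) (nat_lit 0) (p (nat_lit 0xb0004) (nat_lit 1) (p (nat_lit 0x380c2) (nat_lit 1) (p (nat_lit 0x444aa) (nat_lit 7) (p (nat_lit 0x81) (nat_lit 1) (p (nat_lit 0xc9) (nat_lit 1) (p (nat_lit 0x109) (nat_lit 1) (p (nat_lit 0x101) (nat_lit 0) (p (nat_lit 0x119) (nat_lit 0) (p (nat_lit 0xd1) (nat_lit 0) (p (nat_lit 0x89) (nat_lit 0) (p (nat_lit 0x41) (nat_lit 0) (p (nat_lit 0x1098a0b090a9a) (nat_lit 0) (p (nat_lit 0x89098a888a1a) (nat_lit 0) (p (nat_lit 0x108890a08079a) (nat_lit 0) (p (nat_lit 0x88088987871a) (nat_lit 0) (p (nat_lit 0x8000080000000078907088a) (nat_lit 0) (p (nat_lit 0x8000080000000070886860a) (nat_lit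 0) (p (nat_lit 0x10708060782) (nat_lit 0) (p (nat_lit 0x8687858702) (nat_lit 0) (p (nat_lit 0x10607050482) (nat_lit 0) (p (nat_lit 0x8586848402) (nat_lit 0) (p (nat_lit 0x160004) (nat_lit 0) (p (nat_lit 0x50612) (nat_lit 0) (p (nat_lit 0x40592) (nat_lit 0) (p (nat_lit 0x40492) (nat_lit 0) (p (nat_lit 0x30412) (nat_lit 0) (p (nat_lit 0x30212) (nat_lit 0) (p (nat_lit 0x20192) (nat_lit 0) (p (nat_lit 0x20092) (nat_lit 0) (p (nat_lit 0x10012) (nat_lit 0) pn)))))))))))))))))))))))))))))))))) :=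
  Cl.node (nat_lit 0x108004) (nat_lit 2) (by decide +kernel) (ClAll.succ (ClAll.succ ClAll.zero s44) s45)

def n18 : Cl (O (nat_lit 6)) (R (nat_lit 102673))
    (p (nat_lit 0x100014) (nat_lit 0) (p (nat_lit 0x108004) (nat_lit 0) (p (nat_lit 0x1fc014) (nat_lit 0) (p (nat_lit 0x1fc00c) (nat_lit 0) (p (nat_lit 0xb0004) (nat_lit 1) (p (nat_lit 0x101) (nat_lit 0) (p (nat_lit 0x380c2) (nat_lit 0) (p (nat_lit 0x3cc2a) (nat_lit 2) (p (nat_lit 0x109) (nat_lit 1) (p (nat_lit 0xc9) (nat_lit 1) (p (nat_lit 0xc1) (nat_lit 0) (p (nat_lit 0x119) (nat_lit 1) (p (nat_lit 0xd1) (nat_lit 0) (p (nat_lit 0x89) (nat_lit 0) (p (nat_lit 0x41) (nat_lit 0) (p (nat_lit 0x1098a0b090a9a) (nat_lit 0) (p (nat_lit 0x89098a888a1a) (nat_lit 0) (p (nat_lit 0x108890a08079a) (nat_lit 0) (p (nat_lit 0x88088987871a) (nat_lit 0) (p (nat_lit 0x8000080000000078907088a) (nat_lit 0) (p (nat_lit 0x8000080000000070886860a) (nat_lit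 0) (p (nat_lit 0x10708060782) (nat_lit 0) (p (nat_lit 0x8687858702) (nat_lit 0) (p (nat_lit 0x10607050482) (nat_lit 0) (p (nat_lit 0x8586848402) (nat_lit 0) (p (nat_lit 0x160004) (nat_lit 0) (p (nat_lit 0x50612) (nat_lit 0) (p (nat_lit 0x40592) (nat_lit 0) (p (nat_lit 0x40492) (nat_lit 0) (p (nat_lit 0x30412) (nat_lit 0) (p (nat_lit 0x30212) (nat_lit 0) (p (nat_lit 0x20192) (nat_lit 0) (p (nat_lit 0x20092) (nat_lit 0) (p (nat_lit 0x10012) (nat_lit 0) pn)))))))))))))))))))))))))))))))))) :=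
  Cl.node (nat_lit 0x10000c) (nat_lit 2) (by decide +kernel) (ClAll.succ (ClAll.succ ClAll.zero n14) s125)

def n19 : Cl (O (nat_lit 6)) (R (nat_lit 102673))
    (p (nat_lit 0x10000c) (nat_lit 0) (p (nat_lit 0x20000c) (nat_lit 0) (p (nat_lit 0x100014) (nat_lit 0) (p (nat_lit 0x200014) (nat_lit 0) (p (nat_lit 0x41) (nat_lit 0) (p (nat_lit 0x101) (nat_lit 1) (p (nat_lit 0x380c2) (nat_lit 0) (p (nat_lit 0x3cc2a) (nat_lit 2) (p (nat_lit 0x109) (nat_lit 1) (p (nat_lit 0xc9) (nat_lit 1) (p (nat_lit 0xc1) (nat_lit 0) (p (nat_lit 0x119) (nat_lit 1) (p (nat_lit 0xd1) (nat_lit 0) (p (nat_lit 0x89) (nat_lit 0) (p (nat_lit 0x41) (nat_lit 0) (p (nat_lit 0x1098a0b090a9a) (nat_lit 0) (p (nat_lit 0x89098a888a1a) (nat_lit 0) (p (nat_lit 0x108890a08079a) (nat_lit 0) (p (nat_lit 0x88088987871a) (nat_lit 0) (p (nat_lit 0x8000080000000078907088a) (nat_lit 0) (p (nat_lit 0x8000080000000070886860a) (nat_lit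 0) (p (nat_lit 0x10708060782) (nat_lit 0) (p (nat_lit 0x8687858702) (nat_lit 0) (p (nat_lit 0x10607050482) (nat_lit 0) (p (nat_lit 0x8586848402) (nat_lit 0) (p (nat_lit 0x160004) (nat_lit 0) (p (nat_lit 0x50612) (nat_lit 0) (p (nat_lit 0x40592) (nat_lit 0) (p (nat_lit 0x40492) (nat_lit 0) (p (nat_lit 0x30412) (nat_lit 0) (p (nat_lit 0x30212) (nat_lit 0) (p (nat_lit 0x20192) (nat_lit 0) (p (nat_lit 0x20092) (nat_lit 0) (p (nat_lit 0x10012) (nat_lit 0) pn)))))))))))))))))))))))))))))))))) :=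
  Cl.node (nat_lit 0xb0004) (nat_lit 2) (by decide +kernel) (ClAll.succ (ClAll.succ ClAll.zero s130) s131)

def n20 : Cl (O (nat_lit 6)) (R (nat_lit 102673))
    (p (nat_lit 0xc9) (nat_lit 1) (p (nat_lit 0xc1) (nat_lit 0) (p (nat_lit 0x10000c) (nat_lit 0) (p (nat_lit 0x20000c) (nat_lit 0) (p (nat_lit 0xb0004) (nat_lit 0) (p (nat_lit 0x380c2) (nat_lit 0) (p (nat_lit 0x444aa) (nat_lit 7) (p (nat_lit 0xd1) (nat_lit 1) (p (nat_lit 0x111) (nat_lit 1) (p (nat_lit 0x109) (nat_lit 0) (p (nat_lit 0x101) (nat_lit 0) (p (nat_lit 0x119) (nat_lit 0) (p (nat_lit 0xc9) (nat_lit 0) (p (nat_lit 0x89) (nat_lit 1) (p (nat_lit 0x41) (nat_lit 0) (p (nat_lit 0x1098a0b090a9a) (nat_lit 0) (p (nat_lit 0x89098a888a1a) (nat_lit 0) (p (nat_lit 0x108890a08079a) (nat_lit 0) (p (nat_lit 0x88088987871a) (nat_lit 0) (p (nat_lit 0x8000080000000078907088a) (nat_lit 0) (p (nat_lit 0x8000080000000070886860a) (nat_lit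 0) (p (nat_lit 0x10708060782) (nat_lit 0) (p (nat_lit 0x8687858702) (nat_lit 0) (p (nat_lit 0x10607050482) (nat_lit 0) (p (nat_lit 0x8586848402) (nat_lit 0) (p (nat_lit 0x160004) (nat_lit 0) (p (nat_lit 0x50612) (nat_lit 0) (p (nat_lit 0x40592) (nat_lit 0) (p (nat_lit 0x40492) (nat_lit 0) (p (nat_lit 0x30412) (nat_lit 0) (p (nat_lit 0x30212) (nat_lit 0) (p (nat_lit 0x20192) (nat_lit 0) (p (nat_lit 0x20092) (nat_lit 0) (p (nat_lit 0x10012) (nat_lit 0) pn)))))))))))))))))))))))))))))))))) :=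
  Cl.node (nat_lit 0x119) (nat_lit 2) (by decide +kernel) (ClAll.succ (ClAll.succ ClAll.zero s300) s301)

def n21 : Cl (O (nat_lit 6)) (R (nat_lit 102673))
    (p (nat_lit 0x444aa) (nat_lit 7) (p (nat_lit 0xd1) (nat_lit 1) (p (nat_lit 0x111) (nat_lit 1) (p (nat_lit 0x100014) (nat_lit 0) (p (nat_lit 0x200014) (nat_lit 0) (p (nat_lit 0x380c2) (nat_lit 0) (p (nat_lit 0x4c42a) (nat_lit 10) (p (nat_lit 0xc9) (nat_lit 0) (p (nat_lit 0x89) (nat_lit 1) (p (nat_lit 0x109) (nat_lit 1) (p (nat_lit 0x101) (nat_lit 0) (p (nat_lit 0x119) (nat_lit 0) (p (nat_lit 0xd1) (nat_lit 0) (p (nat_lit 0x81) (nat_lit 0) (p (nat_lit 0x41) (nat_lit 1) (p (nat_lit 0x1098a0b090a9a) (nat_lit 0) (p (nat_lit 0x89098a888a1a) (nat_lit 0) (p (nat_lit 0x108890a08079a) (nat_lit 0) (p (nat_lit 0x88088987871a) (nat_lit 0) (p (nat_lit 0x8000080000000078907088a) (nat_lit 0) (p (nat_lit 0x8000080000000070886860a) (nat_lit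 0) (p (nat_lit 0x10708060782) (nat_lit 0) (p (nat_lit 0x8687858702) (nat_lit 0) (p (nat_lit 0x10607050482) (nat_lit 0) (p (nat_lit 0x8586848402) (nat_lit 0) (p (nat_lit 0x160004) (nat_lit 0) (p (nat_lit 0x50612) (nat_lit 0) (p (nat_lit 0x40592) (nat_lit 0) (p (nat_lit 0x40492) (nat_lit 0) (p (nat_lit 0x30412) (nat_lit 0) (p (nat_lit 0x30212) (nat_lit 0) (p (nat_lit 0x20192) (nat_lit 0) (p (nat_lit 0x20092) (nat_lit 0) (p (nat_lit 0x10012) (nat_lit 0) pn)))))))))))))))))))))))))))))))))) :=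
  Cl.node (nat_lit 0x380c2) (nat_lit 2) (by decide +kernel) (ClAll.succ (ClAll.succ ClAll.zero s527) s528)

def n22 : Cl (O (nat_lit 6)) (R (nat_lit 102673))
    (p (nat_lit 0x380c2) (nat_lit 0) (p (nat_lit 0x3cc2a) (nat_lit 2) (p (nat_lit 0x41) (nat_lit 0) (p (nat_lit 0x200014) (nat_lit 0) (p (nat_lit 0x20000c) (nat_lit 0) (p (nat_lit 0xc1) (nat_lit 1) (p (nat_lit 0x119) (nat_lit 1) (p (nat_lit 0xc9) (nat_lit 0) (p (nat_lit 0x89) (nat_lit 1) (p (nat_lit 0x109) (nat_lit 1) (p (nat_lit 0x101) (nat_lit 0) (p (nat_lit 0x111) (nat_lit 0) (p (nat_lit 0xd1) (nat_lit 1) (p (nat_lit 0x81) (nat_lit 0) (p (nat_lit 0x41) (nat_lit 1) (p (nat_lit 0x1098a0b090a9a) (nat_lit 0) (p (nat_lit 0x89098a888a1a) (nat_lit 0) (p (nat_lit 0x108890a08079a) (nat_lit 0) (p (nat_lit 0x88088987871a) (nat_lit 0) (p (nat_lit 0x8000080000000078907088a) (nat_lit 0) (p (nat_lit 0x8000080000000070886860a) (nat_lit 0)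 (p (nat_lit 0x10708060782) (nat_lit 0) (p (nat_lit 0x8687858702) (nat_lit 0) (p (nat_lit 0x10607050482) (nat_lit 0) (p (nat_lit 0x8586848402) (nat_lit 0) (p (nat_lit 0x160004) (nat_lit 0) (p (nat_lit 0x50612) (nat_lit 0) (p (nat_lit 0x40592) (nat_lit 0) (p (nat_lit 0x40492) (nat_lit 0) (p (nat_lit 0x30412) (nat_lit 0) (p (nat_lit 0x30212) (nat_lit 0) (p (nat_lit 0x20192) (nat_lit 0) (p (nat_lit 0x20092) (nat_lit 0) (p (nat_lit 0x10012) (nat_lit 0) pn)))))))))))))))))))))))))))))))))) :=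
  Cl.node (nat_lit 0x10000c) (nat_lit 2) (by decide +kernel) (ClAll.succ (ClAll.succ ClAll.zero n15) s709)

def n23 : Cl (O (nat_lit 6)) (R (nat_lit 102673))
    (p (nat_lit 0x10000c) (nat_lit 0) (p (nat_lit 0x1fc014) (nat_lit 0) (p (nat_lit 0x1fc00c) (nat_lit 0) (p (nat_lit 0xb0004) (nat_lit 1) (p (nat_lit 0x380c2) (nat_lit 0) (p (nat_lit 0x444aa) (nat_lit 7) (p (nat_lit 0x81) (nat_lit 1) (p (nat_lit 0xc9) (nat_lit 1) (p (nat_lit 0x109) (nat_lit 1) (p (nat_lit 0x101) (nat_lit 0) (p (nat_lit 0x119) (nat_lit 0) (p (nat_lit 0xd1) (nat_lit 0) (p (nat_lit 0x89) (nat_lit 0) (p (nat_lit 0x41) (nat_lit 0) (p (nat_lit 0x1098a0b090a9a) (nat_lit 0) (p (nat_lit 0x89098a888a1a) (nat_lit 0) (p (nat_lit 0x108890a08079a) (nat_lit 0) (p (nat_lit 0x88088987871a) (nat_lit 0) (p (nat_lit 0x8000080000000078907088a) (nat_lit 0) (p (nat_lit 0x8000080000000070886860a) (nat_lit 0) (p (nat_lit 0x10708060782)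 (nat_lit 0) (p (nat_lit 0x8687858702) (nat_lit 0) (p (nat_lit 0x10607050482) (nat_lit 0) (p (nat_lit 0x8586848402) (nat_lit 0) (p (nat_lit 0x160004) (nat_lit 0) (p (nat_lit 0x50612) (nat_lit 0) (p (nat_lit 0x40592) (nat_lit 0) (p (nat_lit 0x40492) (nat_lit 0) (p (nat_lit 0x30412) (nat_lit 0) (p (nat_lit 0x30212) (nat_lit 0) (p (nat_lit 0x20192) (nat_lit 0) (p (nat_lit 0x20092) (nat_lit 0) (p (nat_lit 0x10012) (nat_lit 0) pn))))))))))))))))))))))))))))))))) :=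
  Cl.node (nat_lit 0x2a825a680d000000c0d8b8b0a) (nat_lit 1) (by decide +kernel) (ClAll.succ ClAll.zero n16)

def n24 : Cl (O (nat_lit 6)) (R (nat_lit 102673))
    (p (nat_lit 0x81) (nat_lit 0) (p (nat_lit 0x1fc014) (nat_lit 0) (p (nat_lit 0x1fc00c) (nat_lit 0) (p (nat_lit 0xb0004) (nat_lit 1) (p (nat_lit 0x380c2) (nat_lit 1) (p (nat_lit 0x444aa) (nat_lit 7) (p (nat_lit 0x81) (nat_lit 1) (p (nat_lit 0xc9) (nat_lit 1) (p (nat_lit 0x109) (nat_lit 1) (p (nat_lit 0x101) (nat_lit 0) (p (nat_lit 0x119) (nat_lit 0) (p (nat_lit 0xd1) (nat_lit 0) (p (nat_lit 0x89) (nat_lit 0) (p (nat_lit 0x41) (nat_lit 0) (p (nat_lit 0x1098a0b090a9a) (nat_lit 0) (p (nat_lit 0x89098a888a1a) (nat_lit 0) (p (nat_lit 0x108890a08079a) (nat_lit 0) (p (nat_lit 0x88088987871a) (nat_lit 0) (p (nat_lit 0x8000080000000078907088a) (nat_lit 0) (p (nat_lit 0x8000080000000070886860a) (nat_lit 0) (p (nat_lit 0x10708060782)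 (nat_lit 0) (p (nat_lit 0x8687858702) (nat_lit 0) (p (nat_lit 0x10607050482) (nat_lit 0) (p (nat_lit 0x8586848402) (nat_lit 0) (p (nat_lit 0x160004) (nat_lit 0) (p (nat_lit 0x50612) (nat_lit 0) (p (nat_lit 0x40592) (nat_lit 0) (p (nat_lit 0x40492) (nat_lit 0) (p (nat_lit 0x30412) (nat_lit 0) (p (nat_lit 0x30212) (nat_lit 0) (p (nat_lit 0x20192) (nat_lit 0) (p (nat_lit 0x20092) (nat_lit 0) (p (nat_lit 0x10012) (nat_lit 0) pn))))))))))))))))))))))))))))))))) :=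
  Cl.node (nat_lit 0x10000c) (nat_lit 2) (by decide +kernel) (ClAll.succ (ClAll.succ ClAll.zero n17) s46)

def n25 : Cl (O (nat_lit 6)) (R (nat_lit 102673))
    (p (nat_lit 0x108004) (nat_lit 0) (p (nat_lit 0x1fc014) (nat_lit 0) (p (nat_lit 0x1fc00c) (nat_lit 0) (p (nat_lit 0xb0004) (nat_lit 1) (p (nat_lit 0x101) (nat_lit 0) (p (nat_lit 0x380c2) (nat_lit 0) (p (nat_lit 0x3cc2a) (nat_lit 2) (p (nat_lit 0x109) (nat_lit 1) (p (nat_lit 0xc9) (nat_lit 1) (p (nat_lit 0xc1) (nat_lit 0) (p (nat_lit 0x119) (nat_lit 1) (p (nat_lit 0xd1) (nat_lit 0) (p (nat_lit 0x89) (nat_lit 0) (p (nat_lit 0x41) (nat_lit 0) (p (nat_lit 0x1098a0b090a9a) (nat_lit 0) (p (nat_lit 0x89098a888a1a) (nat_lit 0) (p (nat_lit 0x108890a08079a) (nat_lit 0) (p (nat_lit 0x88088987871a) (nat_lit 0) (p (nat_lit 0x8000080000000078907088a) (nat_lit 0) (p (nat_lit 0x8000080000000070886860a) (nat_lit 0) (p (nat_lit 0x10708060782)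 (nat_lit 0) (p (nat_lit 0x8687858702) (nat_lit 0) (p (nat_lit 0x10607050482) (nat_lit 0) (p (nat_lit 0x8586848402) (nat_lit 0) (p (nat_lit 0x160004) (nat_lit 0) (p (nat_lit 0x50612) (nat_lit 0) (p (nat_lit 0x40592) (nat_lit 0) (p (nat_lit 0x40492) (nat_lit 0) (p (nat_lit 0x30412) (nat_lit 0) (p (nat_lit 0x30212) (nat_lit 0) (p (nat_lit 0x20192) (nat_lit 0) (p (nat_lit 0x20092) (nat_lit 0) (p (nat_lit 0x10012) (nat_lit 0) pn))))))))))))))))))))))))))))))))) :=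
  Cl.node (nat_lit 0x100014) (nat_lit 2) (by decide +kernel) (ClAll.succ (ClAll.succ ClAll.zero n18) s126)

def n26 : Cl (O (nat_lit 6)) (R (nat_lit 102673))
    (p (nat_lit 0x20000c) (nat_lit 0) (p (nat_lit 0x100014) (nat_lit 0) (p (nat_lit 0x200014) (nat_lit 0) (p (nat_lit 0x41) (nat_lit 0) (p (nat_lit 0x101) (nat_lit 1) (p (nat_lit 0x380c2) (nat_lit 0) (p (nat_lit 0x3cc2a) (nat_lit 2) (p (nat_lit 0x109) (nat_lit 1) (p (nat_lit 0xc9) (nat_lit 1) (p (nat_lit 0xc1) (nat_lit 0) (p (nat_lit 0x119) (nat_lit 1) (p (nat_lit 0xd1) (nat_lit 0) (p (nat_lit 0x89) (nat_lit 0) (p (nat_lit 0x41) (nat_lit 0) (p (nat_lit 0x1098a0b090a9a) (nat_lit 0) (p (nat_lit 0x89098a888a1a) (nat_lit 0) (p (nat_lit 0x108890a08079a) (nat_lit 0) (p (nat_lit 0x88088987871a) (nat_lit 0) (p (nat_lit 0x8000080000000078907088a) (nat_lit 0) (p (nat_lit 0x8000080000000070886860a) (nat_lit 0) (p (nat_lit 0x10708060782)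 (nat_lit 0) (p (nat_lit 0x8687858702) (nat_lit 0) (p (nat_lit 0x10607050482) (nat_lit 0) (p (nat_lit 0x8586848402) (nat_lit 0) (p (nat_lit 0x160004) (nat_lit 0) (p (nat_lit 0x50612) (nat_lit 0) (p (nat_lit 0x40592) (nat_lit 0) (p (nat_lit 0x40492) (nat_lit 0) (p (nat_lit 0x30412) (nat_lit 0) (p (nat_lit 0x30212) (nat_lit 0) (p (nat_lit 0x20192) (nat_lit 0) (p (nat_lit 0x20092) (nat_lit 0) (p (nat_lit 0x10012) (nat_lit 0) pn))))))))))))))))))))))))))))))))) :=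
  Cl.node (nat_lit 0x10000c) (nat_lit 2) (by decide +kernel) (ClAll.succ (ClAll.succ ClAll.zero n19) s132)

def n27 : Cl (O (nat_lit 6)) (R (nat_lit 102673))
    (p (nat_lit 0xc1) (nat_lit 0) (p (nat_lit 0x10000c) (nat_lit 0) (p (nat_lit 0x20000c) (nat_lit 0) (p (nat_lit 0xb0004) (nat_lit 0) (p (nat_lit 0x380c2) (nat_lit 0) (p (nat_lit 0x444aa) (nat_lit 7) (p (nat_lit 0xd1) (nat_lit 1) (p (nat_lit 0x111) (nat_lit 1) (p (nat_lit 0x109) (nat_lit 0) (p (nat_lit 0x101) (nat_lit 0) (p (nat_lit 0x119) (nat_lit 0) (p (nat_lit 0xc9) (nat_lit 0) (p (nat_lit 0x89) (nat_lit 1) (p (nat_lit 0x41) (nat_lit 0) (p (nat_lit 0x1098a0b090a9a) (nat_lit 0) (p (nat_lit 0x89098a888a1a) (nat_lit 0) (p (nat_lit 0x108890a08079a) (nat_lit 0) (p (nat_lit 0x88088987871a) (nat_lit 0) (p (nat_lit 0x8000080000000078907088a) (nat_lit 0) (p (nat_lit 0x8000080000000070886860a) (nat_lit 0) (p (nat_lit 0x10708060782)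 (nat_lit 0) (p (nat_lit 0x8687858702) (nat_lit 0) (p (nat_lit 0x10607050482) (nat_lit 0) (p (nat_lit 0x8586848402) (nat_lit 0) (p (nat_lit 0x160004) (nat_lit 0) (p (nat_lit 0x50612) (nat_lit 0) (p (nat_lit 0x40592) (nat_lit 0) (p (nat_lit 0x40492) (nat_lit 0) (p (nat_lit 0x30412) (nat_lit 0) (p (nat_lit 0x30212) (nat_lit 0) (p (nat_lit 0x20192) (nat_lit 0) (p (nat_lit 0x20092) (nat_lit 0) (p (nat_lit 0x10012) (nat_lit 0) pn))))))))))))))))))))))))))))))))) :=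
  Cl.node (nat_lit 0xc9) (nat_lit 2) (by decide +kernel) (ClAll.succ (ClAll.succ ClAll.zero s299) n20)

def n28 : Cl (O (nat_lit 6)) (R (nat_lit 102673))
    (p (nat_lit 0x10000c) (nat_lit 0) (p (nat_lit 0x20000c) (nat_lit 0) (p (nat_lit 0xc1) (nat_lit 0) (p (nat_lit 0xb0004) (nat_lit 0) (p (nat_lit 0x380c2) (nat_lit 1) (p (nat_lit 0x444aa) (nat_lit 7) (p (nat_lit 0xd1) (nat_lit 1) (p (nat_lit 0x111) (nat_lit 1) (p (nat_lit 0x109) (nat_lit 0) (p (nat_lit 0x101) (nat_lit 0) (p (nat_lit 0x119) (nat_lit 0) (p (nat_lit 0xc9) (nat_lit 0) (p (nat_lit 0x89) (nat_lit 1) (p (nat_lit 0x41) (nat_lit 0) (p (nat_lit 0x1098a0b090a9a) (nat_lit 0) (p (nat_lit 0x89098a888a1a) (nat_lit 0) (p (nat_lit 0x108890a08079a) (nat_lit 0) (p (nat_lit 0x88088987871a) (nat_lit 0) (p (nat_lit 0x8000080000000078907088a) (nat_lit 0) (p (nat_lit 0x8000080000000070886860a) (nat_lit 0) (p (nat_lit 0x10708060782) (nat_lit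 0) (p (nat_lit 0x8687858702) (nat_lit 0) (p (nat_lit 0x10607050482) (nat_lit 0) (p (nat_lit 0x8586848402) (nat_lit 0) (p (nat_lit 0x160004) (nat_lit 0) (p (nat_lit 0x50612) (nat_lit 0) (p (nat_lit 0x40592) (nat_lit 0) (p (nat_lit 0x40492) (nat_lit 0) (p (nat_lit 0x30412) (nat_lit 0) (p (nat_lit 0x30212) (nat_lit 0) (p (nat_lit 0x20192) (nat_lit 0) (p (nat_lit 0x20092) (nat_lit 0) (p (nat_lit 0x10012) (nat_lit 0) pn))))))))))))))))))))))))))))))))) :=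
  Cl.node (nat_lit 0xc9) (nat_lit 2) (by decide +kernel) (ClAll.succ (ClAll.succ ClAll.zero s306) s307)

def n29 : Cl (O (nat_lit 6)) (R (nat_lit 102673))
    (p (nat_lit 0x10000c) (nat_lit 0) (p (nat_lit 0x1fc014) (nat_lit 0) (p (nat_lit 0x1fc00c) (nat_lit 0) (p (nat_lit 0xb0004) (nat_lit 1) (p (nat_lit 0x380c2) (nat_lit 1) (p (nat_lit 0x444aa) (nat_lit 7) (p (nat_lit 0xd1) (nat_lit 1) (p (nat_lit 0x111) (nat_lit 1) (p (nat_lit 0x109) (nat_lit 0) (p (nat_lit 0x101) (nat_lit 0) (p (nat_lit 0x119) (nat_lit 0) (p (nat_lit 0xc9) (nat_lit 0) (p (nat_lit 0x89) (nat_lit 1) (p (nat_lit 0x41) (nat_lit 0) (p (nat_lit 0x1098a0b090a9a) (nat_lit 0) (p (nat_lit 0x89098a888a1a) (nat_lit 0) (p (nat_lit 0x108890a08079a) (nat_lit 0) (p (nat_lit 0x88088987871a) (nat_lit 0) (p (nat_lit 0x8000080000000078907088a) (nat_lit 0) (p (nat_lit 0x8000080000000070886860a) (nat_lit 0) (p (nat_lit 0x10708060782)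 (nat_lit 0) (p (nat_lit 0x8687858702) (nat_lit 0) (p (nat_lit 0x10607050482) (nat_lit 0) (p (nat_lit 0x8586848402) (nat_lit 0) (p (nat_lit 0x160004) (nat_lit 0) (p (nat_lit 0x50612) (nat_lit 0) (p (nat_lit 0x40592) (nat_lit 0) (p (nat_lit 0x40492) (nat_lit 0) (p (nat_lit 0x30412) (nat_lit 0) (p (nat_lit 0x30212) (nat_lit 0) (p (nat_lit 0x20192) (nat_lit 0) (p (nat_lit 0x20092) (nat_lit 0) (p (nat_lit 0x10012) (nat_lit 0) pn))))))))))))))))))))))))))))))))) :=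
  Cl.node (nat_lit 0x108004) (nat_lit 2) (by decide +kernel) (ClAll.succ (ClAll.succ ClAll.zero s311) s312)

def n30 : Cl (O (nat_lit 6)) (R (nat_lit 102673))
    (p (nat_lit 0xc9) (nat_lit 0) (p (nat_lit 0xc1) (nat_lit 0) (p (nat_lit 0x10000c) (nat_lit 0) (p (nat_lit 0x20000c) (nat_lit 0) (p (nat_lit 0xb0004) (nat_lit 0) (p (nat_lit 0x380c2) (nat_lit 0) (p (nat_lit 0x444aa) (nat_lit 7) (p (nat_lit 0xd1) (nat_lit 1) (p (nat_lit 0x109) (nat_lit 1) (p (nat_lit 0x101) (nat_lit 0) (p (nat_lit 0x119) (nat_lit 0) (p (nat_lit 0xc9) (nat_lit 0) (p (nat_lit 0x89) (nat_lit 1) (p (nat_lit 0x41) (nat_lit 0) (p (nat_lit 0x1098a0b090a9a) (nat_lit 0) (p (nat_lit 0x89098a888a1a) (nat_lit 0) (p (nat_lit 0x108890a08079a) (nat_lit 0) (p (nat_lit 0x88088987871a) (nat_lit 0) (p (nat_lit 0x8000080000000078907088a) (nat_lit 0) (p (nat_lit 0x8000080000000070886860a) (nat_lit 0) (p (nat_lit 0x10708060782)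 (nat_lit 0) (p (nat_lit 0x8687858702) (nat_lit 0) (p (nat_lit 0x10607050482) (nat_lit 0) (p (nat_lit 0x8586848402) (nat_lit 0) (p (nat_lit 0x160004) (nat_lit 0) (p (nat_lit 0x50612) (nat_lit 0) (p (nat_lit 0x40592) (nat_lit 0) (p (nat_lit 0x40492) (nat_lit 0) (p (nat_lit 0x30412) (nat_lit 0) (p (nat_lit 0x30212) (nat_lit 0) (p (nat_lit 0x20192) (nat_lit 0) (p (nat_lit 0x20092) (nat_lit 0) (p (nat_lit 0x10012) (nat_lit 0) pn))))))))))))))))))))))))))))))))) :=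
  Cl.node (nat_lit 0xd1) (nat_lit 2) (by decide +kernel) (ClAll.succ (ClAll.succ ClAll.zero s343) s344)

def n31 : Cl (O (nat_lit 6)) (R (nat_lit 102673))
    (p (nat_lit 0x108004) (nat_lit 0) (p (nat_lit 0x10000c) (nat_lit 0) (p (nat_lit 0x1fc014) (nat_lit 0) (p (nat_lit 0x1fc00c) (nat_lit 0) (p (nat_lit 0xb0004) (nat_lit 1) (p (nat_lit 0x380c2) (nat_lit 0) (p (nat_lit 0x444aa) (nat_lit 7) (p (nat_lit 0xd1) (nat_lit 1) (p (nat_lit 0x109) (nat_lit 1) (p (nat_lit 0x101) (nat_lit 0) (p (nat_lit 0x119) (nat_lit 0) (p (nat_lit 0xc9) (nat_lit 0) (p (nat_lit 0x89) (nat_lit 1) (p (nat_lit 0x41) (nat_lit 0) (p (nat_lit 0x1098a0b090a9a) (nat_lit 0) (p (nat_lit 0x89098a888a1a) (nat_lit 0) (p (nat_lit 0x108890a08079a) (nat_lit 0) (p (nat_lit 0x88088987871a) (nat_lit 0) (p (nat_lit 0x8000080000000078907088a) (nat_lit 0) (p (nat_lit 0x8000080000000070886860a) (nat_lit 0) (p (nat_lit 0x10708060782)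 (nat_lit 0) (p (nat_lit 0x8687858702) (nat_lit 0) (p (nat_lit 0x10607050482) (nat_lit 0) (p (nat_lit 0x8586848402) (nat_lit 0) (p (nat_lit 0x160004) (nat_lit 0) (p (nat_lit 0x50612) (nat_lit 0) (p (nat_lit 0x40592) (nat_lit 0) (p (nat_lit 0x40492) (nat_lit 0) (p (nat_lit 0x30412) (nat_lit 0) (p (nat_lit 0x30212) (nat_lit 0) (p (nat_lit 0x20192) (nat_lit 0) (p (nat_lit 0x20092) (nat_lit 0) (p (nat_lit 0x10012) (nat_lit 0) pn))))))))))))))))))))))))))))))))) :=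
  Cl.node (nat_lit 0x8000c) (nat_lit 2) (by decide +kernel) (ClAll.succ (ClAll.succ ClAll.zero s349) s350)

def n32 : Cl (O (nat_lit 6)) (R (nat_lit 102673))
    (p (nat_lit 0xc9) (nat_lit 0) (p (nat_lit 0x10000c) (nat_lit 0) (p (nat_lit 0x20000c) (nat_lit 0) (p (nat_lit 0xc1) (nat_lit 0) (p (nat_lit 0xb0004) (nat_lit 0) (p (nat_lit 0x380c2) (nat_lit 1) (p (nat_lit 0x444aa) (nat_lit 7) (p (nat_lit 0xd1) (nat_lit 1) (p (nat_lit 0x109) (nat_lit 1) (p (nat_lit 0x101) (nat_lit 0) (p (nat_lit 0x119) (nat_lit 0) (p (nat_lit 0xc9) (nat_lit 0) (p (nat_lit 0x89) (nat_lit 1) (p (nat_lit 0x41) (nat_lit 0) (p (nat_lit 0x1098a0b090a9a) (nat_lit 0) (p (nat_lit 0x89098a888a1a) (nat_lit 0) (p (nat_lit 0x108890a08079a) (nat_lit 0) (p (nat_lit 0x88088987871a) (nat_lit 0) (p (nat_lit 0x8000080000000078907088a) (nat_lit 0) (p (nat_lit 0x8000080000000070886860a) (nat_lit 0) (p (nat_lit 0x10708060782)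 (nat_lit 0) (p (nat_lit 0x8687858702) (nat_lit 0) (p (nat_lit 0x10607050482) (nat_lit 0) (p (nat_lit 0x8586848402) (nat_lit 0) (p (nat_lit 0x160004) (nat_lit 0) (p (nat_lit 0x50612) (nat_lit 0) (p (nat_lit 0x40592) (nat_lit 0) (p (nat_lit 0x40492) (nat_lit 0) (p (nat_lit 0x30412) (nat_lit 0) (p (nat_lit 0x30212) (nat_lit 0) (p (nat_lit 0x20192) (nat_lit 0) (p (nat_lit 0x20092) (nat_lit 0) (p (nat_lit 0x10012) (nat_lit 0) pn))))))))))))))))))))))))))))))))) :=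
  Cl.node (nat_lit 0xd1) (nat_lit 2) (by decide +kernel) (ClAll.succ (ClAll.succ ClAll.zero s355) s356)

def n33 : Cl (O (nat_lit 6)) (R (nat_lit 102673))
    (p (nat_lit 0x109) (nat_lit 0) (p (nat_lit 0x81) (nat_lit 0) (p (nat_lit 0x10000c) (nat_lit 0) (p (nat_lit 0x20000c) (nat_lit 0) (p (nat_lit 0xb0004) (nat_lit 0) (p (nat_lit 0x380c2) (nat_lit 0) (p (nat_lit 0x444aa) (nat_lit 7) (p (nat_lit 0x119) (nat_lit 1) (p (nat_lit 0x111) (nat_lit 0) (p (nat_lit 0x101) (nat_lit 0) (p (nat_lit 0x109) (nat_lit 0) (p (nat_lit 0xc9) (nat_lit 1) (p (nat_lit 0x89) (nat_lit 1) (p (nat_lit 0x41) (nat_lit 0) (p (nat_lit 0x1098a0b090a9a) (nat_lit 0) (p (nat_lit 0x89098a888a1a) (nat_lit 0) (p (nat_lit 0x108890a08079a) (nat_lit 0) (p (nat_lit 0x88088987871a) (nat_lit 0) (p (nat_lit 0x8000080000000078907088a) (nat_lit 0) (p (nat_lit 0x8000080000000070886860a) (nat_lit 0) (p (nat_lit 0x10708060782)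 (nat_lit 0) (p (nat_lit 0x8687858702) (nat_lit 0) (p (nat_lit 0x10607050482) (nat_lit 0) (p (nat_lit 0x8586848402) (nat_lit 0) (p (nat_lit 0x160004) (nat_lit 0) (p (nat_lit 0x50612) (nat_lit 0) (p (nat_lit 0x40592) (nat_lit 0) (p (nat_lit 0x40492) (nat_lit 0) (p (nat_lit 0x30412) (nat_lit 0) (p (nat_lit 0x30212) (nat_lit 0) (p (nat_lit 0x20192) (nat_lit 0) (p (nat_lit 0x20092) (nat_lit 0) (p (nat_lit 0x10012) (nat_lit 0) pn))))))))))))))))))))))))))))))))) :=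
  Cl.node (nat_lit 0x101) (nat_lit 2) (by decide +kernel) (ClAll.succ (ClAll.succ ClAll.zero s451) s452)

def n34 : Cl (O (nat_lit 6)) (R (nat_lit 102673))
    (p (nat_lit 0xd1) (nat_lit 1) (p (nat_lit 0x111) (nat_lit 1) (p (nat_lit 0x100014) (nat_lit 0) (p (nat_lit 0x200014) (nat_lit 0) (p (nat_lit 0x380c2) (nat_lit 0) (p (nat_lit 0x4c42a) (nat_lit 10) (p (nat_lit 0xc9) (nat_lit 0) (p (nat_lit 0x89) (nat_lit 1) (p (nat_lit 0x109) (nat_lit 1) (p (nat_lit 0x101) (nat_lit 0) (p (nat_lit 0x119) (nat_lit 0) (p (nat_lit 0xd1) (nat_lit 0) (p (nat_lit 0x81) (nat_lit 0) (p (nat_lit 0x41) (nat_lit 1) (p (nat_lit 0x1098a0b090a9a) (nat_lit 0) (p (nat_lit 0x89098a888a1a) (nat_lit 0) (p (nat_lit 0x108890a08079a) (nat_lit 0) (p (nat_lit 0x88088987871a) (nat_lit 0) (p (nat_lit 0x8000080000000078907088a) (nat_lit 0) (p (nat_lit 0x8000080000000070886860a) (nat_lit 0) (p (nat_lit 0x10708060782) (nat_lit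 0) (p (nat_lit 0x8687858702) (nat_lit 0) (p (nat_lit 0x10607050482) (nat_lit 0) (p (nat_lit 0x8586848402) (nat_lit 0) (p (nat_lit 0x160004) (nat_lit 0) (p (nat_lit 0x50612) (nat_lit 0) (p (nat_lit 0x40592) (nat_lit 0) (p (nat_lit 0x40492) (nat_lit 0) (p (nat_lit 0x30412) (nat_lit 0) (p (nat_lit 0x30212) (nat_lit 0) (p (nat_lit 0x20192) (nat_lit 0) (p (nat_lit 0x20092) (nat_lit 0) (p (nat_lit 0x10012) (nat_lit 0) pn))))))))))))))))))))))))))))))))) :=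
  Cl.node (nat_lit 0x444aa) (nat_lit 12) (by decide +kernel) (ClAll.succ (ClAll.succ (ClAll.succ (ClAll.succ (ClAll.succ (ClAll.succ (ClAll.succ (ClAll.succ (ClAll.succ (ClAll.succ (ClAll.succ (ClAll.succ ClAll.zero s520) s521) s522) s523) s524) s525) s526) n21) s529) s530) s531) s532)

def n35 : Cl (O (nat_lit 6)) (R (nat_lit 102673))
    (p (nat_lit 0x111) (nat_lit 1) (p (nat_lit 0xd1) (nat_lit 1) (p (nat_lit 0x100014) (nat_lit 0) (p (nat_lit 0x200014) (nat_lit 0) (p (nat_lit 0x380c2) (nat_lit 0) (p (nat_lit 0x4c42a) (nat_lit 10) (p (nat_lit 0xc9) (nat_lit 0) (p (nat_lit 0x89) (nat_lit 1) (p (nat_lit 0xc1) (nat_lit 0) (p (nat_lit 0x101) (nat_lit 1) (p (nat_lit 0x119) (nat_lit 0) (p (nat_lit 0xd1) (nat_lit 0) (p (nat_lit 0x81) (nat_lit 0) (p (nat_lit 0x41) (nat_lit 1) (p (nat_lit 0x1098a0b090a9a) (nat_lit 0) (p (nat_lit 0x89098a888a1a) (nat_lit 0) (p (nat_lit 0x108890a08079a) (nat_lit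 0) (p (nat_lit 0x88088987871a) (nat_lit 0) (p (nat_lit 0x8000080000000078907088a) (nat_lit 0) (p (nat_lit 0x8000080000000070886860a) (nat_lit 0) (p (nat_lit 0x10708060782) (nat_lit 0) (p (nat_lit 0x8687858702) (nat_lit 0) (p (nat_lit 0x10607050482) (nat_lit 0) (p (nat_lit 0x8586848402) (nat_lit 0) (p (nat_lit 0x160004) (nat_lit 0) (p (nat_lit 0x50612) (nat_lit 0) (p (nat_lit 0x40592) (nat_lit 0) (p (nat_lit 0x40492) (nat_lit 0) (p (nat_lit 0x30412) (nat_lit 0) (p (nat_lit 0x30212) (nat_lit 0) (p (nat_lit 0x20192) (nat_lit 0) (p (nat_lit 0x20092) (nat_lit 0) (p (nat_lit 0x10012) (nat_lit 0) pn))))))))))))))))))))))))))))))))) :=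
  Cl.node (nat_lit 0xd1) (nat_lit 2) (by decide +kernel) (ClAll.succ (ClAll.succ ClAll.zero s554) s555)

def n36 : Cl (O (nat_lit 6)) (R (nat_lit 102673))
    (p (nat_lit 0x3cc2a) (nat_lit 2) (p (nat_lit 0x41) (nat_lit 0) (p (nat_lit 0x200014) (nat_lit 0) (p (nat_lit 0x20000c) (nat_lit 0) (p (nat_lit 0xc1) (nat_lit 1) (p (nat_lit 0x119) (nat_lit 1) (p (nat_lit 0xc9) (nat_lit 0) (p (nat_lit 0x89) (nat_lit 1) (p (nat_lit 0x109) (nat_lit 1) (p (nat_lit 0x101) (nat_lit 0) (p (nat_lit 0x111) (nat_lit 0) (p (nat_lit 0xd1) (nat_lit 1) (p (nat_lit 0x81) (nat_lit 0) (p (nat_lit 0x41) (nat_lit 1) (p (nat_lit 0x1098a0b090a9a) (nat_lit 0) (p (nat_lit 0x89098a888a1a) (nat_lit 0) (p (nat_lit 0x108890a08079a) (nat_lit 0) (p (nat_lit 0x88088987871a) (nat_lit 0) (p (nat_lit 0x8000080000000078907088a) (nat_lit 0) (p (nat_lit 0x8000080000000070886860a) (nat_lit 0) (p (nat_lit 0x10708060782) (nat_lit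 0) (p (nat_lit 0x8687858702) (nat_lit 0) (p (nat_lit 0x10607050482) (nat_lit 0) (p (nat_lit 0x8586848402) (nat_lit 0) (p (nat_lit 0x160004) (nat_lit 0) (p (nat_lit 0x50612) (nat_lit 0) (p (nat_lit 0x40592) (nat_lit 0) (p (nat_lit 0x40492) (nat_lit 0) (p (nat_lit 0x30412) (nat_lit 0) (p (nat_lit 0x30212) (nat_lit 0) (p (nat_lit 0x20192) (nat_lit 0) (p (nat_lit 0x20092) (nat_lit 0) (p (nat_lit 0x10012) (nat_lit 0) pn))))))))))))))))))))))))))))))))) :=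
  Cl.node (nat_lit 0x380c2) (nat_lit 1) (by decide +kernel) (ClAll.succ ClAll.zero n22)

def n37 : Cl (O (nat_lit 6)) (R (nat_lit 102673))
    (p (nat_lit 0xc9) (nat_lit 1) (p (nat_lit 0x109) (nat_lit 1) (p (nat_lit 0xd1) (nat_lit 0) (p (nat_lit 0x100014) (nat_lit 0) (p (nat_lit 0x200014) (nat_lit 0) (p (nat_lit 0x380c2) (nat_lit 0) (p (nat_lit 0x3cc2a) (nat_lit 2) (p (nat_lit 0xc9) (nat_lit 0) (p (nat_lit 0x89) (nat_lit 1) (p (nat_lit 0x101) (nat_lit 1) (p (nat_lit 0x111) (nat_lit 0) (p (nat_lit 0xd1) (nat_lit 1) (p (nat_lit 0x81) (nat_lit 0) (p (nat_lit 0x41) (nat_lit 1) (p (nat_lit 0x1098a0b090a9a) (nat_lit 0) (p (nat_lit 0x89098a888a1a) (nat_lit 0) (p (nat_lit 0x108890a08079a) (nat_lit 0) (p (nat_lit 0x88088987871a) (nat_lit 0) (p (nat_lit 0x8000080000000078907088a) (nat_lit 0) (p (nat_lit 0x8000080000000070886860a) (nat_lit 0) (p (nat_lit 0x10708060782) (nat_lit 0) (p (nat_lit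 0x8687858702) (nat_lit 0) (p (nat_lit 0x10607050482) (nat_lit 0) (p (nat_lit 0x8586848402) (nat_lit 0) (p (nat_lit 0x160004) (nat_lit 0) (p (nat_lit 0x50612) (nat_lit 0) (p (nat_lit 0x40592) (nat_lit 0) (p (nat_lit 0x40492) (nat_lit 0) (p (nat_lit 0x30412) (nat_lit 0) (p (nat_lit 0x30212) (nat_lit 0) (p (nat_lit 0x20192) (nat_lit 0) (p (nat_lit 0x20092) (nat_lit 0) (p (nat_lit 0x10012) (nat_lit 0) pn))))))))))))))))))))))))))))))))) :=
  Cl.node (nat_lit 0x109) (nat_lit 2) (by decide +kernel) (ClAll.succ (ClAll.succ ClAll.zero s741) s742)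

def n38 : Cl (O (nat_lit 6)) (R (nat_lit 102673))
    (p (nat_lit 0xc1) (nat_lit 0) (p (nat_lit 0x81) (nat_lit 1) (p (nat_lit 0xb0004) (nat_lit 0) (p (nat_lit 0x380c2) (nat_lit 0) (p (nat_lit 0x444aa) (nat_lit 7) (p (nat_lit 0x81) (nat_lit 1) (p (nat_lit 0xc9) (nat_lit 1) (p (nat_lit 0x109) (nat_lit 1) (p (nat_lit 0x101) (nat_lit 0) (p (nat_lit 0x119) (nat_lit 0) (p (nat_lit 0xd1) (nat_lit 0) (p (nat_lit 0x89) (nat_lit 0) (p (nat_lit 0x41) (nat_lit 0) (p (nat_lit 0x1098a0b090a9a) (nat_lit 0) (p (nat_lit 0x89098a888a1a) (nat_lit 0) (p (nat_lit 0x108890a08079a) (nat_lit 0) (p (nat_lit 0x88088987871a) (nat_lit 0) (p (nat_lit 0x8000080000000078907088a) (nat_lit 0) (p (nat_lit 0x8000080000000070886860a) (nat_lit 0) (p (nat_lit 0x10708060782) (nat_lit 0) (p (nat_lit 0x8687858702) (nat_lit 0) (p (nat_lit 0x10607050482) (nat_lit 0) (p (nat_lit 0x8586848402) (nat_lit 0) (p (nat_lit 0x160004)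 (nat_lit 0) (p (nat_lit 0x50612) (nat_lit 0) (p (nat_lit 0x40592) (nat_lit 0) (p (nat_lit 0x40492) (nat_lit 0) (p (nat_lit 0x30412) (nat_lit 0) (p (nat_lit 0x30212) (nat_lit 0) (p (nat_lit 0x20192) (nat_lit 0) (p (nat_lit 0x20092) (nat_lit 0) (p (nat_lit 0x10012) (nat_lit 0) pn)))))))))))))))))))))))))))))))) :=
  Cl.node (nat_lit 0x3cc2a) (nat_lit 12) (by decide +kernel) (ClAll.succ (ClAll.succ (ClAll.succ (ClAll.succ (ClAll.succ (ClAll.succ (ClAll.succ (ClAll.succ (ClAll.succ (ClAll.succ (ClAll.succ (ClAll.succ ClAll.zero s22) s23) s24) s25) s26) s27) s28) s29) s30) s31) s32) s33)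

def n39 : Cl (O (nat_lit 6)) (R (nat_lit 102673))
    (p (nat_lit 0x1fc014) (nat_lit 0) (p (nat_lit 0x1fc00c) (nat_lit 0) (p (nat_lit 0xb0004) (nat_lit 1) (p (nat_lit 0x380c2) (nat_lit 0) (p (nat_lit 0x444aa) (nat_lit 7) (p (nat_lit 0x81) (nat_lit 1) (p (nat_lit 0xc9) (nat_lit 1) (p (nat_lit 0x109) (nat_lit 1) (p (nat_lit 0x101) (nat_lit 0) (p (nat_lit 0x119) (nat_lit 0) (p (nat_lit 0xd1) (nat_lit 0) (p (nat_lit 0x89) (nat_lit 0) (p (nat_lit 0x41) (nat_lit 0) (p (nat_lit 0x1098a0b090a9a) (nat_lit 0) (p (nat_lit 0x89098a888a1a) (nat_lit 0) (p (nat_lit 0x108890a08079a) (nat_lit 0) (p (nat_lit 0x88088987871a) (nat_lit 0) (p (nat_lit 0x8000080000000078907088a) (nat_lit 0) (p (nat_lit 0x8000080000000070886860a) (nat_lit 0) (p (nat_lit 0x10708060782) (nat_lit 0) (p (nat_lit 0x8687858702) (nat_lit 0) (p (nat_lit 0x10607050482) (nat_lit 0) (p (nat_lit 0x8586848402) (nat_lit 0) (p (nat_lit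 0x160004) (nat_lit 0) (p (nat_lit 0x50612) (nat_lit 0) (p (nat_lit 0x40592) (nat_lit 0) (p (nat_lit 0x40492) (nat_lit 0) (p (nat_lit 0x30412) (nat_lit 0) (p (nat_lit 0x30212) (nat_lit 0) (p (nat_lit 0x20192) (nat_lit 0) (p (nat_lit 0x20092) (nat_lit 0) (p (nat_lit 0x10012) (nat_lit 0) pn)))))))))))))))))))))))))))))))) :=
  Cl.node (nat_lit 0x10000c) (nat_lit 2) (by decide +kernel) (ClAll.succ (ClAll.succ ClAll.zero n23) s38)

def n40 : Cl (O (nat_lit 6)) (R (nat_lit 102673))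
    (p (nat_lit 0x1fc014) (nat_lit 0) (p (nat_lit 0x1fc00c) (nat_lit 0) (p (nat_lit 0xb0004) (nat_lit 1) (p (nat_lit 0x380c2) (nat_lit 1) (p (nat_lit 0x444aa) (nat_lit 7) (p (nat_lit 0x81) (nat_lit 1) (p (nat_lit 0xc9) (nat_lit 1) (p (nat_lit 0x109) (nat_lit 1) (p (nat_lit 0x101) (nat_lit 0) (p (nat_lit 0x119) (nat_lit 0) (p (nat_lit 0xd1) (nat_lit 0) (p (nat_lit 0x89) (nat_lit 0) (p (nat_lit 0x41) (nat_lit 0) (p (nat_lit 0x1098a0b090a9a) (nat_lit 0) (p (nat_lit 0x89098a888a1a) (nat_lit 0) (p (nat_lit 0x108890a08079a) (nat_lit 0) (p (nat_lit 0x88088987871a) (nat_lit 0) (p (nat_lit 0x8000080000000078907088a) (nat_lit 0) (p (nat_lit 0x8000080000000070886860a) (nat_lit 0) (p (nat_lit 0x10708060782) (nat_lit 0) (p (nat_lit 0x8687858702) (nat_lit 0) (p (nat_lit 0x10607050482) (nat_lit 0) (p (nat_lit 0x8586848402) (nat_lit 0) (p (nat_lit 0x160004) (nat_lit 0) (p (nat_lit 0x50612) (nat_lit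 0) (p (nat_lit 0x40592) (nat_lit 0) (p (nat_lit 0x40492) (nat_lit 0) (p (nat_lit 0x30412) (nat_lit 0) (p (nat_lit 0x30212) (nat_lit 0) (p (nat_lit 0x20192) (nat_lit 0) (p (nat_lit 0x20092) (nat_lit 0) (p (nat_lit 0x10012) (nat_lit 0) pn)))))))))))))))))))))))))))))))) :=
  Cl.node (nat_lit 0x81) (nat_lit 2) (by decide +kernel) (ClAll.succ (ClAll.succ ClAll.zero n24) s47)

def n41 : Cl (O (nat_lit 6)) (R (nat_lit 102673))
    (p (nat_lit 0x1fc014) (nat_lit 0) (p (nat_lit 0x1fc00c) (nat_lit 0) (p (nat_lit 0xb0004) (nat_lit 1) (p (nat_lit 0x101) (nat_lit 0) (p (nat_lit 0x380c2) (nat_lit 0) (p (nat_lit 0x3cc2a) (nat_lit 2) (p (nat_lit 0x109) (nat_lit 1) (p (nat_lit 0xc9) (nat_lit 1) (p (nat_lit 0xc1) (nat_lit 0) (p (nat_lit 0x119) (nat_lit 1) (p (nat_lit 0xd1) (nat_lit 0) (p (nat_lit 0x89) (nat_lit 0) (p (nat_lit 0x41) (nat_lit 0) (p (nat_lit 0x1098a0b090a9a) (nat_lit 0) (p (nat_lit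 0x89098a888a1a) (nat_lit 0) (p (nat_lit 0x108890a08079a) (nat_lit 0) (p (nat_lit 0x88088987871a) (nat_lit 0) (p (nat_lit 0x8000080000000078907088a) (nat_lit 0) (p (nat_lit 0x8000080000000070886860a) (nat_lit 0) (p (nat_lit 0x10708060782) (nat_lit 0) (p (nat_lit 0x8687858702) (nat_lit 0) (p (nat_lit 0x10607050482) (nat_lit 0) (p (nat_lit 0x8586848402) (nat_lit 0) (p (nat_lit 0x160004) (nat_lit 0) (p (nat_lit 0x50612) (nat_lit 0) (p (nat_lit 0x40592) (nat_lit 0) (p (nat_lit 0x40492) (nat_lit 0) (p (nat_lit 0x30412) (nat_lit 0) (p (nat_lit 0x30212) (nat_lit 0) (p (nat_lit 0x20192) (nat_lit 0) (p (nat_lit 0x20092) (nat_lit 0) (p (nat_lit 0x10012) (nat_lit 0) pn)))))))))))))))))))))))))))))))) :=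
  Cl.node (nat_lit 0x108004) (nat_lit 2) (by decide +kernel) (ClAll.succ (ClAll.succ ClAll.zero n25) s127)

def n42 : Cl (O (nat_lit 6)) (R (nat_lit 102673))
    (p (nat_lit 0x100014) (nat_lit 0) (p (nat_lit 0x200014) (nat_lit 0) (p (nat_lit 0x41) (nat_lit 0) (p (nat_lit 0x101) (nat_lit 1) (p (nat_lit 0x380c2) (nat_lit 0) (p (nat_lit 0x3cc2a) (nat_lit 2) (p (nat_lit 0x109) (nat_lit 1) (p (nat_lit 0xc9) (nat_lit 1) (p (nat_lit 0xc1) (nat_lit 0) (p (nat_lit 0x119) (nat_lit 1) (p (nat_lit 0xd1) (nat_lit 0) (p (nat_lit 0x89) (nat_lit 0) (p (nat_lit 0x41) (nat_lit 0) (p (nat_lit 0x1098a0b090a9a) (nat_lit 0) (p (nat_lit 0x89098a888a1a) (nat_lit 0) (p (nat_lit 0x108890a08079a) (nat_lit 0) (p (nat_lit 0x88088987871a) (nat_lit 0) (p (nat_lit 0x8000080000000078907088a) (nat_lit 0) (p (nat_lit 0x8000080000000070886860a) (nat_lit 0) (p (nat_lit 0x10708060782) (nat_lit 0) (p (nat_lit 0x8687858702)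 (nat_lit 0) (p (nat_lit 0x10607050482) (nat_lit 0) (p (nat_lit 0x8586848402) (nat_lit 0) (p (nat_lit 0x160004) (nat_lit 0) (p (nat_lit 0x50612) (nat_lit 0) (p (nat_lit 0x40592) (nat_lit 0) (p (nat_lit 0x40492) (nat_lit 0) (p (nat_lit 0x30412) (nat_lit 0) (p (nat_lit 0x30212) (nat_lit 0) (p (nat_lit 0x20192) (nat_lit 0) (p (nat_lit 0x20092) (nat_lit 0) (p (nat_lit 0x10012) (nat_lit 0) pn)))))))))))))))))))))))))))))))) :=
  Cl.node (nat_lit 0x20000c) (nat_lit 2) (by decide +kernel) (ClAll.succ (ClAll.succ ClAll.zero n26) s133)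

def n43 : Cl (O (nat_lit 6)) (R (nat_lit 102673))
    (p (nat_lit 0x10000c) (nat_lit 0) (p (nat_lit 0x20000c) (nat_lit 0) (p (nat_lit 0xb0004) (nat_lit 0) (p (nat_lit 0x380c2) (nat_lit 0) (p (nat_lit 0x444aa) (nat_lit 7) (p (nat_lit 0xd1) (nat_lit 1) (p (nat_lit 0x111) (nat_lit 1) (p (nat_lit 0x109) (nat_lit 0) (p (nat_lit 0x101) (nat_lit 0) (p (nat_lit 0x119) (nat_lit 0) (p (nat_lit 0xc9) (nat_lit 0) (p (nat_lit 0x89) (nat_lit 1) (p (nat_lit 0x41) (nat_lit 0) (p (nat_lit 0x1098a0b090a9a) (nat_lit 0) (p (nat_lit 0x89098a888a1a) (nat_lit 0) (p (nat_lit 0x108890a08079a) (nat_lit 0) (p (nat_lit 0x88088987871a) (nat_lit 0) (p (nat_lit 0x8000080000000078907088a) (nat_lit 0) (p (nat_lit 0x8000080000000070886860a) (nat_lit 0) (p (nat_lit 0x10708060782) (nat_lit 0) (p (nat_lit 0x8687858702) (nat_lit 0) (p (nat_lit 0x10607050482) (nat_lit 0) (p (nat_lit 0x8586848402) (nat_lit 0) (p (nat_lit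 0x160004) (nat_lit 0) (p (nat_lit 0x50612) (nat_lit 0) (p (nat_lit 0x40592) (nat_lit 0) (p (nat_lit 0x40492) (nat_lit 0) (p (nat_lit 0x30412) (nat_lit 0) (p (nat_lit 0x30212) (nat_lit 0) (p (nat_lit 0x20192) (nat_lit 0) (p (nat_lit 0x20092) (nat_lit 0) (p (nat_lit 0x10012) (nat_lit 0) pn)))))))))))))))))))))))))))))))) :=
  Cl.node (nat_lit 0xc1) (nat_lit 2) (by decide +kernel) (ClAll.succ (ClAll.succ ClAll.zero n27) s302)

def n44 : Cl (O (nat_lit 6)) (R (nat_lit 102673))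
    (p (nat_lit 0x20000c) (nat_lit 0) (p (nat_lit 0xc1) (nat_lit 0) (p (nat_lit 0xb0004) (nat_lit 0) (p (nat_lit 0x380c2) (nat_lit 1) (p (nat_lit 0x444aa) (nat_lit 7) (p (nat_lit 0xd1) (nat_lit 1) (p (nat_lit 0x111) (nat_lit 1) (p (nat_lit 0x109) (nat_lit 0) (p (nat_lit 0x101) (nat_lit 0) (p (nat_lit 0x119) (nat_lit 0) (p (nat_lit 0xc9) (nat_lit 0) (p (nat_lit 0x89) (nat_lit 1) (p (nat_lit 0x41) (nat_lit 0) (p (nat_lit 0x1098a0b090a9a) (nat_lit 0) (p (nat_lit 0x89098a888a1a) (nat_lit 0) (p (nat_lit 0x108890a08079a) (nat_lit 0) (p (nat_lit 0x88088987871a) (nat_lit 0) (p (nat_lit 0x8000080000000078907088a) (nat_lit 0) (p (nat_lit 0x8000080000000070886860a) (nat_lit 0) (p (nat_lit 0x10708060782) (nat_lit 0) (p (nat_lit 0x8687858702) (nat_lit 0) (p (nat_lit 0x10607050482) (nat_lit 0) (p (nat_lit 0x8586848402) (nat_lit 0) (p (nat_lit 0x160004) (nat_lit 0) (p (nat_lit 0x50612) (nat_lit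 0) (p (nat_lit 0x40592) (nat_lit 0) (p (nat_lit 0x40492) (nat_lit 0) (p (nat_lit 0x30412) (nat_lit 0) (p (nat_lit 0x30212) (nat_lit 0) (p (nat_lit 0x20192) (nat_lit 0) (p (nat_lit 0x20092) (nat_lit 0) (p (nat_lit 0x10012) (nat_lit 0) pn)))))))))))))))))))))))))))))))) :=
  Cl.node (nat_lit 0x10000c) (nat_lit 2) (by decide +kernel) (ClAll.succ (ClAll.succ ClAll.zero n28) s308)

def n45 : Cl (O (nat_lit 6)) (R (nat_lit 102673))
    (p (nat_lit 0x1fc014) (nat_lit 0) (p (nat_lit 0x1fc00c) (nat_lit 0) (p (nat_lit 0xb0004) (nat_lit 1) (p (nat_lit 0x380c2) (nat_lit 1) (p (nat_lit 0x444aa) (nat_lit 7) (p (nat_lit 0xd1) (nat_lit 1) (p (nat_lit 0x111) (nat_lit 1) (p (nat_lit 0x109) (nat_lit 0) (p (nat_lit 0x101) (nat_lit 0) (p (nat_lit 0x119) (nat_lit 0) (p (nat_lit 0xc9) (nat_lit 0) (p (nat_lit 0x89) (nat_lit 1) (p (nat_lit 0x41) (nat_lit 0) (p (nat_lit 0x1098a0b090a9a) (nat_lit 0) (p (nat_lit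 0x89098a888a1a) (nat_lit 0) (p (nat_lit 0x108890a08079a) (nat_lit 0) (p (nat_lit 0x88088987871a) (nat_lit 0) (p (nat_lit 0x8000080000000078907088a) (nat_lit 0) (p (nat_lit 0x8000080000000070886860a) (nat_lit 0) (p (nat_lit 0x10708060782) (nat_lit 0) (p (nat_lit 0x8687858702) (nat_lit 0) (p (nat_lit 0x10607050482) (nat_lit 0) (p (nat_lit 0x8586848402) (nat_lit 0) (p (nat_lit 0x160004) (nat_lit 0) (p (nat_lit 0x50612) (nat_lit 0) (p (nat_lit 0x40592) (nat_lit 0) (p (nat_lit 0x40492) (nat_lit 0) (p (nat_lit 0x30412) (nat_lit 0) (p (nat_lit 0x30212) (nat_lit 0) (p (nat_lit 0x20192) (nat_lit 0) (p (nat_lit 0x20092) (nat_lit 0) (p (nat_lit 0x10012) (nat_lit 0) pn)))))))))))))))))))))))))))))))) :=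
  Cl.node (nat_lit 0x10000c) (nat_lit 2) (by decide +kernel) (ClAll.succ (ClAll.succ ClAll.zero n29) s313)

def n46 : Cl (O (nat_lit 6)) (R (nat_lit 102673))
    (p (nat_lit 0xc1) (nat_lit 0) (p (nat_lit 0x10000c) (nat_lit 0) (p (nat_lit 0x20000c) (nat_lit 0) (p (nat_lit 0xb0004) (nat_lit 0) (p (nat_lit 0x380c2) (nat_lit 0) (p (nat_lit 0x444aa) (nat_lit 7) (p (nat_lit 0xd1) (nat_lit 1) (p (nat_lit 0x109) (nat_lit 1) (p (nat_lit 0x101) (nat_lit 0) (p (nat_lit 0x119) (nat_lit 0) (p (nat_lit 0xc9) (nat_lit 0) (p (nat_lit 0x89) (nat_lit 1) (p (nat_lit 0x41) (nat_lit 0) (p (nat_lit 0x1098a0b090a9a) (nat_lit 0) (p (nat_lit 0x89098a888a1a) (nat_lit 0) (p (nat_lit 0x108890a08079a) (nat_lit 0) (p (nat_lit 0x88088987871a) (nat_lit 0) (p (nat_lit 0x8000080000000078907088a) (nat_lit 0) (p (nat_lit 0x8000080000000070886860a) (nat_lit 0) (p (nat_lit 0x10708060782) (nat_lit 0) (p (nat_lit 0x8687858702)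 (nat_lit 0) (p (nat_lit 0x10607050482) (nat_lit 0) (p (nat_lit 0x8586848402) (nat_lit 0) (p (nat_lit 0x160004) (nat_lit 0) (p (nat_lit 0x50612) (nat_lit 0) (p (nat_lit 0x40592) (nat_lit 0) (p (nat_lit 0x40492) (nat_lit 0) (p (nat_lit 0x30412) (nat_lit 0) (p (nat_lit 0x30212) (nat_lit 0) (p (nat_lit 0x20192) (nat_lit 0) (p (nat_lit 0x20092) (nat_lit 0) (p (nat_lit 0x10012) (nat_lit 0) pn)))))))))))))))))))))))))))))))) :=
  Cl.node (nat_lit 0xc9) (nat_lit 2) (by decide +kernel) (ClAll.succ (ClAll.succ ClAll.zero n30) s345)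

def n47 : Cl (O (nat_lit 6)) (R (nat_lit 102673))
    (p (nat_lit 0x10000c) (nat_lit 0) (p (nat_lit 0x1fc014) (nat_lit 0) (p (nat_lit 0x1fc00c) (nat_lit 0) (p (nat_lit 0xb0004) (nat_lit 1) (p (nat_lit 0x380c2) (nat_lit 0) (p (nat_lit 0x444aa) (nat_lit 7) (p (nat_lit 0xd1) (nat_lit 1) (p (nat_lit 0x109) (nat_lit 1) (p (nat_lit 0x101) (nat_lit 0) (p (nat_lit 0x119) (nat_lit 0) (p (nat_lit 0xc9) (nat_lit 0) (p (nat_lit 0x89) (nat_lit 1) (p (nat_lit 0x41) (nat_lit 0) (p (nat_lit 0x1098a0b090a9a) (nat_lit 0) (p (nat_lit 0x89098a888a1a) (nat_lit 0) (p (nat_lit 0x108890a08079a) (nat_lit 0) (p (nat_lit 0x88088987871a) (nat_lit 0) (p (nat_lit 0x8000080000000078907088a) (nat_lit 0) (p (nat_lit 0x8000080000000070886860a) (nat_lit 0) (p (nat_lit 0x10708060782) (nat_lit 0) (p (nat_lit 0x8687858702) (nat_lit 0) (p (nat_lit 0x10607050482) (nat_lit 0) (p (nat_lit 0x8586848402) (nat_lit 0) (p (nat_lit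 0x160004) (nat_lit 0) (p (nat_lit 0x50612) (nat_lit 0) (p (nat_lit 0x40592) (nat_lit 0) (p (nat_lit 0x40492) (nat_lit 0) (p (nat_lit 0x30412) (nat_lit 0) (p (nat_lit 0x30212) (nat_lit 0) (p (nat_lit 0x20192) (nat_lit 0) (p (nat_lit 0x20092) (nat_lit 0) (p (nat_lit 0x10012) (nat_lit 0) pn)))))))))))))))))))))))))))))))) :=
  Cl.node (nat_lit 0x108004) (nat_lit 2) (by decide +kernel) (ClAll.succ (ClAll.succ ClAll.zero n31) s351)

def n48 : Cl (O (nat_lit 6)) (R (nat_lit 102673))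
    (p (nat_lit 0x10000c) (nat_lit 0) (p (nat_lit 0x20000c) (nat_lit 0) (p (nat_lit 0xc1) (nat_lit 0) (p (nat_lit 0xb0004) (nat_lit 0) (p (nat_lit 0x380c2) (nat_lit 1) (p (nat_lit 0x444aa) (nat_lit 7) (p (nat_lit 0xd1) (nat_lit 1) (p (nat_lit 0x109) (nat_lit 1) (p (nat_lit 0x101) (nat_lit 0) (p (nat_lit 0x119) (nat_lit 0) (p (nat_lit 0xc9) (nat_lit 0) (p (nat_lit 0x89) (nat_lit 1) (p (nat_lit 0x41) (nat_lit 0) (p (nat_lit 0x1098a0b090a9a) (nat_lit 0) (p (nat_lit 0x89098a888a1a) (nat_lit 0) (p (nat_lit 0x108890a08079a) (nat_lit 0) (p (nat_lit 0x88088987871a) (nat_lit 0) (p (nat_lit 0x8000080000000078907088a) (nat_lit 0) (p (nat_lit 0x8000080000000070886860a) (nat_lit 0) (p (nat_lit 0x10708060782) (nat_lit 0) (p (nat_lit 0x8687858702) (nat_lit 0) (p (nat_lit 0x10607050482) (nat_lit 0) (p (nat_lit 0x8586848402) (nat_lit 0) (p (nat_lit 0x160004) (nat_lit 0) (p (nat_lit 0x50612) (nat_lit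 0) (p (nat_lit 0x40592) (nat_lit 0) (p (nat_lit 0x40492) (nat_lit 0) (p (nat_lit 0x30412) (nat_lit 0) (p (nat_lit 0x30212) (nat_lit 0) (p (nat_lit 0x20192) (nat_lit 0) (p (nat_lit 0x20092) (nat_lit 0) (p (nat_lit 0x10012) (nat_lit 0) pn)))))))))))))))))))))))))))))))) :=
  Cl.node (nat_lit 0xc9) (nat_lit 2) (by decide +kernel) (ClAll.succ (ClAll.succ ClAll.zero n32) s357)

def n49 : Cl (O (nat_lit 6)) (R (nat_lit 102673))
    (p (nat_lit 0xb0004) (nat_lit 0) (p (nat_lit 0x380c2) (nat_lit 0) (p (nat_lit 0x44c2a) (nat_lit 1) (p (nat_lit 0x109) (nat_lit 1) (p (nat_lit 0x200014) (nat_lit 0) (p (nat_lit 0x20000c) (nat_lit 0) (p (nat_lit 0xd1) (nat_lit 0) (p (nat_lit 0xc1) (nat_lit 0) (p (nat_lit 0x101) (nat_lit 1) (p (nat_lit 0x119) (nat_lit 0) (p (nat_lit 0xc9) (nat_lit 0) (p (nat_lit 0x89) (nat_lit 1) (p (nat_lit 0x41) (nat_lit 0) (p (nat_lit 0x1098a0b090a9a) (nat_lit 0) (p (nat_lit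 0x89098a888a1a) (nat_lit 0) (p (nat_lit 0x108890a08079a) (nat_lit 0) (p (nat_lit 0x88088987871a) (nat_lit 0) (p (nat_lit 0x8000080000000078907088a) (nat_lit 0) (p (nat_lit 0x8000080000000070886860a) (nat_lit 0) (p (nat_lit 0x10708060782) (nat_lit 0) (p (nat_lit 0x8687858702) (nat_lit 0) (p (nat_lit 0x10607050482) (nat_lit 0) (p (nat_lit 0x8586848402) (nat_lit 0) (p (nat_lit 0x160004) (nat_lit 0) (p (nat_lit 0x50612) (nat_lit 0) (p (nat_lit 0x40592) (nat_lit 0) (p (nat_lit 0x40492) (nat_lit 0) (p (nat_lit 0x30412) (nat_lit 0) (p (nat_lit 0x30212) (nat_lit 0) (p (nat_lit 0x20192) (nat_lit 0) (p (nat_lit 0x20092) (nat_lit 0) (p (nat_lit 0x10012) (nat_lit 0) pn)))))))))))))))))))))))))))))))) :=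
  Cl.node (nat_lit 0x10000c) (nat_lit 2) (by decide +kernel) (ClAll.succ (ClAll.succ ClAll.zero s368) s369)

def n50 : Cl (O (nat_lit 6)) (R (nat_lit 102673))
    (p (nat_lit 0x81) (nat_lit 0) (p (nat_lit 0x10000c) (nat_lit 0) (p (nat_lit 0x20000c) (nat_lit 0) (p (nat_lit 0xb0004) (nat_lit 0) (p (nat_lit 0x380c2) (nat_lit 0) (p (nat_lit 0x444aa) (nat_lit 7) (p (nat_lit 0x119) (nat_lit 1) (p (nat_lit 0x111) (nat_lit 0) (p (nat_lit 0x101) (nat_lit 0) (p (nat_lit 0x109) (nat_lit 0) (p (nat_lit 0xc9) (nat_lit 1) (p (nat_lit 0x89) (nat_lit 1) (p (nat_lit 0x41) (nat_lit 0) (p (nat_lit 0x1098a0b090a9a) (nat_lit 0) (p (nat_lit 0x89098a888a1a) (nat_lit 0) (p (nat_lit 0x108890a08079a) (nat_lit 0) (p (nat_lit 0x88088987871a) (nat_lit 0) (p (nat_lit 0x8000080000000078907088a) (nat_lit 0) (p (nat_lit 0x8000080000000070886860a) (nat_lit 0) (p (nat_lit 0x10708060782) (nat_lit 0) (p (nat_lit 0x8687858702)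 (nat_lit 0) (p (nat_lit 0x10607050482) (nat_lit 0) (p (nat_lit 0x8586848402) (nat_lit 0) (p (nat_lit 0x160004) (nat_lit 0) (p (nat_lit 0x50612) (nat_lit 0) (p (nat_lit 0x40592) (nat_lit 0) (p (nat_lit 0x40492) (nat_lit 0) (p (nat_lit 0x30412) (nat_lit 0) (p (nat_lit 0x30212) (nat_lit 0) (p (nat_lit 0x20192) (nat_lit 0) (p (nat_lit 0x20092) (nat_lit 0) (p (nat_lit 0x10012) (nat_lit 0) pn)))))))))))))))))))))))))))))))) :=
  Cl.node (nat_lit 0x109) (nat_lit 2) (by decide +kernel) (ClAll.succ (ClAll.succ ClAll.zero n33) s453)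

def n51 : Cl (O (nat_lit 6)) (R (nat_lit 102673))
    (p (nat_lit 0x100014) (nat_lit 0) (p (nat_lit 0xc9) (nat_lit 1) (p (nat_lit 0x200014) (nat_lit 0) (p (nat_lit 0x380c2) (nat_lit 0) (p (nat_lit 0x4c42a) (nat_lit 10) (p (nat_lit 0x111) (nat_lit 0) (p (nat_lit 0x89) (nat_lit 0) (p (nat_lit 0x109) (nat_lit 1) (p (nat_lit 0x101) (nat_lit 0) (p (nat_lit 0x119) (nat_lit 0) (p (nat_lit 0xd1) (nat_lit 0) (p (nat_lit 0x81) (nat_lit 0) (p (nat_lit 0x41) (nat_lit 1) (p (nat_lit 0x1098a0b090a9a) (nat_lit 0) (p (nat_lit 0x89098a888a1a) (nat_lit 0) (p (nat_lit 0x108890a08079a) (nat_lit 0) (p (nat_lit 0x88088987871a) (nat_lit 0) (p (nat_lit 0x8000080000000078907088a) (nat_lit 0) (p (nat_lit 0x8000080000000070886860a) (nat_lit 0) (p (nat_lit 0x10708060782) (nat_lit 0) (p (nat_lit 0x8687858702) (nat_lit 0) (p (nat_lit 0x10607050482) (nat_lit 0) (p (nat_lit 0x8586848402) (nat_lit 0) (p (nat_lit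 0x160004) (nat_lit 0) (p (nat_lit 0x50612) (nat_lit 0) (p (nat_lit 0x40592) (nat_lit 0) (p (nat_lit 0x40492) (nat_lit 0) (p (nat_lit 0x30412) (nat_lit 0) (p (nat_lit 0x30212) (nat_lit 0) (p (nat_lit 0x20192) (nat_lit 0) (p (nat_lit 0x20092) (nat_lit 0) (p (nat_lit 0x10012) (nat_lit 0) pn)))))))))))))))))))))))))))))))) :=
  Cl.node (nat_lit 0x444aa) (nat_lit 12) (by decide +kernel) (ClAll.succ (ClAll.succ (ClAll.succ (ClAll.succ (ClAll.succ (ClAll.succ (ClAll.succ (ClAll.succ (ClAll.succ (ClAll.succ (ClAll.succ (ClAll.succ ClAll.zero s479) s480) s481) s482) s483) s484) s485) s486) s487) s488) s489) s490)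

def n52 : Cl (O (nat_lit 6)) (R (nat_lit 102673))
    (p (nat_lit 0x111) (nat_lit 1) (p (nat_lit 0x100014) (nat_lit 0) (p (nat_lit 0x200014) (nat_lit 0) (p (nat_lit 0x380c2) (nat_lit 0) (p (nat_lit 0x4c42a) (nat_lit 10) (p (nat_lit 0xc9) (nat_lit 0) (p (nat_lit 0x89) (nat_lit 1) (p (nat_lit 0x109) (nat_lit 1) (p (nat_lit 0x101) (nat_lit 0) (p (nat_lit 0x119) (nat_lit 0) (p (nat_lit 0xd1) (nat_lit 0) (p (nat_lit 0x81) (nat_lit 0) (p (nat_lit 0x41) (nat_lit 1) (p (nat_lit 0x1098a0b090a9a) (nat_lit 0) (p (nat_lit 0x89098a888a1a) (nat_lit 0) (p (nat_lit 0x108890a08079a) (nat_lit 0) (p (nat_lit 0x88088987871a) (nat_lit 0) (p (nat_lit 0x8000080000000078907088a) (nat_lit 0) (p (nat_lit 0x8000080000000070886860a) (nat_lit 0) (p (nat_lit 0x10708060782) (nat_lit 0) (p (nat_lit 0x8687858702) (nat_lit 0) (p (nat_lit 0x10607050482) (nat_lit 0) (p (nat_lit 0x8586848402) (nat_lit 0) (p (nat_lit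 0x160004) (nat_lit 0) (p (nat_lit 0x50612) (nat_lit 0) (p (nat_lit 0x40592) (nat_lit 0) (p (nat_lit 0x40492) (nat_lit 0) (p (nat_lit 0x30412) (nat_lit 0) (p (nat_lit 0x30212) (nat_lit 0) (p (nat_lit 0x20192) (nat_lit 0) (p (nat_lit 0x20092) (nat_lit 0) (p (nat_lit 0x10012) (nat_lit 0) pn)))))))))))))))))))))))))))))))) :=
  Cl.node (nat_lit 0xd1) (nat_lit 2) (by decide +kernel) (ClAll.succ (ClAll.succ ClAll.zero s519) n34)

def n53 : Cl (O (nat_lit 6)) (R (nat_lit 102673))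
    (p (nat_lit 0xd1) (nat_lit 1) (p (nat_lit 0x100014) (nat_lit 0) (p (nat_lit 0x200014) (nat_lit 0) (p (nat_lit 0x380c2) (nat_lit 0) (p (nat_lit 0x4c42a) (nat_lit 10) (p (nat_lit 0xc9) (nat_lit 0) (p (nat_lit 0x89) (nat_lit 1) (p (nat_lit 0xc1) (nat_lit 0) (p (nat_lit 0x101) (nat_lit 1) (p (nat_lit 0x119) (nat_lit 0) (p (nat_lit 0xd1) (nat_lit 0) (p (nat_lit 0x81) (nat_lit 0) (p (nat_lit 0x41) (nat_lit 1) (p (nat_lit 0x1098a0b090a9a) (nat_lit 0) (p (nat_lit 0x89098a888a1a) (nat_lit 0) (p (nat_lit 0x108890a08079a) (nat_lit 0) (p (nat_lit 0x88088987871a) (nat_lit 0) (p (nat_lit 0x8000080000000078907088a) (nat_lit 0) (p (nat_lit 0x8000080000000070886860a) (nat_lit 0) (p (nat_lit 0x10708060782) (nat_lit 0) (p (nat_lit 0x8687858702) (nat_lit 0) (p (nat_lit 0x10607050482) (nat_lit 0) (p (nat_lit 0x8586848402) (nat_lit 0) (p (nat_lit 0x160004) (nat_lit 0) (p (nat_lit 0x50612) (nat_lit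 0) (p (nat_lit 0x40592) (nat_lit 0) (p (nat_lit 0x40492) (nat_lit 0) (p (nat_lit 0x30412) (nat_lit 0) (p (nat_lit 0x30212) (nat_lit 0) (p (nat_lit 0x20192) (nat_lit 0) (p (nat_lit 0x20092) (nat_lit 0) (p (nat_lit 0x10012) (nat_lit 0) pn)))))))))))))))))))))))))))))))) :=
  Cl.node (nat_lit 0x111) (nat_lit 2) (by decide +kernel) (ClAll.succ (ClAll.succ ClAll.zero s553) n35)

def n54 : Cl (O (nat_lit 6)) (R (nat_lit 102673))
    (p (nat_lit 0x41) (nat_lit 0) (p (nat_lit 0x200014) (nat_lit 0) (p (nat_lit 0x20000c) (nat_lit 0) (p (nat_lit 0xc1) (nat_lit 1) (p (nat_lit 0x119) (nat_lit 1) (p (nat_lit 0xc9) (nat_lit 0) (p (nat_lit 0x89) (nat_lit 1) (p (nat_lit 0x109) (nat_lit 1) (p (nat_lit 0x101) (nat_lit 0) (p (nat_lit 0x111) (nat_lit 0) (p (nat_lit 0xd1) (nat_lit 1) (p (nat_lit 0x81) (nat_lit 0) (p (nat_lit 0x41) (nat_lit 1) (p (nat_lit 0x1098a0b090a9a) (nat_lit 0) (p (nat_lit 0x89098a888a1a)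 (nat_lit 0) (p (nat_lit 0x108890a08079a) (nat_lit 0) (p (nat_lit 0x88088987871a) (nat_lit 0) (p (nat_lit 0x8000080000000078907088a) (nat_lit 0) (p (nat_lit 0x8000080000000070886860a) (nat_lit 0) (p (nat_lit 0x10708060782) (nat_lit 0) (p (nat_lit 0x8687858702) (nat_lit 0) (p (nat_lit 0x10607050482) (nat_lit 0) (p (nat_lit 0x8586848402) (nat_lit 0) (p (nat_lit 0x160004) (nat_lit 0) (p (nat_lit 0x50612) (nat_lit 0) (p (nat_lit 0x40592) (nat_lit 0) (p (nat_lit 0x40492) (nat_lit 0) (p (nat_lit 0x30412) (nat_lit 0) (p (nat_lit 0x30212) (nat_lit 0) (p (nat_lit 0x20192) (nat_lit 0) (p (nat_lit 0x20092) (nat_lit 0) (p (nat_lit 0x10012) (nat_lit 0) pn)))))))))))))))))))))))))))))))) :=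
  Cl.node (nat_lit 0x3cc2a) (nat_lit 12) (by decide +kernel) (ClAll.succ (ClAll.succ (ClAll.succ (ClAll.succ (ClAll.succ (ClAll.succ (ClAll.succ (ClAll.succ (ClAll.succ (ClAll.succ (ClAll.succ (ClAll.succ ClAll.zero s704) s705) n36) s710) s711) s712) s713) s714) s715) s716) s717) s718)

def n55 : Cl (O (nat_lit 6)) (R (nat_lit 102673))
    (p (nat_lit 0x109) (nat_lit 1) (p (nat_lit 0xd1) (nat_lit 0) (p (nat_lit 0x100014) (nat_lit 0) (p (nat_lit 0x200014) (nat_lit 0) (p (nat_lit 0x380c2) (nat_lit 0) (p (nat_lit 0x3cc2a) (nat_lit 2) (p (nat_lit 0xc9) (nat_lit 0) (p (nat_lit 0x89) (nat_lit 1) (p (nat_lit 0x101) (nat_lit 1) (p (nat_lit 0x111) (nat_lit 0) (p (nat_lit 0xd1) (nat_lit 1) (p (nat_lit 0x81) (nat_lit 0) (p (nat_lit 0x41) (nat_lit 1) (p (nat_lit 0x1098a0b090a9a) (nat_lit 0) (p (nat_lit 0x89098a888a1a) (nat_lit 0) (p (nat_lit 0x108890a08079a) (nat_lit 0) (p (nat_lit 0x88088987871a)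 (nat_lit 0) (p (nat_lit 0x8000080000000078907088a) (nat_lit 0) (p (nat_lit 0x8000080000000070886860a) (nat_lit 0) (p (nat_lit 0x10708060782) (nat_lit 0) (p (nat_lit 0x8687858702) (nat_lit 0) (p (nat_lit 0x10607050482) (nat_lit 0) (p (nat_lit 0x8586848402) (nat_lit 0) (p (nat_lit 0x160004) (nat_lit 0) (p (nat_lit 0x50612) (nat_lit 0) (p (nat_lit 0x40592) (nat_lit 0) (p (nat_lit 0x40492) (nat_lit 0) (p (nat_lit 0x30412) (nat_lit 0) (p (nat_lit 0x30212) (nat_lit 0) (p (nat_lit 0x20192) (nat_lit 0) (p (nat_lit 0x20092) (nat_lit 0) (p (nat_lit 0x10012) (nat_lit 0) pn)))))))))))))))))))))))))))))))) :=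
  Cl.node (nat_lit 0xc9) (nat_lit 2) (by decide +kernel) (ClAll.succ (ClAll.succ ClAll.zero s740) n37)

def n56 : Cl (O (nat_lit 6)) (R (nat_lit 102673))
    (p (nat_lit 0x81) (nat_lit 1) (p (nat_lit 0xb0004) (nat_lit 0) (p (nat_lit 0x380c2) (nat_lit 0) (p (nat_lit 0x444aa) (nat_lit 7) (p (nat_lit 0x81) (nat_lit 1) (p (nat_lit 0xc9) (nat_lit 1) (p (nat_lit 0x109) (nat_lit 1) (p (nat_lit 0x101) (nat_lit 0) (p (nat_lit 0x119) (nat_lit 0) (p (nat_lit 0xd1) (nat_lit 0) (p (nat_lit 0x89) (nat_lit 0) (p (nat_lit 0x41) (nat_lit 0) (p (nat_lit 0x1098a0b090a9a) (nat_lit 0) (p (nat_lit 0x89098a888a1a) (nat_lit 0) (p (nat_lit 0x108890a08079a) (nat_lit 0) (p (nat_lit 0x88088987871a) (nat_lit 0) (p (nat_lit 0x8000080000000078907088a) (nat_lit 0) (p (nat_lit 0x8000080000000070886860a) (nat_lit 0) (p (nat_lit 0x10708060782) (nat_lit 0) (p (nat_lit 0x8687858702) (nat_lit 0) (p (nat_lit 0x10607050482)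 (nat_lit 0) (p (nat_lit 0x8586848402) (nat_lit 0) (p (nat_lit 0x160004) (nat_lit 0) (p (nat_lit 0x50612) (nat_lit 0) (p (nat_lit 0x40592) (nat_lit 0) (p (nat_lit 0x40492) (nat_lit 0) (p (nat_lit 0x30412) (nat_lit 0) (p (nat_lit 0x30212) (nat_lit 0) (p (nat_lit 0x20192) (nat_lit 0) (p (nat_lit 0x20092) (nat_lit 0) (p (nat_lit 0x10012) (nat_lit 0) pn))))))))))))))))))))))))))))))) :=
  Cl.node (nat_lit 0xc1) (nat_lit 2) (by decide +kernel) (ClAll.succ (ClAll.succ ClAll.zero n38) s34)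

def n57 : Cl (O (nat_lit 6)) (R (nat_lit 102673))
    (p (nat_lit 0x1fc00c) (nat_lit 0) (p (nat_lit 0xb0004) (nat_lit 1) (p (nat_lit 0x380c2) (nat_lit 0) (p (nat_lit 0x444aa) (nat_lit 7) (p (nat_lit 0x81) (nat_lit 1) (p (nat_lit 0xc9) (nat_lit 1) (p (nat_lit 0x109) (nat_lit 1) (p (nat_lit 0x101) (nat_lit 0) (p (nat_lit 0x119) (nat_lit 0) (p (nat_lit 0xd1) (nat_lit 0) (p (nat_lit 0x89) (nat_lit 0) (p (nat_lit 0x41) (nat_lit 0) (p (nat_lit 0x1098a0b090a9a) (nat_lit 0) (p (nat_lit 0x89098a888a1a) (nat_lit 0) (p (nat_lit 0x108890a08079a) (nat_lit 0) (p (nat_lit 0x88088987871a) (nat_lit 0) (p (nat_lit 0x8000080000000078907088a) (nat_lit 0) (p (nat_lit 0x8000080000000070886860a) (nat_lit 0) (p (nat_lit 0x10708060782) (nat_lit 0) (p (nat_lit 0x8687858702) (nat_lit 0) (p (nat_lit 0x10607050482) (nat_lit 0) (p (nat_lit 0x8586848402) (nat_lit 0) (p (nat_lit 0x160004) (nat_lit 0) (p (nat_lit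 0x50612) (nat_lit 0) (p (nat_lit 0x40592) (nat_lit 0) (p (nat_lit 0x40492) (nat_lit 0) (p (nat_lit 0x30412) (nat_lit 0) (p (nat_lit 0x30212) (nat_lit 0) (p (nat_lit 0x20192) (nat_lit 0) (p (nat_lit 0x20092) (nat_lit 0) (p (nat_lit 0x10012) (nat_lit 0) pn))))))))))))))))))))))))))))))) :=
  Cl.node (nat_lit 0x1fc014) (nat_lit 2) (by decide +kernel) (ClAll.succ (ClAll.succ ClAll.zero n39) s39)

def n58 : Cl (O (nat_lit 6)) (R (nat_lit 102673))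
    (p (nat_lit 0x81) (nat_lit 1) (p (nat_lit 0xb0004) (nat_lit 0) (p (nat_lit 0x380c2) (nat_lit 1) (p (nat_lit 0x444aa) (nat_lit 7) (p (nat_lit 0x81) (nat_lit 1) (p (nat_lit 0xc9) (nat_lit 1) (p (nat_lit 0x109) (nat_lit 1) (p (nat_lit 0x101) (nat_lit 0) (p (nat_lit 0x119) (nat_lit 0) (p (nat_lit 0xd1) (nat_lit 0) (p (nat_lit 0x89) (nat_lit 0) (p (nat_lit 0x41) (nat_lit 0) (p (nat_lit 0x1098a0b090a9a) (nat_lit 0) (p (nat_lit 0x89098a888a1a) (nat_lit 0) (p (nat_lit 0x108890a08079a) (nat_lit 0) (p (nat_lit 0x88088987871a) (nat_lit 0) (p (nat_lit 0x8000080000000078907088a) (nat_lit 0) (p (nat_lit 0x8000080000000070886860a) (nat_lit 0) (p (nat_lit 0x10708060782) (nat_lit 0) (p (nat_lit 0x8687858702) (nat_lit 0) (p (nat_lit 0x10607050482) (nat_lit 0) (p (nat_lit 0x8586848402) (nat_lit 0) (p (nat_lit 0x160004) (nat_lit 0) (p (nat_lit 0x50612) (nat_lit 0) (p (nat_lit 0x40592) (nat_lit 0)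 (p (nat_lit 0x40492) (nat_lit 0) (p (nat_lit 0x30412) (nat_lit 0) (p (nat_lit 0x30212) (nat_lit 0) (p (nat_lit 0x20192) (nat_lit 0) (p (nat_lit 0x20092) (nat_lit 0) (p (nat_lit 0x10012) (nat_lit 0) pn))))))))))))))))))))))))))))))) :=
  Cl.node (nat_lit 0xc1) (nat_lit 2) (by decide +kernel) (ClAll.succ (ClAll.succ ClAll.zero s42) s43)

def n59 : Cl (O (nat_lit 6)) (R (nat_lit 102673))
    (p (nat_lit 0x1fc00c) (nat_lit 0) (p (nat_lit 0xb0004) (nat_lit 1) (p (nat_lit 0x380c2) (nat_lit 1) (p (nat_lit 0x444aa) (nat_lit 7) (p (nat_lit 0x81) (nat_lit 1) (p (nat_lit 0xc9) (nat_lit 1) (p (nat_lit 0x109) (nat_lit 1) (p (nat_lit 0x101) (nat_lit 0) (p (nat_lit 0x119) (nat_lit 0) (p (nat_lit 0xd1) (nat_lit 0) (p (nat_lit 0x89) (nat_lit 0) (p (nat_lit 0x41) (nat_lit 0) (p (nat_lit 0x1098a0b090a9a) (nat_lit 0) (p (nat_lit 0x89098a888a1a) (nat_lit 0) (p (nat_lit 0x108890a08079a) (nat_lit 0) (p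 (nat_lit 0x88088987871a) (nat_lit 0) (p (nat_lit 0x8000080000000078907088a) (nat_lit 0) (p (nat_lit 0x8000080000000070886860a) (nat_lit 0) (p (nat_lit 0x10708060782) (nat_lit 0) (p (nat_lit 0x8687858702) (nat_lit 0) (p (nat_lit 0x10607050482) (nat_lit 0) (p (nat_lit 0x8586848402) (nat_lit 0) (p (nat_lit 0x160004) (nat_lit 0) (p (nat_lit 0x50612) (nat_lit 0) (p (nat_lit 0x40592) (nat_lit 0) (p (nat_lit 0x40492) (nat_lit 0) (p (nat_lit 0x30412) (nat_lit 0) (p (nat_lit 0x30212) (nat_lit 0) (p (nat_lit 0x20192) (nat_lit 0) (p (nat_lit 0x20092) (nat_lit 0) (p (nat_lit 0x10012) (nat_lit 0) pn))))))))))))))))))))))))))))))) :=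
  Cl.node (nat_lit 0x1fc014) (nat_lit 2) (by decide +kernel) (ClAll.succ (ClAll.succ ClAll.zero n40) s48)

def n60 : Cl (O (nat_lit 6)) (R (nat_lit 102673))
    (p (nat_lit 0x10000c) (nat_lit 0) (p (nat_lit 0x20000c) (nat_lit 0) (p (nat_lit 0x380c2) (nat_lit 0) (p (nat_lit 0x444aa) (nat_lit 7) (p (nat_lit 0x111) (nat_lit 0) (p (nat_lit 0xc9) (nat_lit 1) (p (nat_lit 0x81) (nat_lit 0) (p (nat_lit 0x101) (nat_lit 1) (p (nat_lit 0x119) (nat_lit 0) (p (nat_lit 0xd1) (nat_lit 0) (p (nat_lit 0x89) (nat_lit 0) (p (nat_lit 0x41) (nat_lit 0) (p (nat_lit 0x1098a0b090a9a) (nat_lit 0) (p (nat_lit 0x89098a888a1a) (nat_lit 0) (p (nat_lit 0x108890a08079a) (nat_lit 0) (p (nat_lit 0x88088987871a) (nat_lit 0) (p (nat_lit 0x8000080000000078907088a) (nat_lit 0) (p (nat_lit 0x8000080000000070886860a) (nat_lit 0) (p (nat_lit 0x10708060782) (nat_lit 0) (p (nat_lit 0x8687858702) (nat_lit 0) (p (nat_lit 0x10607050482)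 (nat_lit 0) (p (nat_lit 0x8586848402) (nat_lit 0) (p (nat_lit 0x160004) (nat_lit 0) (p (nat_lit 0x50612) (nat_lit 0) (p (nat_lit 0x40592) (nat_lit 0) (p (nat_lit 0x40492) (nat_lit 0) (p (nat_lit 0x30412) (nat_lit 0) (p (nat_lit 0x30212) (nat_lit 0) (p (nat_lit 0x20192) (nat_lit 0) (p (nat_lit 0x20092) (nat_lit 0) (p (nat_lit 0x10012) (nat_lit 0) pn))))))))))))))))))))))))))))))) :=
  Cl.node (nat_lit 0x89) (nat_lit 2) (by decide +kernel) (ClAll.succ (ClAll.succ ClAll.zero s74) s75)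

def n61 : Cl (O (nat_lit 6)) (R (nat_lit 102673))
    (p (nat_lit 0x20000c) (nat_lit 0) (p (nat_lit 0xb0004) (nat_lit 0) (p (nat_lit 0x380c2) (nat_lit 1) (p (nat_lit 0x444aa) (nat_lit 7) (p (nat_lit 0x111) (nat_lit 0) (p (nat_lit 0xc9) (nat_lit 1) (p (nat_lit 0x81) (nat_lit 0) (p (nat_lit 0x101) (nat_lit 1) (p (nat_lit 0x119) (nat_lit 0) (p (nat_lit 0xd1) (nat_lit 0) (p (nat_lit 0x89) (nat_lit 0) (p (nat_lit 0x41) (nat_lit 0) (p (nat_lit 0x1098a0b090a9a) (nat_lit 0) (p (nat_lit 0x89098a888a1a) (nat_lit 0) (p (nat_lit 0x108890a08079a) (nat_lit 0) (p (nat_lit 0x88088987871a) (nat_lit 0) (p (nat_lit 0x8000080000000078907088a) (nat_lit 0) (p (nat_lit 0x8000080000000070886860a) (nat_lit 0) (p (nat_lit 0x10708060782) (nat_lit 0) (p (nat_lit 0x8687858702) (nat_lit 0) (p (nat_lit 0x10607050482) (nat_lit 0) (p (nat_lit 0x8586848402) (nat_lit 0) (p (nat_lit 0x160004) (nat_lit 0) (p (nat_lit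 0x50612) (nat_lit 0) (p (nat_lit 0x40592) (nat_lit 0) (p (nat_lit 0x40492) (nat_lit 0) (p (nat_lit 0x30412) (nat_lit 0) (p (nat_lit 0x30212) (nat_lit 0) (p (nat_lit 0x20192) (nat_lit 0) (p (nat_lit 0x20092) (nat_lit 0) (p (nat_lit 0x10012) (nat_lit 0) pn))))))))))))))))))))))))))))))) :=
  Cl.node (nat_lit 0x89) (nat_lit 2) (by decide +kernel) (ClAll.succ (ClAll.succ ClAll.zero s78) s79)

def n62 : Cl (O (nat_lit 6)) (R (nat_lit 102673))
    (p (nat_lit 0x200014) (nat_lit 0) (p (nat_lit 0xb0004) (nat_lit 0) (p (nat_lit 0x101) (nat_lit 0) (p (nat_lit 0x380c2) (nat_lit 0) (p (nat_lit 0x3cc2a) (nat_lit 2) (p (nat_lit 0x109) (nat_lit 1) (p (nat_lit 0xc9) (nat_lit 1) (p (nat_lit 0xc1) (nat_lit 0) (p (nat_lit 0x119) (nat_lit 1) (p (nat_lit 0xd1) (nat_lit 0) (p (nat_lit 0x89) (nat_lit 0) (p (nat_lit 0x41) (nat_lit 0) (p (nat_lit 0x1098a0b090a9a) (nat_lit 0) (p (nat_lit 0x89098a888a1a) (nat_lit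 0) (p (nat_lit 0x108890a08079a) (nat_lit 0) (p (nat_lit 0x88088987871a) (nat_lit 0) (p (nat_lit 0x8000080000000078907088a) (nat_lit 0) (p (nat_lit 0x8000080000000070886860a) (nat_lit 0) (p (nat_lit 0x10708060782) (nat_lit 0) (p (nat_lit 0x8687858702) (nat_lit 0) (p (nat_lit 0x10607050482) (nat_lit 0) (p (nat_lit 0x8586848402) (nat_lit 0) (p (nat_lit 0x160004) (nat_lit 0) (p (nat_lit 0x50612) (nat_lit 0) (p (nat_lit 0x40592) (nat_lit 0) (p (nat_lit 0x40492) (nat_lit 0) (p (nat_lit 0x30412) (nat_lit 0) (p (nat_lit 0x30212) (nat_lit 0) (p (nat_lit 0x20192) (nat_lit 0) (p (nat_lit 0x20092) (nat_lit 0) (p (nat_lit 0x10012) (nat_lit 0) pn))))))))))))))))))))))))))))))) :=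
  Cl.node (nat_lit 0x100014) (nat_lit 2) (by decide +kernel) (ClAll.succ (ClAll.succ ClAll.zero s119) s120)

def n63 : Cl (O (nat_lit 6)) (R (nat_lit 102673))
    (p (nat_lit 0x1fc00c) (nat_lit 0) (p (nat_lit 0xb0004) (nat_lit 1) (p (nat_lit 0x101) (nat_lit 0) (p (nat_lit 0x380c2) (nat_lit 0) (p (nat_lit 0x3cc2a) (nat_lit 2) (p (nat_lit 0x109) (nat_lit 1) (p (nat_lit 0xc9) (nat_lit 1) (p (nat_lit 0xc1) (nat_lit 0) (p (nat_lit 0x119) (nat_lit 1) (p (nat_lit 0xd1) (nat_lit 0) (p (nat_lit 0x89) (nat_lit 0) (p (nat_lit 0x41) (nat_lit 0) (p (nat_lit 0x1098a0b090a9a) (nat_lit 0) (p (nat_lit 0x89098a888a1a) (nat_lit 0) (p (nat_lit 0x108890a08079a) (nat_lit 0) (p (nat_lit 0x88088987871a) (nat_lit 0) (p (nat_lit 0x8000080000000078907088a) (nat_lit 0) (p (nat_lit 0x8000080000000070886860a) (nat_lit 0) (p (nat_lit 0x10708060782) (nat_lit 0) (p (nat_lit 0x8687858702) (nat_lit 0) (p (nat_lit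 0x10607050482) (nat_lit 0) (p (nat_lit 0x8586848402) (nat_lit 0) (p (nat_lit 0x160004) (nat_lit 0) (p (nat_lit 0x50612) (nat_lit 0) (p (nat_lit 0x40592) (nat_lit 0) (p (nat_lit 0x40492) (nat_lit 0) (p (nat_lit 0x30412) (nat_lit 0) (p (nat_lit 0x30212) (nat_lit 0) (p (nat_lit 0x20192) (nat_lit 0) (p (nat_lit 0x20092) (nat_lit 0) (p (nat_lit 0x10012) (nat_lit 0) pn))))))))))))))))))))))))))))))) :=
  Cl.node (nat_lit 0x1fc014) (nat_lit 2) (by decide +kernel) (ClAll.succ (ClAll.succ ClAll.zero n41) s128)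

def n64 : Cl (O (nat_lit 6)) (R (nat_lit 102673))
    (p (nat_lit 0x200014) (nat_lit 0) (p (nat_lit 0x41) (nat_lit 0) (p (nat_lit 0x101) (nat_lit 1) (p (nat_lit 0x380c2) (nat_lit 0) (p (nat_lit 0x3cc2a) (nat_lit 2) (p (nat_lit 0x109) (nat_lit 1) (p (nat_lit 0xc9) (nat_lit 1) (p (nat_lit 0xc1) (nat_lit 0) (p (nat_lit 0x119) (nat_lit 1) (p (nat_lit 0xd1) (nat_lit 0) (p (nat_lit 0x89) (nat_lit 0) (p (nat_lit 0x41) (nat_lit 0) (p (nat_lit 0x1098a0b090a9a) (nat_lit 0) (p (nat_lit 0x89098a888a1a) (nat_lit 0) (p (nat_lit 0x108890a08079a) (nat_lit 0) (p (nat_lit 0x88088987871a) (nat_lit 0) (p (nat_lit 0x8000080000000078907088a) (nat_lit 0) (p (nat_lit 0x8000080000000070886860a) (nat_lit 0) (p (nat_lit 0x10708060782) (nat_lit 0) (p (nat_lit 0x8687858702) (nat_lit 0) (p (nat_lit 0x10607050482) (nat_lit 0) (p (nat_lit 0x8586848402) (nat_lit 0) (p (nat_lit 0x160004) (nat_lit 0) (p (nat_lit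 0x50612) (nat_lit 0) (p (nat_lit 0x40592) (nat_lit 0) (p (nat_lit 0x40492) (nat_lit 0) (p (nat_lit 0x30412) (nat_lit 0) (p (nat_lit 0x30212) (nat_lit 0) (p (nat_lit 0x20192) (nat_lit 0) (p (nat_lit 0x20092) (nat_lit 0) (p (nat_lit 0x10012) (nat_lit 0) pn))))))))))))))))))))))))))))))) :=
  Cl.node (nat_lit 0x100014) (nat_lit 2) (by decide +kernel) (ClAll.succ (ClAll.succ ClAll.zero n42) s134)

def n65 : Cl (O (nat_lit 6)) (R (nat_lit 102673))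
    (p (nat_lit 0x100014) (nat_lit 0) (p (nat_lit 0x200014) (nat_lit 0) (p (nat_lit 0xc9) (nat_lit 1) (p (nat_lit 0x380c2) (nat_lit 0) (p (nat_lit 0x3cc2a) (nat_lit 2) (p (nat_lit 0x109) (nat_lit 1) (p (nat_lit 0x81) (nat_lit 0) (p (nat_lit 0xc1) (nat_lit 1) (p (nat_lit 0x119) (nat_lit 1) (p (nat_lit 0xd1) (nat_lit 0) (p (nat_lit 0x89) (nat_lit 0) (p (nat_lit 0x41) (nat_lit 0) (p (nat_lit 0x1098a0b090a9a) (nat_lit 0) (p (nat_lit 0x89098a888a1a) (nat_lit 0) (p (nat_lit 0x108890a08079a) (nat_lit 0) (p (nat_lit 0x88088987871a) (nat_lit 0) (p (nat_lit 0x8000080000000078907088a) (nat_lit 0) (p (nat_lit 0x8000080000000070886860a) (nat_lit 0) (p (nat_lit 0x10708060782) (nat_lit 0) (p (nat_lit 0x8687858702) (nat_lit 0) (p (nat_lit 0x10607050482) (nat_lit 0) (p (nat_lit 0x8586848402) (nat_lit 0) (p (nat_lit 0x160004) (nat_lit 0) (p (nat_lit 0x50612) (nat_lit 0) (p (nat_lit 0x40592) (nat_lit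 0) (p (nat_lit 0x40492) (nat_lit 0) (p (nat_lit 0x30412) (nat_lit 0) (p (nat_lit 0x30212) (nat_lit 0) (p (nat_lit 0x20192) (nat_lit 0) (p (nat_lit 0x20092) (nat_lit 0) (p (nat_lit 0x10012) (nat_lit 0) pn))))))))))))))))))))))))))))))) :=
  Cl.node (nat_lit 0xb0004) (nat_lit 2) (by decide +kernel) (ClAll.succ (ClAll.succ ClAll.zero s150) s151)

def n66 : Cl (O (nat_lit 6)) (R (nat_lit 102673))
    (p (nat_lit 0x380c2) (nat_lit 0) (p (nat_lit 0x3cc2a) (nat_lit 1) (p (nat_lit 0x41) (nat_lit 0) (p (nat_lit 0x200014) (nat_lit 0) (p (nat_lit 0x20000c) (nat_lit 0) (p (nat_lit 0xc1) (nat_lit 1) (p (nat_lit 0x109) (nat_lit 1) (p (nat_lit 0x101) (nat_lit 0) (p (nat_lit 0x111) (nat_lit 0) (p (nat_lit 0xd1) (nat_lit 1) (p (nat_lit 0x89) (nat_lit 0) (p (nat_lit 0x41) (nat_lit 0) (p (nat_lit 0x1098a0b090a9a) (nat_lit 0) (p (nat_lit 0x89098a888a1a) (nat_lit 0) (p (nat_lit 0x108890a08079a) (nat_lit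 0) (p (nat_lit 0x88088987871a) (nat_lit 0) (p (nat_lit 0x8000080000000078907088a) (nat_lit 0) (p (nat_lit 0x8000080000000070886860a) (nat_lit 0) (p (nat_lit 0x10708060782) (nat_lit 0) (p (nat_lit 0x8687858702) (nat_lit 0) (p (nat_lit 0x10607050482) (nat_lit 0) (p (nat_lit 0x8586848402) (nat_lit 0) (p (nat_lit 0x160004) (nat_lit 0) (p (nat_lit 0x50612) (nat_lit 0) (p (nat_lit 0x40592) (nat_lit 0) (p (nat_lit 0x40492) (nat_lit 0) (p (nat_lit 0x30412) (nat_lit 0) (p (nat_lit 0x30212) (nat_lit 0) (p (nat_lit 0x20192) (nat_lit 0) (p (nat_lit 0x20092) (nat_lit 0) (p (nat_lit 0x10012) (nat_lit 0) pn))))))))))))))))))))))))))))))) :=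
  Cl.node (nat_lit 0xb0004) (nat_lit 2) (by decide +kernel) (ClAll.succ (ClAll.succ ClAll.zero s206) s207)

def n67 : Cl (O (nat_lit 6)) (R (nat_lit 102673))
    (p (nat_lit 0x20000c) (nat_lit 0) (p (nat_lit 0xb0004) (nat_lit 0) (p (nat_lit 0x380c2) (nat_lit 0) (p (nat_lit 0x444aa) (nat_lit 7) (p (nat_lit 0xd1) (nat_lit 1) (p (nat_lit 0x111) (nat_lit 1) (p (nat_lit 0x109) (nat_lit 0) (p (nat_lit 0x101) (nat_lit 0) (p (nat_lit 0x119) (nat_lit 0) (p (nat_lit 0xc9) (nat_lit 0) (p (nat_lit 0x89) (nat_lit 1) (p (nat_lit 0x41) (nat_lit 0) (p (nat_lit 0x1098a0b090a9a) (nat_lit 0) (p (nat_lit 0x89098a888a1a) (nat_lit 0) (p (nat_lit 0x108890a08079a) (nat_lit 0) (p (nat_lit 0x88088987871a) (nat_lit 0) (p (nat_lit 0x8000080000000078907088a) (nat_lit 0) (p (nat_lit 0x8000080000000070886860a) (nat_lit 0) (p (nat_lit 0x10708060782) (nat_lit 0) (p (nat_lit 0x8687858702) (nat_lit 0) (p (nat_lit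 0x10607050482) (nat_lit 0) (p (nat_lit 0x8586848402) (nat_lit 0) (p (nat_lit 0x160004) (nat_lit 0) (p (nat_lit 0x50612) (nat_lit 0) (p (nat_lit 0x40592) (nat_lit 0) (p (nat_lit 0x40492) (nat_lit 0) (p (nat_lit 0x30412) (nat_lit 0) (p (nat_lit 0x30212) (nat_lit 0) (p (nat_lit 0x20192) (nat_lit 0) (p (nat_lit 0x20092) (nat_lit 0) (p (nat_lit 0x10012) (nat_lit 0) pn))))))))))))))))))))))))))))))) :=
  Cl.node (nat_lit 0x10000c) (nat_lit 2) (by decide +kernel) (ClAll.succ (ClAll.succ ClAll.zero n43) s303)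

def n68 : Cl (O (nat_lit 6)) (R (nat_lit 102673))
    (p (nat_lit 0xc1) (nat_lit 0) (p (nat_lit 0xb0004) (nat_lit 0) (p (nat_lit 0x380c2) (nat_lit 1) (p (nat_lit 0x444aa) (nat_lit 7) (p (nat_lit 0xd1) (nat_lit 1) (p (nat_lit 0x111) (nat_lit 1) (p (nat_lit 0x109) (nat_lit 0) (p (nat_lit 0x101) (nat_lit 0) (p (nat_lit 0x119) (nat_lit 0) (p (nat_lit 0xc9) (nat_lit 0) (p (nat_lit 0x89) (nat_lit 1) (p (nat_lit 0x41) (nat_lit 0) (p (nat_lit 0x1098a0b090a9a) (nat_lit 0) (p (nat_lit 0x89098a888a1a) (nat_lit 0) (p (nat_lit 0x108890a08079a) (nat_lit 0) (p (nat_lit 0x88088987871a) (nat_lit 0) (p (nat_lit 0x8000080000000078907088a) (nat_lit 0) (p (nat_lit 0x8000080000000070886860a) (nat_lit 0) (p (nat_lit 0x10708060782) (nat_lit 0) (p (nat_lit 0x8687858702) (nat_lit 0) (p (nat_lit 0x10607050482) (nat_lit 0) (p (nat_lit 0x8586848402) (nat_lit 0) (p (nat_lit 0x160004) (nat_lit 0) (p (nat_lit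 0x50612) (nat_lit 0) (p (nat_lit 0x40592) (nat_lit 0) (p (nat_lit 0x40492) (nat_lit 0) (p (nat_lit 0x30412) (nat_lit 0) (p (nat_lit 0x30212) (nat_lit 0) (p (nat_lit 0x20192) (nat_lit 0) (p (nat_lit 0x20092) (nat_lit 0) (p (nat_lit 0x10012) (nat_lit 0) pn))))))))))))))))))))))))))))))) :=
  Cl.node (nat_lit 0x20000c) (nat_lit 2) (by decide +kernel) (ClAll.succ (ClAll.succ ClAll.zero n44) s309)

def n69 : Cl (O (nat_lit 6)) (R (nat_lit 102673))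
    (p (nat_lit 0x1fc00c) (nat_lit 0) (p (nat_lit 0xb0004) (nat_lit 1) (p (nat_lit 0x380c2) (nat_lit 1) (p (nat_lit 0x444aa) (nat_lit 7) (p (nat_lit 0xd1) (nat_lit 1) (p (nat_lit 0x111) (nat_lit 1) (p (nat_lit 0x109) (nat_lit 0) (p (nat_lit 0x101) (nat_lit 0) (p (nat_lit 0x119) (nat_lit 0) (p (nat_lit 0xc9) (nat_lit 0) (p (nat_lit 0x89) (nat_lit 1) (p (nat_lit 0x41) (nat_lit 0) (p (nat_lit 0x1098a0b090a9a) (nat_lit 0) (p (nat_lit 0x89098a888a1a) (nat_lit 0) (p (nat_lit 0x108890a08079a) (nat_lit 0) (p (nat_lit 0x88088987871a) (nat_lit 0) (p (nat_lit 0x8000080000000078907088a) (nat_lit 0) (p (nat_lit 0x8000080000000070886860a) (nat_lit 0) (p (nat_lit 0x10708060782) (nat_lit 0) (p (nat_lit 0x8687858702) (nat_lit 0) (p (nat_lit 0x10607050482) (nat_lit 0) (p (nat_lit 0x8586848402) (nat_lit 0) (p (nat_lit 0x160004) (nat_lit 0) (p (nat_lit 0x50612) (nat_lit 0) (p (nat_lit 0x40592) (nat_lit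 0) (p (nat_lit 0x40492) (nat_lit 0) (p (nat_lit 0x30412) (nat_lit 0) (p (nat_lit 0x30212) (nat_lit 0) (p (nat_lit 0x20192) (nat_lit 0) (p (nat_lit 0x20092) (nat_lit 0) (p (nat_lit 0x10012) (nat_lit 0) pn))))))))))))))))))))))))))))))) :=
  Cl.node (nat_lit 0x1fc014) (nat_lit 2) (by decide +kernel) (ClAll.succ (ClAll.succ ClAll.zero n45) s314)

def n70 : Cl (O (nat_lit 6)) (R (nat_lit 102673))
    (p (nat_lit 0x380c2) (nat_lit 0) (p (nat_lit 0x44c2a) (nat_lit 1) (p (nat_lit 0x41) (nat_lit 0) (p (nat_lit 0x200014) (nat_lit 0) (p (nat_lit 0x20000c) (nat_lit 0) (p (nat_lit 0xd1) (nat_lit 0) (p (nat_lit 0x109) (nat_lit 1) (p (nat_lit 0x101) (nat_lit 0) (p (nat_lit 0x119) (nat_lit 0) (p (nat_lit 0xc9) (nat_lit 0) (p (nat_lit 0x89) (nat_lit 1) (p (nat_lit 0x41) (nat_lit 0) (p (nat_lit 0x1098a0b090a9a) (nat_lit 0) (p (nat_lit 0x89098a888a1a) (nat_lit 0) (p (nat_lit 0x108890a08079a) (nat_lit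 0) (p (nat_lit 0x88088987871a) (nat_lit 0) (p (nat_lit 0x8000080000000078907088a) (nat_lit 0) (p (nat_lit 0x8000080000000070886860a) (nat_lit 0) (p (nat_lit 0x10708060782) (nat_lit 0) (p (nat_lit 0x8687858702) (nat_lit 0) (p (nat_lit 0x10607050482) (nat_lit 0) (p (nat_lit 0x8586848402) (nat_lit 0) (p (nat_lit 0x160004) (nat_lit 0) (p (nat_lit 0x50612) (nat_lit 0) (p (nat_lit 0x40592) (nat_lit 0) (p (nat_lit 0x40492) (nat_lit 0) (p (nat_lit 0x30412) (nat_lit 0) (p (nat_lit 0x30212) (nat_lit 0) (p (nat_lit 0x20192) (nat_lit 0) (p (nat_lit 0x20092) (nat_lit 0) (p (nat_lit 0x10012) (nat_lit 0) pn))))))))))))))))))))))))))))))) :=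
  Cl.node (nat_lit 0xb0004) (nat_lit 2) (by decide +kernel) (ClAll.succ (ClAll.succ ClAll.zero s321) s322)

def n71 : Cl (O (nat_lit 6)) (R (nat_lit 102673))
    (p (nat_lit 0x10000c) (nat_lit 0) (p (nat_lit 0x20000c) (nat_lit 0) (p (nat_lit 0xb0004) (nat_lit 0) (p (nat_lit 0x380c2) (nat_lit 0) (p (nat_lit 0x444aa) (nat_lit 7) (p (nat_lit 0xd1) (nat_lit 1) (p (nat_lit 0x109) (nat_lit 1) (p (nat_lit 0x101) (nat_lit 0) (p (nat_lit 0x119) (nat_lit 0) (p (nat_lit 0xc9) (nat_lit 0) (p (nat_lit 0x89) (nat_lit 1) (p (nat_lit 0x41) (nat_lit 0) (p (nat_lit 0x1098a0b090a9a) (nat_lit 0) (p (nat_lit 0x89098a888a1a) (nat_lit 0) (p (nat_lit 0x108890a08079a) (nat_lit 0) (p (nat_lit 0x88088987871a) (nat_lit 0) (p (nat_lit 0x8000080000000078907088a) (nat_lit 0) (p (nat_lit 0x8000080000000070886860a) (nat_lit 0) (p (nat_lit 0x10708060782) (nat_lit 0) (p (nat_lit 0x8687858702) (nat_lit 0) (p (nat_lit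 0x10607050482) (nat_lit 0) (p (nat_lit 0x8586848402) (nat_lit 0) (p (nat_lit 0x160004) (nat_lit 0) (p (nat_lit 0x50612) (nat_lit 0) (p (nat_lit 0x40592) (nat_lit 0) (p (nat_lit 0x40492) (nat_lit 0) (p (nat_lit 0x30412) (nat_lit 0) (p (nat_lit 0x30212) (nat_lit 0) (p (nat_lit 0x20192) (nat_lit 0) (p (nat_lit 0x20092) (nat_lit 0) (p (nat_lit 0x10012) (nat_lit 0) pn))))))))))))))))))))))))))))))) :=
  Cl.node (nat_lit 0xc1) (nat_lit 2) (by decide +kernel) (ClAll.succ (ClAll.succ ClAll.zero n46) s346)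

def n72 : Cl (O (nat_lit 6)) (R (nat_lit 102673))
    (p (nat_lit 0x1fc014) (nat_lit 0) (p (nat_lit 0x1fc00c) (nat_lit 0) (p (nat_lit 0xb0004) (nat_lit 1) (p (nat_lit 0x380c2) (nat_lit 0) (p (nat_lit 0x444aa) (nat_lit 7) (p (nat_lit 0xd1) (nat_lit 1) (p (nat_lit 0x109) (nat_lit 1) (p (nat_lit 0x101) (nat_lit 0) (p (nat_lit 0x119) (nat_lit 0) (p (nat_lit 0xc9) (nat_lit 0) (p (nat_lit 0x89) (nat_lit 1) (p (nat_lit 0x41) (nat_lit 0) (p (nat_lit 0x1098a0b090a9a) (nat_lit 0) (p (nat_lit 0x89098a888a1a) (nat_lit 0) (p (nat_lit 0x108890a08079a) (nat_lit 0) (p (nat_lit 0x88088987871a) (nat_lit 0) (p (nat_lit 0x8000080000000078907088a) (nat_lit 0) (p (nat_lit 0x8000080000000070886860a) (nat_lit 0) (p (nat_lit 0x10708060782) (nat_lit 0) (p (nat_lit 0x8687858702) (nat_lit 0) (p (nat_lit 0x10607050482) (nat_lit 0) (p (nat_lit 0x8586848402) (nat_lit 0) (p (nat_lit 0x160004) (nat_lit 0) (p (nat_lit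 0x50612) (nat_lit 0) (p (nat_lit 0x40592) (nat_lit 0) (p (nat_lit 0x40492) (nat_lit 0) (p (nat_lit 0x30412) (nat_lit 0) (p (nat_lit 0x30212) (nat_lit 0) (p (nat_lit 0x20192) (nat_lit 0) (p (nat_lit 0x20092) (nat_lit 0) (p (nat_lit 0x10012) (nat_lit 0) pn))))))))))))))))))))))))))))))) :=
  Cl.node (nat_lit 0x10000c) (nat_lit 2) (by decide +kernel) (ClAll.succ (ClAll.succ ClAll.zero n47) s352)

def n73 : Cl (O (nat_lit 6)) (R (nat_lit 102673))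
    (p (nat_lit 0x20000c) (nat_lit 0) (p (nat_lit 0xc1) (nat_lit 0) (p (nat_lit 0xb0004) (nat_lit 0) (p (nat_lit 0x380c2) (nat_lit 1) (p (nat_lit 0x444aa) (nat_lit 7) (p (nat_lit 0xd1) (nat_lit 1) (p (nat_lit 0x109) (nat_lit 1) (p (nat_lit 0x101) (nat_lit 0) (p (nat_lit 0x119) (nat_lit 0) (p (nat_lit 0xc9) (nat_lit 0) (p (nat_lit 0x89) (nat_lit 1) (p (nat_lit 0x41) (nat_lit 0) (p (nat_lit 0x1098a0b090a9a) (nat_lit 0) (p (nat_lit 0x89098a888a1a) (nat_lit 0) (p (nat_lit 0x108890a08079a) (nat_lit 0) (p (nat_lit 0x88088987871a) (nat_lit 0) (p (nat_lit 0x8000080000000078907088a) (nat_lit 0) (p (nat_lit 0x8000080000000070886860a) (nat_lit 0) (p (nat_lit 0x10708060782) (nat_lit 0) (p (nat_lit 0x8687858702) (nat_lit 0) (p (nat_lit 0x10607050482) (nat_lit 0) (p (nat_lit 0x8586848402) (nat_lit 0) (p (nat_lit 0x160004) (nat_lit 0) (p (nat_lit 0x50612) (nat_lit 0) (p (nat_lit 0x40592) (nat_lit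 0) (p (nat_lit 0x40492) (nat_lit 0) (p (nat_lit 0x30412) (nat_lit 0) (p (nat_lit 0x30212) (nat_lit 0) (p (nat_lit 0x20192) (nat_lit 0) (p (nat_lit 0x20092) (nat_lit 0) (p (nat_lit 0x10012) (nat_lit 0) pn))))))))))))))))))))))))))))))) :=
  Cl.node (nat_lit 0x10000c) (nat_lit 2) (by decide +kernel) (ClAll.succ (ClAll.succ ClAll.zero n48) s358)

def n74 : Cl (O (nat_lit 6)) (R (nat_lit 102673))
    (p (nat_lit 0x380c2) (nat_lit 0) (p (nat_lit 0x44c2a) (nat_lit 1) (p (nat_lit 0x109) (nat_lit 1) (p (nat_lit 0x200014) (nat_lit 0) (p (nat_lit 0x20000c) (nat_lit 0) (p (nat_lit 0xd1) (nat_lit 0) (p (nat_lit 0xc1) (nat_lit 0) (p (nat_lit 0x101) (nat_lit 1) (p (nat_lit 0x119) (nat_lit 0) (p (nat_lit 0xc9) (nat_lit 0) (p (nat_lit 0x89) (nat_lit 1) (p (nat_lit 0x41) (nat_lit 0) (p (nat_lit 0x1098a0b090a9a) (nat_lit 0) (p (nat_lit 0x89098a888a1a) (nat_lit 0) (p (nat_lit 0x108890a08079a) (nat_lit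 0) (p (nat_lit 0x88088987871a) (nat_lit 0) (p (nat_lit 0x8000080000000078907088a) (nat_lit 0) (p (nat_lit 0x8000080000000070886860a) (nat_lit 0) (p (nat_lit 0x10708060782) (nat_lit 0) (p (nat_lit 0x8687858702) (nat_lit 0) (p (nat_lit 0x10607050482) (nat_lit 0) (p (nat_lit 0x8586848402) (nat_lit 0) (p (nat_lit 0x160004) (nat_lit 0) (p (nat_lit 0x50612) (nat_lit 0) (p (nat_lit 0x40592) (nat_lit 0) (p (nat_lit 0x40492) (nat_lit 0) (p (nat_lit 0x30412) (nat_lit 0) (p (nat_lit 0x30212) (nat_lit 0) (p (nat_lit 0x20192) (nat_lit 0) (p (nat_lit 0x20092) (nat_lit 0) (p (nat_lit 0x10012) (nat_lit 0) pn))))))))))))))))))))))))))))))) :=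
  Cl.node (nat_lit 0xb0004) (nat_lit 2) (by decide +kernel) (ClAll.succ (ClAll.succ ClAll.zero n49) s370)

def n75 : Cl (O (nat_lit 6)) (R (nat_lit 102673))
    (p (nat_lit 0x200014) (nat_lit 0) (p (nat_lit 0x20000c) (nat_lit 0) (p (nat_lit 0x81) (nat_lit 0) (p (nat_lit 0x111) (nat_lit 1) (p (nat_lit 0x109) (nat_lit 0) (p (nat_lit 0xd1) (nat_lit 1) (p (nat_lit 0xc1) (nat_lit 0) (p (nat_lit 0x101) (nat_lit 1) (p (nat_lit 0x119) (nat_lit 0) (p (nat_lit 0xc9) (nat_lit 0) (p (nat_lit 0x89) (nat_lit 1) (p (nat_lit 0x41) (nat_lit 0) (p (nat_lit 0x1098a0b090a9a) (nat_lit 0) (p (nat_lit 0x89098a888a1a) (nat_lit 0) (p (nat_lit 0x108890a08079a) (nat_lit 0) (p (nat_lit 0x88088987871a) (nat_lit 0) (p (nat_lit 0x8000080000000078907088a) (nat_lit 0) (p (nat_lit 0x8000080000000070886860a) (nat_lit 0) (p (nat_lit 0x10708060782) (nat_lit 0) (p (nat_lit 0x8687858702) (nat_lit 0) (p (nat_lit 0x10607050482)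 (nat_lit 0) (p (nat_lit 0x8586848402) (nat_lit 0) (p (nat_lit 0x160004) (nat_lit 0) (p (nat_lit 0x50612) (nat_lit 0) (p (nat_lit 0x40592) (nat_lit 0) (p (nat_lit 0x40492) (nat_lit 0) (p (nat_lit 0x30412) (nat_lit 0) (p (nat_lit 0x30212) (nat_lit 0) (p (nat_lit 0x20192) (nat_lit 0) (p (nat_lit 0x20092) (nat_lit 0) (p (nat_lit 0x10012) (nat_lit 0) pn))))))))))))))))))))))))))))))) :=
  Cl.node (nat_lit 0x89) (nat_lit 2) (by decide +kernel) (ClAll.succ (ClAll.succ ClAll.zero s384) s385)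

def n76 : Cl (O (nat_lit 6)) (R (nat_lit 102673))
    (p (nat_lit 0x109) (nat_lit 0) (p (nat_lit 0x20000c) (nat_lit 0) (p (nat_lit 0xb0004) (nat_lit 0) (p (nat_lit 0x380c2) (nat_lit 1) (p (nat_lit 0x444aa) (nat_lit 7) (p (nat_lit 0x111) (nat_lit 1) (p (nat_lit 0xd1) (nat_lit 1) (p (nat_lit 0xc1) (nat_lit 0) (p (nat_lit 0x119) (nat_lit 1) (p (nat_lit 0xc9) (nat_lit 0) (p (nat_lit 0x89) (nat_lit 1) (p (nat_lit 0x41) (nat_lit 0) (p (nat_lit 0x1098a0b090a9a) (nat_lit 0) (p (nat_lit 0x89098a888a1a) (nat_lit 0) (p (nat_lit 0x108890a08079a) (nat_lit 0) (p (nat_lit 0x88088987871a) (nat_lit 0) (p (nat_lit 0x8000080000000078907088a) (nat_lit 0) (p (nat_lit 0x8000080000000070886860a) (nat_lit 0) (p (nat_lit 0x10708060782) (nat_lit 0) (p (nat_lit 0x8687858702) (nat_lit 0) (p (nat_lit 0x10607050482) (nat_lit 0) (p (nat_lit 0x8586848402) (nat_lit 0) (p (nat_lit 0x160004) (nat_lit 0) (p (nat_lit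 0x50612) (nat_lit 0) (p (nat_lit 0x40592) (nat_lit 0) (p (nat_lit 0x40492) (nat_lit 0) (p (nat_lit 0x30412) (nat_lit 0) (p (nat_lit 0x30212) (nat_lit 0) (p (nat_lit 0x20192) (nat_lit 0) (p (nat_lit 0x20092) (nat_lit 0) (p (nat_lit 0x10012) (nat_lit 0) pn))))))))))))))))))))))))))))))) :=
  Cl.node (nat_lit 0x10000c) (nat_lit 2) (by decide +kernel) (ClAll.succ (ClAll.succ ClAll.zero s405) s406)

def n77 : Cl (O (nat_lit 6)) (R (nat_lit 102673))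
    (p (nat_lit 0x10000c) (nat_lit 0) (p (nat_lit 0x20000c) (nat_lit 0) (p (nat_lit 0xb0004) (nat_lit 0) (p (nat_lit 0x380c2) (nat_lit 0) (p (nat_lit 0x444aa) (nat_lit 7) (p (nat_lit 0x119) (nat_lit 1) (p (nat_lit 0x111) (nat_lit 0) (p (nat_lit 0x101) (nat_lit 0) (p (nat_lit 0x109) (nat_lit 0) (p (nat_lit 0xc9) (nat_lit 1) (p (nat_lit 0x89) (nat_lit 1) (p (nat_lit 0x41) (nat_lit 0) (p (nat_lit 0x1098a0b090a9a) (nat_lit 0) (p (nat_lit 0x89098a888a1a) (nat_lit 0) (p (nat_lit 0x108890a08079a) (nat_lit 0) (p (nat_lit 0x88088987871a) (nat_lit 0) (p (nat_lit 0x8000080000000078907088a) (nat_lit 0) (p (nat_lit 0x8000080000000070886860a) (nat_lit 0) (p (nat_lit 0x10708060782) (nat_lit 0) (p (nat_lit 0x8687858702) (nat_lit 0) (p (nat_lit 0x10607050482) (nat_lit 0) (p (nat_lit 0x8586848402) (nat_lit 0) (p (nat_lit 0x160004) (nat_lit 0) (p (nat_lit 0x50612) (nat_lit 0) (p (nat_lit 0x40592) (nat_lit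 0) (p (nat_lit 0x40492) (nat_lit 0) (p (nat_lit 0x30412) (nat_lit 0) (p (nat_lit 0x30212) (nat_lit 0) (p (nat_lit 0x20192) (nat_lit 0) (p (nat_lit 0x20092) (nat_lit 0) (p (nat_lit 0x10012) (nat_lit 0) pn))))))))))))))))))))))))))))))) :=
  Cl.node (nat_lit 0x81) (nat_lit 2) (by decide +kernel) (ClAll.succ (ClAll.succ ClAll.zero n50) s454)

def n78 : Cl (O (nat_lit 6)) (R (nat_lit 102673))
    (p (nat_lit 0xc9) (nat_lit 1) (p (nat_lit 0x200014) (nat_lit 0) (p (nat_lit 0x380c2) (nat_lit 0) (p (nat_lit 0x4c42a) (nat_lit 10) (p (nat_lit 0x111) (nat_lit 0) (p (nat_lit 0x89) (nat_lit 0) (p (nat_lit 0x109) (nat_lit 1) (p (nat_lit 0x101) (nat_lit 0) (p (nat_lit 0x119) (nat_lit 0) (p (nat_lit 0xd1) (nat_lit 0) (p (nat_lit 0x81) (nat_lit 0) (p (nat_lit 0x41) (nat_lit 1) (p (nat_lit 0x1098a0b090a9a) (nat_lit 0) (p (nat_lit 0x89098a888a1a) (nat_lit 0) (p (nat_lit 0x108890a08079a) (nat_lit 0)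 (p (nat_lit 0x88088987871a) (nat_lit 0) (p (nat_lit 0x8000080000000078907088a) (nat_lit 0) (p (nat_lit 0x8000080000000070886860a) (nat_lit 0) (p (nat_lit 0x10708060782) (nat_lit 0) (p (nat_lit 0x8687858702) (nat_lit 0) (p (nat_lit 0x10607050482) (nat_lit 0) (p (nat_lit 0x8586848402) (nat_lit 0) (p (nat_lit 0x160004) (nat_lit 0) (p (nat_lit 0x50612) (nat_lit 0) (p (nat_lit 0x40592) (nat_lit 0) (p (nat_lit 0x40492) (nat_lit 0) (p (nat_lit 0x30412) (nat_lit 0) (p (nat_lit 0x30212) (nat_lit 0) (p (nat_lit 0x20192) (nat_lit 0) (p (nat_lit 0x20092) (nat_lit 0) (p (nat_lit 0x10012) (nat_lit 0) pn))))))))))))))))))))))))))))))) :=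
  Cl.node (nat_lit 0x100014) (nat_lit 2) (by decide +kernel) (ClAll.succ (ClAll.succ ClAll.zero n51) s491)

def n79 : Cl (O (nat_lit 6)) (R (nat_lit 102673))
    (p (nat_lit 0x100014) (nat_lit 0) (p (nat_lit 0x200014) (nat_lit 0) (p (nat_lit 0x380c2) (nat_lit 0) (p (nat_lit 0x4c42a) (nat_lit 10) (p (nat_lit 0xc9) (nat_lit 0) (p (nat_lit 0x89) (nat_lit 1) (p (nat_lit 0x109) (nat_lit 1) (p (nat_lit 0x101) (nat_lit 0) (p (nat_lit 0x119) (nat_lit 0) (p (nat_lit 0xd1) (nat_lit 0) (p (nat_lit 0x81) (nat_lit 0) (p (nat_lit 0x41) (nat_lit 1) (p (nat_lit 0x1098a0b090a9a) (nat_lit 0) (p (nat_lit 0x89098a888a1a) (nat_lit 0) (p (nat_lit 0x108890a08079a) (nat_lit 0) (p (nat_lit 0x88088987871a) (nat_lit 0) (p (nat_lit 0x8000080000000078907088a) (nat_lit 0) (p (nat_lit 0x8000080000000070886860a) (nat_lit 0) (p (nat_lit 0x10708060782) (nat_lit 0) (p (nat_lit 0x8687858702) (nat_lit 0) (p (nat_lit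 0x10607050482) (nat_lit 0) (p (nat_lit 0x8586848402) (nat_lit 0) (p (nat_lit 0x160004) (nat_lit 0) (p (nat_lit 0x50612) (nat_lit 0) (p (nat_lit 0x40592) (nat_lit 0) (p (nat_lit 0x40492) (nat_lit 0) (p (nat_lit 0x30412) (nat_lit 0) (p (nat_lit 0x30212) (nat_lit 0) (p (nat_lit 0x20192) (nat_lit 0) (p (nat_lit 0x20092) (nat_lit 0) (p (nat_lit 0x10012) (nat_lit 0) pn))))))))))))))))))))))))))))))) :=
  Cl.node (nat_lit 0x111) (nat_lit 2) (by decide +kernel) (ClAll.succ (ClAll.succ ClAll.zero s518) n52)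

def n80 : Cl (O (nat_lit 6)) (R (nat_lit 102673))
    (p (nat_lit 0x100014) (nat_lit 0) (p (nat_lit 0x200014) (nat_lit 0) (p (nat_lit 0x380c2) (nat_lit 0) (p (nat_lit 0x4c42a) (nat_lit 10) (p (nat_lit 0xc9) (nat_lit 0) (p (nat_lit 0x89) (nat_lit 1) (p (nat_lit 0xc1) (nat_lit 0) (p (nat_lit 0x101) (nat_lit 1) (p (nat_lit 0x119) (nat_lit 0) (p (nat_lit 0xd1) (nat_lit 0) (p (nat_lit 0x81) (nat_lit 0) (p (nat_lit 0x41) (nat_lit 1) (p (nat_lit 0x1098a0b090a9a) (nat_lit 0) (p (nat_lit 0x89098a888a1a) (nat_lit 0) (p (nat_lit 0x108890a08079a) (nat_lit 0) (p (nat_lit 0x88088987871a) (nat_lit 0) (p (nat_lit 0x8000080000000078907088a) (nat_lit 0) (p (nat_lit 0x8000080000000070886860a) (nat_lit 0) (p (nat_lit 0x10708060782) (nat_lit 0) (p (nat_lit 0x8687858702) (nat_lit 0) (p (nat_lit 0x10607050482) (nat_lit 0) (p (nat_lit 0x8586848402) (nat_lit 0) (p (nat_lit 0x160004) (nat_lit 0) (p (nat_lit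 0x50612) (nat_lit 0) (p (nat_lit 0x40592) (nat_lit 0) (p (nat_lit 0x40492) (nat_lit 0) (p (nat_lit 0x30412) (nat_lit 0) (p (nat_lit 0x30212) (nat_lit 0) (p (nat_lit 0x20192) (nat_lit 0) (p (nat_lit 0x20092) (nat_lit 0) (p (nat_lit 0x10012) (nat_lit 0) pn))))))))))))))))))))))))))))))) :=
  Cl.node (nat_lit 0xd1) (nat_lit 2) (by decide +kernel) (ClAll.succ (ClAll.succ ClAll.zero s552) n53)

def n81 : Cl (O (nat_lit 6)) (R (nat_lit 102673))
    (p (nat_lit 0x4c42a) (nat_lit 10) (p (nat_lit 0xd1) (nat_lit 1) (p (nat_lit 0xc1) (nat_lit 0) (p (nat_lit 0x119) (nat_lit 1) (p (nat_lit 0xc9) (nat_lit 0) (p (nat_lit 0x89) (nat_lit 1) (p (nat_lit 0x109) (nat_lit 1) (p (nat_lit 0x101) (nat_lit 0) (p (nat_lit 0x111) (nat_lit 0) (p (nat_lit 0xd1) (nat_lit 1) (p (nat_lit 0x81) (nat_lit 0) (p (nat_lit 0x41) (nat_lit 1) (p (nat_lit 0x1098a0b090a9a) (nat_lit 0) (p (nat_lit 0x89098a888a1a) (nat_lit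 0) (p (nat_lit 0x108890a08079a) (nat_lit 0) (p (nat_lit 0x88088987871a) (nat_lit 0) (p (nat_lit 0x8000080000000078907088a) (nat_lit 0) (p (nat_lit 0x8000080000000070886860a) (nat_lit 0) (p (nat_lit 0x10708060782) (nat_lit 0) (p (nat_lit 0x8687858702) (nat_lit 0) (p (nat_lit 0x10607050482) (nat_lit 0) (p (nat_lit 0x8586848402) (nat_lit 0) (p (nat_lit 0x160004) (nat_lit 0) (p (nat_lit 0x50612) (nat_lit 0) (p (nat_lit 0x40592) (nat_lit 0) (p (nat_lit 0x40492) (nat_lit 0) (p (nat_lit 0x30412) (nat_lit 0) (p (nat_lit 0x30212) (nat_lit 0) (p (nat_lit 0x20192) (nat_lit 0) (p (nat_lit 0x20092) (nat_lit 0) (p (nat_lit 0x10012) (nat_lit 0) pn))))))))))))))))))))))))))))))) :=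
  Cl.node (nat_lit 0x380c2) (nat_lit 2) (by decide +kernel) (ClAll.succ (ClAll.succ ClAll.zero s701) s702)

def n82 : Cl (O (nat_lit 6)) (R (nat_lit 102673))
    (p (nat_lit 0x200014) (nat_lit 0) (p (nat_lit 0x20000c) (nat_lit 0) (p (nat_lit 0xc1) (nat_lit 1) (p (nat_lit 0x119) (nat_lit 1) (p (nat_lit 0xc9) (nat_lit 0) (p (nat_lit 0x89) (nat_lit 1) (p (nat_lit 0x109) (nat_lit 1) (p (nat_lit 0x101) (nat_lit 0) (p (nat_lit 0x111) (nat_lit 0) (p (nat_lit 0xd1) (nat_lit 1) (p (nat_lit 0x81) (nat_lit 0) (p (nat_lit 0x41) (nat_lit 1) (p (nat_lit 0x1098a0b090a9a) (nat_lit 0) (p (nat_lit 0x89098a888a1a) (nat_lit 0) (p (nat_lit 0x108890a08079a) (nat_lit 0) (p (nat_lit 0x88088987871a) (nat_lit 0) (p (nat_lit 0x8000080000000078907088a) (nat_lit 0) (p (nat_lit 0x8000080000000070886860a) (nat_lit 0) (p (nat_lit 0x10708060782) (nat_lit 0) (p (nat_lit 0x8687858702) (nat_lit 0) (p (nat_lit 0x10607050482)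 (nat_lit 0) (p (nat_lit 0x8586848402) (nat_lit 0) (p (nat_lit 0x160004) (nat_lit 0) (p (nat_lit 0x50612) (nat_lit 0) (p (nat_lit 0x40592) (nat_lit 0) (p (nat_lit 0x40492) (nat_lit 0) (p (nat_lit 0x30412) (nat_lit 0) (p (nat_lit 0x30212) (nat_lit 0) (p (nat_lit 0x20192) (nat_lit 0) (p (nat_lit 0x20092) (nat_lit 0) (p (nat_lit 0x10012) (nat_lit 0) pn))))))))))))))))))))))))))))))) :=
  Cl.node (nat_lit 0x41) (nat_lit 2) (by decide +kernel) (ClAll.succ (ClAll.succ ClAll.zero n54) s719)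

def n83 : Cl (O (nat_lit 6)) (R (nat_lit 102673))
    (p (nat_lit 0xd1) (nat_lit 0) (p (nat_lit 0x100014) (nat_lit 0) (p (nat_lit 0x200014) (nat_lit 0) (p (nat_lit 0x380c2) (nat_lit 0) (p (nat_lit 0x3cc2a) (nat_lit 2) (p (nat_lit 0xc9) (nat_lit 0) (p (nat_lit 0x89) (nat_lit 1) (p (nat_lit 0x101) (nat_lit 1) (p (nat_lit 0x111) (nat_lit 0) (p (nat_lit 0xd1) (nat_lit 1) (p (nat_lit 0x81) (nat_lit 0) (p (nat_lit 0x41) (nat_lit 1) (p (nat_lit 0x1098a0b090a9a) (nat_lit 0) (p (nat_lit 0x89098a888a1a) (nat_lit 0) (p (nat_lit 0x108890a08079a) (nat_lit 0) (p (nat_lit 0x88088987871a) (nat_lit 0) (p (nat_lit 0x8000080000000078907088a) (nat_lit 0) (p (nat_lit 0x8000080000000070886860a) (nat_lit 0) (p (nat_lit 0x10708060782) (nat_lit 0) (p (nat_lit 0x8687858702) (nat_lit 0) (p (nat_lit 0x10607050482) (nat_lit 0) (p (nat_lit 0x8586848402) (nat_lit 0) (p (nat_lit 0x160004) (nat_lit 0) (p (nat_lit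 0x50612) (nat_lit 0) (p (nat_lit 0x40592) (nat_lit 0) (p (nat_lit 0x40492) (nat_lit 0) (p (nat_lit 0x30412) (nat_lit 0) (p (nat_lit 0x30212) (nat_lit 0) (p (nat_lit 0x20192) (nat_lit 0) (p (nat_lit 0x20092) (nat_lit 0) (p (nat_lit 0x10012) (nat_lit 0) pn))))))))))))))))))))))))))))))) :=
  Cl.node (nat_lit 0x109) (nat_lit 2) (by decide +kernel) (ClAll.succ (ClAll.succ ClAll.zero s739) n55)

def n84 : Cl (O (nat_lit 6)) (R (nat_lit 102673))
    (p (nat_lit 0xd1) (nat_lit 1) (p (nat_lit 0x100014) (nat_lit 0) (p (nat_lit 0x200014) (nat_lit 0) (p (nat_lit 0x380c2) (nat_lit 0) (p (nat_lit 0x3cc2a) (nat_lit 2) (p (nat_lit 0xc9) (nat_lit 0) (p (nat_lit 0x89) (nat_lit 1) (p (nat_lit 0x101) (nat_lit 1) (p (nat_lit 0x111) (nat_lit 0) (p (nat_lit 0xd1) (nat_lit 1) (p (nat_lit 0x81) (nat_lit 0) (p (nat_lit 0x41) (nat_lit 1) (p (nat_lit 0x1098a0b090a9a) (nat_lit 0) (p (nat_lit 0x89098a888a1a)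 (nat_lit 0) (p (nat_lit 0x108890a08079a) (nat_lit 0) (p (nat_lit 0x88088987871a) (nat_lit 0) (p (nat_lit 0x8000080000000078907088a) (nat_lit 0) (p (nat_lit 0x8000080000000070886860a) (nat_lit 0) (p (nat_lit 0x10708060782) (nat_lit 0) (p (nat_lit 0x8687858702) (nat_lit 0) (p (nat_lit 0x10607050482) (nat_lit 0) (p (nat_lit 0x8586848402) (nat_lit 0) (p (nat_lit 0x160004) (nat_lit 0) (p (nat_lit 0x50612) (nat_lit 0) (p (nat_lit 0x40592) (nat_lit 0) (p (nat_lit 0x40492) (nat_lit 0) (p (nat_lit 0x30412) (nat_lit 0) (p (nat_lit 0x30212) (nat_lit 0) (p (nat_lit 0x20192) (nat_lit 0) (p (nat_lit 0x20092) (nat_lit 0) (p (nat_lit 0x10012) (nat_lit 0) pn))))))))))))))))))))))))))))))) :=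
  Cl.node (nat_lit 0xb0004) (nat_lit 2) (by decide +kernel) (ClAll.succ (ClAll.succ ClAll.zero s743) s744)

def n85 : Cl (O (nat_lit 6)) (R (nat_lit 102673))
    (p (nat_lit 0xb0004) (nat_lit 0) (p (nat_lit 0x380c2) (nat_lit 0) (p (nat_lit 0x444aa) (nat_lit 7) (p (nat_lit 0x81) (nat_lit 1) (p (nat_lit 0xc9) (nat_lit 1) (p (nat_lit 0x109) (nat_lit 1) (p (nat_lit 0x101) (nat_lit 0) (p (nat_lit 0x119) (nat_lit 0) (p (nat_lit 0xd1) (nat_lit 0) (p (nat_lit 0x89) (nat_lit 0) (p (nat_lit 0x41) (nat_lit 0) (p (nat_lit 0x1098a0b090a9a) (nat_lit 0) (p (nat_lit 0x89098a888a1a) (nat_lit 0) (p (nat_lit 0x108890a08079a) (nat_lit 0) (p (nat_lit 0x88088987871a) (nat_lit 0) (p (nat_lit 0x8000080000000078907088a) (nat_lit 0) (p (nat_lit 0x8000080000000070886860a) (nat_lit 0) (p (nat_lit 0x10708060782) (nat_lit 0) (p (nat_lit 0x8687858702) (nat_lit 0) (p (nat_lit 0x10607050482) (nat_lit 0) (p (nat_lit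 0x8586848402) (nat_lit 0) (p (nat_lit 0x160004) (nat_lit 0) (p (nat_lit 0x50612) (nat_lit 0) (p (nat_lit 0x40592) (nat_lit 0) (p (nat_lit 0x40492) (nat_lit 0) (p (nat_lit 0x30412) (nat_lit 0) (p (nat_lit 0x30212) (nat_lit 0) (p (nat_lit 0x20192) (nat_lit 0) (p (nat_lit 0x20092) (nat_lit 0) (p (nat_lit 0x10012) (nat_lit 0) pn)))))))))))))))))))))))))))))) :=
  Cl.node (nat_lit 0x81) (nat_lit 2) (by decide +kernel) (ClAll.succ (ClAll.succ ClAll.zero s21) n56)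

def n86 : Cl (O (nat_lit 6)) (R (nat_lit 102673))
    (p (nat_lit 0xb0004) (nat_lit 1) (p (nat_lit 0x380c2) (nat_lit 0) (p (nat_lit 0x444aa) (nat_lit 7) (p (nat_lit 0x81) (nat_lit 1) (p (nat_lit 0xc9) (nat_lit 1) (p (nat_lit 0x109) (nat_lit 1) (p (nat_lit 0x101) (nat_lit 0) (p (nat_lit 0x119) (nat_lit 0) (p (nat_lit 0xd1) (nat_lit 0) (p (nat_lit 0x89) (nat_lit 0) (p (nat_lit 0x41) (nat_lit 0) (p (nat_lit 0x1098a0b090a9a) (nat_lit 0) (p (nat_lit 0x89098a888a1a) (nat_lit 0) (p (nat_lit 0x108890a08079a) (nat_lit 0) (p (nat_lit 0x88088987871a) (nat_lit 0) (p (nat_lit 0x8000080000000078907088a) (nat_lit 0) (p (nat_lit 0x8000080000000070886860a) (nat_lit 0) (p (nat_lit 0x10708060782) (nat_lit 0) (p (nat_lit 0x8687858702) (nat_lit 0) (p (nat_lit 0x10607050482) (nat_lit 0) (p (nat_lit 0x8586848402) (nat_lit 0) (p (nat_lit 0x160004) (nat_lit 0) (p (nat_lit 0x50612) (nat_lit 0) (p (nat_lit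 0x40592) (nat_lit 0) (p (nat_lit 0x40492) (nat_lit 0) (p (nat_lit 0x30412) (nat_lit 0) (p (nat_lit 0x30212) (nat_lit 0) (p (nat_lit 0x20192) (nat_lit 0) (p (nat_lit 0x20092) (nat_lit 0) (p (nat_lit 0x10012) (nat_lit 0) pn)))))))))))))))))))))))))))))) :=
  Cl.node (nat_lit 0x1fc00c) (nat_lit 2) (by decide +kernel) (ClAll.succ (ClAll.succ ClAll.zero n57) s40)

def n87 : Cl (O (nat_lit 6)) (R (nat_lit 102673))
    (p (nat_lit 0xb0004) (nat_lit 0) (p (nat_lit 0x380c2) (nat_lit 1) (p (nat_lit 0x444aa) (nat_lit 7) (p (nat_lit 0x81) (nat_lit 1) (p (nat_lit 0xc9) (nat_lit 1) (p (nat_lit 0x109) (nat_lit 1) (p (nat_lit 0x101) (nat_lit 0) (p (nat_lit 0x119) (nat_lit 0) (p (nat_lit 0xd1) (nat_lit 0) (p (nat_lit 0x89) (nat_lit 0) (p (nat_lit 0x41) (nat_lit 0) (p (nat_lit 0x1098a0b090a9a) (nat_lit 0) (p (nat_lit 0x89098a888a1a) (nat_lit 0) (p (nat_lit 0x108890a08079a) (nat_lit 0) (p (nat_lit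 0x88088987871a) (nat_lit 0) (p (nat_lit 0x8000080000000078907088a) (nat_lit 0) (p (nat_lit 0x8000080000000070886860a) (nat_lit 0) (p (nat_lit 0x10708060782) (nat_lit 0) (p (nat_lit 0x8687858702) (nat_lit 0) (p (nat_lit 0x10607050482) (nat_lit 0) (p (nat_lit 0x8586848402) (nat_lit 0) (p (nat_lit 0x160004) (nat_lit 0) (p (nat_lit 0x50612) (nat_lit 0) (p (nat_lit 0x40592) (nat_lit 0) (p (nat_lit 0x40492) (nat_lit 0) (p (nat_lit 0x30412) (nat_lit 0) (p (nat_lit 0x30212) (nat_lit 0) (p (nat_lit 0x20192) (nat_lit 0) (p (nat_lit 0x20092) (nat_lit 0) (p (nat_lit 0x10012) (nat_lit 0) pn)))))))))))))))))))))))))))))) :=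
  Cl.node (nat_lit 0x81) (nat_lit 2) (by decide +kernel) (ClAll.succ (ClAll.succ ClAll.zero s41) n58)

def n88 : Cl (O (nat_lit 6)) (R (nat_lit 102673))
    (p (nat_lit 0xb0004) (nat_lit 1) (p (nat_lit 0x380c2) (nat_lit 1) (p (nat_lit 0x444aa) (nat_lit 7) (p (nat_lit 0x81) (nat_lit 1) (p (nat_lit 0xc9) (nat_lit 1) (p (nat_lit 0x109) (nat_lit 1) (p (nat_lit 0x101) (nat_lit 0) (p (nat_lit 0x119) (nat_lit 0) (p (nat_lit 0xd1) (nat_lit 0) (p (nat_lit 0x89) (nat_lit 0) (p (nat_lit 0x41) (nat_lit 0) (p (nat_lit 0x1098a0b090a9a) (nat_lit 0) (p (nat_lit 0x89098a888a1a) (nat_lit 0) (p (nat_lit 0x108890a08079a) (nat_lit 0) (p (nat_lit 0x88088987871a) (nat_lit 0) (p (nat_lit 0x8000080000000078907088a) (nat_lit 0) (p (nat_lit 0x8000080000000070886860a) (nat_lit 0) (p (nat_lit 0x10708060782) (nat_lit 0) (p (nat_lit 0x8687858702) (nat_lit 0) (p (nat_lit 0x10607050482) (nat_lit 0) (p (nat_lit 0x8586848402)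 (nat_lit 0) (p (nat_lit 0x160004) (nat_lit 0) (p (nat_lit 0x50612) (nat_lit 0) (p (nat_lit 0x40592) (nat_lit 0) (p (nat_lit 0x40492) (nat_lit 0) (p (nat_lit 0x30412) (nat_lit 0) (p (nat_lit 0x30212) (nat_lit 0) (p (nat_lit 0x20192) (nat_lit 0) (p (nat_lit 0x20092) (nat_lit 0) (p (nat_lit 0x10012) (nat_lit 0) pn)))))))))))))))))))))))))))))) :=
  Cl.node (nat_lit 0x1fc00c) (nat_lit 2) (by decide +kernel) (ClAll.succ (ClAll.succ ClAll.zero n59) s49)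

def n89 : Cl (O (nat_lit 6)) (R (nat_lit 102673))
    (p (nat_lit 0x20000c) (nat_lit 0) (p (nat_lit 0x380c2) (nat_lit 0) (p (nat_lit 0x444aa) (nat_lit 7) (p (nat_lit 0x111) (nat_lit 0) (p (nat_lit 0xc9) (nat_lit 1) (p (nat_lit 0x81) (nat_lit 0) (p (nat_lit 0x101) (nat_lit 1) (p (nat_lit 0x119) (nat_lit 0) (p (nat_lit 0xd1) (nat_lit 0) (p (nat_lit 0x89) (nat_lit 0) (p (nat_lit 0x41) (nat_lit 0) (p (nat_lit 0x1098a0b090a9a) (nat_lit 0) (p (nat_lit 0x89098a888a1a) (nat_lit 0) (p (nat_lit 0x108890a08079a) (nat_lit 0) (p (nat_lit 0x88088987871a) (nat_lit 0) (p (nat_lit 0x8000080000000078907088a) (nat_lit 0) (p (nat_lit 0x8000080000000070886860a) (nat_lit 0) (p (nat_lit 0x10708060782) (nat_lit 0) (p (nat_lit 0x8687858702) (nat_lit 0) (p (nat_lit 0x10607050482) (nat_lit 0) (p (nat_lit 0x8586848402) (nat_lit 0) (p (nat_lit 0x160004) (nat_lit 0) (p (nat_lit 0x50612) (nat_lit 0) (p (nat_lit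 0x40592) (nat_lit 0) (p (nat_lit 0x40492) (nat_lit 0) (p (nat_lit 0x30412) (nat_lit 0) (p (nat_lit 0x30212) (nat_lit 0) (p (nat_lit 0x20192) (nat_lit 0) (p (nat_lit 0x20092) (nat_lit 0) (p (nat_lit 0x10012) (nat_lit 0) pn)))))))))))))))))))))))))))))) :=
  Cl.node (nat_lit 0x10000c) (nat_lit 2) (by decide +kernel) (ClAll.succ (ClAll.succ ClAll.zero n60) s76)

def n90 : Cl (O (nat_lit 6)) (R (nat_lit 102673))
    (p (nat_lit 0xb0004) (nat_lit 0) (p (nat_lit 0x380c2) (nat_lit 1) (p (nat_lit 0x444aa) (nat_lit 7) (p (nat_lit 0x111) (nat_lit 0) (p (nat_lit 0xc9) (nat_lit 1) (p (nat_lit 0x81) (nat_lit 0) (p (nat_lit 0x101) (nat_lit 1) (p (nat_lit 0x119) (nat_lit 0) (p (nat_lit 0xd1) (nat_lit 0) (p (nat_lit 0x89) (nat_lit 0) (p (nat_lit 0x41) (nat_lit 0) (p (nat_lit 0x1098a0b090a9a) (nat_lit 0) (p (nat_lit 0x89098a888a1a) (nat_lit 0) (p (nat_lit 0x108890a08079a) (nat_lit 0) (p (nat_lit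 0x88088987871a) (nat_lit 0) (p (nat_lit 0x8000080000000078907088a) (nat_lit 0) (p (nat_lit 0x8000080000000070886860a) (nat_lit 0) (p (nat_lit 0x10708060782) (nat_lit 0) (p (nat_lit 0x8687858702) (nat_lit 0) (p (nat_lit 0x10607050482) (nat_lit 0) (p (nat_lit 0x8586848402) (nat_lit 0) (p (nat_lit 0x160004) (nat_lit 0) (p (nat_lit 0x50612) (nat_lit 0) (p (nat_lit 0x40592) (nat_lit 0) (p (nat_lit 0x40492) (nat_lit 0) (p (nat_lit 0x30412) (nat_lit 0) (p (nat_lit 0x30212) (nat_lit 0) (p (nat_lit 0x20192) (nat_lit 0) (p (nat_lit 0x20092) (nat_lit 0) (p (nat_lit 0x10012) (nat_lit 0) pn)))))))))))))))))))))))))))))) :=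
  Cl.node (nat_lit 0x20000c) (nat_lit 2) (by decide +kernel) (ClAll.succ (ClAll.succ ClAll.zero n61) s80)

def n91 : Cl (O (nat_lit 6)) (R (nat_lit 102673))
    (p (nat_lit 0xb0004) (nat_lit 0) (p (nat_lit 0x101) (nat_lit 0) (p (nat_lit 0x380c2) (nat_lit 0) (p (nat_lit 0x3cc2a) (nat_lit 2) (p (nat_lit 0x109) (nat_lit 1) (p (nat_lit 0xc9) (nat_lit 1) (p (nat_lit 0xc1) (nat_lit 0) (p (nat_lit 0x119) (nat_lit 1) (p (nat_lit 0xd1) (nat_lit 0) (p (nat_lit 0x89) (nat_lit 0) (p (nat_lit 0x41) (nat_lit 0) (p (nat_lit 0x1098a0b090a9a) (nat_lit 0) (p (nat_lit 0x89098a888a1a) (nat_lit 0) (p (nat_lit 0x108890a08079a) (nat_lit 0) (p (nat_lit 0x88088987871a) (nat_lit 0) (p (nat_lit 0x8000080000000078907088a) (nat_lit 0) (p (nat_lit 0x8000080000000070886860a) (nat_lit 0) (p (nat_lit 0x10708060782) (nat_lit 0) (p (nat_lit 0x8687858702) (nat_lit 0) (p (nat_lit 0x10607050482) (nat_lit 0) (p (nat_lit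 0x8586848402) (nat_lit 0) (p (nat_lit 0x160004) (nat_lit 0) (p (nat_lit 0x50612) (nat_lit 0) (p (nat_lit 0x40592) (nat_lit 0) (p (nat_lit 0x40492) (nat_lit 0) (p (nat_lit 0x30412) (nat_lit 0) (p (nat_lit 0x30212) (nat_lit 0) (p (nat_lit 0x20192) (nat_lit 0) (p (nat_lit 0x20092) (nat_lit 0) (p (nat_lit 0x10012) (nat_lit 0) pn)))))))))))))))))))))))))))))) :=
  Cl.node (nat_lit 0x200014) (nat_lit 2) (by decide +kernel) (ClAll.succ (ClAll.succ ClAll.zero n62) s121)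

def n92 : Cl (O (nat_lit 6)) (R (nat_lit 102673))
    (p (nat_lit 0xb0004) (nat_lit 1) (p (nat_lit 0x101) (nat_lit 0) (p (nat_lit 0x380c2) (nat_lit 0) (p (nat_lit 0x3cc2a) (nat_lit 2) (p (nat_lit 0x109) (nat_lit 1) (p (nat_lit 0xc9) (nat_lit 1) (p (nat_lit 0xc1) (nat_lit 0) (p (nat_lit 0x119) (nat_lit 1) (p (nat_lit 0xd1) (nat_lit 0) (p (nat_lit 0x89) (nat_lit 0) (p (nat_lit 0x41) (nat_lit 0) (p (nat_lit 0x1098a0b090a9a) (nat_lit 0) (p (nat_lit 0x89098a888a1a) (nat_lit 0) (p (nat_lit 0x108890a08079a) (nat_lit 0) (p (nat_lit 0x88088987871a) (nat_lit 0) (p (nat_lit 0x8000080000000078907088a) (nat_lit 0) (p (nat_lit 0x8000080000000070886860a) (nat_lit 0) (p (nat_lit 0x10708060782) (nat_lit 0) (p (nat_lit 0x8687858702) (nat_lit 0) (p (nat_lit 0x10607050482) (nat_lit 0) (p (nat_lit 0x8586848402) (nat_lit 0) (p (nat_lit 0x160004) (nat_lit 0) (p (nat_lit 0x50612) (nat_lit 0) (p (nat_lit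 0x40592) (nat_lit 0) (p (nat_lit 0x40492) (nat_lit 0) (p (nat_lit 0x30412) (nat_lit 0) (p (nat_lit 0x30212) (nat_lit 0) (p (nat_lit 0x20192) (nat_lit 0) (p (nat_lit 0x20092) (nat_lit 0) (p (nat_lit 0x10012) (nat_lit 0) pn)))))))))))))))))))))))))))))) :=
  Cl.node (nat_lit 0x1fc00c) (nat_lit 2) (by decide +kernel) (ClAll.succ (ClAll.succ ClAll.zero n63) s129)

def n93 : Cl (O (nat_lit 6)) (R (nat_lit 102673))
    (p (nat_lit 0x41) (nat_lit 0) (p (nat_lit 0x101) (nat_lit 1) (p (nat_lit 0x380c2) (nat_lit 0) (p (nat_lit 0x3cc2a) (nat_lit 2) (p (nat_lit 0x109) (nat_lit 1) (p (nat_lit 0xc9) (nat_lit 1) (p (nat_lit 0xc1) (nat_lit 0) (p (nat_lit 0x119) (nat_lit 1) (p (nat_lit 0xd1) (nat_lit 0) (p (nat_lit 0x89) (nat_lit 0) (p (nat_lit 0x41) (nat_lit 0) (p (nat_lit 0x1098a0b090a9a) (nat_lit 0) (p (nat_lit 0x89098a888a1a) (nat_lit 0) (p (nat_lit 0x108890a08079a) (nat_lit 0) (p (nat_lit 0x88088987871a)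 (nat_lit 0) (p (nat_lit 0x8000080000000078907088a) (nat_lit 0) (p (nat_lit 0x8000080000000070886860a) (nat_lit 0) (p (nat_lit 0x10708060782) (nat_lit 0) (p (nat_lit 0x8687858702) (nat_lit 0) (p (nat_lit 0x10607050482) (nat_lit 0) (p (nat_lit 0x8586848402) (nat_lit 0) (p (nat_lit 0x160004) (nat_lit 0) (p (nat_lit 0x50612) (nat_lit 0) (p (nat_lit 0x40592) (nat_lit 0) (p (nat_lit 0x40492) (nat_lit 0) (p (nat_lit 0x30412) (nat_lit 0) (p (nat_lit 0x30212) (nat_lit 0) (p (nat_lit 0x20192) (nat_lit 0) (p (nat_lit 0x20092) (nat_lit 0) (p (nat_lit 0x10012) (nat_lit 0) pn)))))))))))))))))))))))))))))) :=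
  Cl.node (nat_lit 0x200014) (nat_lit 2) (by decide +kernel) (ClAll.succ (ClAll.succ ClAll.zero n64) s135)

def n94 : Cl (O (nat_lit 6)) (R (nat_lit 102673))
    (p (nat_lit 0x200014) (nat_lit 0) (p (nat_lit 0xc9) (nat_lit 1) (p (nat_lit 0x380c2) (nat_lit 0) (p (nat_lit 0x3cc2a) (nat_lit 2) (p (nat_lit 0x109) (nat_lit 1) (p (nat_lit 0x81) (nat_lit 0) (p (nat_lit 0xc1) (nat_lit 1) (p (nat_lit 0x119) (nat_lit 1) (p (nat_lit 0xd1) (nat_lit 0) (p (nat_lit 0x89) (nat_lit 0) (p (nat_lit 0x41) (nat_lit 0) (p (nat_lit 0x1098a0b090a9a) (nat_lit 0) (p (nat_lit 0x89098a888a1a) (nat_lit 0) (p (nat_lit 0x108890a08079a) (nat_lit 0) (p (nat_lit 0x88088987871a) (nat_lit 0) (p (nat_lit 0x8000080000000078907088a) (nat_lit 0) (p (nat_lit 0x8000080000000070886860a) (nat_lit 0) (p (nat_lit 0x10708060782) (nat_lit 0) (p (nat_lit 0x8687858702) (nat_lit 0) (p (nat_lit 0x10607050482) (nat_lit 0) (p (nat_lit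 0x8586848402) (nat_lit 0) (p (nat_lit 0x160004) (nat_lit 0) (p (nat_lit 0x50612) (nat_lit 0) (p (nat_lit 0x40592) (nat_lit 0) (p (nat_lit 0x40492) (nat_lit 0) (p (nat_lit 0x30412) (nat_lit 0) (p (nat_lit 0x30212) (nat_lit 0) (p (nat_lit 0x20192) (nat_lit 0) (p (nat_lit 0x20092) (nat_lit 0) (p (nat_lit 0x10012) (nat_lit 0) pn)))))))))))))))))))))))))))))) :=
  Cl.node (nat_lit 0x100014) (nat_lit 2) (by decide +kernel) (ClAll.succ (ClAll.succ ClAll.zero n65) s152)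

def n95 : Cl (O (nat_lit 6)) (R (nat_lit 102673))
    (p (nat_lit 0x20000c) (nat_lit 0) (p (nat_lit 0x380c2) (nat_lit 1) (p (nat_lit 0x444aa) (nat_lit 7) (p (nat_lit 0x109) (nat_lit 1) (p (nat_lit 0x101) (nat_lit 0) (p (nat_lit 0x81) (nat_lit 1) (p (nat_lit 0xc1) (nat_lit 1) (p (nat_lit 0x119) (nat_lit 1) (p (nat_lit 0xd1) (nat_lit 0) (p (nat_lit 0x89) (nat_lit 0) (p (nat_lit 0x41) (nat_lit 0) (p (nat_lit 0x1098a0b090a9a) (nat_lit 0) (p (nat_lit 0x89098a888a1a) (nat_lit 0) (p (nat_lit 0x108890a08079a) (nat_lit 0) (p (nat_lit 0x88088987871a) (nat_lit 0) (p (nat_lit 0x8000080000000078907088a) (nat_lit 0) (p (nat_lit 0x8000080000000070886860a) (nat_lit 0) (p (nat_lit 0x10708060782) (nat_lit 0) (p (nat_lit 0x8687858702) (nat_lit 0) (p (nat_lit 0x10607050482) (nat_lit 0) (p (nat_lit 0x8586848402) (nat_lit 0) (p (nat_lit 0x160004) (nat_lit 0) (p (nat_lit 0x50612) (nat_lit 0) (p (nat_lit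 0x40592) (nat_lit 0) (p (nat_lit 0x40492) (nat_lit 0) (p (nat_lit 0x30412) (nat_lit 0) (p (nat_lit 0x30212) (nat_lit 0) (p (nat_lit 0x20192) (nat_lit 0) (p (nat_lit 0x20092) (nat_lit 0) (p (nat_lit 0x10012) (nat_lit 0) pn)))))))))))))))))))))))))))))) :=
  Cl.node (nat_lit 0xb0004) (nat_lit 2) (by decide +kernel) (ClAll.succ (ClAll.succ ClAll.zero s184) s185)

def n96 : Cl (O (nat_lit 6)) (R (nat_lit 102673))
    (p (nat_lit 0x3cc2a) (nat_lit 1) (p (nat_lit 0x41) (nat_lit 0) (p (nat_lit 0x200014) (nat_lit 0) (p (nat_lit 0x20000c) (nat_lit 0) (p (nat_lit 0xc1) (nat_lit 1) (p (nat_lit 0x109) (nat_lit 1) (p (nat_lit 0x101) (nat_lit 0) (p (nat_lit 0x111) (nat_lit 0) (p (nat_lit 0xd1) (nat_lit 1) (p (nat_lit 0x89) (nat_lit 0) (p (nat_lit 0x41) (nat_lit 0) (p (nat_lit 0x1098a0b090a9a) (nat_lit 0) (p (nat_lit 0x89098a888a1a) (nat_lit 0) (p (nat_lit 0x108890a08079a) (nat_lit 0) (p (nat_lit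 0x88088987871a) (nat_lit 0) (p (nat_lit 0x8000080000000078907088a) (nat_lit 0) (p (nat_lit 0x8000080000000070886860a) (nat_lit 0) (p (nat_lit 0x10708060782) (nat_lit 0) (p (nat_lit 0x8687858702) (nat_lit 0) (p (nat_lit 0x10607050482) (nat_lit 0) (p (nat_lit 0x8586848402) (nat_lit 0) (p (nat_lit 0x160004) (nat_lit 0) (p (nat_lit 0x50612) (nat_lit 0) (p (nat_lit 0x40592) (nat_lit 0) (p (nat_lit 0x40492) (nat_lit 0) (p (nat_lit 0x30412) (nat_lit 0) (p (nat_lit 0x30212) (nat_lit 0) (p (nat_lit 0x20192) (nat_lit 0) (p (nat_lit 0x20092) (nat_lit 0) (p (nat_lit 0x10012) (nat_lit 0) pn)))))))))))))))))))))))))))))) :=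
  Cl.node (nat_lit 0x380c2) (nat_lit 1) (by decide +kernel) (ClAll.succ ClAll.zero n66)

def n97 : Cl (O (nat_lit 6)) (R (nat_lit 102673))
    (p (nat_lit 0xb0004) (nat_lit 0) (p (nat_lit 0x380c2) (nat_lit 0) (p (nat_lit 0x444aa) (nat_lit 7) (p (nat_lit 0xd1) (nat_lit 1) (p (nat_lit 0x111) (nat_lit 1) (p (nat_lit 0x109) (nat_lit 0) (p (nat_lit 0x101) (nat_lit 0) (p (nat_lit 0x119) (nat_lit 0) (p (nat_lit 0xc9) (nat_lit 0) (p (nat_lit 0x89) (nat_lit 1) (p (nat_lit 0x41) (nat_lit 0) (p (nat_lit 0x1098a0b090a9a) (nat_lit 0) (p (nat_lit 0x89098a888a1a) (nat_lit 0) (p (nat_lit 0x108890a08079a) (nat_lit 0) (p (nat_lit 0x88088987871a) (nat_lit 0) (p (nat_lit 0x8000080000000078907088a) (nat_lit 0) (p (nat_lit 0x8000080000000070886860a) (nat_lit 0) (p (nat_lit 0x10708060782) (nat_lit 0) (p (nat_lit 0x8687858702) (nat_lit 0) (p (nat_lit 0x10607050482) (nat_lit 0) (p (nat_lit 0x8586848402)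 (nat_lit 0) (p (nat_lit 0x160004) (nat_lit 0) (p (nat_lit 0x50612) (nat_lit 0) (p (nat_lit 0x40592) (nat_lit 0) (p (nat_lit 0x40492) (nat_lit 0) (p (nat_lit 0x30412) (nat_lit 0) (p (nat_lit 0x30212) (nat_lit 0) (p (nat_lit 0x20192) (nat_lit 0) (p (nat_lit 0x20092) (nat_lit 0) (p (nat_lit 0x10012) (nat_lit 0) pn)))))))))))))))))))))))))))))) :=
  Cl.node (nat_lit 0x20000c) (nat_lit 2) (by decide +kernel) (ClAll.succ (ClAll.succ ClAll.zero n67) s304)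

def n98 : Cl (O (nat_lit 6)) (R (nat_lit 102673))
    (p (nat_lit 0xb0004) (nat_lit 0) (p (nat_lit 0x380c2) (nat_lit 1) (p (nat_lit 0x444aa) (nat_lit 7) (p (nat_lit 0xd1) (nat_lit 1) (p (nat_lit 0x111) (nat_lit 1) (p (nat_lit 0x109) (nat_lit 0) (p (nat_lit 0x101) (nat_lit 0) (p (nat_lit 0x119) (nat_lit 0) (p (nat_lit 0xc9) (nat_lit 0) (p (nat_lit 0x89) (nat_lit 1) (p (nat_lit 0x41) (nat_lit 0) (p (nat_lit 0x1098a0b090a9a) (nat_lit 0) (p (nat_lit 0x89098a888a1a) (nat_lit 0) (p (nat_lit 0x108890a08079a) (nat_lit 0) (p (nat_lit 0x88088987871a) (nat_lit 0) (p (nat_lit 0x8000080000000078907088a) (nat_lit 0) (p (nat_lit 0x8000080000000070886860a) (nat_lit 0) (p (nat_lit 0x10708060782) (nat_lit 0) (p (nat_lit 0x8687858702) (nat_lit 0) (p (nat_lit 0x10607050482) (nat_lit 0) (p (nat_lit 0x8586848402) (nat_lit 0) (p (nat_lit 0x160004) (nat_lit 0) (p (nat_lit 0x50612) (nat_lit 0) (p (nat_lit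 0x40592) (nat_lit 0) (p (nat_lit 0x40492) (nat_lit 0) (p (nat_lit 0x30412) (nat_lit 0) (p (nat_lit 0x30212) (nat_lit 0) (p (nat_lit 0x20192) (nat_lit 0) (p (nat_lit 0x20092) (nat_lit 0) (p (nat_lit 0x10012) (nat_lit 0) pn)))))))))))))))))))))))))))))) :=
  Cl.node (nat_lit 0xc1) (nat_lit 2) (by decide +kernel) (ClAll.succ (ClAll.succ ClAll.zero n68) s310)

def n99 : Cl (O (nat_lit 6)) (R (nat_lit 102673))
    (p (nat_lit 0xb0004) (nat_lit 1) (p (nat_lit 0x380c2) (nat_lit 1) (p (nat_lit 0x444aa) (nat_lit 7) (p (nat_lit 0xd1) (nat_lit 1) (p (nat_lit 0x111) (nat_lit 1) (p (nat_lit 0x109) (nat_lit 0) (p (nat_lit 0x101) (nat_lit 0) (p (nat_lit 0x119) (nat_lit 0) (p (nat_lit 0xc9) (nat_lit 0) (p (nat_lit 0x89) (nat_lit 1) (p (nat_lit 0x41) (nat_lit 0) (p (nat_lit 0x1098a0b090a9a) (nat_lit 0) (p (nat_lit 0x89098a888a1a) (nat_lit 0) (p (nat_lit 0x108890a08079a) (nat_lit 0) (p (nat_lit 0x88088987871a)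 (nat_lit 0) (p (nat_lit 0x8000080000000078907088a) (nat_lit 0) (p (nat_lit 0x8000080000000070886860a) (nat_lit 0) (p (nat_lit 0x10708060782) (nat_lit 0) (p (nat_lit 0x8687858702) (nat_lit 0) (p (nat_lit 0x10607050482) (nat_lit 0) (p (nat_lit 0x8586848402) (nat_lit 0) (p (nat_lit 0x160004) (nat_lit 0) (p (nat_lit 0x50612) (nat_lit 0) (p (nat_lit 0x40592) (nat_lit 0) (p (nat_lit 0x40492) (nat_lit 0) (p (nat_lit 0x30412) (nat_lit 0) (p (nat_lit 0x30212) (nat_lit 0) (p (nat_lit 0x20192) (nat_lit 0) (p (nat_lit 0x20092) (nat_lit 0) (p (nat_lit 0x10012) (nat_lit 0) pn)))))))))))))))))))))))))))))) :=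
  Cl.node (nat_lit 0x1fc00c) (nat_lit 2) (by decide +kernel) (ClAll.succ (ClAll.succ ClAll.zero n69) s315)

def n100 : Cl (O (nat_lit 6)) (R (nat_lit 102673))
    (p (nat_lit 0x44c2a) (nat_lit 1) (p (nat_lit 0x41) (nat_lit 0) (p (nat_lit 0x200014) (nat_lit 0) (p (nat_lit 0x20000c) (nat_lit 0) (p (nat_lit 0xd1) (nat_lit 0) (p (nat_lit 0x109) (nat_lit 1) (p (nat_lit 0x101) (nat_lit 0) (p (nat_lit 0x119) (nat_lit 0) (p (nat_lit 0xc9) (nat_lit 0) (p (nat_lit 0x89) (nat_lit 1) (p (nat_lit 0x41) (nat_lit 0) (p (nat_lit 0x1098a0b090a9a) (nat_lit 0) (p (nat_lit 0x89098a888a1a) (nat_lit 0) (p (nat_lit 0x108890a08079a) (nat_lit 0) (p (nat_lit 0x88088987871a) (nat_lit 0) (p (nat_lit 0x8000080000000078907088a) (nat_lit 0) (p (nat_lit 0x8000080000000070886860a) (nat_lit 0) (p (nat_lit 0x10708060782) (nat_lit 0) (p (nat_lit 0x8687858702) (nat_lit 0) (p (nat_lit 0x10607050482) (nat_lit 0) (p (nat_lit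 0x8586848402) (nat_lit 0) (p (nat_lit 0x160004) (nat_lit 0) (p (nat_lit 0x50612) (nat_lit 0) (p (nat_lit 0x40592) (nat_lit 0) (p (nat_lit 0x40492) (nat_lit 0) (p (nat_lit 0x30412) (nat_lit 0) (p (nat_lit 0x30212) (nat_lit 0) (p (nat_lit 0x20192) (nat_lit 0) (p (nat_lit 0x20092) (nat_lit 0) (p (nat_lit 0x10012) (nat_lit 0) pn)))))))))))))))))))))))))))))) :=
  Cl.node (nat_lit 0x380c2) (nat_lit 1) (by decide +kernel) (ClAll.succ ClAll.zero n70)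

def n101 : Cl (O (nat_lit 6)) (R (nat_lit 102673))
    (p (nat_lit 0x20000c) (nat_lit 0) (p (nat_lit 0xb0004) (nat_lit 0) (p (nat_lit 0x380c2) (nat_lit 0) (p (nat_lit 0x444aa) (nat_lit 7) (p (nat_lit 0xd1) (nat_lit 1) (p (nat_lit 0x109) (nat_lit 1) (p (nat_lit 0x101) (nat_lit 0) (p (nat_lit 0x119) (nat_lit 0) (p (nat_lit 0xc9) (nat_lit 0) (p (nat_lit 0x89) (nat_lit 1) (p (nat_lit 0x41) (nat_lit 0) (p (nat_lit 0x1098a0b090a9a) (nat_lit 0) (p (nat_lit 0x89098a888a1a) (nat_lit 0) (p (nat_lit 0x108890a08079a) (nat_lit 0) (p (nat_lit 0x88088987871a) (nat_lit 0) (p (nat_lit 0x8000080000000078907088a) (nat_lit 0) (p (nat_lit 0x8000080000000070886860a) (nat_lit 0) (p (nat_lit 0x10708060782) (nat_lit 0) (p (nat_lit 0x8687858702) (nat_lit 0) (p (nat_lit 0x10607050482) (nat_lit 0) (p (nat_lit 0x8586848402) (nat_lit 0) (p (nat_lit 0x160004) (nat_lit 0) (p (nat_lit 0x50612) (nat_lit 0) (p (nat_lit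 0x40592) (nat_lit 0) (p (nat_lit 0x40492) (nat_lit 0) (p (nat_lit 0x30412) (nat_lit 0) (p (nat_lit 0x30212) (nat_lit 0) (p (nat_lit 0x20192) (nat_lit 0) (p (nat_lit 0x20092) (nat_lit 0) (p (nat_lit 0x10012) (nat_lit 0) pn)))))))))))))))))))))))))))))) :=
  Cl.node (nat_lit 0x10000c) (nat_lit 2) (by decide +kernel) (ClAll.succ (ClAll.succ ClAll.zero n71) s347)

def n102 : Cl (O (nat_lit 6)) (R (nat_lit 102673))
    (p (nat_lit 0x1fc00c) (nat_lit 0) (p (nat_lit 0xb0004) (nat_lit 1) (p (nat_lit 0x380c2) (nat_lit 0) (p (nat_lit 0x444aa) (nat_lit 7) (p (nat_lit 0xd1) (nat_lit 1) (p (nat_lit 0x109) (nat_lit 1) (p (nat_lit 0x101) (nat_lit 0) (p (nat_lit 0x119) (nat_lit 0) (p (nat_lit 0xc9) (nat_lit 0) (p (nat_lit 0x89) (nat_lit 1) (p (nat_lit 0x41) (nat_lit 0) (p (nat_lit 0x1098a0b090a9a) (nat_lit 0) (p (nat_lit 0x89098a888a1a) (nat_lit 0) (p (nat_lit 0x108890a08079a) (nat_lit 0) (p (nat_lit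 0x88088987871a) (nat_lit 0) (p (nat_lit 0x8000080000000078907088a) (nat_lit 0) (p (nat_lit 0x8000080000000070886860a) (nat_lit 0) (p (nat_lit 0x10708060782) (nat_lit 0) (p (nat_lit 0x8687858702) (nat_lit 0) (p (nat_lit 0x10607050482) (nat_lit 0) (p (nat_lit 0x8586848402) (nat_lit 0) (p (nat_lit 0x160004) (nat_lit 0) (p (nat_lit 0x50612) (nat_lit 0) (p (nat_lit 0x40592) (nat_lit 0) (p (nat_lit 0x40492) (nat_lit 0) (p (nat_lit 0x30412) (nat_lit 0) (p (nat_lit 0x30212) (nat_lit 0) (p (nat_lit 0x20192) (nat_lit 0) (p (nat_lit 0x20092) (nat_lit 0) (p (nat_lit 0x10012) (nat_lit 0) pn)))))))))))))))))))))))))))))) :=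
  Cl.node (nat_lit 0x1fc014) (nat_lit 2) (by decide +kernel) (ClAll.succ (ClAll.succ ClAll.zero n72) s353)

def n103 : Cl (O (nat_lit 6)) (R (nat_lit 102673))
    (p (nat_lit 0xc1) (nat_lit 0) (p (nat_lit 0xb0004) (nat_lit 0) (p (nat_lit 0x380c2) (nat_lit 1) (p (nat_lit 0x444aa) (nat_lit 7) (p (nat_lit 0xd1) (nat_lit 1) (p (nat_lit 0x109) (nat_lit 1) (p (nat_lit 0x101) (nat_lit 0) (p (nat_lit 0x119) (nat_lit 0) (p (nat_lit 0xc9) (nat_lit 0) (p (nat_lit 0x89) (nat_lit 1) (p (nat_lit 0x41) (nat_lit 0) (p (nat_lit 0x1098a0b090a9a) (nat_lit 0) (p (nat_lit 0x89098a888a1a) (nat_lit 0) (p (nat_lit 0x108890a08079a) (nat_lit 0) (p (nat_lit 0x88088987871a) (nat_lit 0) (p (nat_lit 0x8000080000000078907088a) (nat_lit 0) (p (nat_lit 0x8000080000000070886860a) (nat_lit 0) (p (nat_lit 0x10708060782) (nat_lit 0) (p (nat_lit 0x8687858702) (nat_lit 0) (p (nat_lit 0x10607050482) (nat_lit 0) (p (nat_lit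 0x8586848402) (nat_lit 0) (p (nat_lit 0x160004) (nat_lit 0) (p (nat_lit 0x50612) (nat_lit 0) (p (nat_lit 0x40592) (nat_lit 0) (p (nat_lit 0x40492) (nat_lit 0) (p (nat_lit 0x30412) (nat_lit 0) (p (nat_lit 0x30212) (nat_lit 0) (p (nat_lit 0x20192) (nat_lit 0) (p (nat_lit 0x20092) (nat_lit 0) (p (nat_lit 0x10012) (nat_lit 0) pn)))))))))))))))))))))))))))))) :=
  Cl.node (nat_lit 0x20000c) (nat_lit 2) (by decide +kernel) (ClAll.succ (ClAll.succ ClAll.zero n73) s359)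

def n104 : Cl (O (nat_lit 6)) (R (nat_lit 102673))
    (p (nat_lit 0x44c2a) (nat_lit 1) (p (nat_lit 0x109) (nat_lit 1) (p (nat_lit 0x200014) (nat_lit 0) (p (nat_lit 0x20000c) (nat_lit 0) (p (nat_lit 0xd1) (nat_lit 0) (p (nat_lit 0xc1) (nat_lit 0) (p (nat_lit 0x101) (nat_lit 1) (p (nat_lit 0x119) (nat_lit 0) (p (nat_lit 0xc9) (nat_lit 0) (p (nat_lit 0x89) (nat_lit 1) (p (nat_lit 0x41) (nat_lit 0) (p (nat_lit 0x1098a0b090a9a) (nat_lit 0) (p (nat_lit 0x89098a888a1a) (nat_lit 0) (p (nat_lit 0x108890a08079a) (nat_lit 0) (p (nat_lit 0x88088987871a) (nat_lit 0) (p (nat_lit 0x8000080000000078907088a) (nat_lit 0) (p (nat_lit 0x8000080000000070886860a) (nat_lit 0) (p (nat_lit 0x10708060782) (nat_lit 0) (p (nat_lit 0x8687858702) (nat_lit 0) (p (nat_lit 0x10607050482) (nat_lit 0) (p (nat_lit 0x8586848402) (nat_lit 0) (p (nat_lit 0x160004) (nat_lit 0) (p (nat_lit 0x50612) (nat_lit 0) (p (nat_lit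 0x40592) (nat_lit 0) (p (nat_lit 0x40492) (nat_lit 0) (p (nat_lit 0x30412) (nat_lit 0) (p (nat_lit 0x30212) (nat_lit 0) (p (nat_lit 0x20192) (nat_lit 0) (p (nat_lit 0x20092) (nat_lit 0) (p (nat_lit 0x10012) (nat_lit 0) pn)))))))))))))))))))))))))))))) :=
  Cl.node (nat_lit 0x380c2) (nat_lit 1) (by decide +kernel) (ClAll.succ ClAll.zero n74)

def n105 : Cl (O (nat_lit 6)) (R (nat_lit 102673))
    (p (nat_lit 0x20000c) (nat_lit 0) (p (nat_lit 0x81) (nat_lit 0) (p (nat_lit 0x111) (nat_lit 1) (p (nat_lit 0x109) (nat_lit 0) (p (nat_lit 0xd1) (nat_lit 1) (p (nat_lit 0xc1) (nat_lit 0) (p (nat_lit 0x101) (nat_lit 1) (p (nat_lit 0x119) (nat_lit 0) (p (nat_lit 0xc9) (nat_lit 0) (p (nat_lit 0x89) (nat_lit 1) (p (nat_lit 0x41) (nat_lit 0) (p (nat_lit 0x1098a0b090a9a) (nat_lit 0) (p (nat_lit 0x89098a888a1a) (nat_lit 0) (p (nat_lit 0x108890a08079a) (nat_lit 0) (p (nat_lit 0x88088987871a) (nat_lit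 0) (p (nat_lit 0x8000080000000078907088a) (nat_lit 0) (p (nat_lit 0x8000080000000070886860a) (nat_lit 0) (p (nat_lit 0x10708060782) (nat_lit 0) (p (nat_lit 0x8687858702) (nat_lit 0) (p (nat_lit 0x10607050482) (nat_lit 0) (p (nat_lit 0x8586848402) (nat_lit 0) (p (nat_lit 0x160004) (nat_lit 0) (p (nat_lit 0x50612) (nat_lit 0) (p (nat_lit 0x40592) (nat_lit 0) (p (nat_lit 0x40492) (nat_lit 0) (p (nat_lit 0x30412) (nat_lit 0) (p (nat_lit 0x30212) (nat_lit 0) (p (nat_lit 0x20192) (nat_lit 0) (p (nat_lit 0x20092) (nat_lit 0) (p (nat_lit 0x10012) (nat_lit 0) pn)))))))))))))))))))))))))))))) :=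
  Cl.node (nat_lit 0x200014) (nat_lit 2) (by decide +kernel) (ClAll.succ (ClAll.succ ClAll.zero n75) s386)

def n106 : Cl (O (nat_lit 6)) (R (nat_lit 102673))
    (p (nat_lit 0x20000c) (nat_lit 0) (p (nat_lit 0x89) (nat_lit 0) (p (nat_lit 0x81) (nat_lit 0) (p (nat_lit 0x109) (nat_lit 1) (p (nat_lit 0xd1) (nat_lit 1) (p (nat_lit 0xc1) (nat_lit 0) (p (nat_lit 0x101) (nat_lit 1) (p (nat_lit 0x119) (nat_lit 0) (p (nat_lit 0xc9) (nat_lit 0) (p (nat_lit 0x89) (nat_lit 1) (p (nat_lit 0x41) (nat_lit 0) (p (nat_lit 0x1098a0b090a9a) (nat_lit 0) (p (nat_lit 0x89098a888a1a) (nat_lit 0) (p (nat_lit 0x108890a08079a) (nat_lit 0) (p (nat_lit 0x88088987871a) (nat_lit 0) (p (nat_lit 0x8000080000000078907088a) (nat_lit 0) (p (nat_lit 0x8000080000000070886860a) (nat_lit 0) (p (nat_lit 0x10708060782) (nat_lit 0) (p (nat_lit 0x8687858702) (nat_lit 0) (p (nat_lit 0x10607050482) (nat_lit 0) (p (nat_lit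 0x8586848402) (nat_lit 0) (p (nat_lit 0x160004) (nat_lit 0) (p (nat_lit 0x50612) (nat_lit 0) (p (nat_lit 0x40592) (nat_lit 0) (p (nat_lit 0x40492) (nat_lit 0) (p (nat_lit 0x30412) (nat_lit 0) (p (nat_lit 0x30212) (nat_lit 0) (p (nat_lit 0x20192) (nat_lit 0) (p (nat_lit 0x20092) (nat_lit 0) (p (nat_lit 0x10012) (nat_lit 0) pn)))))))))))))))))))))))))))))) :=
  Cl.node (nat_lit 0x200014) (nat_lit 2) (by decide +kernel) (ClAll.succ (ClAll.succ ClAll.zero s389) s390)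

def n107 : Cl (O (nat_lit 6)) (R (nat_lit 102673))
    (p (nat_lit 0x20000c) (nat_lit 0) (p (nat_lit 0xb0004) (nat_lit 0) (p (nat_lit 0x380c2) (nat_lit 1) (p (nat_lit 0x444aa) (nat_lit 7) (p (nat_lit 0x111) (nat_lit 1) (p (nat_lit 0xd1) (nat_lit 1) (p (nat_lit 0xc1) (nat_lit 0) (p (nat_lit 0x119) (nat_lit 1) (p (nat_lit 0xc9) (nat_lit 0) (p (nat_lit 0x89) (nat_lit 1) (p (nat_lit 0x41) (nat_lit 0) (p (nat_lit 0x1098a0b090a9a) (nat_lit 0) (p (nat_lit 0x89098a888a1a) (nat_lit 0) (p (nat_lit 0x108890a08079a) (nat_lit 0) (p (nat_lit 0x88088987871a) (nat_lit 0) (p (nat_lit 0x8000080000000078907088a) (nat_lit 0) (p (nat_lit 0x8000080000000070886860a) (nat_lit 0) (p (nat_lit 0x10708060782) (nat_lit 0) (p (nat_lit 0x8687858702) (nat_lit 0) (p (nat_lit 0x10607050482) (nat_lit 0) (p (nat_lit 0x8586848402) (nat_lit 0) (p (nat_lit 0x160004) (nat_lit 0) (p (nat_lit 0x50612) (nat_lit 0) (p (nat_lit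 0x40592) (nat_lit 0) (p (nat_lit 0x40492) (nat_lit 0) (p (nat_lit 0x30412) (nat_lit 0) (p (nat_lit 0x30212) (nat_lit 0) (p (nat_lit 0x20192) (nat_lit 0) (p (nat_lit 0x20092) (nat_lit 0) (p (nat_lit 0x10012) (nat_lit 0) pn)))))))))))))))))))))))))))))) :=
  Cl.node (nat_lit 0x109) (nat_lit 2) (by decide +kernel) (ClAll.succ (ClAll.succ ClAll.zero n76) s407)

def n108 : Cl (O (nat_lit 6)) (R (nat_lit 102673))
    (p (nat_lit 0x20000c) (nat_lit 0) (p (nat_lit 0xb0004) (nat_lit 0) (p (nat_lit 0x380c2) (nat_lit 0) (p (nat_lit 0x444aa) (nat_lit 7) (p (nat_lit 0x119) (nat_lit 1) (p (nat_lit 0x111) (nat_lit 0) (p (nat_lit 0x101) (nat_lit 0) (p (nat_lit 0x109) (nat_lit 0) (p (nat_lit 0xc9) (nat_lit 1) (p (nat_lit 0x89) (nat_lit 1) (p (nat_lit 0x41) (nat_lit 0) (p (nat_lit 0x1098a0b090a9a) (nat_lit 0) (p (nat_lit 0x89098a888a1a) (nat_lit 0) (p (nat_lit 0x108890a08079a) (nat_lit 0) (p (nat_lit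 0x88088987871a) (nat_lit 0) (p (nat_lit 0x8000080000000078907088a) (nat_lit 0) (p (nat_lit 0x8000080000000070886860a) (nat_lit 0) (p (nat_lit 0x10708060782) (nat_lit 0) (p (nat_lit 0x8687858702) (nat_lit 0) (p (nat_lit 0x10607050482) (nat_lit 0) (p (nat_lit 0x8586848402) (nat_lit 0) (p (nat_lit 0x160004) (nat_lit 0) (p (nat_lit 0x50612) (nat_lit 0) (p (nat_lit 0x40592) (nat_lit 0) (p (nat_lit 0x40492) (nat_lit 0) (p (nat_lit 0x30412) (nat_lit 0) (p (nat_lit 0x30212) (nat_lit 0) (p (nat_lit 0x20192) (nat_lit 0) (p (nat_lit 0x20092) (nat_lit 0) (p (nat_lit 0x10012) (nat_lit 0) pn)))))))))))))))))))))))))))))) :=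
  Cl.node (nat_lit 0x10000c) (nat_lit 2) (by decide +kernel) (ClAll.succ (ClAll.succ ClAll.zero n77) s455)

def n109 : Cl (O (nat_lit 6)) (R (nat_lit 102673))
    (p (nat_lit 0x200014) (nat_lit 0) (p (nat_lit 0x380c2) (nat_lit 0) (p (nat_lit 0x4c42a) (nat_lit 10) (p (nat_lit 0x111) (nat_lit 0) (p (nat_lit 0x89) (nat_lit 0) (p (nat_lit 0x109) (nat_lit 1) (p (nat_lit 0x101) (nat_lit 0) (p (nat_lit 0x119) (nat_lit 0) (p (nat_lit 0xd1) (nat_lit 0) (p (nat_lit 0x81) (nat_lit 0) (p (nat_lit 0x41) (nat_lit 1) (p (nat_lit 0x1098a0b090a9a) (nat_lit 0) (p (nat_lit 0x89098a888a1a) (nat_lit 0) (p (nat_lit 0x108890a08079a) (nat_lit 0) (p (nat_lit 0x88088987871a) (nat_lit 0) (p (nat_lit 0x8000080000000078907088a) (nat_lit 0) (p (nat_lit 0x8000080000000070886860a) (nat_lit 0) (p (nat_lit 0x10708060782) (nat_lit 0) (p (nat_lit 0x8687858702) (nat_lit 0) (p (nat_lit 0x10607050482) (nat_lit 0) (p (nat_lit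 0x8586848402) (nat_lit 0) (p (nat_lit 0x160004) (nat_lit 0) (p (nat_lit 0x50612) (nat_lit 0) (p (nat_lit 0x40592) (nat_lit 0) (p (nat_lit 0x40492) (nat_lit 0) (p (nat_lit 0x30412) (nat_lit 0) (p (nat_lit 0x30212) (nat_lit 0) (p (nat_lit 0x20192) (nat_lit 0) (p (nat_lit 0x20092) (nat_lit 0) (p (nat_lit 0x10012) (nat_lit 0) pn)))))))))))))))))))))))))))))) :=
  Cl.node (nat_lit 0xc9) (nat_lit 2) (by decide +kernel) (ClAll.succ (ClAll.succ ClAll.zero s478) n78)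

def n110 : Cl (O (nat_lit 6)) (R (nat_lit 102673))
    (p (nat_lit 0x200014) (nat_lit 0) (p (nat_lit 0x380c2) (nat_lit 0) (p (nat_lit 0x4c42a) (nat_lit 10) (p (nat_lit 0xc9) (nat_lit 0) (p (nat_lit 0x89) (nat_lit 1) (p (nat_lit 0x109) (nat_lit 1) (p (nat_lit 0x101) (nat_lit 0) (p (nat_lit 0x119) (nat_lit 0) (p (nat_lit 0xd1) (nat_lit 0) (p (nat_lit 0x81) (nat_lit 0) (p (nat_lit 0x41) (nat_lit 1) (p (nat_lit 0x1098a0b090a9a) (nat_lit 0) (p (nat_lit 0x89098a888a1a) (nat_lit 0) (p (nat_lit 0x108890a08079a) (nat_lit 0) (p (nat_lit 0x88088987871a) (nat_lit 0) (p (nat_lit 0x8000080000000078907088a) (nat_lit 0) (p (nat_lit 0x8000080000000070886860a) (nat_lit 0) (p (nat_lit 0x10708060782) (nat_lit 0) (p (nat_lit 0x8687858702) (nat_lit 0) (p (nat_lit 0x10607050482) (nat_lit 0) (p (nat_lit 0x8586848402) (nat_lit 0) (p (nat_lit 0x160004) (nat_lit 0) (p (nat_lit 0x50612) (nat_lit 0) (p (nat_lit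 0x40592) (nat_lit 0) (p (nat_lit 0x40492) (nat_lit 0) (p (nat_lit 0x30412) (nat_lit 0) (p (nat_lit 0x30212) (nat_lit 0) (p (nat_lit 0x20192) (nat_lit 0) (p (nat_lit 0x20092) (nat_lit 0) (p (nat_lit 0x10012) (nat_lit 0) pn)))))))))))))))))))))))))))))) :=
  Cl.node (nat_lit 0x100014) (nat_lit 2) (by decide +kernel) (ClAll.succ (ClAll.succ ClAll.zero n79) s533)

def n111 : Cl (O (nat_lit 6)) (R (nat_lit 102673))
    (p (nat_lit 0x200014) (nat_lit 0) (p (nat_lit 0x380c2) (nat_lit 0) (p (nat_lit 0x4c42a) (nat_lit 10) (p (nat_lit 0xc9) (nat_lit 0) (p (nat_lit 0x89) (nat_lit 1) (p (nat_lit 0xc1) (nat_lit 0) (p (nat_lit 0x101) (nat_lit 1) (p (nat_lit 0x119) (nat_lit 0) (p (nat_lit 0xd1) (nat_lit 0) (p (nat_lit 0x81) (nat_lit 0) (p (nat_lit 0x41) (nat_lit 1) (p (nat_lit 0x1098a0b090a9a) (nat_lit 0) (p (nat_lit 0x89098a888a1a) (nat_lit 0) (p (nat_lit 0x108890a08079a) (nat_lit 0) (p (nat_lit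 0x88088987871a) (nat_lit 0) (p (nat_lit 0x8000080000000078907088a) (nat_lit 0) (p (nat_lit 0x8000080000000070886860a) (nat_lit 0) (p (nat_lit 0x10708060782) (nat_lit 0) (p (nat_lit 0x8687858702) (nat_lit 0) (p (nat_lit 0x10607050482) (nat_lit 0) (p (nat_lit 0x8586848402) (nat_lit 0) (p (nat_lit 0x160004) (nat_lit 0) (p (nat_lit 0x50612) (nat_lit 0) (p (nat_lit 0x40592) (nat_lit 0) (p (nat_lit 0x40492) (nat_lit 0) (p (nat_lit 0x30412) (nat_lit 0) (p (nat_lit 0x30212) (nat_lit 0) (p (nat_lit 0x20192) (nat_lit 0) (p (nat_lit 0x20092) (nat_lit 0) (p (nat_lit 0x10012) (nat_lit 0) pn)))))))))))))))))))))))))))))) :=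
  Cl.node (nat_lit 0x100014) (nat_lit 2) (by decide +kernel) (ClAll.succ (ClAll.succ ClAll.zero n80) s556)

def n112 : Cl (O (nat_lit 6)) (R (nat_lit 102673))
    (p (nat_lit 0xb0004) (nat_lit 0) (p (nat_lit 0x380c2) (nat_lit 0) (p (nat_lit 0x3c4aa) (nat_lit 8) (p (nat_lit 0x109) (nat_lit 1) (p (nat_lit 0x89) (nat_lit 1) (p (nat_lit 0x101) (nat_lit 0) (p (nat_lit 0xc1) (nat_lit 1) (p (nat_lit 0x119) (nat_lit 1) (p (nat_lit 0xd1) (nat_lit 0) (p (nat_lit 0x81) (nat_lit 0) (p (nat_lit 0x41) (nat_lit 1) (p (nat_lit 0x1098a0b090a9a) (nat_lit 0) (p (nat_lit 0x89098a888a1a) (nat_lit 0) (p (nat_lit 0x108890a08079a) (nat_lit 0) (p (nat_lit 0x88088987871a) (nat_lit 0) (p (nat_lit 0x8000080000000078907088a) (nat_lit 0) (p (nat_lit 0x8000080000000070886860a) (nat_lit 0) (p (nat_lit 0x10708060782) (nat_lit 0) (p (nat_lit 0x8687858702) (nat_lit 0) (p (nat_lit 0x10607050482) (nat_lit 0) (p (nat_lit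 0x8586848402) (nat_lit 0) (p (nat_lit 0x160004) (nat_lit 0) (p (nat_lit 0x50612) (nat_lit 0) (p (nat_lit 0x40592) (nat_lit 0) (p (nat_lit 0x40492) (nat_lit 0) (p (nat_lit 0x30412) (nat_lit 0) (p (nat_lit 0x30212) (nat_lit 0) (p (nat_lit 0x20192) (nat_lit 0) (p (nat_lit 0x20092) (nat_lit 0) (p (nat_lit 0x10012) (nat_lit 0) pn)))))))))))))))))))))))))))))) :=
  Cl.node (nat_lit 0x200014) (nat_lit 2) (by decide +kernel) (ClAll.succ (ClAll.succ ClAll.zero s653) s654)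

def n113 : Cl (O (nat_lit 6)) (R (nat_lit 102673))
    (p (nat_lit 0xd1) (nat_lit 1) (p (nat_lit 0xc1) (nat_lit 0) (p (nat_lit 0x119) (nat_lit 1) (p (nat_lit 0xc9) (nat_lit 0) (p (nat_lit 0x89) (nat_lit 1) (p (nat_lit 0x109) (nat_lit 1) (p (nat_lit 0x101) (nat_lit 0) (p (nat_lit 0x111) (nat_lit 0) (p (nat_lit 0xd1) (nat_lit 1) (p (nat_lit 0x81) (nat_lit 0) (p (nat_lit 0x41) (nat_lit 1) (p (nat_lit 0x1098a0b090a9a) (nat_lit 0) (p (nat_lit 0x89098a888a1a) (nat_lit 0) (p (nat_lit 0x108890a08079a) (nat_lit 0) (p (nat_lit 0x88088987871a) (nat_lit 0) (p (nat_lit 0x8000080000000078907088a) (nat_lit 0) (p (nat_lit 0x8000080000000070886860a) (nat_lit 0) (p (nat_lit 0x10708060782) (nat_lit 0) (p (nat_lit 0x8687858702) (nat_lit 0) (p (nat_lit 0x10607050482) (nat_lit 0) (p (nat_lit 0x8586848402) (nat_lit 0) (p (nat_lit 0x160004) (nat_lit 0) (p (nat_lit 0x50612) (nat_lit 0) (p (nat_lit 0x40592)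 (nat_lit 0) (p (nat_lit 0x40492) (nat_lit 0) (p (nat_lit 0x30412) (nat_lit 0) (p (nat_lit 0x30212) (nat_lit 0) (p (nat_lit 0x20192) (nat_lit 0) (p (nat_lit 0x20092) (nat_lit 0) (p (nat_lit 0x10012) (nat_lit 0) pn)))))))))))))))))))))))))))))) :=
  Cl.node (nat_lit 0x4c42a) (nat_lit 12) (by decide +kernel) (ClAll.succ (ClAll.succ (ClAll.succ (ClAll.succ (ClAll.succ (ClAll.succ (ClAll.succ (ClAll.succ (ClAll.succ (ClAll.succ (ClAll.succ (ClAll.succ ClAll.zero s691) s692) s693) s694) s695) s696) s697) s698) s699) s700) n81) s703)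

def n114 : Cl (O (nat_lit 6)) (R (nat_lit 102673))
    (p (nat_lit 0x20000c) (nat_lit 0) (p (nat_lit 0xc1) (nat_lit 1) (p (nat_lit 0x119) (nat_lit 1) (p (nat_lit 0xc9) (nat_lit 0) (p (nat_lit 0x89) (nat_lit 1) (p (nat_lit 0x109) (nat_lit 1) (p (nat_lit 0x101) (nat_lit 0) (p (nat_lit 0x111) (nat_lit 0) (p (nat_lit 0xd1) (nat_lit 1) (p (nat_lit 0x81) (nat_lit 0) (p (nat_lit 0x41) (nat_lit 1) (p (nat_lit 0x1098a0b090a9a) (nat_lit 0) (p (nat_lit 0x89098a888a1a) (nat_lit 0) (p (nat_lit 0x108890a08079a) (nat_lit 0) (p (nat_lit 0x88088987871a) (nat_lit 0) (p (nat_lit 0x8000080000000078907088a) (nat_lit 0) (p (nat_lit 0x8000080000000070886860a) (nat_lit 0) (p (nat_lit 0x10708060782) (nat_lit 0) (p (nat_lit 0x8687858702) (nat_lit 0) (p (nat_lit 0x10607050482) (nat_lit 0) (p (nat_lit 0x8586848402) (nat_lit 0) (p (nat_lit 0x160004) (nat_lit 0) (p (nat_lit 0x50612) (nat_lit 0) (p (nat_lit 0x40592)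 (nat_lit 0) (p (nat_lit 0x40492) (nat_lit 0) (p (nat_lit 0x30412) (nat_lit 0) (p (nat_lit 0x30212) (nat_lit 0) (p (nat_lit 0x20192) (nat_lit 0) (p (nat_lit 0x20092) (nat_lit 0) (p (nat_lit 0x10012) (nat_lit 0) pn)))))))))))))))))))))))))))))) :=
  Cl.node (nat_lit 0x200014) (nat_lit 2) (by decide +kernel) (ClAll.succ (ClAll.succ ClAll.zero n82) s720)

def n115 : Cl (O (nat_lit 6)) (R (nat_lit 102673))
    (p (nat_lit 0x100014) (nat_lit 0) (p (nat_lit 0x200014) (nat_lit 0) (p (nat_lit 0x380c2) (nat_lit 0) (p (nat_lit 0x3cc2a) (nat_lit 2) (p (nat_lit 0xc9) (nat_lit 0) (p (nat_lit 0x89) (nat_lit 1) (p (nat_lit 0x101) (nat_lit 1) (p (nat_lit 0x111) (nat_lit 0) (p (nat_lit 0xd1) (nat_lit 1) (p (nat_lit 0x81) (nat_lit 0) (p (nat_lit 0x41) (nat_lit 1) (p (nat_lit 0x1098a0b090a9a) (nat_lit 0) (p (nat_lit 0x89098a888a1a) (nat_lit 0) (p (nat_lit 0x108890a08079a) (nat_lit 0) (p (nat_lit 0x88088987871a)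 (nat_lit 0) (p (nat_lit 0x8000080000000078907088a) (nat_lit 0) (p (nat_lit 0x8000080000000070886860a) (nat_lit 0) (p (nat_lit 0x10708060782) (nat_lit 0) (p (nat_lit 0x8687858702) (nat_lit 0) (p (nat_lit 0x10607050482) (nat_lit 0) (p (nat_lit 0x8586848402) (nat_lit 0) (p (nat_lit 0x160004) (nat_lit 0) (p (nat_lit 0x50612) (nat_lit 0) (p (nat_lit 0x40592) (nat_lit 0) (p (nat_lit 0x40492) (nat_lit 0) (p (nat_lit 0x30412) (nat_lit 0) (p (nat_lit 0x30212) (nat_lit 0) (p (nat_lit 0x20192) (nat_lit 0) (p (nat_lit 0x20092) (nat_lit 0) (p (nat_lit 0x10012) (nat_lit 0) pn)))))))))))))))))))))))))))))) :=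
  Cl.node (nat_lit 0xd1) (nat_lit 2) (by decide +kernel) (ClAll.succ (ClAll.succ ClAll.zero n83) n84)

def n116 : Cl (O (nat_lit 6)) (R (nat_lit 102673))
    (p (nat_lit 0xb0004) (nat_lit 0) (p (nat_lit 0x380c2) (nat_lit 0) (p (nat_lit 0x3c4aa) (nat_lit 7) (p (nat_lit 0xd1) (nat_lit 1) (p (nat_lit 0x111) (nat_lit 1) (p (nat_lit 0x109) (nat_lit 0) (p (nat_lit 0x101) (nat_lit 0) (p (nat_lit 0x119) (nat_lit 0) (p (nat_lit 0xc1) (nat_lit 0) (p (nat_lit 0x81) (nat_lit 1) (p (nat_lit 0x41) (nat_lit 1) (p (nat_lit 0x1098a0b090a9a) (nat_lit 0) (p (nat_lit 0x89098a888a1a) (nat_lit 0) (p (nat_lit 0x108890a08079a) (nat_lit 0) (p (nat_lit 0x88088987871a) (nat_lit 0) (p (nat_lit 0x8000080000000078907088a) (nat_lit 0) (p (nat_lit 0x8000080000000070886860a) (nat_lit 0) (p (nat_lit 0x10708060782) (nat_lit 0) (p (nat_lit 0x8687858702) (nat_lit 0) (p (nat_lit 0x10607050482) (nat_lit 0) (p (nat_lit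 0x8586848402) (nat_lit 0) (p (nat_lit 0x160004) (nat_lit 0) (p (nat_lit 0x50612) (nat_lit 0) (p (nat_lit 0x40592) (nat_lit 0) (p (nat_lit 0x40492) (nat_lit 0) (p (nat_lit 0x30412) (nat_lit 0) (p (nat_lit 0x30212) (nat_lit 0) (p (nat_lit 0x20192) (nat_lit 0) (p (nat_lit 0x20092) (nat_lit 0) (p (nat_lit 0x10012) (nat_lit 0) pn)))))))))))))))))))))))))))))) :=
  Cl.node (nat_lit 0x41) (nat_lit 2) (by decide +kernel) (ClAll.succ (ClAll.succ ClAll.zero s783) s784)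

def n117 : Cl (O (nat_lit 6)) (R (nat_lit 102673))
    (p (nat_lit 0x380c2) (nat_lit 0) (p (nat_lit 0x444aa) (nat_lit 7) (p (nat_lit 0x81) (nat_lit 1) (p (nat_lit 0xc9) (nat_lit 1) (p (nat_lit 0x109) (nat_lit 1) (p (nat_lit 0x101) (nat_lit 0) (p (nat_lit 0x119) (nat_lit 0) (p (nat_lit 0xd1) (nat_lit 0) (p (nat_lit 0x89) (nat_lit 0) (p (nat_lit 0x41) (nat_lit 0) (p (nat_lit 0x1098a0b090a9a) (nat_lit 0) (p (nat_lit 0x89098a888a1a) (nat_lit 0) (p (nat_lit 0x108890a08079a) (nat_lit 0) (p (nat_lit 0x88088987871a) (nat_lit 0) (p (nat_lit 0x8000080000000078907088a) (nat_lit 0) (p (nat_lit 0x8000080000000070886860a) (nat_lit 0) (p (nat_lit 0x10708060782) (nat_lit 0) (p (nat_lit 0x8687858702) (nat_lit 0) (p (nat_lit 0x10607050482) (nat_lit 0) (p (nat_lit 0x8586848402) (nat_lit 0) (p (nat_lit 0x160004) (nat_lit 0) (p (nat_lit 0x50612) (nat_lit 0) (p (nat_lit 0x40592) (nat_lit 0) (p (nat_lit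 0x40492) (nat_lit 0) (p (nat_lit 0x30412) (nat_lit 0) (p (nat_lit 0x30212) (nat_lit 0) (p (nat_lit 0x20192) (nat_lit 0) (p (nat_lit 0x20092) (nat_lit 0) (p (nat_lit 0x10012) (nat_lit 0) pn))))))))))))))))))))))))))))) :=
  Cl.node (nat_lit 0xb0004) (nat_lit 2) (by decide +kernel) (ClAll.succ (ClAll.succ ClAll.zero n85) n86)

def n118 : Cl (O (nat_lit 6)) (R (nat_lit 102673))
    (p (nat_lit 0x380c2) (nat_lit 1) (p (nat_lit 0x444aa) (nat_lit 7) (p (nat_lit 0x81) (nat_lit 1) (p (nat_lit 0xc9) (nat_lit 1) (p (nat_lit 0x109) (nat_lit 1) (p (nat_lit 0x101) (nat_lit 0) (p (nat_lit 0x119) (nat_lit 0) (p (nat_lit 0xd1) (nat_lit 0) (p (nat_lit 0x89) (nat_lit 0) (p (nat_lit 0x41) (nat_lit 0) (p (nat_lit 0x1098a0b090a9a) (nat_lit 0) (p (nat_lit 0x89098a888a1a) (nat_lit 0) (p (nat_lit 0x108890a08079a) (nat_lit 0) (p (nat_lit 0x88088987871a) (nat_lit 0) (p (nat_lit 0x8000080000000078907088a)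 (nat_lit 0) (p (nat_lit 0x8000080000000070886860a) (nat_lit 0) (p (nat_lit 0x10708060782) (nat_lit 0) (p (nat_lit 0x8687858702) (nat_lit 0) (p (nat_lit 0x10607050482) (nat_lit 0) (p (nat_lit 0x8586848402) (nat_lit 0) (p (nat_lit 0x160004) (nat_lit 0) (p (nat_lit 0x50612) (nat_lit 0) (p (nat_lit 0x40592) (nat_lit 0) (p (nat_lit 0x40492) (nat_lit 0) (p (nat_lit 0x30412) (nat_lit 0) (p (nat_lit 0x30212) (nat_lit 0) (p (nat_lit 0x20192) (nat_lit 0) (p (nat_lit 0x20092) (nat_lit 0) (p (nat_lit 0x10012) (nat_lit 0) pn))))))))))))))))))))))))))))) :=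
  Cl.node (nat_lit 0xb0004) (nat_lit 2) (by decide +kernel) (ClAll.succ (ClAll.succ ClAll.zero n87) n88)

def n119 : Cl (O (nat_lit 6)) (R (nat_lit 102673))
    (p (nat_lit 0x380c2) (nat_lit 0) (p (nat_lit 0x444aa) (nat_lit 7) (p (nat_lit 0x111) (nat_lit 0) (p (nat_lit 0xc9) (nat_lit 1) (p (nat_lit 0x81) (nat_lit 0) (p (nat_lit 0x101) (nat_lit 1) (p (nat_lit 0x119) (nat_lit 0) (p (nat_lit 0xd1) (nat_lit 0) (p (nat_lit 0x89) (nat_lit 0) (p (nat_lit 0x41) (nat_lit 0) (p (nat_lit 0x1098a0b090a9a) (nat_lit 0) (p (nat_lit 0x89098a888a1a) (nat_lit 0) (p (nat_lit 0x108890a08079a) (nat_lit 0) (p (nat_lit 0x88088987871a) (nat_lit 0) (p (nat_lit 0x8000080000000078907088a) (nat_lit 0) (p (nat_lit 0x8000080000000070886860a) (nat_lit 0) (p (nat_lit 0x10708060782) (nat_lit 0) (p (nat_lit 0x8687858702) (nat_lit 0) (p (nat_lit 0x10607050482) (nat_lit 0) (p (nat_lit 0x8586848402) (nat_lit 0) (p (nat_lit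 0x160004) (nat_lit 0) (p (nat_lit 0x50612) (nat_lit 0) (p (nat_lit 0x40592) (nat_lit 0) (p (nat_lit 0x40492) (nat_lit 0) (p (nat_lit 0x30412) (nat_lit 0) (p (nat_lit 0x30212) (nat_lit 0) (p (nat_lit 0x20192) (nat_lit 0) (p (nat_lit 0x20092) (nat_lit 0) (p (nat_lit 0x10012) (nat_lit 0) pn))))))))))))))))))))))))))))) :=
  Cl.node (nat_lit 0x20000c) (nat_lit 2) (by decide +kernel) (ClAll.succ (ClAll.succ ClAll.zero n89) s77)

def n120 : Cl (O (nat_lit 6)) (R (nat_lit 102673))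
    (p (nat_lit 0x380c2) (nat_lit 1) (p (nat_lit 0x444aa) (nat_lit 7) (p (nat_lit 0x111) (nat_lit 0) (p (nat_lit 0xc9) (nat_lit 1) (p (nat_lit 0x81) (nat_lit 0) (p (nat_lit 0x101) (nat_lit 1) (p (nat_lit 0x119) (nat_lit 0) (p (nat_lit 0xd1) (nat_lit 0) (p (nat_lit 0x89) (nat_lit 0) (p (nat_lit 0x41) (nat_lit 0) (p (nat_lit 0x1098a0b090a9a) (nat_lit 0) (p (nat_lit 0x89098a888a1a) (nat_lit 0) (p (nat_lit 0x108890a08079a) (nat_lit 0) (p (nat_lit 0x88088987871a) (nat_lit 0) (p (nat_lit 0x8000080000000078907088a) (nat_lit 0) (p (nat_lit 0x8000080000000070886860a) (nat_lit 0) (p (nat_lit 0x10708060782) (nat_lit 0) (p (nat_lit 0x8687858702) (nat_lit 0) (p (nat_lit 0x10607050482) (nat_lit 0) (p (nat_lit 0x8586848402) (nat_lit 0) (p (nat_lit 0x160004) (nat_lit 0) (p (nat_lit 0x50612) (nat_lit 0) (p (nat_lit 0x40592) (nat_lit 0) (p (nat_lit 0x40492) (nat_lit 0) (p (nat_lit 0x30412) (nat_lit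 0) (p (nat_lit 0x30212) (nat_lit 0) (p (nat_lit 0x20192) (nat_lit 0) (p (nat_lit 0x20092) (nat_lit 0) (p (nat_lit 0x10012) (nat_lit 0) pn))))))))))))))))))))))))))))) :=
  Cl.node (nat_lit 0xb0004) (nat_lit 2) (by decide +kernel) (ClAll.succ (ClAll.succ ClAll.zero n90) s81)

def n121 : Cl (O (nat_lit 6)) (R (nat_lit 102673))
    (p (nat_lit 0x101) (nat_lit 0) (p (nat_lit 0x380c2) (nat_lit 0) (p (nat_lit 0x3cc2a) (nat_lit 2) (p (nat_lit 0x109) (nat_lit 1) (p (nat_lit 0xc9) (nat_lit 1) (p (nat_lit 0xc1) (nat_lit 0) (p (nat_lit 0x119) (nat_lit 1) (p (nat_lit 0xd1) (nat_lit 0) (p (nat_lit 0x89) (nat_lit 0) (p (nat_lit 0x41) (nat_lit 0) (p (nat_lit 0x1098a0b090a9a) (nat_lit 0) (p (nat_lit 0x89098a888a1a) (nat_lit 0) (p (nat_lit 0x108890a08079a) (nat_lit 0) (p (nat_lit 0x88088987871a) (nat_lit 0) (p (nat_lit 0x8000080000000078907088a) (nat_lit 0) (p (nat_lit 0x8000080000000070886860a)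 (nat_lit 0) (p (nat_lit 0x10708060782) (nat_lit 0) (p (nat_lit 0x8687858702) (nat_lit 0) (p (nat_lit 0x10607050482) (nat_lit 0) (p (nat_lit 0x8586848402) (nat_lit 0) (p (nat_lit 0x160004) (nat_lit 0) (p (nat_lit 0x50612) (nat_lit 0) (p (nat_lit 0x40592) (nat_lit 0) (p (nat_lit 0x40492) (nat_lit 0) (p (nat_lit 0x30412) (nat_lit 0) (p (nat_lit 0x30212) (nat_lit 0) (p (nat_lit 0x20192) (nat_lit 0) (p (nat_lit 0x20092) (nat_lit 0) (p (nat_lit 0x10012) (nat_lit 0) pn))))))))))))))))))))))))))))) :=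
  Cl.node (nat_lit 0xb0004) (nat_lit 2) (by decide +kernel) (ClAll.succ (ClAll.succ ClAll.zero n91) n92)

def n122 : Cl (O (nat_lit 6)) (R (nat_lit 102673))
    (p (nat_lit 0x101) (nat_lit 1) (p (nat_lit 0x380c2) (nat_lit 0) (p (nat_lit 0x3cc2a) (nat_lit 2) (p (nat_lit 0x109) (nat_lit 1) (p (nat_lit 0xc9) (nat_lit 1) (p (nat_lit 0xc1) (nat_lit 0) (p (nat_lit 0x119) (nat_lit 1) (p (nat_lit 0xd1) (nat_lit 0) (p (nat_lit 0x89) (nat_lit 0) (p (nat_lit 0x41) (nat_lit 0) (p (nat_lit 0x1098a0b090a9a) (nat_lit 0) (p (nat_lit 0x89098a888a1a) (nat_lit 0) (p (nat_lit 0x108890a08079a) (nat_lit 0) (p (nat_lit 0x88088987871a) (nat_lit 0) (p (nat_lit 0x8000080000000078907088a) (nat_lit 0) (p (nat_lit 0x8000080000000070886860a) (nat_lit 0) (p (nat_lit 0x10708060782) (nat_lit 0) (p (nat_lit 0x8687858702) (nat_lit 0) (p (nat_lit 0x10607050482) (nat_lit 0) (p (nat_lit 0x8586848402) (nat_lit 0) (p (nat_lit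 0x160004) (nat_lit 0) (p (nat_lit 0x50612) (nat_lit 0) (p (nat_lit 0x40592) (nat_lit 0) (p (nat_lit 0x40492) (nat_lit 0) (p (nat_lit 0x30412) (nat_lit 0) (p (nat_lit 0x30212) (nat_lit 0) (p (nat_lit 0x20192) (nat_lit 0) (p (nat_lit 0x20092) (nat_lit 0) (p (nat_lit 0x10012) (nat_lit 0) pn))))))))))))))))))))))))))))) :=
  Cl.node (nat_lit 0x41) (nat_lit 2) (by decide +kernel) (ClAll.succ (ClAll.succ ClAll.zero n93) s136)

def n123 : Cl (O (nat_lit 6)) (R (nat_lit 102673))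
    (p (nat_lit 0xc9) (nat_lit 1) (p (nat_lit 0x380c2) (nat_lit 0) (p (nat_lit 0x3cc2a) (nat_lit 2) (p (nat_lit 0x109) (nat_lit 1) (p (nat_lit 0x81) (nat_lit 0) (p (nat_lit 0xc1) (nat_lit 1) (p (nat_lit 0x119) (nat_lit 1) (p (nat_lit 0xd1) (nat_lit 0) (p (nat_lit 0x89) (nat_lit 0) (p (nat_lit 0x41) (nat_lit 0) (p (nat_lit 0x1098a0b090a9a) (nat_lit 0) (p (nat_lit 0x89098a888a1a) (nat_lit 0) (p (nat_lit 0x108890a08079a) (nat_lit 0) (p (nat_lit 0x88088987871a) (nat_lit 0) (p (nat_lit 0x8000080000000078907088a) (nat_lit 0) (p (nat_lit 0x8000080000000070886860a) (nat_lit 0) (p (nat_lit 0x10708060782) (nat_lit 0) (p (nat_lit 0x8687858702) (nat_lit 0) (p (nat_lit 0x10607050482) (nat_lit 0) (p (nat_lit 0x8586848402) (nat_lit 0) (p (nat_lit 0x160004) (nat_lit 0) (p (nat_lit 0x50612) (nat_lit 0) (p (nat_lit 0x40592) (nat_lit 0) (p (nat_lit 0x40492) (nat_lit 0) (p (nat_lit 0x30412) (nat_lit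 0) (p (nat_lit 0x30212) (nat_lit 0) (p (nat_lit 0x20192) (nat_lit 0) (p (nat_lit 0x20092) (nat_lit 0) (p (nat_lit 0x10012) (nat_lit 0) pn))))))))))))))))))))))))))))) :=
  Cl.node (nat_lit 0x200014) (nat_lit 2) (by decide +kernel) (ClAll.succ (ClAll.succ ClAll.zero n94) s153)

def n124 : Cl (O (nat_lit 6)) (R (nat_lit 102673))
    (p (nat_lit 0x380c2) (nat_lit 0) (p (nat_lit 0x44c2a) (nat_lit 1) (p (nat_lit 0x109) (nat_lit 0) (p (nat_lit 0x101) (nat_lit 0) (p (nat_lit 0x81) (nat_lit 1) (p (nat_lit 0xc1) (nat_lit 1) (p (nat_lit 0x119) (nat_lit 1) (p (nat_lit 0xd1) (nat_lit 0) (p (nat_lit 0x89) (nat_lit 0) (p (nat_lit 0x41) (nat_lit 0) (p (nat_lit 0x1098a0b090a9a) (nat_lit 0) (p (nat_lit 0x89098a888a1a) (nat_lit 0) (p (nat_lit 0x108890a08079a) (nat_lit 0) (p (nat_lit 0x88088987871a) (nat_lit 0) (p (nat_lit 0x8000080000000078907088a) (nat_lit 0) (p (nat_lit 0x8000080000000070886860a)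 (nat_lit 0) (p (nat_lit 0x10708060782) (nat_lit 0) (p (nat_lit 0x8687858702) (nat_lit 0) (p (nat_lit 0x10607050482) (nat_lit 0) (p (nat_lit 0x8586848402) (nat_lit 0) (p (nat_lit 0x160004) (nat_lit 0) (p (nat_lit 0x50612) (nat_lit 0) (p (nat_lit 0x40592) (nat_lit 0) (p (nat_lit 0x40492) (nat_lit 0) (p (nat_lit 0x30412) (nat_lit 0) (p (nat_lit 0x30212) (nat_lit 0) (p (nat_lit 0x20192) (nat_lit 0) (p (nat_lit 0x20092) (nat_lit 0) (p (nat_lit 0x10012) (nat_lit 0) pn))))))))))))))))))))))))))))) :=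
  Cl.node (nat_lit 0x101) (nat_lit 2) (by decide +kernel) (ClAll.succ (ClAll.succ ClAll.zero s164) s165)

def n125 : Cl (O (nat_lit 6)) (R (nat_lit 102673))
    (p (nat_lit 0x380c2) (nat_lit 1) (p (nat_lit 0x444aa) (nat_lit 7) (p (nat_lit 0x109) (nat_lit 1) (p (nat_lit 0x101) (nat_lit 0) (p (nat_lit 0x81) (nat_lit 1) (p (nat_lit 0xc1) (nat_lit 1) (p (nat_lit 0x119) (nat_lit 1) (p (nat_lit 0xd1) (nat_lit 0) (p (nat_lit 0x89) (nat_lit 0) (p (nat_lit 0x41) (nat_lit 0) (p (nat_lit 0x1098a0b090a9a) (nat_lit 0) (p (nat_lit 0x89098a888a1a) (nat_lit 0) (p (nat_lit 0x108890a08079a) (nat_lit 0) (p (nat_lit 0x88088987871a) (nat_lit 0) (p (nat_lit 0x8000080000000078907088a) (nat_lit 0) (p (nat_lit 0x8000080000000070886860a) (nat_lit 0) (p (nat_lit 0x10708060782) (nat_lit 0) (p (nat_lit 0x8687858702) (nat_lit 0) (p (nat_lit 0x10607050482) (nat_lit 0) (p (nat_lit 0x8586848402) (nat_lit 0) (p (nat_lit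 0x160004) (nat_lit 0) (p (nat_lit 0x50612) (nat_lit 0) (p (nat_lit 0x40592) (nat_lit 0) (p (nat_lit 0x40492) (nat_lit 0) (p (nat_lit 0x30412) (nat_lit 0) (p (nat_lit 0x30212) (nat_lit 0) (p (nat_lit 0x20192) (nat_lit 0) (p (nat_lit 0x20092) (nat_lit 0) (p (nat_lit 0x10012) (nat_lit 0) pn))))))))))))))))))))))))))))) :=
  Cl.node (nat_lit 0x20000c) (nat_lit 2) (by decide +kernel) (ClAll.succ (ClAll.succ ClAll.zero n95) s186)

def n126 : Cl (O (nat_lit 6)) (R (nat_lit 102673))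
    (p (nat_lit 0x41) (nat_lit 0) (p (nat_lit 0x200014) (nat_lit 0) (p (nat_lit 0x20000c) (nat_lit 0) (p (nat_lit 0xc1) (nat_lit 1) (p (nat_lit 0x109) (nat_lit 1) (p (nat_lit 0x101) (nat_lit 0) (p (nat_lit 0x111) (nat_lit 0) (p (nat_lit 0xd1) (nat_lit 1) (p (nat_lit 0x89) (nat_lit 0) (p (nat_lit 0x41) (nat_lit 0) (p (nat_lit 0x1098a0b090a9a) (nat_lit 0) (p (nat_lit 0x89098a888a1a) (nat_lit 0) (p (nat_lit 0x108890a08079a) (nat_lit 0) (p (nat_lit 0x88088987871a) (nat_lit 0) (p (nat_lit 0x8000080000000078907088a) (nat_lit 0) (p (nat_lit 0x8000080000000070886860a) (nat_lit 0) (p (nat_lit 0x10708060782) (nat_lit 0) (p (nat_lit 0x8687858702) (nat_lit 0) (p (nat_lit 0x10607050482) (nat_lit 0) (p (nat_lit 0x8586848402) (nat_lit 0) (p (nat_lit 0x160004) (nat_lit 0) (p (nat_lit 0x50612) (nat_lit 0) (p (nat_lit 0x40592) (nat_lit 0) (p (nat_lit 0x40492) (nat_lit 0) (p (nat_lit 0x30412) (nat_lit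 0) (p (nat_lit 0x30212) (nat_lit 0) (p (nat_lit 0x20192) (nat_lit 0) (p (nat_lit 0x20092) (nat_lit 0) (p (nat_lit 0x10012) (nat_lit 0) pn))))))))))))))))))))))))))))) :=
  Cl.node (nat_lit 0x3cc2a) (nat_lit 12) (by decide +kernel) (ClAll.succ (ClAll.succ (ClAll.succ (ClAll.succ (ClAll.succ (ClAll.succ (ClAll.succ (ClAll.succ (ClAll.succ (ClAll.succ (ClAll.succ (ClAll.succ ClAll.zero s205) n96) s208) s209) s210) s211) s212) s213) s214) s215) s216) s217)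

def n127 : Cl (O (nat_lit 6)) (R (nat_lit 102673))
    (p (nat_lit 0x109) (nat_lit 1) (p (nat_lit 0x200014) (nat_lit 0) (p (nat_lit 0x20000c) (nat_lit 0) (p (nat_lit 0x119) (nat_lit 0) (p (nat_lit 0x81) (nat_lit 0) (p (nat_lit 0x101) (nat_lit 1) (p (nat_lit 0x111) (nat_lit 0) (p (nat_lit 0xd1) (nat_lit 1) (p (nat_lit 0x89) (nat_lit 0) (p (nat_lit 0x41) (nat_lit 0) (p (nat_lit 0x1098a0b090a9a) (nat_lit 0) (p (nat_lit 0x89098a888a1a) (nat_lit 0) (p (nat_lit 0x108890a08079a) (nat_lit 0) (p (nat_lit 0x88088987871a) (nat_lit 0) (p (nat_lit 0x8000080000000078907088a) (nat_lit 0) (p (nat_lit 0x8000080000000070886860a) (nat_lit 0) (p (nat_lit 0x10708060782) (nat_lit 0) (p (nat_lit 0x8687858702) (nat_lit 0) (p (nat_lit 0x10607050482) (nat_lit 0) (p (nat_lit 0x8586848402) (nat_lit 0) (p (nat_lit 0x160004) (nat_lit 0) (p (nat_lit 0x50612) (nat_lit 0) (p (nat_lit 0x40592) (nat_lit 0) (p (nat_lit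 0x40492) (nat_lit 0) (p (nat_lit 0x30412) (nat_lit 0) (p (nat_lit 0x30212) (nat_lit 0) (p (nat_lit 0x20192) (nat_lit 0) (p (nat_lit 0x20092) (nat_lit 0) (p (nat_lit 0x10012) (nat_lit 0) pn))))))))))))))))))))))))))))) :=
  Cl.node (nat_lit 0x3cc2a) (nat_lit 12) (by decide +kernel) (ClAll.succ (ClAll.succ (ClAll.succ (ClAll.succ (ClAll.succ (ClAll.succ (ClAll.succ (ClAll.succ (ClAll.succ (ClAll.succ (ClAll.succ (ClAll.succ ClAll.zero s222) s223) s224) s225) s226) s227) s228) s229) s230) s231) s232) s233)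

def n128 : Cl (O (nat_lit 6)) (R (nat_lit 102673))
    (p (nat_lit 0x380c2) (nat_lit 0) (p (nat_lit 0x3cc2a) (nat_lit 2) (p (nat_lit 0x119) (nat_lit 1) (p (nat_lit 0xc1) (nat_lit 0) (p (nat_lit 0x81) (nat_lit 1) (p (nat_lit 0x101) (nat_lit 1) (p (nat_lit 0x111) (nat_lit 0) (p (nat_lit 0xd1) (nat_lit 1) (p (nat_lit 0x89) (nat_lit 0) (p (nat_lit 0x41) (nat_lit 0) (p (nat_lit 0x1098a0b090a9a) (nat_lit 0) (p (nat_lit 0x89098a888a1a) (nat_lit 0) (p (nat_lit 0x108890a08079a) (nat_lit 0) (p (nat_lit 0x88088987871a) (nat_lit 0) (p (nat_lit 0x8000080000000078907088a) (nat_lit 0) (p (nat_lit 0x8000080000000070886860a) (nat_lit 0) (p (nat_lit 0x10708060782) (nat_lit 0) (p (nat_lit 0x8687858702) (nat_lit 0) (p (nat_lit 0x10607050482) (nat_lit 0) (p (nat_lit 0x8586848402) (nat_lit 0) (p (nat_lit 0x160004) (nat_lit 0) (p (nat_lit 0x50612) (nat_lit 0) (p (nat_lit 0x40592) (nat_lit 0) (p (nat_lit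 0x40492) (nat_lit 0) (p (nat_lit 0x30412) (nat_lit 0) (p (nat_lit 0x30212) (nat_lit 0) (p (nat_lit 0x20192) (nat_lit 0) (p (nat_lit 0x20092) (nat_lit 0) (p (nat_lit 0x10012) (nat_lit 0) pn))))))))))))))))))))))))))))) :=
  Cl.node (nat_lit 0xd1) (nat_lit 2) (by decide +kernel) (ClAll.succ (ClAll.succ ClAll.zero s263) s264)

def n129 : Cl (O (nat_lit 6)) (R (nat_lit 102673))
    (p (nat_lit 0x380c2) (nat_lit 0) (p (nat_lit 0x444aa) (nat_lit 7) (p (nat_lit 0xd1) (nat_lit 1) (p (nat_lit 0x111) (nat_lit 1) (p (nat_lit 0x109) (nat_lit 0) (p (nat_lit 0x101) (nat_lit 0) (p (nat_lit 0x119) (nat_lit 0) (p (nat_lit 0xc9) (nat_lit 0) (p (nat_lit 0x89) (nat_lit 1) (p (nat_lit 0x41) (nat_lit 0) (p (nat_lit 0x1098a0b090a9a) (nat_lit 0) (p (nat_lit 0x89098a888a1a) (nat_lit 0) (p (nat_lit 0x108890a08079a) (nat_lit 0) (p (nat_lit 0x88088987871a) (nat_lit 0) (p (nat_lit 0x8000080000000078907088a)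 (nat_lit 0) (p (nat_lit 0x8000080000000070886860a) (nat_lit 0) (p (nat_lit 0x10708060782) (nat_lit 0) (p (nat_lit 0x8687858702) (nat_lit 0) (p (nat_lit 0x10607050482) (nat_lit 0) (p (nat_lit 0x8586848402) (nat_lit 0) (p (nat_lit 0x160004) (nat_lit 0) (p (nat_lit 0x50612) (nat_lit 0) (p (nat_lit 0x40592) (nat_lit 0) (p (nat_lit 0x40492) (nat_lit 0) (p (nat_lit 0x30412) (nat_lit 0) (p (nat_lit 0x30212) (nat_lit 0) (p (nat_lit 0x20192) (nat_lit 0) (p (nat_lit 0x20092) (nat_lit 0) (p (nat_lit 0x10012) (nat_lit 0) pn))))))))))))))))))))))))))))) :=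
  Cl.node (nat_lit 0xb0004) (nat_lit 2) (by decide +kernel) (ClAll.succ (ClAll.succ ClAll.zero n97) s305)

def n130 : Cl (O (nat_lit 6)) (R (nat_lit 102673))
    (p (nat_lit 0x380c2) (nat_lit 1) (p (nat_lit 0x444aa) (nat_lit 7) (p (nat_lit 0xd1) (nat_lit 1) (p (nat_lit 0x111) (nat_lit 1) (p (nat_lit 0x109) (nat_lit 0) (p (nat_lit 0x101) (nat_lit 0) (p (nat_lit 0x119) (nat_lit 0) (p (nat_lit 0xc9) (nat_lit 0) (p (nat_lit 0x89) (nat_lit 1) (p (nat_lit 0x41) (nat_lit 0) (p (nat_lit 0x1098a0b090a9a) (nat_lit 0) (p (nat_lit 0x89098a888a1a) (nat_lit 0) (p (nat_lit 0x108890a08079a) (nat_lit 0) (p (nat_lit 0x88088987871a) (nat_lit 0) (p (nat_lit 0x8000080000000078907088a) (nat_lit 0) (p (nat_lit 0x8000080000000070886860a) (nat_lit 0) (p (nat_lit 0x10708060782) (nat_lit 0) (p (nat_lit 0x8687858702) (nat_lit 0) (p (nat_lit 0x10607050482) (nat_lit 0) (p (nat_lit 0x8586848402) (nat_lit 0) (p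 (nat_lit 0x160004) (nat_lit 0) (p (nat_lit 0x50612) (nat_lit 0) (p (nat_lit 0x40592) (nat_lit 0) (p (nat_lit 0x40492) (nat_lit 0) (p (nat_lit 0x30412) (nat_lit 0) (p (nat_lit 0x30212) (nat_lit 0) (p (nat_lit 0x20192) (nat_lit 0) (p (nat_lit 0x20092) (nat_lit 0) (p (nat_lit 0x10012) (nat_lit 0) pn))))))))))))))))))))))))))))) :=
  Cl.node (nat_lit 0xb0004) (nat_lit 2) (by decide +kernel) (ClAll.succ (ClAll.succ ClAll.zero n98) n99)

def n131 : Cl (O (nat_lit 6)) (R (nat_lit 102673))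
    (p (nat_lit 0x41) (nat_lit 0) (p (nat_lit 0x200014) (nat_lit 0) (p (nat_lit 0x20000c) (nat_lit 0) (p (nat_lit 0xd1) (nat_lit 0) (p (nat_lit 0x109) (nat_lit 1) (p (nat_lit 0x101) (nat_lit 0) (p (nat_lit 0x119) (nat_lit 0) (p (nat_lit 0xc9) (nat_lit 0) (p (nat_lit 0x89) (nat_lit 1) (p (nat_lit 0x41) (nat_lit 0) (p (nat_lit 0x1098a0b090a9a) (nat_lit 0) (p (nat_lit 0x89098a888a1a) (nat_lit 0) (p (nat_lit 0x108890a08079a) (nat_lit 0) (p (nat_lit 0x88088987871a) (nat_lit 0) (p (nat_lit 0x8000080000000078907088a) (nat_lit 0) (p (nat_lit 0x8000080000000070886860a) (nat_lit 0) (p (nat_lit 0x10708060782) (nat_lit 0) (p (nat_lit 0x8687858702) (nat_lit 0) (p (nat_lit 0x10607050482) (nat_lit 0) (p (nat_lit 0x8586848402) (nat_lit 0) (p (nat_lit 0x160004) (nat_lit 0) (p (nat_lit 0x50612) (nat_lit 0) (p (nat_lit 0x40592) (nat_lit 0) (p (nat_lit 0x40492) (nat_lit 0) (p (nat_lit 0x30412) (nat_lit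 0) (p (nat_lit 0x30212) (nat_lit 0) (p (nat_lit 0x20192) (nat_lit 0) (p (nat_lit 0x20092) (nat_lit 0) (p (nat_lit 0x10012) (nat_lit 0) pn))))))))))))))))))))))))))))) :=
  Cl.node (nat_lit 0x44c2a) (nat_lit 12) (by decide +kernel) (ClAll.succ (ClAll.succ (ClAll.succ (ClAll.succ (ClAll.succ (ClAll.succ (ClAll.succ (ClAll.succ (ClAll.succ (ClAll.succ (ClAll.succ (ClAll.succ ClAll.zero s320) n100) s323) s324) s325) s326) s327) s328) s329) s330) s331) s332)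

def n132 : Cl (O (nat_lit 6)) (R (nat_lit 102673))
    (p (nat_lit 0xb0004) (nat_lit 0) (p (nat_lit 0x380c2) (nat_lit 0) (p (nat_lit 0x444aa) (nat_lit 7) (p (nat_lit 0xd1) (nat_lit 1) (p (nat_lit 0x109) (nat_lit 1) (p (nat_lit 0x101) (nat_lit 0) (p (nat_lit 0x119) (nat_lit 0) (p (nat_lit 0xc9) (nat_lit 0) (p (nat_lit 0x89) (nat_lit 1) (p (nat_lit 0x41) (nat_lit 0) (p (nat_lit 0x1098a0b090a9a) (nat_lit 0) (p (nat_lit 0x89098a888a1a) (nat_lit 0) (p (nat_lit 0x108890a08079a) (nat_lit 0) (p (nat_lit 0x88088987871a) (nat_lit 0) (p (nat_lit 0x8000080000000078907088a) (nat_lit 0) (p (nat_lit 0x8000080000000070886860a) (nat_lit 0) (p (nat_lit 0x10708060782) (nat_lit 0) (p (nat_lit 0x8687858702) (nat_lit 0) (p (nat_lit 0x10607050482) (nat_lit 0) (p (nat_lit 0x8586848402) (nat_lit 0) (p (nat_lit 0x160004) (nat_lit 0) (p (nat_lit 0x50612) (nat_lit 0) (p (nat_lit 0x40592) (nat_lit 0) (p (nat_lit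 0x40492) (nat_lit 0) (p (nat_lit 0x30412) (nat_lit 0) (p (nat_lit 0x30212) (nat_lit 0) (p (nat_lit 0x20192) (nat_lit 0) (p (nat_lit 0x20092) (nat_lit 0) (p (nat_lit 0x10012) (nat_lit 0) pn))))))))))))))))))))))))))))) :=
  Cl.node (nat_lit 0x20000c) (nat_lit 2) (by decide +kernel) (ClAll.succ (ClAll.succ ClAll.zero n101) s348)

def n133 : Cl (O (nat_lit 6)) (R (nat_lit 102673))
    (p (nat_lit 0xb0004) (nat_lit 1) (p (nat_lit 0x380c2) (nat_lit 0) (p (nat_lit 0x444aa) (nat_lit 7) (p (nat_lit 0xd1) (nat_lit 1) (p (nat_lit 0x109) (nat_lit 1) (p (nat_lit 0x101) (nat_lit 0) (p (nat_lit 0x119) (nat_lit 0) (p (nat_lit 0xc9) (nat_lit 0) (p (nat_lit 0x89) (nat_lit 1) (p (nat_lit 0x41) (nat_lit 0) (p (nat_lit 0x1098a0b090a9a) (nat_lit 0) (p (nat_lit 0x89098a888a1a) (nat_lit 0) (p (nat_lit 0x108890a08079a) (nat_lit 0) (p (nat_lit 0x88088987871a) (nat_lit 0) (p (nat_lit 0x8000080000000078907088a)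 (nat_lit 0) (p (nat_lit 0x8000080000000070886860a) (nat_lit 0) (p (nat_lit 0x10708060782) (nat_lit 0) (p (nat_lit 0x8687858702) (nat_lit 0) (p (nat_lit 0x10607050482) (nat_lit 0) (p (nat_lit 0x8586848402) (nat_lit 0) (p (nat_lit 0x160004) (nat_lit 0) (p (nat_lit 0x50612) (nat_lit 0) (p (nat_lit 0x40592) (nat_lit 0) (p (nat_lit 0x40492) (nat_lit 0) (p (nat_lit 0x30412) (nat_lit 0) (p (nat_lit 0x30212) (nat_lit 0) (p (nat_lit 0x20192) (nat_lit 0) (p (nat_lit 0x20092) (nat_lit 0) (p (nat_lit 0x10012) (nat_lit 0) pn))))))))))))))))))))))))))))) :=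
  Cl.node (nat_lit 0x1fc00c) (nat_lit 2) (by decide +kernel) (ClAll.succ (ClAll.succ ClAll.zero n102) s354)

def n134 : Cl (O (nat_lit 6)) (R (nat_lit 102673))
    (p (nat_lit 0xb0004) (nat_lit 0) (p (nat_lit 0x380c2) (nat_lit 1) (p (nat_lit 0x444aa) (nat_lit 7) (p (nat_lit 0xd1) (nat_lit 1) (p (nat_lit 0x109) (nat_lit 1) (p (nat_lit 0x101) (nat_lit 0) (p (nat_lit 0x119) (nat_lit 0) (p (nat_lit 0xc9) (nat_lit 0) (p (nat_lit 0x89) (nat_lit 1) (p (nat_lit 0x41) (nat_lit 0) (p (nat_lit 0x1098a0b090a9a) (nat_lit 0) (p (nat_lit 0x89098a888a1a) (nat_lit 0) (p (nat_lit 0x108890a08079a) (nat_lit 0) (p (nat_lit 0x88088987871a) (nat_lit 0) (p (nat_lit 0x8000080000000078907088a) (nat_lit 0) (p (nat_lit 0x8000080000000070886860a) (nat_lit 0) (p (nat_lit 0x10708060782) (nat_lit 0) (p (nat_lit 0x8687858702) (nat_lit 0) (p (nat_lit 0x10607050482) (nat_lit 0) (p (nat_lit 0x8586848402) (nat_lit 0)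 (p (nat_lit 0x160004) (nat_lit 0) (p (nat_lit 0x50612) (nat_lit 0) (p (nat_lit 0x40592) (nat_lit 0) (p (nat_lit 0x40492) (nat_lit 0) (p (nat_lit 0x30412) (nat_lit 0) (p (nat_lit 0x30212) (nat_lit 0) (p (nat_lit 0x20192) (nat_lit 0) (p (nat_lit 0x20092) (nat_lit 0) (p (nat_lit 0x10012) (nat_lit 0) pn))))))))))))))))))))))))))))) :=
  Cl.node (nat_lit 0xc1) (nat_lit 2) (by decide +kernel) (ClAll.succ (ClAll.succ ClAll.zero n103) s360)

def n135 : Cl (O (nat_lit 6)) (R (nat_lit 102673))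
    (p (nat_lit 0x109) (nat_lit 1) (p (nat_lit 0x200014) (nat_lit 0) (p (nat_lit 0x20000c) (nat_lit 0) (p (nat_lit 0xd1) (nat_lit 0) (p (nat_lit 0xc1) (nat_lit 0) (p (nat_lit 0x101) (nat_lit 1) (p (nat_lit 0x119) (nat_lit 0) (p (nat_lit 0xc9) (nat_lit 0) (p (nat_lit 0x89) (nat_lit 1) (p (nat_lit 0x41) (nat_lit 0) (p (nat_lit 0x1098a0b090a9a) (nat_lit 0) (p (nat_lit 0x89098a888a1a) (nat_lit 0) (p (nat_lit 0x108890a08079a) (nat_lit 0) (p (nat_lit 0x88088987871a) (nat_lit 0) (p (nat_lit 0x8000080000000078907088a) (nat_lit 0) (p (nat_lit 0x8000080000000070886860a) (nat_lit 0) (p (nat_lit 0x10708060782) (nat_lit 0) (p (nat_lit 0x8687858702) (nat_lit 0) (p (nat_lit 0x10607050482) (nat_lit 0) (p (nat_lit 0x8586848402) (nat_lit 0) (p (nat_lit 0x160004) (nat_lit 0) (p (nat_lit 0x50612) (nat_lit 0) (p (nat_lit 0x40592) (nat_lit 0) (p (nat_lit 0x40492) (nat_lit 0) (p (nat_lit 0x30412) (nat_lit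 0) (p (nat_lit 0x30212) (nat_lit 0) (p (nat_lit 0x20192) (nat_lit 0) (p (nat_lit 0x20092) (nat_lit 0) (p (nat_lit 0x10012) (nat_lit 0) pn))))))))))))))))))))))))))))) :=
  Cl.node (nat_lit 0x44c2a) (nat_lit 12) (by decide +kernel) (ClAll.succ (ClAll.succ (ClAll.succ (ClAll.succ (ClAll.succ (ClAll.succ (ClAll.succ (ClAll.succ (ClAll.succ (ClAll.succ (ClAll.succ (ClAll.succ ClAll.zero s367) n104) s371) s372) s373) s374) s375) s376) s377) s378) s379) s380)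

def n136 : Cl (O (nat_lit 6)) (R (nat_lit 102673))
    (p (nat_lit 0x81) (nat_lit 0) (p (nat_lit 0x111) (nat_lit 1) (p (nat_lit 0x109) (nat_lit 0) (p (nat_lit 0xd1) (nat_lit 1) (p (nat_lit 0xc1) (nat_lit 0) (p (nat_lit 0x101) (nat_lit 1) (p (nat_lit 0x119) (nat_lit 0) (p (nat_lit 0xc9) (nat_lit 0) (p (nat_lit 0x89) (nat_lit 1) (p (nat_lit 0x41) (nat_lit 0) (p (nat_lit 0x1098a0b090a9a) (nat_lit 0) (p (nat_lit 0x89098a888a1a) (nat_lit 0) (p (nat_lit 0x108890a08079a) (nat_lit 0) (p (nat_lit 0x88088987871a) (nat_lit 0) (p (nat_lit 0x8000080000000078907088a) (nat_lit 0) (p (nat_lit 0x8000080000000070886860a) (nat_lit 0) (p (nat_lit 0x10708060782) (nat_lit 0) (p (nat_lit 0x8687858702) (nat_lit 0) (p (nat_lit 0x10607050482) (nat_lit 0) (p (nat_lit 0x8586848402) (nat_lit 0) (p (nat_lit 0x160004) (nat_lit 0) (p (nat_lit 0x50612) (nat_lit 0) (p (nat_lit 0x40592) (nat_lit 0) (p (nat_lit 0x40492)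 (nat_lit 0) (p (nat_lit 0x30412) (nat_lit 0) (p (nat_lit 0x30212) (nat_lit 0) (p (nat_lit 0x20192) (nat_lit 0) (p (nat_lit 0x20092) (nat_lit 0) (p (nat_lit 0x10012) (nat_lit 0) pn))))))))))))))))))))))))))))) :=
  Cl.node (nat_lit 0x20000c) (nat_lit 2) (by decide +kernel) (ClAll.succ (ClAll.succ ClAll.zero n105) s387)

def n137 : Cl (O (nat_lit 6)) (R (nat_lit 102673))
    (p (nat_lit 0x89) (nat_lit 0) (p (nat_lit 0x81) (nat_lit 0) (p (nat_lit 0x109) (nat_lit 1) (p (nat_lit 0xd1) (nat_lit 1) (p (nat_lit 0xc1) (nat_lit 0) (p (nat_lit 0x101) (nat_lit 1) (p (nat_lit 0x119) (nat_lit 0) (p (nat_lit 0xc9) (nat_lit 0) (p (nat_lit 0x89) (nat_lit 1) (p (nat_lit 0x41) (nat_lit 0) (p (nat_lit 0x1098a0b090a9a) (nat_lit 0) (p (nat_lit 0x89098a888a1a) (nat_lit 0) (p (nat_lit 0x108890a08079a) (nat_lit 0) (p (nat_lit 0x88088987871a) (nat_lit 0) (p (nat_lit 0x8000080000000078907088a) (nat_lit 0)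 (p (nat_lit 0x8000080000000070886860a) (nat_lit 0) (p (nat_lit 0x10708060782) (nat_lit 0) (p (nat_lit 0x8687858702) (nat_lit 0) (p (nat_lit 0x10607050482) (nat_lit 0) (p (nat_lit 0x8586848402) (nat_lit 0) (p (nat_lit 0x160004) (nat_lit 0) (p (nat_lit 0x50612) (nat_lit 0) (p (nat_lit 0x40592) (nat_lit 0) (p (nat_lit 0x40492) (nat_lit 0) (p (nat_lit 0x30412) (nat_lit 0) (p (nat_lit 0x30212) (nat_lit 0) (p (nat_lit 0x20192) (nat_lit 0) (p (nat_lit 0x20092) (nat_lit 0) (p (nat_lit 0x10012) (nat_lit 0) pn))))))))))))))))))))))))))))) :=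
  Cl.node (nat_lit 0x20000c) (nat_lit 2) (by decide +kernel) (ClAll.succ (ClAll.succ ClAll.zero n106) s391)

def n138 : Cl (O (nat_lit 6)) (R (nat_lit 102673))
    (p (nat_lit 0xb0004) (nat_lit 0) (p (nat_lit 0x380c2) (nat_lit 1) (p (nat_lit 0x444aa) (nat_lit 7) (p (nat_lit 0x111) (nat_lit 1) (p (nat_lit 0xd1) (nat_lit 1) (p (nat_lit 0xc1) (nat_lit 0) (p (nat_lit 0x119) (nat_lit 1) (p (nat_lit 0xc9) (nat_lit 0) (p (nat_lit 0x89) (nat_lit 1) (p (nat_lit 0x41) (nat_lit 0) (p (nat_lit 0x1098a0b090a9a) (nat_lit 0) (p (nat_lit 0x89098a888a1a) (nat_lit 0) (p (nat_lit 0x108890a08079a) (nat_lit 0) (p (nat_lit 0x88088987871a) (nat_lit 0) (p (nat_lit 0x8000080000000078907088a) (nat_lit 0) (p (nat_lit 0x8000080000000070886860a) (nat_lit 0) (p (nat_lit 0x10708060782) (nat_lit 0) (p (nat_lit 0x8687858702) (nat_lit 0) (p (nat_lit 0x10607050482) (nat_lit 0) (p (nat_lit 0x8586848402) (nat_lit 0)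 (p (nat_lit 0x160004) (nat_lit 0) (p (nat_lit 0x50612) (nat_lit 0) (p (nat_lit 0x40592) (nat_lit 0) (p (nat_lit 0x40492) (nat_lit 0) (p (nat_lit 0x30412) (nat_lit 0) (p (nat_lit 0x30212) (nat_lit 0) (p (nat_lit 0x20192) (nat_lit 0) (p (nat_lit 0x20092) (nat_lit 0) (p (nat_lit 0x10012) (nat_lit 0) pn))))))))))))))))))))))))))))) :=
  Cl.node (nat_lit 0x20000c) (nat_lit 2) (by decide +kernel) (ClAll.succ (ClAll.succ ClAll.zero n107) s408)

def n139 : Cl (O (nat_lit 6)) (R (nat_lit 102673))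
    (p (nat_lit 0xb0004) (nat_lit 0) (p (nat_lit 0x380c2) (nat_lit 0) (p (nat_lit 0x444aa) (nat_lit 7) (p (nat_lit 0x111) (nat_lit 1) (p (nat_lit 0x101) (nat_lit 0) (p (nat_lit 0xc1) (nat_lit 1) (p (nat_lit 0x119) (nat_lit 1) (p (nat_lit 0xc9) (nat_lit 0) (p (nat_lit 0x89) (nat_lit 1) (p (nat_lit 0x41) (nat_lit 0) (p (nat_lit 0x1098a0b090a9a) (nat_lit 0) (p (nat_lit 0x89098a888a1a) (nat_lit 0) (p (nat_lit 0x108890a08079a) (nat_lit 0) (p (nat_lit 0x88088987871a) (nat_lit 0) (p (nat_lit 0x8000080000000078907088a) (nat_lit 0) (p (nat_lit 0x8000080000000070886860a) (nat_lit 0) (p (nat_lit 0x10708060782) (nat_lit 0) (p (nat_lit 0x8687858702) (nat_lit 0) (p (nat_lit 0x10607050482) (nat_lit 0) (p (nat_lit 0x8586848402) (nat_lit 0) (p (nat_lit 0x160004) (nat_lit 0) (p (nat_lit 0x50612) (nat_lit 0) (p (nat_lit 0x40592) (nat_lit 0) (p (nat_lit 0x40492) (nat_lit 0) (p (nat_lit 0x30412) (nat_lit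 0) (p (nat_lit 0x30212) (nat_lit 0) (p (nat_lit 0x20192) (nat_lit 0) (p (nat_lit 0x20092) (nat_lit 0) (p (nat_lit 0x10012) (nat_lit 0) pn))))))))))))))))))))))))))))) :=
  Cl.node (nat_lit 0x20000c) (nat_lit 2) (by decide +kernel) (ClAll.succ (ClAll.succ ClAll.zero s433) s434)

def n140 : Cl (O (nat_lit 6)) (R (nat_lit 102673))
    (p (nat_lit 0xb0004) (nat_lit 0) (p (nat_lit 0x380c2) (nat_lit 0) (p (nat_lit 0x444aa) (nat_lit 7) (p (nat_lit 0x119) (nat_lit 1) (p (nat_lit 0x111) (nat_lit 0) (p (nat_lit 0x101) (nat_lit 0) (p (nat_lit 0x109) (nat_lit 0) (p (nat_lit 0xc9) (nat_lit 1) (p (nat_lit 0x89) (nat_lit 1) (p (nat_lit 0x41) (nat_lit 0) (p (nat_lit 0x1098a0b090a9a) (nat_lit 0) (p (nat_lit 0x89098a888a1a) (nat_lit 0) (p (nat_lit 0x108890a08079a) (nat_lit 0) (p (nat_lit 0x88088987871a) (nat_lit 0) (p (nat_lit 0x8000080000000078907088a) (nat_lit 0) (p (nat_lit 0x8000080000000070886860a)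 (nat_lit 0) (p (nat_lit 0x10708060782) (nat_lit 0) (p (nat_lit 0x8687858702) (nat_lit 0) (p (nat_lit 0x10607050482) (nat_lit 0) (p (nat_lit 0x8586848402) (nat_lit 0) (p (nat_lit 0x160004) (nat_lit 0) (p (nat_lit 0x50612) (nat_lit 0) (p (nat_lit 0x40592) (nat_lit 0) (p (nat_lit 0x40492) (nat_lit 0) (p (nat_lit 0x30412) (nat_lit 0) (p (nat_lit 0x30212) (nat_lit 0) (p (nat_lit 0x20192) (nat_lit 0) (p (nat_lit 0x20092) (nat_lit 0) (p (nat_lit 0x10012) (nat_lit 0) pn))))))))))))))))))))))))))))) :=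
  Cl.node (nat_lit 0x20000c) (nat_lit 2) (by decide +kernel) (ClAll.succ (ClAll.succ ClAll.zero n108) s456)

def n141 : Cl (O (nat_lit 6)) (R (nat_lit 102673))
    (p (nat_lit 0x380c2) (nat_lit 0) (p (nat_lit 0x4c42a) (nat_lit 10) (p (nat_lit 0x111) (nat_lit 0) (p (nat_lit 0x89) (nat_lit 0) (p (nat_lit 0x109) (nat_lit 1) (p (nat_lit 0x101) (nat_lit 0) (p (nat_lit 0x119) (nat_lit 0) (p (nat_lit 0xd1) (nat_lit 0) (p (nat_lit 0x81) (nat_lit 0) (p (nat_lit 0x41) (nat_lit 1) (p (nat_lit 0x1098a0b090a9a) (nat_lit 0) (p (nat_lit 0x89098a888a1a) (nat_lit 0) (p (nat_lit 0x108890a08079a) (nat_lit 0) (p (nat_lit 0x88088987871a) (nat_lit 0) (p (nat_lit 0x8000080000000078907088a) (nat_lit 0) (p (nat_lit 0x8000080000000070886860a) (nat_lit 0) (p (nat_lit 0x10708060782) (nat_lit 0) (p (nat_lit 0x8687858702) (nat_lit 0) (p (nat_lit 0x10607050482) (nat_lit 0) (p (nat_lit 0x8586848402) (nat_lit 0)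 (p (nat_lit 0x160004) (nat_lit 0) (p (nat_lit 0x50612) (nat_lit 0) (p (nat_lit 0x40592) (nat_lit 0) (p (nat_lit 0x40492) (nat_lit 0) (p (nat_lit 0x30412) (nat_lit 0) (p (nat_lit 0x30212) (nat_lit 0) (p (nat_lit 0x20192) (nat_lit 0) (p (nat_lit 0x20092) (nat_lit 0) (p (nat_lit 0x10012) (nat_lit 0) pn))))))))))))))))))))))))))))) :=
  Cl.node (nat_lit 0x200014) (nat_lit 2) (by decide +kernel) (ClAll.succ (ClAll.succ ClAll.zero n109) s492)

def n142 : Cl (O (nat_lit 6)) (R (nat_lit 102673))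
    (p (nat_lit 0x380c2) (nat_lit 0) (p (nat_lit 0x4c42a) (nat_lit 10) (p (nat_lit 0xc9) (nat_lit 0) (p (nat_lit 0x89) (nat_lit 1) (p (nat_lit 0x109) (nat_lit 1) (p (nat_lit 0x101) (nat_lit 0) (p (nat_lit 0x119) (nat_lit 0) (p (nat_lit 0xd1) (nat_lit 0) (p (nat_lit 0x81) (nat_lit 0) (p (nat_lit 0x41) (nat_lit 1) (p (nat_lit 0x1098a0b090a9a) (nat_lit 0) (p (nat_lit 0x89098a888a1a) (nat_lit 0) (p (nat_lit 0x108890a08079a) (nat_lit 0) (p (nat_lit 0x88088987871a) (nat_lit 0) (p (nat_lit 0x8000080000000078907088a) (nat_lit 0) (p (nat_lit 0x8000080000000070886860a) (nat_lit 0) (p (nat_lit 0x10708060782) (nat_lit 0) (p (nat_lit 0x8687858702) (nat_lit 0) (p (nat_lit 0x10607050482) (nat_lit 0) (p (nat_lit 0x8586848402) (nat_lit 0) (p (nat_lit 0x160004) (nat_lit 0) (p (nat_lit 0x50612) (nat_lit 0) (p (nat_lit 0x40592) (nat_lit 0) (p (nat_lit 0x40492) (nat_lit 0) (p (nat_lit 0x30412) (nat_lit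 0) (p (nat_lit 0x30212) (nat_lit 0) (p (nat_lit 0x20192) (nat_lit 0) (p (nat_lit 0x20092) (nat_lit 0) (p (nat_lit 0x10012) (nat_lit 0) pn))))))))))))))))))))))))))))) :=
  Cl.node (nat_lit 0x200014) (nat_lit 2) (by decide +kernel) (ClAll.succ (ClAll.succ ClAll.zero n110) s534)

def n143 : Cl (O (nat_lit 6)) (R (nat_lit 102673))
    (p (nat_lit 0x380c2) (nat_lit 0) (p (nat_lit 0x4c42a) (nat_lit 10) (p (nat_lit 0xc9) (nat_lit 0) (p (nat_lit 0x89) (nat_lit 1) (p (nat_lit 0xc1) (nat_lit 0) (p (nat_lit 0x101) (nat_lit 1) (p (nat_lit 0x119) (nat_lit 0) (p (nat_lit 0xd1) (nat_lit 0) (p (nat_lit 0x81) (nat_lit 0) (p (nat_lit 0x41) (nat_lit 1) (p (nat_lit 0x1098a0b090a9a) (nat_lit 0) (p (nat_lit 0x89098a888a1a) (nat_lit 0) (p (nat_lit 0x108890a08079a) (nat_lit 0) (p (nat_lit 0x88088987871a) (nat_lit 0) (p (nat_lit 0x8000080000000078907088a) (nat_lit 0) (p (nat_lit 0x8000080000000070886860a)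 (nat_lit 0) (p (nat_lit 0x10708060782) (nat_lit 0) (p (nat_lit 0x8687858702) (nat_lit 0) (p (nat_lit 0x10607050482) (nat_lit 0) (p (nat_lit 0x8586848402) (nat_lit 0) (p (nat_lit 0x160004) (nat_lit 0) (p (nat_lit 0x50612) (nat_lit 0) (p (nat_lit 0x40592) (nat_lit 0) (p (nat_lit 0x40492) (nat_lit 0) (p (nat_lit 0x30412) (nat_lit 0) (p (nat_lit 0x30212) (nat_lit 0) (p (nat_lit 0x20192) (nat_lit 0) (p (nat_lit 0x20092) (nat_lit 0) (p (nat_lit 0x10012) (nat_lit 0) pn))))))))))))))))))))))))))))) :=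
  Cl.node (nat_lit 0x200014) (nat_lit 2) (by decide +kernel) (ClAll.succ (ClAll.succ ClAll.zero n111) s557)

def n144 : Cl (O (nat_lit 6)) (R (nat_lit 102673))
    (p (nat_lit 0x109) (nat_lit 1) (p (nat_lit 0x380c2) (nat_lit 0) (p (nat_lit 0x3cc2a) (nat_lit 2) (p (nat_lit 0x89) (nat_lit 0) (p (nat_lit 0xc1) (nat_lit 1) (p (nat_lit 0x101) (nat_lit 1) (p (nat_lit 0x119) (nat_lit 0) (p (nat_lit 0xd1) (nat_lit 0) (p (nat_lit 0x81) (nat_lit 0) (p (nat_lit 0x41) (nat_lit 1) (p (nat_lit 0x1098a0b090a9a) (nat_lit 0) (p (nat_lit 0x89098a888a1a) (nat_lit 0) (p (nat_lit 0x108890a08079a) (nat_lit 0) (p (nat_lit 0x88088987871a) (nat_lit 0) (p (nat_lit 0x8000080000000078907088a) (nat_lit 0) (p (nat_lit 0x8000080000000070886860a) (nat_lit 0) (p (nat_lit 0x10708060782) (nat_lit 0) (p (nat_lit 0x8687858702) (nat_lit 0) (p (nat_lit 0x10607050482) (nat_lit 0) (p (nat_lit 0x8586848402) (nat_lit 0) (p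 (nat_lit 0x160004) (nat_lit 0) (p (nat_lit 0x50612) (nat_lit 0) (p (nat_lit 0x40592) (nat_lit 0) (p (nat_lit 0x40492) (nat_lit 0) (p (nat_lit 0x30412) (nat_lit 0) (p (nat_lit 0x30212) (nat_lit 0) (p (nat_lit 0x20192) (nat_lit 0) (p (nat_lit 0x20092) (nat_lit 0) (p (nat_lit 0x10012) (nat_lit 0) pn))))))))))))))))))))))))))))) :=
  Cl.node (nat_lit 0xb0004) (nat_lit 2) (by decide +kernel) (ClAll.succ (ClAll.succ ClAll.zero s576) s577)

def n145 : Cl (O (nat_lit 6)) (R (nat_lit 102673))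
    (p (nat_lit 0x380c2) (nat_lit 0) (p (nat_lit 0x3c4aa) (nat_lit 8) (p (nat_lit 0x109) (nat_lit 1) (p (nat_lit 0x89) (nat_lit 1) (p (nat_lit 0xc9) (nat_lit 1) (p (nat_lit 0xc1) (nat_lit 0) (p (nat_lit 0x119) (nat_lit 1) (p (nat_lit 0xd1) (nat_lit 0) (p (nat_lit 0x81) (nat_lit 0) (p (nat_lit 0x41) (nat_lit 1) (p (nat_lit 0x1098a0b090a9a) (nat_lit 0) (p (nat_lit 0x89098a888a1a) (nat_lit 0) (p (nat_lit 0x108890a08079a) (nat_lit 0) (p (nat_lit 0x88088987871a) (nat_lit 0) (p (nat_lit 0x8000080000000078907088a) (nat_lit 0) (p (nat_lit 0x8000080000000070886860a) (nat_lit 0) (p (nat_lit 0x10708060782) (nat_lit 0) (p (nat_lit 0x8687858702) (nat_lit 0) (p (nat_lit 0x10607050482) (nat_lit 0) (p (nat_lit 0x8586848402) (nat_lit 0) (p (nat_lit 0x160004) (nat_lit 0) (p (nat_lit 0x50612) (nat_lit 0) (p (nat_lit 0x40592) (nat_lit 0) (p (nat_lit 0x40492) (nat_lit 0) (p (nat_lit 0x30412) (nat_lit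 0) (p (nat_lit 0x30212) (nat_lit 0) (p (nat_lit 0x20192) (nat_lit 0) (p (nat_lit 0x20092) (nat_lit 0) (p (nat_lit 0x10012) (nat_lit 0) pn))))))))))))))))))))))))))))) :=
  Cl.node (nat_lit 0xb0004) (nat_lit 2) (by decide +kernel) (ClAll.succ (ClAll.succ ClAll.zero s624) s625)

def n146 : Cl (O (nat_lit 6)) (R (nat_lit 102673))
    (p (nat_lit 0x380c2) (nat_lit 0) (p (nat_lit 0x3c4aa) (nat_lit 8) (p (nat_lit 0x109) (nat_lit 1) (p (nat_lit 0x89) (nat_lit 1) (p (nat_lit 0x101) (nat_lit 0) (p (nat_lit 0xc1) (nat_lit 1) (p (nat_lit 0x119) (nat_lit 1) (p (nat_lit 0xd1) (nat_lit 0) (p (nat_lit 0x81) (nat_lit 0) (p (nat_lit 0x41) (nat_lit 1) (p (nat_lit 0x1098a0b090a9a) (nat_lit 0) (p (nat_lit 0x89098a888a1a) (nat_lit 0) (p (nat_lit 0x108890a08079a) (nat_lit 0) (p (nat_lit 0x88088987871a) (nat_lit 0) (p (nat_lit 0x8000080000000078907088a) (nat_lit 0) (p (nat_lit 0x8000080000000070886860a)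 (nat_lit 0) (p (nat_lit 0x10708060782) (nat_lit 0) (p (nat_lit 0x8687858702) (nat_lit 0) (p (nat_lit 0x10607050482) (nat_lit 0) (p (nat_lit 0x8586848402) (nat_lit 0) (p (nat_lit 0x160004) (nat_lit 0) (p (nat_lit 0x50612) (nat_lit 0) (p (nat_lit 0x40592) (nat_lit 0) (p (nat_lit 0x40492) (nat_lit 0) (p (nat_lit 0x30412) (nat_lit 0) (p (nat_lit 0x30212) (nat_lit 0) (p (nat_lit 0x20192) (nat_lit 0) (p (nat_lit 0x20092) (nat_lit 0) (p (nat_lit 0x10012) (nat_lit 0) pn))))))))))))))))))))))))))))) :=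
  Cl.node (nat_lit 0xb0004) (nat_lit 2) (by decide +kernel) (ClAll.succ (ClAll.succ ClAll.zero n112) s655)

def n147 : Cl (O (nat_lit 6)) (R (nat_lit 102673))
    (p (nat_lit 0x4c42a) (nat_lit 10) (p (nat_lit 0x119) (nat_lit 0) (p (nat_lit 0xc9) (nat_lit 0) (p (nat_lit 0x89) (nat_lit 1) (p (nat_lit 0x109) (nat_lit 1) (p (nat_lit 0x101) (nat_lit 0) (p (nat_lit 0x111) (nat_lit 0) (p (nat_lit 0xd1) (nat_lit 1) (p (nat_lit 0x81) (nat_lit 0) (p (nat_lit 0x41) (nat_lit 1) (p (nat_lit 0x1098a0b090a9a) (nat_lit 0) (p (nat_lit 0x89098a888a1a) (nat_lit 0) (p (nat_lit 0x108890a08079a) (nat_lit 0) (p (nat_lit 0x88088987871a) (nat_lit 0) (p (nat_lit 0x8000080000000078907088a) (nat_lit 0) (p (nat_lit 0x8000080000000070886860a) (nat_lit 0) (p (nat_lit 0x10708060782) (nat_lit 0) (p (nat_lit 0x8687858702) (nat_lit 0) (p (nat_lit 0x10607050482) (nat_lit 0) (p (nat_lit 0x8586848402) (nat_lit 0) (p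 (nat_lit 0x160004) (nat_lit 0) (p (nat_lit 0x50612) (nat_lit 0) (p (nat_lit 0x40592) (nat_lit 0) (p (nat_lit 0x40492) (nat_lit 0) (p (nat_lit 0x30412) (nat_lit 0) (p (nat_lit 0x30212) (nat_lit 0) (p (nat_lit 0x20192) (nat_lit 0) (p (nat_lit 0x20092) (nat_lit 0) (p (nat_lit 0x10012) (nat_lit 0) pn))))))))))))))))))))))))))))) :=
  Cl.node (nat_lit 0x380c2) (nat_lit 2) (by decide +kernel) (ClAll.succ (ClAll.succ ClAll.zero s687) s688)

def n148 : Cl (O (nat_lit 6)) (R (nat_lit 102673))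
    (p (nat_lit 0xc1) (nat_lit 0) (p (nat_lit 0x119) (nat_lit 1) (p (nat_lit 0xc9) (nat_lit 0) (p (nat_lit 0x89) (nat_lit 1) (p (nat_lit 0x109) (nat_lit 1) (p (nat_lit 0x101) (nat_lit 0) (p (nat_lit 0x111) (nat_lit 0) (p (nat_lit 0xd1) (nat_lit 1) (p (nat_lit 0x81) (nat_lit 0) (p (nat_lit 0x41) (nat_lit 1) (p (nat_lit 0x1098a0b090a9a) (nat_lit 0) (p (nat_lit 0x89098a888a1a) (nat_lit 0) (p (nat_lit 0x108890a08079a) (nat_lit 0) (p (nat_lit 0x88088987871a) (nat_lit 0) (p (nat_lit 0x8000080000000078907088a) (nat_lit 0) (p (nat_lit 0x8000080000000070886860a) (nat_lit 0) (p (nat_lit 0x10708060782) (nat_lit 0) (p (nat_lit 0x8687858702) (nat_lit 0) (p (nat_lit 0x10607050482) (nat_lit 0) (p (nat_lit 0x8586848402) (nat_lit 0) (p (nat_lit 0x160004) (nat_lit 0) (p (nat_lit 0x50612) (nat_lit 0) (p (nat_lit 0x40592) (nat_lit 0) (p (nat_lit 0x40492) (nat_lit 0) (p (nat_lit 0x30412) (nat_lit 0)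 (p (nat_lit 0x30212) (nat_lit 0) (p (nat_lit 0x20192) (nat_lit 0) (p (nat_lit 0x20092) (nat_lit 0) (p (nat_lit 0x10012) (nat_lit 0) pn))))))))))))))))))))))))))))) :=
  Cl.node (nat_lit 0xd1) (nat_lit 2) (by decide +kernel) (ClAll.succ (ClAll.succ ClAll.zero s690) n113)

def n149 : Cl (O (nat_lit 6)) (R (nat_lit 102673))
    (p (nat_lit 0xc1) (nat_lit 1) (p (nat_lit 0x119) (nat_lit 1) (p (nat_lit 0xc9) (nat_lit 0) (p (nat_lit 0x89) (nat_lit 1) (p (nat_lit 0x109) (nat_lit 1) (p (nat_lit 0x101) (nat_lit 0) (p (nat_lit 0x111) (nat_lit 0) (p (nat_lit 0xd1) (nat_lit 1) (p (nat_lit 0x81) (nat_lit 0) (p (nat_lit 0x41) (nat_lit 1) (p (nat_lit 0x1098a0b090a9a) (nat_lit 0) (p (nat_lit 0x89098a888a1a) (nat_lit 0) (p (nat_lit 0x108890a08079a) (nat_lit 0) (p (nat_lit 0x88088987871a) (nat_lit 0) (p (nat_lit 0x8000080000000078907088a) (nat_lit 0) (p (nat_lit 0x8000080000000070886860a) (nat_lit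 0) (p (nat_lit 0x10708060782) (nat_lit 0) (p (nat_lit 0x8687858702) (nat_lit 0) (p (nat_lit 0x10607050482) (nat_lit 0) (p (nat_lit 0x8586848402) (nat_lit 0) (p (nat_lit 0x160004) (nat_lit 0) (p (nat_lit 0x50612) (nat_lit 0) (p (nat_lit 0x40592) (nat_lit 0) (p (nat_lit 0x40492) (nat_lit 0) (p (nat_lit 0x30412) (nat_lit 0) (p (nat_lit 0x30212) (nat_lit 0) (p (nat_lit 0x20192) (nat_lit 0) (p (nat_lit 0x20092) (nat_lit 0) (p (nat_lit 0x10012) (nat_lit 0) pn))))))))))))))))))))))))))))) :=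
  Cl.node (nat_lit 0x20000c) (nat_lit 2) (by decide +kernel) (ClAll.succ (ClAll.succ ClAll.zero n114) s721)

def n150 : Cl (O (nat_lit 6)) (R (nat_lit 102673))
    (p (nat_lit 0x200014) (nat_lit 0) (p (nat_lit 0x380c2) (nat_lit 0) (p (nat_lit 0x3cc2a) (nat_lit 2) (p (nat_lit 0xc9) (nat_lit 0) (p (nat_lit 0x89) (nat_lit 1) (p (nat_lit 0x101) (nat_lit 1) (p (nat_lit 0x111) (nat_lit 0) (p (nat_lit 0xd1) (nat_lit 1) (p (nat_lit 0x81) (nat_lit 0) (p (nat_lit 0x41) (nat_lit 1) (p (nat_lit 0x1098a0b090a9a) (nat_lit 0) (p (nat_lit 0x89098a888a1a) (nat_lit 0) (p (nat_lit 0x108890a08079a) (nat_lit 0) (p (nat_lit 0x88088987871a) (nat_lit 0) (p (nat_lit 0x8000080000000078907088a) (nat_lit 0) (p (nat_lit 0x8000080000000070886860a) (nat_lit 0) (p (nat_lit 0x10708060782) (nat_lit 0) (p (nat_lit 0x8687858702) (nat_lit 0) (p (nat_lit 0x10607050482) (nat_lit 0) (p (nat_lit 0x8586848402) (nat_lit 0)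 (p (nat_lit 0x160004) (nat_lit 0) (p (nat_lit 0x50612) (nat_lit 0) (p (nat_lit 0x40592) (nat_lit 0) (p (nat_lit 0x40492) (nat_lit 0) (p (nat_lit 0x30412) (nat_lit 0) (p (nat_lit 0x30212) (nat_lit 0) (p (nat_lit 0x20192) (nat_lit 0) (p (nat_lit 0x20092) (nat_lit 0) (p (nat_lit 0x10012) (nat_lit 0) pn))))))))))))))))))))))))))))) :=
  Cl.node (nat_lit 0x100014) (nat_lit 2) (by decide +kernel) (ClAll.succ (ClAll.succ ClAll.zero n115) s745)

def n151 : Cl (O (nat_lit 6)) (R (nat_lit 102673))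
    (p (nat_lit 0x41) (nat_lit 0) (p (nat_lit 0x380c2) (nat_lit 0) (p (nat_lit 0x3cc2a) (nat_lit 2) (p (nat_lit 0x109) (nat_lit 0) (p (nat_lit 0xc9) (nat_lit 1) (p (nat_lit 0x89) (nat_lit 1) (p (nat_lit 0x111) (nat_lit 1) (p (nat_lit 0xd1) (nat_lit 1) (p (nat_lit 0x81) (nat_lit 0) (p (nat_lit 0x41) (nat_lit 1) (p (nat_lit 0x1098a0b090a9a) (nat_lit 0) (p (nat_lit 0x89098a888a1a) (nat_lit 0) (p (nat_lit 0x108890a08079a) (nat_lit 0) (p (nat_lit 0x88088987871a) (nat_lit 0) (p (nat_lit 0x8000080000000078907088a) (nat_lit 0) (p (nat_lit 0x8000080000000070886860a) (nat_lit 0) (p (nat_lit 0x10708060782) (nat_lit 0) (p (nat_lit 0x8687858702) (nat_lit 0) (p (nat_lit 0x10607050482) (nat_lit 0) (p (nat_lit 0x8586848402) (nat_lit 0) (p (nat_lit 0x160004) (nat_lit 0) (p (nat_lit 0x50612) (nat_lit 0) (p (nat_lit 0x40592) (nat_lit 0) (p (nat_lit 0x40492) (nat_lit 0) (p (nat_lit 0x30412) (nat_lit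 0) (p (nat_lit 0x30212) (nat_lit 0) (p (nat_lit 0x20192) (nat_lit 0) (p (nat_lit 0x20092) (nat_lit 0) (p (nat_lit 0x10012) (nat_lit 0) pn))))))))))))))))))))))))))))) :=
  Cl.node (nat_lit 0x89) (nat_lit 2) (by decide +kernel) (ClAll.succ (ClAll.succ ClAll.zero s761) s762)

def n152 : Cl (O (nat_lit 6)) (R (nat_lit 102673))
    (p (nat_lit 0x380c2) (nat_lit 0) (p (nat_lit 0x3c4aa) (nat_lit 7) (p (nat_lit 0xd1) (nat_lit 1) (p (nat_lit 0x111) (nat_lit 1) (p (nat_lit 0x109) (nat_lit 0) (p (nat_lit 0x101) (nat_lit 0) (p (nat_lit 0x119) (nat_lit 0) (p (nat_lit 0xc1) (nat_lit 0) (p (nat_lit 0x81) (nat_lit 1) (p (nat_lit 0x41) (nat_lit 1) (p (nat_lit 0x1098a0b090a9a) (nat_lit 0) (p (nat_lit 0x89098a888a1a) (nat_lit 0) (p (nat_lit 0x108890a08079a) (nat_lit 0) (p (nat_lit 0x88088987871a) (nat_lit 0) (p (nat_lit 0x8000080000000078907088a) (nat_lit 0) (p (nat_lit 0x8000080000000070886860a)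 (nat_lit 0) (p (nat_lit 0x10708060782) (nat_lit 0) (p (nat_lit 0x8687858702) (nat_lit 0) (p (nat_lit 0x10607050482) (nat_lit 0) (p (nat_lit 0x8586848402) (nat_lit 0) (p (nat_lit 0x160004) (nat_lit 0) (p (nat_lit 0x50612) (nat_lit 0) (p (nat_lit 0x40592) (nat_lit 0) (p (nat_lit 0x40492) (nat_lit 0) (p (nat_lit 0x30412) (nat_lit 0) (p (nat_lit 0x30212) (nat_lit 0) (p (nat_lit 0x20192) (nat_lit 0) (p (nat_lit 0x20092) (nat_lit 0) (p (nat_lit 0x10012) (nat_lit 0) pn))))))))))))))))))))))))))))) :=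
  Cl.node (nat_lit 0xb0004) (nat_lit 2) (by decide +kernel) (ClAll.succ (ClAll.succ ClAll.zero n116) s785)

def n153 : Cl (O (nat_lit 6)) (R (nat_lit 102673))
    (p (nat_lit 0x444aa) (nat_lit 7) (p (nat_lit 0x81) (nat_lit 1) (p (nat_lit 0xc9) (nat_lit 1) (p (nat_lit 0x109) (nat_lit 1) (p (nat_lit 0x101) (nat_lit 0) (p (nat_lit 0x119) (nat_lit 0) (p (nat_lit 0xd1) (nat_lit 0) (p (nat_lit 0x89) (nat_lit 0) (p (nat_lit 0x41) (nat_lit 0) (p (nat_lit 0x1098a0b090a9a) (nat_lit 0) (p (nat_lit 0x89098a888a1a) (nat_lit 0) (p (nat_lit 0x108890a08079a) (nat_lit 0) (p (nat_lit 0x88088987871a) (nat_lit 0) (p (nat_lit 0x8000080000000078907088a) (nat_lit 0) (p (nat_lit 0x8000080000000070886860a) (nat_lit 0) (p (nat_lit 0x10708060782) (nat_lit 0) (p (nat_lit 0x8687858702) (nat_lit 0) (p (nat_lit 0x10607050482) (nat_lit 0) (p (nat_lit 0x8586848402) (nat_lit 0) (p (nat_lit 0x160004) (nat_lit 0) (p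 (nat_lit 0x50612) (nat_lit 0) (p (nat_lit 0x40592) (nat_lit 0) (p (nat_lit 0x40492) (nat_lit 0) (p (nat_lit 0x30412) (nat_lit 0) (p (nat_lit 0x30212) (nat_lit 0) (p (nat_lit 0x20192) (nat_lit 0) (p (nat_lit 0x20092) (nat_lit 0) (p (nat_lit 0x10012) (nat_lit 0) pn)))))))))))))))))))))))))))) :=
  Cl.node (nat_lit 0x380c2) (nat_lit 2) (by decide +kernel) (ClAll.succ (ClAll.succ ClAll.zero n117) n118)

def n154 : Cl (O (nat_lit 6)) (R (nat_lit 102673))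
    (p (nat_lit 0x444aa) (nat_lit 7) (p (nat_lit 0x111) (nat_lit 0) (p (nat_lit 0xc9) (nat_lit 1) (p (nat_lit 0x81) (nat_lit 0) (p (nat_lit 0x101) (nat_lit 1) (p (nat_lit 0x119) (nat_lit 0) (p (nat_lit 0xd1) (nat_lit 0) (p (nat_lit 0x89) (nat_lit 0) (p (nat_lit 0x41) (nat_lit 0) (p (nat_lit 0x1098a0b090a9a) (nat_lit 0) (p (nat_lit 0x89098a888a1a) (nat_lit 0) (p (nat_lit 0x108890a08079a) (nat_lit 0) (p (nat_lit 0x88088987871a) (nat_lit 0) (p (nat_lit 0x8000080000000078907088a) (nat_lit 0) (p (nat_lit 0x8000080000000070886860a) (nat_lit 0) (p (nat_lit 0x10708060782) (nat_lit 0) (p (nat_lit 0x8687858702) (nat_lit 0) (p (nat_lit 0x10607050482) (nat_lit 0) (p (nat_lit 0x8586848402) (nat_lit 0) (p (nat_lit 0x160004) (nat_lit 0) (p (nat_lit 0x50612) (nat_lit 0) (p (nat_lit 0x40592) (nat_lit 0) (p (nat_lit 0x40492) (nat_lit 0) (p (nat_lit 0x30412) (nat_lit 0) (p (nat_lit 0x30212) (nat_lit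 0) (p (nat_lit 0x20192) (nat_lit 0) (p (nat_lit 0x20092) (nat_lit 0) (p (nat_lit 0x10012) (nat_lit 0) pn)))))))))))))))))))))))))))) :=
  Cl.node (nat_lit 0x380c2) (nat_lit 2) (by decide +kernel) (ClAll.succ (ClAll.succ ClAll.zero n119) n120)

def n155 : Cl (O (nat_lit 6)) (R (nat_lit 102673))
    (p (nat_lit 0x109) (nat_lit 0) (p (nat_lit 0xc9) (nat_lit 1) (p (nat_lit 0xc1) (nat_lit 0) (p (nat_lit 0x81) (nat_lit 1) (p (nat_lit 0x101) (nat_lit 1) (p (nat_lit 0x119) (nat_lit 0) (p (nat_lit 0xd1) (nat_lit 0) (p (nat_lit 0x89) (nat_lit 0) (p (nat_lit 0x41) (nat_lit 0) (p (nat_lit 0x1098a0b090a9a) (nat_lit 0) (p (nat_lit 0x89098a888a1a) (nat_lit 0) (p (nat_lit 0x108890a08079a) (nat_lit 0) (p (nat_lit 0x88088987871a) (nat_lit 0) (p (nat_lit 0x8000080000000078907088a) (nat_lit 0) (p (nat_lit 0x8000080000000070886860a) (nat_lit 0) (p (nat_lit 0x10708060782) (nat_lit 0) (p (nat_lit 0x8687858702)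 (nat_lit 0) (p (nat_lit 0x10607050482) (nat_lit 0) (p (nat_lit 0x8586848402) (nat_lit 0) (p (nat_lit 0x160004) (nat_lit 0) (p (nat_lit 0x50612) (nat_lit 0) (p (nat_lit 0x40592) (nat_lit 0) (p (nat_lit 0x40492) (nat_lit 0) (p (nat_lit 0x30412) (nat_lit 0) (p (nat_lit 0x30212) (nat_lit 0) (p (nat_lit 0x20192) (nat_lit 0) (p (nat_lit 0x20092) (nat_lit 0) (p (nat_lit 0x10012) (nat_lit 0) pn)))))))))))))))))))))))))))) :=
  Cl.node (nat_lit 0x20000c) (nat_lit 2) (by decide +kernel) (ClAll.succ (ClAll.succ ClAll.zero s110) s111)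

def n156 : Cl (O (nat_lit 6)) (R (nat_lit 102673))
    (p (nat_lit 0x109) (nat_lit 1) (p (nat_lit 0xc9) (nat_lit 1) (p (nat_lit 0xc1) (nat_lit 0) (p (nat_lit 0x81) (nat_lit 1) (p (nat_lit 0x101) (nat_lit 1) (p (nat_lit 0x119) (nat_lit 0) (p (nat_lit 0xd1) (nat_lit 0) (p (nat_lit 0x89) (nat_lit 0) (p (nat_lit 0x41) (nat_lit 0) (p (nat_lit 0x1098a0b090a9a) (nat_lit 0) (p (nat_lit 0x89098a888a1a) (nat_lit 0) (p (nat_lit 0x108890a08079a) (nat_lit 0) (p (nat_lit 0x88088987871a) (nat_lit 0) (p (nat_lit 0x8000080000000078907088a) (nat_lit 0) (p (nat_lit 0x8000080000000070886860a) (nat_lit 0) (p (nat_lit 0x10708060782) (nat_lit 0) (p (nat_lit 0x8687858702) (nat_lit 0) (p (nat_lit 0x10607050482) (nat_lit 0) (p (nat_lit 0x8586848402) (nat_lit 0) (p (nat_lit 0x160004) (nat_lit 0) (p (nat_lit 0x50612) (nat_lit 0) (p (nat_lit 0x40592) (nat_lit 0) (p (nat_lit 0x40492) (nat_lit 0) (p (nat_lit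 0x30412) (nat_lit 0) (p (nat_lit 0x30212) (nat_lit 0) (p (nat_lit 0x20192) (nat_lit 0) (p (nat_lit 0x20092) (nat_lit 0) (p (nat_lit 0x10012) (nat_lit 0) pn)))))))))))))))))))))))))))) :=
  Cl.node (nat_lit 0x41) (nat_lit 2) (by decide +kernel) (ClAll.succ (ClAll.succ ClAll.zero s112) s113)

def n157 : Cl (O (nat_lit 6)) (R (nat_lit 102673))
    (p (nat_lit 0x380c2) (nat_lit 0) (p (nat_lit 0x3cc2a) (nat_lit 2) (p (nat_lit 0x109) (nat_lit 1) (p (nat_lit 0xc9) (nat_lit 1) (p (nat_lit 0xc1) (nat_lit 0) (p (nat_lit 0x119) (nat_lit 1) (p (nat_lit 0xd1) (nat_lit 0) (p (nat_lit 0x89) (nat_lit 0) (p (nat_lit 0x41) (nat_lit 0) (p (nat_lit 0x1098a0b090a9a) (nat_lit 0) (p (nat_lit 0x89098a888a1a) (nat_lit 0) (p (nat_lit 0x108890a08079a) (nat_lit 0) (p (nat_lit 0x88088987871a) (nat_lit 0) (p (nat_lit 0x8000080000000078907088a) (nat_lit 0) (p (nat_lit 0x8000080000000070886860a) (nat_lit 0) (p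 (nat_lit 0x10708060782) (nat_lit 0) (p (nat_lit 0x8687858702) (nat_lit 0) (p (nat_lit 0x10607050482) (nat_lit 0) (p (nat_lit 0x8586848402) (nat_lit 0) (p (nat_lit 0x160004) (nat_lit 0) (p (nat_lit 0x50612) (nat_lit 0) (p (nat_lit 0x40592) (nat_lit 0) (p (nat_lit 0x40492) (nat_lit 0) (p (nat_lit 0x30412) (nat_lit 0) (p (nat_lit 0x30212) (nat_lit 0) (p (nat_lit 0x20192) (nat_lit 0) (p (nat_lit 0x20092) (nat_lit 0) (p (nat_lit 0x10012) (nat_lit 0) pn)))))))))))))))))))))))))))) :=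
  Cl.node (nat_lit 0x101) (nat_lit 2) (by decide +kernel) (ClAll.succ (ClAll.succ ClAll.zero n121) n122)

def n158 : Cl (O (nat_lit 6)) (R (nat_lit 102673))
    (p (nat_lit 0x380c2) (nat_lit 0) (p (nat_lit 0x3cc2a) (nat_lit 2) (p (nat_lit 0x109) (nat_lit 1) (p (nat_lit 0x81) (nat_lit 0) (p (nat_lit 0xc1) (nat_lit 1) (p (nat_lit 0x119) (nat_lit 1) (p (nat_lit 0xd1) (nat_lit 0) (p (nat_lit 0x89) (nat_lit 0) (p (nat_lit 0x41) (nat_lit 0) (p (nat_lit 0x1098a0b090a9a) (nat_lit 0) (p (nat_lit 0x89098a888a1a) (nat_lit 0) (p (nat_lit 0x108890a08079a) (nat_lit 0) (p (nat_lit 0x88088987871a) (nat_lit 0) (p (nat_lit 0x8000080000000078907088a) (nat_lit 0) (p (nat_lit 0x8000080000000070886860a) (nat_lit 0) (p (nat_lit 0x10708060782) (nat_lit 0) (p (nat_lit 0x8687858702) (nat_lit 0) (p (nat_lit 0x10607050482) (nat_lit 0) (p (nat_lit 0x8586848402) (nat_lit 0) (p (nat_lit 0x160004) (nat_lit 0) (p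 (nat_lit 0x50612) (nat_lit 0) (p (nat_lit 0x40592) (nat_lit 0) (p (nat_lit 0x40492) (nat_lit 0) (p (nat_lit 0x30412) (nat_lit 0) (p (nat_lit 0x30212) (nat_lit 0) (p (nat_lit 0x20192) (nat_lit 0) (p (nat_lit 0x20092) (nat_lit 0) (p (nat_lit 0x10012) (nat_lit 0) pn)))))))))))))))))))))))))))) :=
  Cl.node (nat_lit 0xc9) (nat_lit 2) (by decide +kernel) (ClAll.succ (ClAll.succ ClAll.zero s149) n123)

def n159 : Cl (O (nat_lit 6)) (R (nat_lit 102673))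
    (p (nat_lit 0x44c2a) (nat_lit 1) (p (nat_lit 0x109) (nat_lit 0) (p (nat_lit 0x101) (nat_lit 0) (p (nat_lit 0x81) (nat_lit 1) (p (nat_lit 0xc1) (nat_lit 1) (p (nat_lit 0x119) (nat_lit 1) (p (nat_lit 0xd1) (nat_lit 0) (p (nat_lit 0x89) (nat_lit 0) (p (nat_lit 0x41) (nat_lit 0) (p (nat_lit 0x1098a0b090a9a) (nat_lit 0) (p (nat_lit 0x89098a888a1a) (nat_lit 0) (p (nat_lit 0x108890a08079a) (nat_lit 0) (p (nat_lit 0x88088987871a) (nat_lit 0) (p (nat_lit 0x8000080000000078907088a) (nat_lit 0) (p (nat_lit 0x8000080000000070886860a) (nat_lit 0) (p (nat_lit 0x10708060782) (nat_lit 0) (p (nat_lit 0x8687858702) (nat_lit 0) (p (nat_lit 0x10607050482) (nat_lit 0) (p (nat_lit 0x8586848402) (nat_lit 0) (p (nat_lit 0x160004) (nat_lit 0) (p (nat_lit 0x50612) (nat_lit 0) (p (nat_lit 0x40592) (nat_lit 0) (p (nat_lit 0x40492) (nat_lit 0) (p (nat_lit 0x30412) (nat_lit 0) (p (nat_lit 0x30212) (nat_lit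 0) (p (nat_lit 0x20192) (nat_lit 0) (p (nat_lit 0x20092) (nat_lit 0) (p (nat_lit 0x10012) (nat_lit 0) pn)))))))))))))))))))))))))))) :=
  Cl.node (nat_lit 0x380c2) (nat_lit 1) (by decide +kernel) (ClAll.succ ClAll.zero n124)

def n160 : Cl (O (nat_lit 6)) (R (nat_lit 102673))
    (p (nat_lit 0x444aa) (nat_lit 7) (p (nat_lit 0x109) (nat_lit 1) (p (nat_lit 0x101) (nat_lit 0) (p (nat_lit 0x81) (nat_lit 1) (p (nat_lit 0xc1) (nat_lit 1) (p (nat_lit 0x119) (nat_lit 1) (p (nat_lit 0xd1) (nat_lit 0) (p (nat_lit 0x89) (nat_lit 0) (p (nat_lit 0x41) (nat_lit 0) (p (nat_lit 0x1098a0b090a9a) (nat_lit 0) (p (nat_lit 0x89098a888a1a) (nat_lit 0) (p (nat_lit 0x108890a08079a) (nat_lit 0) (p (nat_lit 0x88088987871a) (nat_lit 0) (p (nat_lit 0x8000080000000078907088a) (nat_lit 0) (p (nat_lit 0x8000080000000070886860a) (nat_lit 0) (p (nat_lit 0x10708060782) (nat_lit 0) (p (nat_lit 0x8687858702) (nat_lit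 0) (p (nat_lit 0x10607050482) (nat_lit 0) (p (nat_lit 0x8586848402) (nat_lit 0) (p (nat_lit 0x160004) (nat_lit 0) (p (nat_lit 0x50612) (nat_lit 0) (p (nat_lit 0x40592) (nat_lit 0) (p (nat_lit 0x40492) (nat_lit 0) (p (nat_lit 0x30412) (nat_lit 0) (p (nat_lit 0x30212) (nat_lit 0) (p (nat_lit 0x20192) (nat_lit 0) (p (nat_lit 0x20092) (nat_lit 0) (p (nat_lit 0x10012) (nat_lit 0) pn)))))))))))))))))))))))))))) :=
  Cl.node (nat_lit 0x380c2) (nat_lit 2) (by decide +kernel) (ClAll.succ (ClAll.succ ClAll.zero s183) n125)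

def n161 : Cl (O (nat_lit 6)) (R (nat_lit 102673))
    (p (nat_lit 0x200014) (nat_lit 0) (p (nat_lit 0x20000c) (nat_lit 0) (p (nat_lit 0xc1) (nat_lit 1) (p (nat_lit 0x109) (nat_lit 1) (p (nat_lit 0x101) (nat_lit 0) (p (nat_lit 0x111) (nat_lit 0) (p (nat_lit 0xd1) (nat_lit 1) (p (nat_lit 0x89) (nat_lit 0) (p (nat_lit 0x41) (nat_lit 0) (p (nat_lit 0x1098a0b090a9a) (nat_lit 0) (p (nat_lit 0x89098a888a1a) (nat_lit 0) (p (nat_lit 0x108890a08079a) (nat_lit 0) (p (nat_lit 0x88088987871a) (nat_lit 0) (p (nat_lit 0x8000080000000078907088a) (nat_lit 0) (p (nat_lit 0x8000080000000070886860a) (nat_lit 0) (p (nat_lit 0x10708060782) (nat_lit 0) (p (nat_lit 0x8687858702) (nat_lit 0) (p (nat_lit 0x10607050482) (nat_lit 0) (p (nat_lit 0x8586848402) (nat_lit 0) (p (nat_lit 0x160004) (nat_lit 0) (p (nat_lit 0x50612) (nat_lit 0) (p (nat_lit 0x40592) (nat_lit 0) (p (nat_lit 0x40492) (nat_lit 0) (p (nat_lit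 0x30412) (nat_lit 0) (p (nat_lit 0x30212) (nat_lit 0) (p (nat_lit 0x20192) (nat_lit 0) (p (nat_lit 0x20092) (nat_lit 0) (p (nat_lit 0x10012) (nat_lit 0) pn)))))))))))))))))))))))))))) :=
  Cl.node (nat_lit 0x41) (nat_lit 2) (by decide +kernel) (ClAll.succ (ClAll.succ ClAll.zero n126) s218)

def n162 : Cl (O (nat_lit 6)) (R (nat_lit 102673))
    (p (nat_lit 0x200014) (nat_lit 0) (p (nat_lit 0x20000c) (nat_lit 0) (p (nat_lit 0x119) (nat_lit 0) (p (nat_lit 0x81) (nat_lit 0) (p (nat_lit 0x101) (nat_lit 1) (p (nat_lit 0x111) (nat_lit 0) (p (nat_lit 0xd1) (nat_lit 1) (p (nat_lit 0x89) (nat_lit 0) (p (nat_lit 0x41) (nat_lit 0) (p (nat_lit 0x1098a0b090a9a) (nat_lit 0) (p (nat_lit 0x89098a888a1a) (nat_lit 0) (p (nat_lit 0x108890a08079a) (nat_lit 0) (p (nat_lit 0x88088987871a) (nat_lit 0) (p (nat_lit 0x8000080000000078907088a) (nat_lit 0) (p (nat_lit 0x8000080000000070886860a) (nat_lit 0)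 (p (nat_lit 0x10708060782) (nat_lit 0) (p (nat_lit 0x8687858702) (nat_lit 0) (p (nat_lit 0x10607050482) (nat_lit 0) (p (nat_lit 0x8586848402) (nat_lit 0) (p (nat_lit 0x160004) (nat_lit 0) (p (nat_lit 0x50612) (nat_lit 0) (p (nat_lit 0x40592) (nat_lit 0) (p (nat_lit 0x40492) (nat_lit 0) (p (nat_lit 0x30412) (nat_lit 0) (p (nat_lit 0x30212) (nat_lit 0) (p (nat_lit 0x20192) (nat_lit 0) (p (nat_lit 0x20092) (nat_lit 0) (p (nat_lit 0x10012) (nat_lit 0) pn)))))))))))))))))))))))))))) :=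
  Cl.node (nat_lit 0x109) (nat_lit 2) (by decide +kernel) (ClAll.succ (ClAll.succ ClAll.zero s221) n127)

def n163 : Cl (O (nat_lit 6)) (R (nat_lit 102673))
    (p (nat_lit 0x444aa) (nat_lit 7) (p (nat_lit 0x119) (nat_lit 0) (p (nat_lit 0xc1) (nat_lit 0) (p (nat_lit 0x81) (nat_lit 1) (p (nat_lit 0x101) (nat_lit 1) (p (nat_lit 0x111) (nat_lit 0) (p (nat_lit 0xd1) (nat_lit 1) (p (nat_lit 0x89) (nat_lit 0) (p (nat_lit 0x41) (nat_lit 0) (p (nat_lit 0x1098a0b090a9a) (nat_lit 0) (p (nat_lit 0x89098a888a1a) (nat_lit 0) (p (nat_lit 0x108890a08079a) (nat_lit 0) (p (nat_lit 0x88088987871a) (nat_lit 0) (p (nat_lit 0x8000080000000078907088a) (nat_lit 0) (p (nat_lit 0x8000080000000070886860a) (nat_lit 0) (p (nat_lit 0x10708060782) (nat_lit 0) (p (nat_lit 0x8687858702) (nat_lit 0) (p (nat_lit 0x10607050482) (nat_lit 0) (p (nat_lit 0x8586848402) (nat_lit 0) (p (nat_lit 0x160004) (nat_lit 0) (p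 (nat_lit 0x50612) (nat_lit 0) (p (nat_lit 0x40592) (nat_lit 0) (p (nat_lit 0x40492) (nat_lit 0) (p (nat_lit 0x30412) (nat_lit 0) (p (nat_lit 0x30212) (nat_lit 0) (p (nat_lit 0x20192) (nat_lit 0) (p (nat_lit 0x20092) (nat_lit 0) (p (nat_lit 0x10012) (nat_lit 0) pn)))))))))))))))))))))))))))) :=
  Cl.node (nat_lit 0x380c2) (nat_lit 2) (by decide +kernel) (ClAll.succ (ClAll.succ ClAll.zero s255) s256)

def n164 : Cl (O (nat_lit 6)) (R (nat_lit 102673))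
    (p (nat_lit 0x3cc2a) (nat_lit 2) (p (nat_lit 0x119) (nat_lit 1) (p (nat_lit 0xc1) (nat_lit 0) (p (nat_lit 0x81) (nat_lit 1) (p (nat_lit 0x101) (nat_lit 1) (p (nat_lit 0x111) (nat_lit 0) (p (nat_lit 0xd1) (nat_lit 1) (p (nat_lit 0x89) (nat_lit 0) (p (nat_lit 0x41) (nat_lit 0) (p (nat_lit 0x1098a0b090a9a) (nat_lit 0) (p (nat_lit 0x89098a888a1a) (nat_lit 0) (p (nat_lit 0x108890a08079a) (nat_lit 0) (p (nat_lit 0x88088987871a) (nat_lit 0) (p (nat_lit 0x8000080000000078907088a) (nat_lit 0) (p (nat_lit 0x8000080000000070886860a) (nat_lit 0) (p (nat_lit 0x10708060782) (nat_lit 0) (p (nat_lit 0x8687858702) (nat_lit 0) (p (nat_lit 0x10607050482) (nat_lit 0) (p (nat_lit 0x8586848402) (nat_lit 0) (p (nat_lit 0x160004) (nat_lit 0) (p (nat_lit 0x50612) (nat_lit 0) (p (nat_lit 0x40592) (nat_lit 0) (p (nat_lit 0x40492) (nat_lit 0) (p (nat_lit 0x30412) (nat_lit 0) (p (nat_lit 0x30212) (nat_lit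 0) (p (nat_lit 0x20192) (nat_lit 0) (p (nat_lit 0x20092) (nat_lit 0) (p (nat_lit 0x10012) (nat_lit 0) pn)))))))))))))))))))))))))))) :=
  Cl.node (nat_lit 0x380c2) (nat_lit 1) (by decide +kernel) (ClAll.succ ClAll.zero n128)

def n165 : Cl (O (nat_lit 6)) (R (nat_lit 102673))
    (p (nat_lit 0x444aa) (nat_lit 7) (p (nat_lit 0xd1) (nat_lit 1) (p (nat_lit 0x111) (nat_lit 1) (p (nat_lit 0x109) (nat_lit 0) (p (nat_lit 0x101) (nat_lit 0) (p (nat_lit 0x119) (nat_lit 0) (p (nat_lit 0xc9) (nat_lit 0) (p (nat_lit 0x89) (nat_lit 1) (p (nat_lit 0x41) (nat_lit 0) (p (nat_lit 0x1098a0b090a9a) (nat_lit 0) (p (nat_lit 0x89098a888a1a) (nat_lit 0) (p (nat_lit 0x108890a08079a) (nat_lit 0) (p (nat_lit 0x88088987871a) (nat_lit 0) (p (nat_lit 0x8000080000000078907088a) (nat_lit 0) (p (nat_lit 0x8000080000000070886860a) (nat_lit 0) (p (nat_lit 0x10708060782) (nat_lit 0) (p (nat_lit 0x8687858702) (nat_lit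 0) (p (nat_lit 0x10607050482) (nat_lit 0) (p (nat_lit 0x8586848402) (nat_lit 0) (p (nat_lit 0x160004) (nat_lit 0) (p (nat_lit 0x50612) (nat_lit 0) (p (nat_lit 0x40592) (nat_lit 0) (p (nat_lit 0x40492) (nat_lit 0) (p (nat_lit 0x30412) (nat_lit 0) (p (nat_lit 0x30212) (nat_lit 0) (p (nat_lit 0x20192) (nat_lit 0) (p (nat_lit 0x20092) (nat_lit 0) (p (nat_lit 0x10012) (nat_lit 0) pn)))))))))))))))))))))))))))) :=
  Cl.node (nat_lit 0x380c2) (nat_lit 2) (by decide +kernel) (ClAll.succ (ClAll.succ ClAll.zero n129) n130)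

def n166 : Cl (O (nat_lit 6)) (R (nat_lit 102673))
    (p (nat_lit 0x200014) (nat_lit 0) (p (nat_lit 0x20000c) (nat_lit 0) (p (nat_lit 0xd1) (nat_lit 0) (p (nat_lit 0x109) (nat_lit 1) (p (nat_lit 0x101) (nat_lit 0) (p (nat_lit 0x119) (nat_lit 0) (p (nat_lit 0xc9) (nat_lit 0) (p (nat_lit 0x89) (nat_lit 1) (p (nat_lit 0x41) (nat_lit 0) (p (nat_lit 0x1098a0b090a9a) (nat_lit 0) (p (nat_lit 0x89098a888a1a) (nat_lit 0) (p (nat_lit 0x108890a08079a) (nat_lit 0) (p (nat_lit 0x88088987871a) (nat_lit 0) (p (nat_lit 0x8000080000000078907088a) (nat_lit 0) (p (nat_lit 0x8000080000000070886860a) (nat_lit 0) (p (nat_lit 0x10708060782) (nat_lit 0) (p (nat_lit 0x8687858702) (nat_lit 0) (p (nat_lit 0x10607050482) (nat_lit 0) (p (nat_lit 0x8586848402) (nat_lit 0) (p (nat_lit 0x160004) (nat_lit 0) (p (nat_lit 0x50612) (nat_lit 0) (p (nat_lit 0x40592) (nat_lit 0) (p (nat_lit 0x40492) (nat_lit 0) (p (nat_lit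 0x30412) (nat_lit 0) (p (nat_lit 0x30212) (nat_lit 0) (p (nat_lit 0x20192) (nat_lit 0) (p (nat_lit 0x20092) (nat_lit 0) (p (nat_lit 0x10012) (nat_lit 0) pn)))))))))))))))))))))))))))) :=
  Cl.node (nat_lit 0x41) (nat_lit 2) (by decide +kernel) (ClAll.succ (ClAll.succ ClAll.zero n131) s333)

def n167 : Cl (O (nat_lit 6)) (R (nat_lit 102673))
    (p (nat_lit 0x380c2) (nat_lit 0) (p (nat_lit 0x444aa) (nat_lit 7) (p (nat_lit 0xd1) (nat_lit 1) (p (nat_lit 0x109) (nat_lit 1) (p (nat_lit 0x101) (nat_lit 0) (p (nat_lit 0x119) (nat_lit 0) (p (nat_lit 0xc9) (nat_lit 0) (p (nat_lit 0x89) (nat_lit 1) (p (nat_lit 0x41) (nat_lit 0) (p (nat_lit 0x1098a0b090a9a) (nat_lit 0) (p (nat_lit 0x89098a888a1a) (nat_lit 0) (p (nat_lit 0x108890a08079a) (nat_lit 0) (p (nat_lit 0x88088987871a) (nat_lit 0) (p (nat_lit 0x8000080000000078907088a) (nat_lit 0) (p (nat_lit 0x8000080000000070886860a) (nat_lit 0) (p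 (nat_lit 0x10708060782) (nat_lit 0) (p (nat_lit 0x8687858702) (nat_lit 0) (p (nat_lit 0x10607050482) (nat_lit 0) (p (nat_lit 0x8586848402) (nat_lit 0) (p (nat_lit 0x160004) (nat_lit 0) (p (nat_lit 0x50612) (nat_lit 0) (p (nat_lit 0x40592) (nat_lit 0) (p (nat_lit 0x40492) (nat_lit 0) (p (nat_lit 0x30412) (nat_lit 0) (p (nat_lit 0x30212) (nat_lit 0) (p (nat_lit 0x20192) (nat_lit 0) (p (nat_lit 0x20092) (nat_lit 0) (p (nat_lit 0x10012) (nat_lit 0) pn)))))))))))))))))))))))))))) :=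
  Cl.node (nat_lit 0xb0004) (nat_lit 2) (by decide +kernel) (ClAll.succ (ClAll.succ ClAll.zero n132) n133)

def n168 : Cl (O (nat_lit 6)) (R (nat_lit 102673))
    (p (nat_lit 0x380c2) (nat_lit 1) (p (nat_lit 0x444aa) (nat_lit 7) (p (nat_lit 0xd1) (nat_lit 1) (p (nat_lit 0x109) (nat_lit 1) (p (nat_lit 0x101) (nat_lit 0) (p (nat_lit 0x119) (nat_lit 0) (p (nat_lit 0xc9) (nat_lit 0) (p (nat_lit 0x89) (nat_lit 1) (p (nat_lit 0x41) (nat_lit 0) (p (nat_lit 0x1098a0b090a9a) (nat_lit 0) (p (nat_lit 0x89098a888a1a) (nat_lit 0) (p (nat_lit 0x108890a08079a) (nat_lit 0) (p (nat_lit 0x88088987871a) (nat_lit 0) (p (nat_lit 0x8000080000000078907088a) (nat_lit 0) (p (nat_lit 0x8000080000000070886860a) (nat_lit 0) (p (nat_lit 0x10708060782) (nat_lit 0) (p (nat_lit 0x8687858702) (nat_lit 0) (p (nat_lit 0x10607050482) (nat_lit 0) (p (nat_lit 0x8586848402) (nat_lit 0) (p (nat_lit 0x160004) (nat_lit 0)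 (p (nat_lit 0x50612) (nat_lit 0) (p (nat_lit 0x40592) (nat_lit 0) (p (nat_lit 0x40492) (nat_lit 0) (p (nat_lit 0x30412) (nat_lit 0) (p (nat_lit 0x30212) (nat_lit 0) (p (nat_lit 0x20192) (nat_lit 0) (p (nat_lit 0x20092) (nat_lit 0) (p (nat_lit 0x10012) (nat_lit 0) pn)))))))))))))))))))))))))))) :=
  Cl.node (nat_lit 0xb0004) (nat_lit 2) (by decide +kernel) (ClAll.succ (ClAll.succ ClAll.zero n134) s361)

def n169 : Cl (O (nat_lit 6)) (R (nat_lit 102673))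
    (p (nat_lit 0x200014) (nat_lit 0) (p (nat_lit 0x20000c) (nat_lit 0) (p (nat_lit 0xd1) (nat_lit 0) (p (nat_lit 0xc1) (nat_lit 0) (p (nat_lit 0x101) (nat_lit 1) (p (nat_lit 0x119) (nat_lit 0) (p (nat_lit 0xc9) (nat_lit 0) (p (nat_lit 0x89) (nat_lit 1) (p (nat_lit 0x41) (nat_lit 0) (p (nat_lit 0x1098a0b090a9a) (nat_lit 0) (p (nat_lit 0x89098a888a1a) (nat_lit 0) (p (nat_lit 0x108890a08079a) (nat_lit 0) (p (nat_lit 0x88088987871a) (nat_lit 0) (p (nat_lit 0x8000080000000078907088a) (nat_lit 0) (p (nat_lit 0x8000080000000070886860a) (nat_lit 0) (p (nat_lit 0x10708060782) (nat_lit 0) (p (nat_lit 0x8687858702) (nat_lit 0) (p (nat_lit 0x10607050482) (nat_lit 0) (p (nat_lit 0x8586848402) (nat_lit 0) (p (nat_lit 0x160004) (nat_lit 0) (p (nat_lit 0x50612) (nat_lit 0) (p (nat_lit 0x40592) (nat_lit 0) (p (nat_lit 0x40492) (nat_lit 0) (p (nat_lit 0x30412) (nat_lit 0) (p (nat_lit 0x30212) (nat_lit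 0) (p (nat_lit 0x20192) (nat_lit 0) (p (nat_lit 0x20092) (nat_lit 0) (p (nat_lit 0x10012) (nat_lit 0) pn)))))))))))))))))))))))))))) :=
  Cl.node (nat_lit 0x109) (nat_lit 2) (by decide +kernel) (ClAll.succ (ClAll.succ ClAll.zero s366) n135)

def n170 : Cl (O (nat_lit 6)) (R (nat_lit 102673))
    (p (nat_lit 0x111) (nat_lit 1) (p (nat_lit 0x109) (nat_lit 0) (p (nat_lit 0xd1) (nat_lit 1) (p (nat_lit 0xc1) (nat_lit 0) (p (nat_lit 0x101) (nat_lit 1) (p (nat_lit 0x119) (nat_lit 0) (p (nat_lit 0xc9) (nat_lit 0) (p (nat_lit 0x89) (nat_lit 1) (p (nat_lit 0x41) (nat_lit 0) (p (nat_lit 0x1098a0b090a9a) (nat_lit 0) (p (nat_lit 0x89098a888a1a) (nat_lit 0) (p (nat_lit 0x108890a08079a) (nat_lit 0) (p (nat_lit 0x88088987871a) (nat_lit 0) (p (nat_lit 0x8000080000000078907088a) (nat_lit 0) (p (nat_lit 0x8000080000000070886860a) (nat_lit 0) (p (nat_lit 0x10708060782) (nat_lit 0) (p (nat_lit 0x8687858702)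 (nat_lit 0) (p (nat_lit 0x10607050482) (nat_lit 0) (p (nat_lit 0x8586848402) (nat_lit 0) (p (nat_lit 0x160004) (nat_lit 0) (p (nat_lit 0x50612) (nat_lit 0) (p (nat_lit 0x40592) (nat_lit 0) (p (nat_lit 0x40492) (nat_lit 0) (p (nat_lit 0x30412) (nat_lit 0) (p (nat_lit 0x30212) (nat_lit 0) (p (nat_lit 0x20192) (nat_lit 0) (p (nat_lit 0x20092) (nat_lit 0) (p (nat_lit 0x10012) (nat_lit 0) pn)))))))))))))))))))))))))))) :=
  Cl.node (nat_lit 0x81) (nat_lit 2) (by decide +kernel) (ClAll.succ (ClAll.succ ClAll.zero n136) s388)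

def n171 : Cl (O (nat_lit 6)) (R (nat_lit 102673))
    (p (nat_lit 0x81) (nat_lit 0) (p (nat_lit 0x109) (nat_lit 1) (p (nat_lit 0xd1) (nat_lit 1) (p (nat_lit 0xc1) (nat_lit 0) (p (nat_lit 0x101) (nat_lit 1) (p (nat_lit 0x119) (nat_lit 0) (p (nat_lit 0xc9) (nat_lit 0) (p (nat_lit 0x89) (nat_lit 1) (p (nat_lit 0x41) (nat_lit 0) (p (nat_lit 0x1098a0b090a9a) (nat_lit 0) (p (nat_lit 0x89098a888a1a) (nat_lit 0) (p (nat_lit 0x108890a08079a) (nat_lit 0) (p (nat_lit 0x88088987871a) (nat_lit 0) (p (nat_lit 0x8000080000000078907088a) (nat_lit 0) (p (nat_lit 0x8000080000000070886860a) (nat_lit 0) (p (nat_lit 0x10708060782) (nat_lit 0) (p (nat_lit 0x8687858702) (nat_lit 0) (p (nat_lit 0x10607050482) (nat_lit 0) (p (nat_lit 0x8586848402) (nat_lit 0) (p (nat_lit 0x160004) (nat_lit 0) (p (nat_lit 0x50612) (nat_lit 0) (p (nat_lit 0x40592) (nat_lit 0) (p (nat_lit 0x40492) (nat_lit 0) (p (nat_lit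 0x30412) (nat_lit 0) (p (nat_lit 0x30212) (nat_lit 0) (p (nat_lit 0x20192) (nat_lit 0) (p (nat_lit 0x20092) (nat_lit 0) (p (nat_lit 0x10012) (nat_lit 0) pn)))))))))))))))))))))))))))) :=
  Cl.node (nat_lit 0x89) (nat_lit 2) (by decide +kernel) (ClAll.succ (ClAll.succ ClAll.zero n137) s392)

def n172 : Cl (O (nat_lit 6)) (R (nat_lit 102673))
    (p (nat_lit 0x380c2) (nat_lit 1) (p (nat_lit 0x444aa) (nat_lit 7) (p (nat_lit 0x111) (nat_lit 1) (p (nat_lit 0xd1) (nat_lit 1) (p (nat_lit 0xc1) (nat_lit 0) (p (nat_lit 0x119) (nat_lit 1) (p (nat_lit 0xc9) (nat_lit 0) (p (nat_lit 0x89) (nat_lit 1) (p (nat_lit 0x41) (nat_lit 0) (p (nat_lit 0x1098a0b090a9a) (nat_lit 0) (p (nat_lit 0x89098a888a1a) (nat_lit 0) (p (nat_lit 0x108890a08079a) (nat_lit 0) (p (nat_lit 0x88088987871a) (nat_lit 0) (p (nat_lit 0x8000080000000078907088a) (nat_lit 0) (p (nat_lit 0x8000080000000070886860a) (nat_lit 0) (p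 (nat_lit 0x10708060782) (nat_lit 0) (p (nat_lit 0x8687858702) (nat_lit 0) (p (nat_lit 0x10607050482) (nat_lit 0) (p (nat_lit 0x8586848402) (nat_lit 0) (p (nat_lit 0x160004) (nat_lit 0) (p (nat_lit 0x50612) (nat_lit 0) (p (nat_lit 0x40592) (nat_lit 0) (p (nat_lit 0x40492) (nat_lit 0) (p (nat_lit 0x30412) (nat_lit 0) (p (nat_lit 0x30212) (nat_lit 0) (p (nat_lit 0x20192) (nat_lit 0) (p (nat_lit 0x20092) (nat_lit 0) (p (nat_lit 0x10012) (nat_lit 0) pn)))))))))))))))))))))))))))) :=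
  Cl.node (nat_lit 0xb0004) (nat_lit 2) (by decide +kernel) (ClAll.succ (ClAll.succ ClAll.zero n138) s409)

def n173 : Cl (O (nat_lit 6)) (R (nat_lit 102673))
    (p (nat_lit 0x380c2) (nat_lit 0) (p (nat_lit 0x444aa) (nat_lit 7) (p (nat_lit 0x111) (nat_lit 1) (p (nat_lit 0x101) (nat_lit 0) (p (nat_lit 0xc1) (nat_lit 1) (p (nat_lit 0x119) (nat_lit 1) (p (nat_lit 0xc9) (nat_lit 0) (p (nat_lit 0x89) (nat_lit 1) (p (nat_lit 0x41) (nat_lit 0) (p (nat_lit 0x1098a0b090a9a) (nat_lit 0) (p (nat_lit 0x89098a888a1a) (nat_lit 0) (p (nat_lit 0x108890a08079a) (nat_lit 0) (p (nat_lit 0x88088987871a) (nat_lit 0) (p (nat_lit 0x8000080000000078907088a) (nat_lit 0) (p (nat_lit 0x8000080000000070886860a) (nat_lit 0) (p (nat_lit 0x10708060782) (nat_lit 0) (p (nat_lit 0x8687858702) (nat_lit 0) (p (nat_lit 0x10607050482) (nat_lit 0) (p (nat_lit 0x8586848402) (nat_lit 0) (p (nat_lit 0x160004) (nat_lit 0)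 (p (nat_lit 0x50612) (nat_lit 0) (p (nat_lit 0x40592) (nat_lit 0) (p (nat_lit 0x40492) (nat_lit 0) (p (nat_lit 0x30412) (nat_lit 0) (p (nat_lit 0x30212) (nat_lit 0) (p (nat_lit 0x20192) (nat_lit 0) (p (nat_lit 0x20092) (nat_lit 0) (p (nat_lit 0x10012) (nat_lit 0) pn)))))))))))))))))))))))))))) :=
  Cl.node (nat_lit 0xb0004) (nat_lit 2) (by decide +kernel) (ClAll.succ (ClAll.succ ClAll.zero n139) s435)

def n174 : Cl (O (nat_lit 6)) (R (nat_lit 102673))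
    (p (nat_lit 0x380c2) (nat_lit 1) (p (nat_lit 0x444aa) (nat_lit 7) (p (nat_lit 0x111) (nat_lit 1) (p (nat_lit 0x101) (nat_lit 0) (p (nat_lit 0xc1) (nat_lit 1) (p (nat_lit 0x119) (nat_lit 1) (p (nat_lit 0xc9) (nat_lit 0) (p (nat_lit 0x89) (nat_lit 1) (p (nat_lit 0x41) (nat_lit 0) (p (nat_lit 0x1098a0b090a9a) (nat_lit 0) (p (nat_lit 0x89098a888a1a) (nat_lit 0) (p (nat_lit 0x108890a08079a) (nat_lit 0) (p (nat_lit 0x88088987871a) (nat_lit 0) (p (nat_lit 0x8000080000000078907088a) (nat_lit 0) (p (nat_lit 0x8000080000000070886860a) (nat_lit 0) (p (nat_lit 0x10708060782) (nat_lit 0) (p (nat_lit 0x8687858702) (nat_lit 0) (p (nat_lit 0x10607050482) (nat_lit 0) (p (nat_lit 0x8586848402) (nat_lit 0) (p (nat_lit 0x160004) (nat_lit 0) (p (nat_lit 0x50612) (nat_lit 0) (p (nat_lit 0x40592) (nat_lit 0) (p (nat_lit 0x40492) (nat_lit 0) (p (nat_lit 0x30412) (nat_lit 0) (p (nat_lit 0x30212) (nat_lit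 0) (p (nat_lit 0x20192) (nat_lit 0) (p (nat_lit 0x20092) (nat_lit 0) (p (nat_lit 0x10012) (nat_lit 0) pn)))))))))))))))))))))))))))) :=
  Cl.node (nat_lit 0xb0004) (nat_lit 2) (by decide +kernel) (ClAll.succ (ClAll.succ ClAll.zero s436) s437)

def n175 : Cl (O (nat_lit 6)) (R (nat_lit 102673))
    (p (nat_lit 0x380c2) (nat_lit 0) (p (nat_lit 0x444aa) (nat_lit 7) (p (nat_lit 0x119) (nat_lit 1) (p (nat_lit 0x111) (nat_lit 0) (p (nat_lit 0x101) (nat_lit 0) (p (nat_lit 0x109) (nat_lit 0) (p (nat_lit 0xc9) (nat_lit 1) (p (nat_lit 0x89) (nat_lit 1) (p (nat_lit 0x41) (nat_lit 0) (p (nat_lit 0x1098a0b090a9a) (nat_lit 0) (p (nat_lit 0x89098a888a1a) (nat_lit 0) (p (nat_lit 0x108890a08079a) (nat_lit 0) (p (nat_lit 0x88088987871a) (nat_lit 0) (p (nat_lit 0x8000080000000078907088a) (nat_lit 0) (p (nat_lit 0x8000080000000070886860a) (nat_lit 0) (p (nat_lit 0x10708060782) (nat_lit 0) (p (nat_lit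 0x8687858702) (nat_lit 0) (p (nat_lit 0x10607050482) (nat_lit 0) (p (nat_lit 0x8586848402) (nat_lit 0) (p (nat_lit 0x160004) (nat_lit 0) (p (nat_lit 0x50612) (nat_lit 0) (p (nat_lit 0x40592) (nat_lit 0) (p (nat_lit 0x40492) (nat_lit 0) (p (nat_lit 0x30412) (nat_lit 0) (p (nat_lit 0x30212) (nat_lit 0) (p (nat_lit 0x20192) (nat_lit 0) (p (nat_lit 0x20092) (nat_lit 0) (p (nat_lit 0x10012) (nat_lit 0) pn)))))))))))))))))))))))))))) :=
  Cl.node (nat_lit 0xb0004) (nat_lit 2) (by decide +kernel) (ClAll.succ (ClAll.succ ClAll.zero n140) s457)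

def n176 : Cl (O (nat_lit 6)) (R (nat_lit 102673))
    (p (nat_lit 0x4c42a) (nat_lit 10) (p (nat_lit 0x111) (nat_lit 0) (p (nat_lit 0x89) (nat_lit 0) (p (nat_lit 0x109) (nat_lit 1) (p (nat_lit 0x101) (nat_lit 0) (p (nat_lit 0x119) (nat_lit 0) (p (nat_lit 0xd1) (nat_lit 0) (p (nat_lit 0x81) (nat_lit 0) (p (nat_lit 0x41) (nat_lit 1) (p (nat_lit 0x1098a0b090a9a) (nat_lit 0) (p (nat_lit 0x89098a888a1a) (nat_lit 0) (p (nat_lit 0x108890a08079a) (nat_lit 0) (p (nat_lit 0x88088987871a) (nat_lit 0) (p (nat_lit 0x8000080000000078907088a) (nat_lit 0) (p (nat_lit 0x8000080000000070886860a) (nat_lit 0) (p (nat_lit 0x10708060782) (nat_lit 0) (p (nat_lit 0x8687858702) (nat_lit 0) (p (nat_lit 0x10607050482) (nat_lit 0) (p (nat_lit 0x8586848402) (nat_lit 0) (p (nat_lit 0x160004) (nat_lit 0) (p (nat_lit 0x50612) (nat_lit 0) (p (nat_lit 0x40592) (nat_lit 0) (p (nat_lit 0x40492) (nat_lit 0) (p (nat_lit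 0x30412) (nat_lit 0) (p (nat_lit 0x30212) (nat_lit 0) (p (nat_lit 0x20192) (nat_lit 0) (p (nat_lit 0x20092) (nat_lit 0) (p (nat_lit 0x10012) (nat_lit 0) pn)))))))))))))))))))))))))))) :=
  Cl.node (nat_lit 0x380c2) (nat_lit 2) (by decide +kernel) (ClAll.succ (ClAll.succ ClAll.zero n141) s493)

def n177 : Cl (O (nat_lit 6)) (R (nat_lit 102673))
    (p (nat_lit 0x4c42a) (nat_lit 10) (p (nat_lit 0x111) (nat_lit 1) (p (nat_lit 0x89) (nat_lit 0) (p (nat_lit 0x109) (nat_lit 1) (p (nat_lit 0x101) (nat_lit 0) (p (nat_lit 0x119) (nat_lit 0) (p (nat_lit 0xd1) (nat_lit 0) (p (nat_lit 0x81) (nat_lit 0) (p (nat_lit 0x41) (nat_lit 1) (p (nat_lit 0x1098a0b090a9a) (nat_lit 0) (p (nat_lit 0x89098a888a1a) (nat_lit 0) (p (nat_lit 0x108890a08079a) (nat_lit 0) (p (nat_lit 0x88088987871a) (nat_lit 0) (p (nat_lit 0x8000080000000078907088a) (nat_lit 0) (p (nat_lit 0x8000080000000070886860a) (nat_lit 0)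 (p (nat_lit 0x10708060782) (nat_lit 0) (p (nat_lit 0x8687858702) (nat_lit 0) (p (nat_lit 0x10607050482) (nat_lit 0) (p (nat_lit 0x8586848402) (nat_lit 0) (p (nat_lit 0x160004) (nat_lit 0) (p (nat_lit 0x50612) (nat_lit 0) (p (nat_lit 0x40592) (nat_lit 0) (p (nat_lit 0x40492) (nat_lit 0) (p (nat_lit 0x30412) (nat_lit 0) (p (nat_lit 0x30212) (nat_lit 0) (p (nat_lit 0x20192) (nat_lit 0) (p (nat_lit 0x20092) (nat_lit 0) (p (nat_lit 0x10012) (nat_lit 0) pn)))))))))))))))))))))))))))) :=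
  Cl.node (nat_lit 0x380c2) (nat_lit 2) (by decide +kernel) (ClAll.succ (ClAll.succ ClAll.zero s505) s506)

def n178 : Cl (O (nat_lit 6)) (R (nat_lit 102673))
    (p (nat_lit 0x4c42a) (nat_lit 10) (p (nat_lit 0xc9) (nat_lit 0) (p (nat_lit 0x89) (nat_lit 1) (p (nat_lit 0x109) (nat_lit 1) (p (nat_lit 0x101) (nat_lit 0) (p (nat_lit 0x119) (nat_lit 0) (p (nat_lit 0xd1) (nat_lit 0) (p (nat_lit 0x81) (nat_lit 0) (p (nat_lit 0x41) (nat_lit 1) (p (nat_lit 0x1098a0b090a9a) (nat_lit 0) (p (nat_lit 0x89098a888a1a) (nat_lit 0) (p (nat_lit 0x108890a08079a) (nat_lit 0) (p (nat_lit 0x88088987871a) (nat_lit 0) (p (nat_lit 0x8000080000000078907088a) (nat_lit 0) (p (nat_lit 0x8000080000000070886860a) (nat_lit 0) (p (nat_lit 0x10708060782) (nat_lit 0) (p (nat_lit 0x8687858702) (nat_lit 0) (p (nat_lit 0x10607050482) (nat_lit 0) (p (nat_lit 0x8586848402) (nat_lit 0) (p (nat_lit 0x160004) (nat_lit 0)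 (p (nat_lit 0x50612) (nat_lit 0) (p (nat_lit 0x40592) (nat_lit 0) (p (nat_lit 0x40492) (nat_lit 0) (p (nat_lit 0x30412) (nat_lit 0) (p (nat_lit 0x30212) (nat_lit 0) (p (nat_lit 0x20192) (nat_lit 0) (p (nat_lit 0x20092) (nat_lit 0) (p (nat_lit 0x10012) (nat_lit 0) pn)))))))))))))))))))))))))))) :=
  Cl.node (nat_lit 0x380c2) (nat_lit 2) (by decide +kernel) (ClAll.succ (ClAll.succ ClAll.zero n142) s535)

def n179 : Cl (O (nat_lit 6)) (R (nat_lit 102673))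
    (p (nat_lit 0xc9) (nat_lit 1) (p (nat_lit 0x111) (nat_lit 0) (p (nat_lit 0x89) (nat_lit 0) (p (nat_lit 0xc1) (nat_lit 0) (p (nat_lit 0x101) (nat_lit 1) (p (nat_lit 0x119) (nat_lit 0) (p (nat_lit 0xd1) (nat_lit 0) (p (nat_lit 0x81) (nat_lit 0) (p (nat_lit 0x41) (nat_lit 1) (p (nat_lit 0x1098a0b090a9a) (nat_lit 0) (p (nat_lit 0x89098a888a1a) (nat_lit 0) (p (nat_lit 0x108890a08079a) (nat_lit 0) (p (nat_lit 0x88088987871a) (nat_lit 0) (p (nat_lit 0x8000080000000078907088a) (nat_lit 0) (p (nat_lit 0x8000080000000070886860a) (nat_lit 0) (p (nat_lit 0x10708060782) (nat_lit 0) (p (nat_lit 0x8687858702) (nat_lit 0) (p (nat_lit 0x10607050482) (nat_lit 0) (p (nat_lit 0x8586848402) (nat_lit 0) (p (nat_lit 0x160004) (nat_lit 0) (p (nat_lit 0x50612) (nat_lit 0) (p (nat_lit 0x40592) (nat_lit 0) (p (nat_lit 0x40492) (nat_lit 0) (p (nat_lit 0x30412) (nat_lit 0) (p (nat_lit 0x30212) (nat_lit 0)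 (p (nat_lit 0x20192) (nat_lit 0) (p (nat_lit 0x20092) (nat_lit 0) (p (nat_lit 0x10012) (nat_lit 0) pn)))))))))))))))))))))))))))) :=
  Cl.node (nat_lit 0x20000c) (nat_lit 2) (by decide +kernel) (ClAll.succ (ClAll.succ ClAll.zero s539) s540)

def n180 : Cl (O (nat_lit 6)) (R (nat_lit 102673))
    (p (nat_lit 0x4c42a) (nat_lit 10) (p (nat_lit 0xc9) (nat_lit 0) (p (nat_lit 0x89) (nat_lit 1) (p (nat_lit 0xc1) (nat_lit 0) (p (nat_lit 0x101) (nat_lit 1) (p (nat_lit 0x119) (nat_lit 0) (p (nat_lit 0xd1) (nat_lit 0) (p (nat_lit 0x81) (nat_lit 0) (p (nat_lit 0x41) (nat_lit 1) (p (nat_lit 0x1098a0b090a9a) (nat_lit 0) (p (nat_lit 0x89098a888a1a) (nat_lit 0) (p (nat_lit 0x108890a08079a) (nat_lit 0) (p (nat_lit 0x88088987871a) (nat_lit 0) (p (nat_lit 0x8000080000000078907088a) (nat_lit 0) (p (nat_lit 0x8000080000000070886860a) (nat_lit 0) (p (nat_lit 0x10708060782) (nat_lit 0) (p (nat_lit 0x8687858702)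 (nat_lit 0) (p (nat_lit 0x10607050482) (nat_lit 0) (p (nat_lit 0x8586848402) (nat_lit 0) (p (nat_lit 0x160004) (nat_lit 0) (p (nat_lit 0x50612) (nat_lit 0) (p (nat_lit 0x40592) (nat_lit 0) (p (nat_lit 0x40492) (nat_lit 0) (p (nat_lit 0x30412) (nat_lit 0) (p (nat_lit 0x30212) (nat_lit 0) (p (nat_lit 0x20192) (nat_lit 0) (p (nat_lit 0x20092) (nat_lit 0) (p (nat_lit 0x10012) (nat_lit 0) pn)))))))))))))))))))))))))))) :=
  Cl.node (nat_lit 0x380c2) (nat_lit 2) (by decide +kernel) (ClAll.succ (ClAll.succ ClAll.zero n143) s558)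

def n181 : Cl (O (nat_lit 6)) (R (nat_lit 102673))
    (p (nat_lit 0x4c42a) (nat_lit 10) (p (nat_lit 0xc9) (nat_lit 1) (p (nat_lit 0x89) (nat_lit 1) (p (nat_lit 0xc1) (nat_lit 0) (p (nat_lit 0x101) (nat_lit 1) (p (nat_lit 0x119) (nat_lit 0) (p (nat_lit 0xd1) (nat_lit 0) (p (nat_lit 0x81) (nat_lit 0) (p (nat_lit 0x41) (nat_lit 1) (p (nat_lit 0x1098a0b090a9a) (nat_lit 0) (p (nat_lit 0x89098a888a1a) (nat_lit 0) (p (nat_lit 0x108890a08079a) (nat_lit 0) (p (nat_lit 0x88088987871a) (nat_lit 0) (p (nat_lit 0x8000080000000078907088a) (nat_lit 0) (p (nat_lit 0x8000080000000070886860a) (nat_lit 0) (p (nat_lit 0x10708060782) (nat_lit 0) (p (nat_lit 0x8687858702) (nat_lit 0) (p (nat_lit 0x10607050482) (nat_lit 0) (p (nat_lit 0x8586848402) (nat_lit 0) (p (nat_lit 0x160004) (nat_lit 0) (p (nat_lit 0x50612) (nat_lit 0) (p (nat_lit 0x40592) (nat_lit 0) (p (nat_lit 0x40492) (nat_lit 0) (p (nat_lit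 0x30412) (nat_lit 0) (p (nat_lit 0x30212) (nat_lit 0) (p (nat_lit 0x20192) (nat_lit 0) (p (nat_lit 0x20092) (nat_lit 0) (p (nat_lit 0x10012) (nat_lit 0) pn)))))))))))))))))))))))))))) :=
  Cl.node (nat_lit 0x380c2) (nat_lit 2) (by decide +kernel) (ClAll.succ (ClAll.succ ClAll.zero s570) s571)

def n182 : Cl (O (nat_lit 6)) (R (nat_lit 102673))
    (p (nat_lit 0x380c2) (nat_lit 0) (p (nat_lit 0x3cc2a) (nat_lit 2) (p (nat_lit 0x89) (nat_lit 0) (p (nat_lit 0xc1) (nat_lit 1) (p (nat_lit 0x101) (nat_lit 1) (p (nat_lit 0x119) (nat_lit 0) (p (nat_lit 0xd1) (nat_lit 0) (p (nat_lit 0x81) (nat_lit 0) (p (nat_lit 0x41) (nat_lit 1) (p (nat_lit 0x1098a0b090a9a) (nat_lit 0) (p (nat_lit 0x89098a888a1a) (nat_lit 0) (p (nat_lit 0x108890a08079a) (nat_lit 0) (p (nat_lit 0x88088987871a) (nat_lit 0) (p (nat_lit 0x8000080000000078907088a) (nat_lit 0) (p (nat_lit 0x8000080000000070886860a) (nat_lit 0)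 (p (nat_lit 0x10708060782) (nat_lit 0) (p (nat_lit 0x8687858702) (nat_lit 0) (p (nat_lit 0x10607050482) (nat_lit 0) (p (nat_lit 0x8586848402) (nat_lit 0) (p (nat_lit 0x160004) (nat_lit 0) (p (nat_lit 0x50612) (nat_lit 0) (p (nat_lit 0x40592) (nat_lit 0) (p (nat_lit 0x40492) (nat_lit 0) (p (nat_lit 0x30412) (nat_lit 0) (p (nat_lit 0x30212) (nat_lit 0) (p (nat_lit 0x20192) (nat_lit 0) (p (nat_lit 0x20092) (nat_lit 0) (p (nat_lit 0x10012) (nat_lit 0) pn)))))))))))))))))))))))))))) :=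
  Cl.node (nat_lit 0x109) (nat_lit 2) (by decide +kernel) (ClAll.succ (ClAll.succ ClAll.zero s575) n144)

def n183 : Cl (O (nat_lit 6)) (R (nat_lit 102673))
    (p (nat_lit 0x380c2) (nat_lit 0) (p (nat_lit 0x3c4aa) (nat_lit 8) (p (nat_lit 0x89) (nat_lit 1) (p (nat_lit 0xc1) (nat_lit 1) (p (nat_lit 0x101) (nat_lit 1) (p (nat_lit 0x119) (nat_lit 0) (p (nat_lit 0xd1) (nat_lit 0) (p (nat_lit 0x81) (nat_lit 0) (p (nat_lit 0x41) (nat_lit 1) (p (nat_lit 0x1098a0b090a9a) (nat_lit 0) (p (nat_lit 0x89098a888a1a) (nat_lit 0) (p (nat_lit 0x108890a08079a) (nat_lit 0) (p (nat_lit 0x88088987871a) (nat_lit 0) (p (nat_lit 0x8000080000000078907088a) (nat_lit 0) (p (nat_lit 0x8000080000000070886860a) (nat_lit 0) (p (nat_lit 0x10708060782) (nat_lit 0) (p (nat_lit 0x8687858702) (nat_lit 0) (p (nat_lit 0x10607050482) (nat_lit 0) (p (nat_lit 0x8586848402) (nat_lit 0) (p (nat_lit 0x160004) (nat_lit 0) (p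 (nat_lit 0x50612) (nat_lit 0) (p (nat_lit 0x40592) (nat_lit 0) (p (nat_lit 0x40492) (nat_lit 0) (p (nat_lit 0x30412) (nat_lit 0) (p (nat_lit 0x30212) (nat_lit 0) (p (nat_lit 0x20192) (nat_lit 0) (p (nat_lit 0x20092) (nat_lit 0) (p (nat_lit 0x10012) (nat_lit 0) pn)))))))))))))))))))))))))))) :=
  Cl.node (nat_lit 0xb0004) (nat_lit 2) (by decide +kernel) (ClAll.succ (ClAll.succ ClAll.zero s596) s597)

def n184 : Cl (O (nat_lit 6)) (R (nat_lit 102673))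
    (p (nat_lit 0x3c4aa) (nat_lit 8) (p (nat_lit 0x109) (nat_lit 1) (p (nat_lit 0x89) (nat_lit 1) (p (nat_lit 0xc9) (nat_lit 1) (p (nat_lit 0xc1) (nat_lit 0) (p (nat_lit 0x119) (nat_lit 1) (p (nat_lit 0xd1) (nat_lit 0) (p (nat_lit 0x81) (nat_lit 0) (p (nat_lit 0x41) (nat_lit 1) (p (nat_lit 0x1098a0b090a9a) (nat_lit 0) (p (nat_lit 0x89098a888a1a) (nat_lit 0) (p (nat_lit 0x108890a08079a) (nat_lit 0) (p (nat_lit 0x88088987871a) (nat_lit 0) (p (nat_lit 0x8000080000000078907088a) (nat_lit 0) (p (nat_lit 0x8000080000000070886860a) (nat_lit 0) (p (nat_lit 0x10708060782) (nat_lit 0) (p (nat_lit 0x8687858702) (nat_lit 0) (p (nat_lit 0x10607050482) (nat_lit 0) (p (nat_lit 0x8586848402) (nat_lit 0) (p (nat_lit 0x160004) (nat_lit 0) (p (nat_lit 0x50612) (nat_lit 0) (p (nat_lit 0x40592) (nat_lit 0) (p (nat_lit 0x40492) (nat_lit 0) (p (nat_lit 0x30412) (nat_lit 0) (p (nat_lit 0x30212) (nat_lit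 0) (p (nat_lit 0x20192) (nat_lit 0) (p (nat_lit 0x20092) (nat_lit 0) (p (nat_lit 0x10012) (nat_lit 0) pn)))))))))))))))))))))))))))) :=
  Cl.node (nat_lit 0x380c2) (nat_lit 2) (by decide +kernel) (ClAll.succ (ClAll.succ ClAll.zero n145) s626)

def n185 : Cl (O (nat_lit 6)) (R (nat_lit 102673))
    (p (nat_lit 0x111) (nat_lit 0) (p (nat_lit 0x109) (nat_lit 0) (p (nat_lit 0x89) (nat_lit 1) (p (nat_lit 0x101) (nat_lit 0) (p (nat_lit 0xc1) (nat_lit 1) (p (nat_lit 0x119) (nat_lit 1) (p (nat_lit 0xd1) (nat_lit 0) (p (nat_lit 0x81) (nat_lit 0) (p (nat_lit 0x41) (nat_lit 1) (p (nat_lit 0x1098a0b090a9a) (nat_lit 0) (p (nat_lit 0x89098a888a1a) (nat_lit 0) (p (nat_lit 0x108890a08079a) (nat_lit 0) (p (nat_lit 0x88088987871a) (nat_lit 0) (p (nat_lit 0x8000080000000078907088a) (nat_lit 0) (p (nat_lit 0x8000080000000070886860a) (nat_lit 0) (p (nat_lit 0x10708060782) (nat_lit 0) (p (nat_lit 0x8687858702)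 (nat_lit 0) (p (nat_lit 0x10607050482) (nat_lit 0) (p (nat_lit 0x8586848402) (nat_lit 0) (p (nat_lit 0x160004) (nat_lit 0) (p (nat_lit 0x50612) (nat_lit 0) (p (nat_lit 0x40592) (nat_lit 0) (p (nat_lit 0x40492) (nat_lit 0) (p (nat_lit 0x30412) (nat_lit 0) (p (nat_lit 0x30212) (nat_lit 0) (p (nat_lit 0x20192) (nat_lit 0) (p (nat_lit 0x20092) (nat_lit 0) (p (nat_lit 0x10012) (nat_lit 0) pn)))))))))))))))))))))))))))) :=
  Cl.node (nat_lit 0x20000c) (nat_lit 2) (by decide +kernel) (ClAll.succ (ClAll.succ ClAll.zero s631) s632)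

def n186 : Cl (O (nat_lit 6)) (R (nat_lit 102673))
    (p (nat_lit 0x111) (nat_lit 1) (p (nat_lit 0x109) (nat_lit 0) (p (nat_lit 0x89) (nat_lit 1) (p (nat_lit 0x101) (nat_lit 0) (p (nat_lit 0xc1) (nat_lit 1) (p (nat_lit 0x119) (nat_lit 1) (p (nat_lit 0xd1) (nat_lit 0) (p (nat_lit 0x81) (nat_lit 0) (p (nat_lit 0x41) (nat_lit 1) (p (nat_lit 0x1098a0b090a9a) (nat_lit 0) (p (nat_lit 0x89098a888a1a) (nat_lit 0) (p (nat_lit 0x108890a08079a) (nat_lit 0) (p (nat_lit 0x88088987871a) (nat_lit 0) (p (nat_lit 0x8000080000000078907088a) (nat_lit 0) (p (nat_lit 0x8000080000000070886860a) (nat_lit 0) (p (nat_lit 0x10708060782) (nat_lit 0) (p (nat_lit 0x8687858702) (nat_lit 0) (p (nat_lit 0x10607050482) (nat_lit 0) (p (nat_lit 0x8586848402) (nat_lit 0) (p (nat_lit 0x160004) (nat_lit 0) (p (nat_lit 0x50612) (nat_lit 0) (p (nat_lit 0x40592) (nat_lit 0) (p (nat_lit 0x40492) (nat_lit 0) (p (nat_lit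 0x30412) (nat_lit 0) (p (nat_lit 0x30212) (nat_lit 0) (p (nat_lit 0x20192) (nat_lit 0) (p (nat_lit 0x20092) (nat_lit 0) (p (nat_lit 0x10012) (nat_lit 0) pn)))))))))))))))))))))))))))) :=
  Cl.node (nat_lit 0x44c2a) (nat_lit 12) (by decide +kernel) (ClAll.succ (ClAll.succ (ClAll.succ (ClAll.succ (ClAll.succ (ClAll.succ (ClAll.succ (ClAll.succ (ClAll.succ (ClAll.succ (ClAll.succ (ClAll.succ ClAll.zero s633) s634) s635) s636) s637) s638) s639) s640) s641) s642) s643) s644)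

def n187 : Cl (O (nat_lit 6)) (R (nat_lit 102673))
    (p (nat_lit 0x3c4aa) (nat_lit 8) (p (nat_lit 0x109) (nat_lit 1) (p (nat_lit 0x89) (nat_lit 1) (p (nat_lit 0x101) (nat_lit 0) (p (nat_lit 0xc1) (nat_lit 1) (p (nat_lit 0x119) (nat_lit 1) (p (nat_lit 0xd1) (nat_lit 0) (p (nat_lit 0x81) (nat_lit 0) (p (nat_lit 0x41) (nat_lit 1) (p (nat_lit 0x1098a0b090a9a) (nat_lit 0) (p (nat_lit 0x89098a888a1a) (nat_lit 0) (p (nat_lit 0x108890a08079a) (nat_lit 0) (p (nat_lit 0x88088987871a) (nat_lit 0) (p (nat_lit 0x8000080000000078907088a) (nat_lit 0) (p (nat_lit 0x8000080000000070886860a) (nat_lit 0) (p (nat_lit 0x10708060782) (nat_lit 0) (p (nat_lit 0x8687858702) (nat_lit 0) (p (nat_lit 0x10607050482) (nat_lit 0) (p (nat_lit 0x8586848402) (nat_lit 0) (p (nat_lit 0x160004) (nat_lit 0) (p (nat_lit 0x50612) (nat_lit 0) (p (nat_lit 0x40592) (nat_lit 0) (p (nat_lit 0x40492) (nat_lit 0) (p (nat_lit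 0x30412) (nat_lit 0) (p (nat_lit 0x30212) (nat_lit 0) (p (nat_lit 0x20192) (nat_lit 0) (p (nat_lit 0x20092) (nat_lit 0) (p (nat_lit 0x10012) (nat_lit 0) pn)))))))))))))))))))))))))))) :=
  Cl.node (nat_lit 0x380c2) (nat_lit 2) (by decide +kernel) (ClAll.succ (ClAll.succ ClAll.zero n146) s656)

def n188 : Cl (O (nat_lit 6)) (R (nat_lit 102673))
    (p (nat_lit 0x380c2) (nat_lit 0) (p (nat_lit 0x3c4aa) (nat_lit 8) (p (nat_lit 0x89) (nat_lit 1) (p (nat_lit 0x101) (nat_lit 1) (p (nat_lit 0xc1) (nat_lit 1) (p (nat_lit 0x119) (nat_lit 1) (p (nat_lit 0xd1) (nat_lit 0) (p (nat_lit 0x81) (nat_lit 0) (p (nat_lit 0x41) (nat_lit 1) (p (nat_lit 0x1098a0b090a9a) (nat_lit 0) (p (nat_lit 0x89098a888a1a) (nat_lit 0) (p (nat_lit 0x108890a08079a) (nat_lit 0) (p (nat_lit 0x88088987871a) (nat_lit 0) (p (nat_lit 0x8000080000000078907088a) (nat_lit 0) (p (nat_lit 0x8000080000000070886860a) (nat_lit 0)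 (p (nat_lit 0x10708060782) (nat_lit 0) (p (nat_lit 0x8687858702) (nat_lit 0) (p (nat_lit 0x10607050482) (nat_lit 0) (p (nat_lit 0x8586848402) (nat_lit 0) (p (nat_lit 0x160004) (nat_lit 0) (p (nat_lit 0x50612) (nat_lit 0) (p (nat_lit 0x40592) (nat_lit 0) (p (nat_lit 0x40492) (nat_lit 0) (p (nat_lit 0x30412) (nat_lit 0) (p (nat_lit 0x30212) (nat_lit 0) (p (nat_lit 0x20192) (nat_lit 0) (p (nat_lit 0x20092) (nat_lit 0) (p (nat_lit 0x10012) (nat_lit 0) pn)))))))))))))))))))))))))))) :=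
  Cl.node (nat_lit 0xb0004) (nat_lit 2) (by decide +kernel) (ClAll.succ (ClAll.succ ClAll.zero s669) s670)

def n189 : Cl (O (nat_lit 6)) (R (nat_lit 102673))
    (p (nat_lit 0x119) (nat_lit 0) (p (nat_lit 0xc9) (nat_lit 0) (p (nat_lit 0x89) (nat_lit 1) (p (nat_lit 0x109) (nat_lit 1) (p (nat_lit 0x101) (nat_lit 0) (p (nat_lit 0x111) (nat_lit 0) (p (nat_lit 0xd1) (nat_lit 1) (p (nat_lit 0x81) (nat_lit 0) (p (nat_lit 0x41) (nat_lit 1) (p (nat_lit 0x1098a0b090a9a) (nat_lit 0) (p (nat_lit 0x89098a888a1a) (nat_lit 0) (p (nat_lit 0x108890a08079a) (nat_lit 0) (p (nat_lit 0x88088987871a) (nat_lit 0) (p (nat_lit 0x8000080000000078907088a) (nat_lit 0) (p (nat_lit 0x8000080000000070886860a) (nat_lit 0) (p (nat_lit 0x10708060782) (nat_lit 0) (p (nat_lit 0x8687858702) (nat_lit 0) (p (nat_lit 0x10607050482) (nat_lit 0) (p (nat_lit 0x8586848402) (nat_lit 0) (p (nat_lit 0x160004) (nat_lit 0) (p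 (nat_lit 0x50612) (nat_lit 0) (p (nat_lit 0x40592) (nat_lit 0) (p (nat_lit 0x40492) (nat_lit 0) (p (nat_lit 0x30412) (nat_lit 0) (p (nat_lit 0x30212) (nat_lit 0) (p (nat_lit 0x20192) (nat_lit 0) (p (nat_lit 0x20092) (nat_lit 0) (p (nat_lit 0x10012) (nat_lit 0) pn)))))))))))))))))))))))))))) :=
  Cl.node (nat_lit 0x4c42a) (nat_lit 12) (by decide +kernel) (ClAll.succ (ClAll.succ (ClAll.succ (ClAll.succ (ClAll.succ (ClAll.succ (ClAll.succ (ClAll.succ (ClAll.succ (ClAll.succ (ClAll.succ (ClAll.succ ClAll.zero s677) s678) s679) s680) s681) s682) s683) s684) s685) s686) n147) s689)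

def n190 : Cl (O (nat_lit 6)) (R (nat_lit 102673))
    (p (nat_lit 0x119) (nat_lit 1) (p (nat_lit 0xc9) (nat_lit 0) (p (nat_lit 0x89) (nat_lit 1) (p (nat_lit 0x109) (nat_lit 1) (p (nat_lit 0x101) (nat_lit 0) (p (nat_lit 0x111) (nat_lit 0) (p (nat_lit 0xd1) (nat_lit 1) (p (nat_lit 0x81) (nat_lit 0) (p (nat_lit 0x41) (nat_lit 1) (p (nat_lit 0x1098a0b090a9a) (nat_lit 0) (p (nat_lit 0x89098a888a1a) (nat_lit 0) (p (nat_lit 0x108890a08079a) (nat_lit 0) (p (nat_lit 0x88088987871a) (nat_lit 0) (p (nat_lit 0x8000080000000078907088a) (nat_lit 0) (p (nat_lit 0x8000080000000070886860a) (nat_lit 0) (p (nat_lit 0x10708060782) (nat_lit 0) (p (nat_lit 0x8687858702) (nat_lit 0) (p (nat_lit 0x10607050482) (nat_lit 0) (p (nat_lit 0x8586848402) (nat_lit 0) (p (nat_lit 0x160004) (nat_lit 0) (p (nat_lit 0x50612) (nat_lit 0) (p (nat_lit 0x40592) (nat_lit 0) (p (nat_lit 0x40492) (nat_lit 0) (p (nat_lit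 0x30412) (nat_lit 0) (p (nat_lit 0x30212) (nat_lit 0) (p (nat_lit 0x20192) (nat_lit 0) (p (nat_lit 0x20092) (nat_lit 0) (p (nat_lit 0x10012) (nat_lit 0) pn)))))))))))))))))))))))))))) :=
  Cl.node (nat_lit 0xc1) (nat_lit 2) (by decide +kernel) (ClAll.succ (ClAll.succ ClAll.zero n148) n149)

def n191 : Cl (O (nat_lit 6)) (R (nat_lit 102673))
    (p (nat_lit 0x380c2) (nat_lit 0) (p (nat_lit 0x3cc2a) (nat_lit 1) (p (nat_lit 0xc9) (nat_lit 0) (p (nat_lit 0x89) (nat_lit 1) (p (nat_lit 0x101) (nat_lit 1) (p (nat_lit 0x111) (nat_lit 0) (p (nat_lit 0xd1) (nat_lit 1) (p (nat_lit 0x81) (nat_lit 0) (p (nat_lit 0x41) (nat_lit 1) (p (nat_lit 0x1098a0b090a9a) (nat_lit 0) (p (nat_lit 0x89098a888a1a) (nat_lit 0) (p (nat_lit 0x108890a08079a) (nat_lit 0) (p (nat_lit 0x88088987871a) (nat_lit 0) (p (nat_lit 0x8000080000000078907088a) (nat_lit 0) (p (nat_lit 0x8000080000000070886860a) (nat_lit 0) (p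 (nat_lit 0x10708060782) (nat_lit 0) (p (nat_lit 0x8687858702) (nat_lit 0) (p (nat_lit 0x10607050482) (nat_lit 0) (p (nat_lit 0x8586848402) (nat_lit 0) (p (nat_lit 0x160004) (nat_lit 0) (p (nat_lit 0x50612) (nat_lit 0) (p (nat_lit 0x40592) (nat_lit 0) (p (nat_lit 0x40492) (nat_lit 0) (p (nat_lit 0x30412) (nat_lit 0) (p (nat_lit 0x30212) (nat_lit 0) (p (nat_lit 0x20192) (nat_lit 0) (p (nat_lit 0x20092) (nat_lit 0) (p (nat_lit 0x10012) (nat_lit 0) pn)))))))))))))))))))))))))))) :=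
  Cl.node (nat_lit 0xb0004) (nat_lit 2) (by decide +kernel) (ClAll.succ (ClAll.succ ClAll.zero s737) s738)

def n192 : Cl (O (nat_lit 6)) (R (nat_lit 102673))
    (p (nat_lit 0x380c2) (nat_lit 0) (p (nat_lit 0x3cc2a) (nat_lit 2) (p (nat_lit 0xc9) (nat_lit 0) (p (nat_lit 0x89) (nat_lit 1) (p (nat_lit 0x101) (nat_lit 1) (p (nat_lit 0x111) (nat_lit 0) (p (nat_lit 0xd1) (nat_lit 1) (p (nat_lit 0x81) (nat_lit 0) (p (nat_lit 0x41) (nat_lit 1) (p (nat_lit 0x1098a0b090a9a) (nat_lit 0) (p (nat_lit 0x89098a888a1a) (nat_lit 0) (p (nat_lit 0x108890a08079a) (nat_lit 0) (p (nat_lit 0x88088987871a) (nat_lit 0) (p (nat_lit 0x8000080000000078907088a) (nat_lit 0) (p (nat_lit 0x8000080000000070886860a) (nat_lit 0) (p (nat_lit 0x10708060782) (nat_lit 0) (p (nat_lit 0x8687858702) (nat_lit 0) (p (nat_lit 0x10607050482) (nat_lit 0) (p (nat_lit 0x8586848402) (nat_lit 0) (p (nat_lit 0x160004) (nat_lit 0)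 (p (nat_lit 0x50612) (nat_lit 0) (p (nat_lit 0x40592) (nat_lit 0) (p (nat_lit 0x40492) (nat_lit 0) (p (nat_lit 0x30412) (nat_lit 0) (p (nat_lit 0x30212) (nat_lit 0) (p (nat_lit 0x20192) (nat_lit 0) (p (nat_lit 0x20092) (nat_lit 0) (p (nat_lit 0x10012) (nat_lit 0) pn)))))))))))))))))))))))))))) :=
  Cl.node (nat_lit 0x200014) (nat_lit 2) (by decide +kernel) (ClAll.succ (ClAll.succ ClAll.zero n150) s746)

def n193 : Cl (O (nat_lit 6)) (R (nat_lit 102673))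
    (p (nat_lit 0x380c2) (nat_lit 0) (p (nat_lit 0x3cc2a) (nat_lit 2) (p (nat_lit 0x109) (nat_lit 0) (p (nat_lit 0xc9) (nat_lit 1) (p (nat_lit 0x89) (nat_lit 1) (p (nat_lit 0x111) (nat_lit 1) (p (nat_lit 0xd1) (nat_lit 1) (p (nat_lit 0x81) (nat_lit 0) (p (nat_lit 0x41) (nat_lit 1) (p (nat_lit 0x1098a0b090a9a) (nat_lit 0) (p (nat_lit 0x89098a888a1a) (nat_lit 0) (p (nat_lit 0x108890a08079a) (nat_lit 0) (p (nat_lit 0x88088987871a) (nat_lit 0) (p (nat_lit 0x8000080000000078907088a) (nat_lit 0) (p (nat_lit 0x8000080000000070886860a) (nat_lit 0) (p (nat_lit 0x10708060782) (nat_lit 0) (p (nat_lit 0x8687858702) (nat_lit 0) (p (nat_lit 0x10607050482) (nat_lit 0) (p (nat_lit 0x8586848402) (nat_lit 0) (p (nat_lit 0x160004) (nat_lit 0) (p (nat_lit 0x50612) (nat_lit 0) (p (nat_lit 0x40592) (nat_lit 0) (p (nat_lit 0x40492) (nat_lit 0) (p (nat_lit 0x30412) (nat_lit 0) (p (nat_lit 0x30212) (nat_lit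 0) (p (nat_lit 0x20192) (nat_lit 0) (p (nat_lit 0x20092) (nat_lit 0) (p (nat_lit 0x10012) (nat_lit 0) pn)))))))))))))))))))))))))))) :=
  Cl.node (nat_lit 0x41) (nat_lit 2) (by decide +kernel) (ClAll.succ (ClAll.succ ClAll.zero n151) s763)

def n194 : Cl (O (nat_lit 6)) (R (nat_lit 102673))
    (p (nat_lit 0x3c4aa) (nat_lit 7) (p (nat_lit 0xd1) (nat_lit 1) (p (nat_lit 0x111) (nat_lit 1) (p (nat_lit 0x109) (nat_lit 0) (p (nat_lit 0x101) (nat_lit 0) (p (nat_lit 0x119) (nat_lit 0) (p (nat_lit 0xc1) (nat_lit 0) (p (nat_lit 0x81) (nat_lit 1) (p (nat_lit 0x41) (nat_lit 1) (p (nat_lit 0x1098a0b090a9a) (nat_lit 0) (p (nat_lit 0x89098a888a1a) (nat_lit 0) (p (nat_lit 0x108890a08079a) (nat_lit 0) (p (nat_lit 0x88088987871a) (nat_lit 0) (p (nat_lit 0x8000080000000078907088a) (nat_lit 0) (p (nat_lit 0x8000080000000070886860a) (nat_lit 0) (p (nat_lit 0x10708060782) (nat_lit 0) (p (nat_lit 0x8687858702)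 (nat_lit 0) (p (nat_lit 0x10607050482) (nat_lit 0) (p (nat_lit 0x8586848402) (nat_lit 0) (p (nat_lit 0x160004) (nat_lit 0) (p (nat_lit 0x50612) (nat_lit 0) (p (nat_lit 0x40592) (nat_lit 0) (p (nat_lit 0x40492) (nat_lit 0) (p (nat_lit 0x30412) (nat_lit 0) (p (nat_lit 0x30212) (nat_lit 0) (p (nat_lit 0x20192) (nat_lit 0) (p (nat_lit 0x20092) (nat_lit 0) (p (nat_lit 0x10012) (nat_lit 0) pn)))))))))))))))))))))))))))) :=
  Cl.node (nat_lit 0x380c2) (nat_lit 2) (by decide +kernel) (ClAll.succ (ClAll.succ ClAll.zero n152) s786)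

def n195 : Cl (O (nat_lit 6)) (R (nat_lit 102673))
    (p (nat_lit 0x3c4aa) (nat_lit 8) (p (nat_lit 0xd1) (nat_lit 1) (p (nat_lit 0x111) (nat_lit 1) (p (nat_lit 0x109) (nat_lit 0) (p (nat_lit 0x101) (nat_lit 0) (p (nat_lit 0x119) (nat_lit 0) (p (nat_lit 0xc1) (nat_lit 0) (p (nat_lit 0x81) (nat_lit 1) (p (nat_lit 0x41) (nat_lit 1) (p (nat_lit 0x1098a0b090a9a) (nat_lit 0) (p (nat_lit 0x89098a888a1a) (nat_lit 0) (p (nat_lit 0x108890a08079a) (nat_lit 0) (p (nat_lit 0x88088987871a) (nat_lit 0) (p (nat_lit 0x8000080000000078907088a) (nat_lit 0) (p (nat_lit 0x8000080000000070886860a) (nat_lit 0) (p (nat_lit 0x10708060782) (nat_lit 0) (p (nat_lit 0x8687858702) (nat_lit 0) (p (nat_lit 0x10607050482) (nat_lit 0) (p (nat_lit 0x8586848402) (nat_lit 0) (p (nat_lit 0x160004) (nat_lit 0) (p (nat_lit 0x50612) (nat_lit 0) (p (nat_lit 0x40592) (nat_lit 0) (p (nat_lit 0x40492) (nat_lit 0) (p (nat_lit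 0x30412) (nat_lit 0) (p (nat_lit 0x30212) (nat_lit 0) (p (nat_lit 0x20192) (nat_lit 0) (p (nat_lit 0x20092) (nat_lit 0) (p (nat_lit 0x10012) (nat_lit 0) pn)))))))))))))))))))))))))))) :=
  Cl.node (nat_lit 0x380c2) (nat_lit 2) (by decide +kernel) (ClAll.succ (ClAll.succ ClAll.zero s787) s788)

def n196 : Cl (O (nat_lit 6)) (R (nat_lit 102673))
    (p (nat_lit 0x3c4aa) (nat_lit 8) (p (nat_lit 0xd1) (nat_lit 1) (p (nat_lit 0xc9) (nat_lit 0) (p (nat_lit 0x109) (nat_lit 1) (p (nat_lit 0x101) (nat_lit 0) (p (nat_lit 0x119) (nat_lit 0) (p (nat_lit 0xc1) (nat_lit 0) (p (nat_lit 0x81) (nat_lit 1) (p (nat_lit 0x41) (nat_lit 1) (p (nat_lit 0x1098a0b090a9a) (nat_lit 0) (p (nat_lit 0x89098a888a1a) (nat_lit 0) (p (nat_lit 0x108890a08079a) (nat_lit 0) (p (nat_lit 0x88088987871a) (nat_lit 0) (p (nat_lit 0x8000080000000078907088a) (nat_lit 0) (p (nat_lit 0x8000080000000070886860a) (nat_lit 0) (p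 (nat_lit 0x10708060782) (nat_lit 0) (p (nat_lit 0x8687858702) (nat_lit 0) (p (nat_lit 0x10607050482) (nat_lit 0) (p (nat_lit 0x8586848402) (nat_lit 0) (p (nat_lit 0x160004) (nat_lit 0) (p (nat_lit 0x50612) (nat_lit 0) (p (nat_lit 0x40592) (nat_lit 0) (p (nat_lit 0x40492) (nat_lit 0) (p (nat_lit 0x30412) (nat_lit 0) (p (nat_lit 0x30212) (nat_lit 0) (p (nat_lit 0x20192) (nat_lit 0) (p (nat_lit 0x20092) (nat_lit 0) (p (nat_lit 0x10012) (nat_lit 0) pn)))))))))))))))))))))))))))) :=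
  Cl.node (nat_lit 0x380c2) (nat_lit 2) (by decide +kernel) (ClAll.succ (ClAll.succ ClAll.zero s801) s802)

def n197 : Cl (O (nat_lit 6)) (R (nat_lit 102673))
    (p (nat_lit 0x380c2) (nat_lit 0) (p (nat_lit 0x44c2a) (nat_lit 0) (p (nat_lit 0xd1) (nat_lit 0) (p (nat_lit 0xc9) (nat_lit 0) (p (nat_lit 0x101) (nat_lit 1) (p (nat_lit 0x119) (nat_lit 0) (p (nat_lit 0xc1) (nat_lit 0) (p (nat_lit 0x81) (nat_lit 1) (p (nat_lit 0x41) (nat_lit 1) (p (nat_lit 0x1098a0b090a9a) (nat_lit 0) (p (nat_lit 0x89098a888a1a) (nat_lit 0) (p (nat_lit 0x108890a08079a) (nat_lit 0) (p (nat_lit 0x88088987871a) (nat_lit 0) (p (nat_lit 0x8000080000000078907088a) (nat_lit 0) (p (nat_lit 0x8000080000000070886860a) (nat_lit 0) (p (nat_lit 0x10708060782) (nat_lit 0) (p (nat_lit 0x8687858702) (nat_lit 0) (p (nat_lit 0x10607050482) (nat_lit 0) (p (nat_lit 0x8586848402) (nat_lit 0) (p (nat_lit 0x160004) (nat_lit 0)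 (p (nat_lit 0x50612) (nat_lit 0) (p (nat_lit 0x40592) (nat_lit 0) (p (nat_lit 0x40492) (nat_lit 0) (p (nat_lit 0x30412) (nat_lit 0) (p (nat_lit 0x30212) (nat_lit 0) (p (nat_lit 0x20192) (nat_lit 0) (p (nat_lit 0x20092) (nat_lit 0) (p (nat_lit 0x10012) (nat_lit 0) pn)))))))))))))))))))))))))))) :=
  Cl.node (nat_lit 0xc9) (nat_lit 2) (by decide +kernel) (ClAll.succ (ClAll.succ ClAll.zero s807) s808)

def n198 : Cl (O (nat_lit 6)) (R (nat_lit 102673))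
    (p (nat_lit 0x380c2) (nat_lit 0) (p (nat_lit 0x44c2a) (nat_lit 1) (p (nat_lit 0xd1) (nat_lit 0) (p (nat_lit 0xc9) (nat_lit 0) (p (nat_lit 0x101) (nat_lit 1) (p (nat_lit 0x119) (nat_lit 0) (p (nat_lit 0xc1) (nat_lit 0) (p (nat_lit 0x81) (nat_lit 1) (p (nat_lit 0x41) (nat_lit 1) (p (nat_lit 0x1098a0b090a9a) (nat_lit 0) (p (nat_lit 0x89098a888a1a) (nat_lit 0) (p (nat_lit 0x108890a08079a) (nat_lit 0) (p (nat_lit 0x88088987871a) (nat_lit 0) (p (nat_lit 0x8000080000000078907088a) (nat_lit 0) (p (nat_lit 0x8000080000000070886860a) (nat_lit 0) (p (nat_lit 0x10708060782) (nat_lit 0) (p (nat_lit 0x8687858702) (nat_lit 0) (p (nat_lit 0x10607050482) (nat_lit 0) (p (nat_lit 0x8586848402) (nat_lit 0) (p (nat_lit 0x160004) (nat_lit 0) (p (nat_lit 0x50612) (nat_lit 0) (p (nat_lit 0x40592) (nat_lit 0) (p (nat_lit 0x40492) (nat_lit 0) (p (nat_lit 0x30412) (nat_lit 0) (p (nat_lit 0x30212) (nat_lit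 0) (p (nat_lit 0x20192) (nat_lit 0) (p (nat_lit 0x20092) (nat_lit 0) (p (nat_lit 0x10012) (nat_lit 0) pn)))))))))))))))))))))))))))) :=
  Cl.node (nat_lit 0xb0004) (nat_lit 2) (by decide +kernel) (ClAll.succ (ClAll.succ ClAll.zero s810) s811)

def n199 : Cl (O (nat_lit 6)) (R (nat_lit 102673))
    (p (nat_lit 0x81) (nat_lit 0) (p (nat_lit 0xc9) (nat_lit 1) (p (nat_lit 0x109) (nat_lit 1) (p (nat_lit 0x101) (nat_lit 0) (p (nat_lit 0x119) (nat_lit 0) (p (nat_lit 0xd1) (nat_lit 0) (p (nat_lit 0x89) (nat_lit 0) (p (nat_lit 0x41) (nat_lit 0) (p (nat_lit 0x1098a0b090a9a) (nat_lit 0) (p (nat_lit 0x89098a888a1a) (nat_lit 0) (p (nat_lit 0x108890a08079a) (nat_lit 0) (p (nat_lit 0x88088987871a) (nat_lit 0) (p (nat_lit 0x8000080000000078907088a) (nat_lit 0) (p (nat_lit 0x8000080000000070886860a) (nat_lit 0) (p (nat_lit 0x10708060782) (nat_lit 0) (p (nat_lit 0x8687858702) (nat_lit 0) (p (nat_lit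 0x10607050482) (nat_lit 0) (p (nat_lit 0x8586848402) (nat_lit 0) (p (nat_lit 0x160004) (nat_lit 0) (p (nat_lit 0x50612) (nat_lit 0) (p (nat_lit 0x40592) (nat_lit 0) (p (nat_lit 0x40492) (nat_lit 0) (p (nat_lit 0x30412) (nat_lit 0) (p (nat_lit 0x30212) (nat_lit 0) (p (nat_lit 0x20192) (nat_lit 0) (p (nat_lit 0x20092) (nat_lit 0) (p (nat_lit 0x10012) (nat_lit 0) pn))))))))))))))))))))))))))) :=
  Cl.node (nat_lit 0x3cc2a) (nat_lit 12) (by decide +kernel) (ClAll.succ (ClAll.succ (ClAll.succ (ClAll.succ (ClAll.succ (ClAll.succ (ClAll.succ (ClAll.succ (ClAll.succ (ClAll.succ (ClAll.succ (ClAll.succ ClAll.zero s2) s3) s4) s5) s6) s7) s8) s9) s10) s11) s12) s13)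

def n200 : Cl (O (nat_lit 6)) (R (nat_lit 102673))
    (p (nat_lit 0x81) (nat_lit 1) (p (nat_lit 0xc9) (nat_lit 1) (p (nat_lit 0x109) (nat_lit 1) (p (nat_lit 0x101) (nat_lit 0) (p (nat_lit 0x119) (nat_lit 0) (p (nat_lit 0xd1) (nat_lit 0) (p (nat_lit 0x89) (nat_lit 0) (p (nat_lit 0x41) (nat_lit 0) (p (nat_lit 0x1098a0b090a9a) (nat_lit 0) (p (nat_lit 0x89098a888a1a) (nat_lit 0) (p (nat_lit 0x108890a08079a) (nat_lit 0) (p (nat_lit 0x88088987871a) (nat_lit 0) (p (nat_lit 0x8000080000000078907088a) (nat_lit 0) (p (nat_lit 0x8000080000000070886860a) (nat_lit 0) (p (nat_lit 0x10708060782) (nat_lit 0) (p (nat_lit 0x8687858702) (nat_lit 0) (p (nat_lit 0x10607050482) (nat_lit 0) (p (nat_lit 0x8586848402) (nat_lit 0) (p (nat_lit 0x160004) (nat_lit 0) (p (nat_lit 0x50612) (nat_lit 0) (p (nat_lit 0x40592) (nat_lit 0) (p (nat_lit 0x40492) (nat_lit 0) (p (nat_lit 0x30412) (nat_lit 0) (p (nat_lit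 0x30212) (nat_lit 0) (p (nat_lit 0x20192) (nat_lit 0) (p (nat_lit 0x20092) (nat_lit 0) (p (nat_lit 0x10012) (nat_lit 0) pn))))))))))))))))))))))))))) :=
  Cl.node (nat_lit 0x444aa) (nat_lit 12) (by decide +kernel) (ClAll.succ (ClAll.succ (ClAll.succ (ClAll.succ (ClAll.succ (ClAll.succ (ClAll.succ (ClAll.succ (ClAll.succ (ClAll.succ (ClAll.succ (ClAll.succ ClAll.zero s14) s15) s16) s17) s18) s19) s20) n153) s50) s51) s52) s53)

def n201 : Cl (O (nat_lit 6)) (R (nat_lit 102673))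
    (p (nat_lit 0x111) (nat_lit 0) (p (nat_lit 0xc9) (nat_lit 0) (p (nat_lit 0x81) (nat_lit 0) (p (nat_lit 0x101) (nat_lit 1) (p (nat_lit 0x119) (nat_lit 0) (p (nat_lit 0xd1) (nat_lit 0) (p (nat_lit 0x89) (nat_lit 0) (p (nat_lit 0x41) (nat_lit 0) (p (nat_lit 0x1098a0b090a9a) (nat_lit 0) (p (nat_lit 0x89098a888a1a) (nat_lit 0) (p (nat_lit 0x108890a08079a) (nat_lit 0) (p (nat_lit 0x88088987871a) (nat_lit 0) (p (nat_lit 0x8000080000000078907088a) (nat_lit 0) (p (nat_lit 0x8000080000000070886860a) (nat_lit 0) (p (nat_lit 0x10708060782) (nat_lit 0) (p (nat_lit 0x8687858702) (nat_lit 0) (p (nat_lit 0x10607050482) (nat_lit 0) (p (nat_lit 0x8586848402) (nat_lit 0) (p (nat_lit 0x160004) (nat_lit 0) (p (nat_lit 0x50612) (nat_lit 0) (p (nat_lit 0x40592) (nat_lit 0) (p (nat_lit 0x40492) (nat_lit 0) (p (nat_lit 0x30412) (nat_lit 0) (p (nat_lit 0x30212) (nat_lit 0) (p (nat_lit 0x20192) (nat_lit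 0) (p (nat_lit 0x20092) (nat_lit 0) (p (nat_lit 0x10012) (nat_lit 0) pn))))))))))))))))))))))))))) :=
  Cl.node (nat_lit 0x4c42a) (nat_lit 12) (by decide +kernel) (ClAll.succ (ClAll.succ (ClAll.succ (ClAll.succ (ClAll.succ (ClAll.succ (ClAll.succ (ClAll.succ (ClAll.succ (ClAll.succ (ClAll.succ (ClAll.succ ClAll.zero s54) s55) s56) s57) s58) s59) s60) s61) s62) s63) s64) s65)

def n202 : Cl (O (nat_lit 6)) (R (nat_lit 102673))
    (p (nat_lit 0x111) (nat_lit 0) (p (nat_lit 0xc9) (nat_lit 1) (p (nat_lit 0x81) (nat_lit 0) (p (nat_lit 0x101) (nat_lit 1) (p (nat_lit 0x119) (nat_lit 0) (p (nat_lit 0xd1) (nat_lit 0) (p (nat_lit 0x89) (nat_lit 0) (p (nat_lit 0x41) (nat_lit 0) (p (nat_lit 0x1098a0b090a9a) (nat_lit 0) (p (nat_lit 0x89098a888a1a) (nat_lit 0) (p (nat_lit 0x108890a08079a) (nat_lit 0) (p (nat_lit 0x88088987871a) (nat_lit 0) (p (nat_lit 0x8000080000000078907088a) (nat_lit 0) (p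 (nat_lit 0x8000080000000070886860a) (nat_lit 0) (p (nat_lit 0x10708060782) (nat_lit 0) (p (nat_lit 0x8687858702) (nat_lit 0) (p (nat_lit 0x10607050482) (nat_lit 0) (p (nat_lit 0x8586848402) (nat_lit 0) (p (nat_lit 0x160004) (nat_lit 0) (p (nat_lit 0x50612) (nat_lit 0) (p (nat_lit 0x40592) (nat_lit 0) (p (nat_lit 0x40492) (nat_lit 0) (p (nat_lit 0x30412) (nat_lit 0) (p (nat_lit 0x30212) (nat_lit 0) (p (nat_lit 0x20192) (nat_lit 0) (p (nat_lit 0x20092) (nat_lit 0) (p (nat_lit 0x10012) (nat_lit 0) pn))))))))))))))))))))))))))) :=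
  Cl.node (nat_lit 0x444aa) (nat_lit 12) (by decide +kernel) (ClAll.succ (ClAll.succ (ClAll.succ (ClAll.succ (ClAll.succ (ClAll.succ (ClAll.succ (ClAll.succ (ClAll.succ (ClAll.succ (ClAll.succ (ClAll.succ ClAll.zero s67) s68) s69) s70) s71) s72) s73) n154) s82) s83) s84) s85)

def n203 : Cl (O (nat_lit 6)) (R (nat_lit 102673))
    (p (nat_lit 0x111) (nat_lit 1) (p (nat_lit 0xc9) (nat_lit 1) (p (nat_lit 0x81) (nat_lit 0) (p (nat_lit 0x101) (nat_lit 1) (p (nat_lit 0x119) (nat_lit 0) (p (nat_lit 0xd1) (nat_lit 0) (p (nat_lit 0x89) (nat_lit 0) (p (nat_lit 0x41) (nat_lit 0) (p (nat_lit 0x1098a0b090a9a) (nat_lit 0) (p (nat_lit 0x89098a888a1a) (nat_lit 0) (p (nat_lit 0x108890a08079a) (nat_lit 0) (p (nat_lit 0x88088987871a) (nat_lit 0) (p (nat_lit 0x8000080000000078907088a) (nat_lit 0) (p (nat_lit 0x8000080000000070886860a) (nat_lit 0) (p (nat_lit 0x10708060782) (nat_lit 0) (p (nat_lit 0x8687858702)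 (nat_lit 0) (p (nat_lit 0x10607050482) (nat_lit 0) (p (nat_lit 0x8586848402) (nat_lit 0) (p (nat_lit 0x160004) (nat_lit 0) (p (nat_lit 0x50612) (nat_lit 0) (p (nat_lit 0x40592) (nat_lit 0) (p (nat_lit 0x40492) (nat_lit 0) (p (nat_lit 0x30412) (nat_lit 0) (p (nat_lit 0x30212) (nat_lit 0) (p (nat_lit 0x20192) (nat_lit 0) (p (nat_lit 0x20092) (nat_lit 0) (p (nat_lit 0x10012) (nat_lit 0) pn))))))))))))))))))))))))))) :=
  Cl.node (nat_lit 0x3cc2a) (nat_lit 12) (by decide +kernel) (ClAll.succ (ClAll.succ (ClAll.succ (ClAll.succ (ClAll.succ (ClAll.succ (ClAll.succ (ClAll.succ (ClAll.succ (ClAll.succ (ClAll.succ (ClAll.succ ClAll.zero s86) s87) s88) s89) s90) s91) s92) s93) s94) s95) s96) s97)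

def n204 : Cl (O (nat_lit 6)) (R (nat_lit 102673))
    (p (nat_lit 0xc9) (nat_lit 0) (p (nat_lit 0xc1) (nat_lit 0) (p (nat_lit 0x81) (nat_lit 1) (p (nat_lit 0x101) (nat_lit 1) (p (nat_lit 0x119) (nat_lit 0) (p (nat_lit 0xd1) (nat_lit 0) (p (nat_lit 0x89) (nat_lit 0) (p (nat_lit 0x41) (nat_lit 0) (p (nat_lit 0x1098a0b090a9a) (nat_lit 0) (p (nat_lit 0x89098a888a1a) (nat_lit 0) (p (nat_lit 0x108890a08079a) (nat_lit 0) (p (nat_lit 0x88088987871a) (nat_lit 0) (p (nat_lit 0x8000080000000078907088a) (nat_lit 0) (p (nat_lit 0x8000080000000070886860a) (nat_lit 0) (p (nat_lit 0x10708060782) (nat_lit 0) (p (nat_lit 0x8687858702) (nat_lit 0) (p (nat_lit 0x10607050482) (nat_lit 0) (p (nat_lit 0x8586848402) (nat_lit 0) (p (nat_lit 0x160004) (nat_lit 0) (p (nat_lit 0x50612) (nat_lit 0) (p (nat_lit 0x40592) (nat_lit 0) (p (nat_lit 0x40492) (nat_lit 0) (p (nat_lit 0x30412) (nat_lit 0) (p (nat_lit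 0x30212) (nat_lit 0) (p (nat_lit 0x20192) (nat_lit 0) (p (nat_lit 0x20092) (nat_lit 0) (p (nat_lit 0x10012) (nat_lit 0) pn))))))))))))))))))))))))))) :=
  Cl.node (nat_lit 0x4c42a) (nat_lit 12) (by decide +kernel) (ClAll.succ (ClAll.succ (ClAll.succ (ClAll.succ (ClAll.succ (ClAll.succ (ClAll.succ (ClAll.succ (ClAll.succ (ClAll.succ (ClAll.succ (ClAll.succ ClAll.zero s98) s99) s100) s101) s102) s103) s104) s105) s106) s107) s108) s109)

def n205 : Cl (O (nat_lit 6)) (R (nat_lit 102673))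
    (p (nat_lit 0xc9) (nat_lit 1) (p (nat_lit 0xc1) (nat_lit 0) (p (nat_lit 0x81) (nat_lit 1) (p (nat_lit 0x101) (nat_lit 1) (p (nat_lit 0x119) (nat_lit 0) (p (nat_lit 0xd1) (nat_lit 0) (p (nat_lit 0x89) (nat_lit 0) (p (nat_lit 0x41) (nat_lit 0) (p (nat_lit 0x1098a0b090a9a) (nat_lit 0) (p (nat_lit 0x89098a888a1a) (nat_lit 0) (p (nat_lit 0x108890a08079a) (nat_lit 0) (p (nat_lit 0x88088987871a) (nat_lit 0) (p (nat_lit 0x8000080000000078907088a) (nat_lit 0) (p (nat_lit 0x8000080000000070886860a) (nat_lit 0) (p (nat_lit 0x10708060782) (nat_lit 0) (p (nat_lit 0x8687858702) (nat_lit 0) (p (nat_lit 0x10607050482) (nat_lit 0) (p (nat_lit 0x8586848402) (nat_lit 0) (p (nat_lit 0x160004) (nat_lit 0) (p (nat_lit 0x50612) (nat_lit 0) (p (nat_lit 0x40592) (nat_lit 0) (p (nat_lit 0x40492) (nat_lit 0) (p (nat_lit 0x30412) (nat_lit 0) (p (nat_lit 0x30212) (nat_lit 0) (p (nat_lit 0x20192) (nat_lit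 0) (p (nat_lit 0x20092) (nat_lit 0) (p (nat_lit 0x10012) (nat_lit 0) pn))))))))))))))))))))))))))) :=
  Cl.node (nat_lit 0x109) (nat_lit 2) (by decide +kernel) (ClAll.succ (ClAll.succ ClAll.zero n155) n156)

def n206 : Cl (O (nat_lit 6)) (R (nat_lit 102673))
    (p (nat_lit 0x3cc2a) (nat_lit 2) (p (nat_lit 0x109) (nat_lit 1) (p (nat_lit 0xc9) (nat_lit 1) (p (nat_lit 0xc1) (nat_lit 0) (p (nat_lit 0x119) (nat_lit 1) (p (nat_lit 0xd1) (nat_lit 0) (p (nat_lit 0x89) (nat_lit 0) (p (nat_lit 0x41) (nat_lit 0) (p (nat_lit 0x1098a0b090a9a) (nat_lit 0) (p (nat_lit 0x89098a888a1a) (nat_lit 0) (p (nat_lit 0x108890a08079a) (nat_lit 0) (p (nat_lit 0x88088987871a) (nat_lit 0) (p (nat_lit 0x8000080000000078907088a) (nat_lit 0) (p (nat_lit 0x8000080000000070886860a) (nat_lit 0) (p (nat_lit 0x10708060782) (nat_lit 0) (p (nat_lit 0x8687858702) (nat_lit 0) (p (nat_lit 0x10607050482) (nat_lit 0) (p (nat_lit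 0x8586848402) (nat_lit 0) (p (nat_lit 0x160004) (nat_lit 0) (p (nat_lit 0x50612) (nat_lit 0) (p (nat_lit 0x40592) (nat_lit 0) (p (nat_lit 0x40492) (nat_lit 0) (p (nat_lit 0x30412) (nat_lit 0) (p (nat_lit 0x30212) (nat_lit 0) (p (nat_lit 0x20192) (nat_lit 0) (p (nat_lit 0x20092) (nat_lit 0) (p (nat_lit 0x10012) (nat_lit 0) pn))))))))))))))))))))))))))) :=
  Cl.node (nat_lit 0x380c2) (nat_lit 1) (by decide +kernel) (ClAll.succ ClAll.zero n157)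

def n207 : Cl (O (nat_lit 6)) (R (nat_lit 102673))
    (p (nat_lit 0x3cc2a) (nat_lit 2) (p (nat_lit 0x109) (nat_lit 1) (p (nat_lit 0x81) (nat_lit 0) (p (nat_lit 0xc1) (nat_lit 1) (p (nat_lit 0x119) (nat_lit 1) (p (nat_lit 0xd1) (nat_lit 0) (p (nat_lit 0x89) (nat_lit 0) (p (nat_lit 0x41) (nat_lit 0) (p (nat_lit 0x1098a0b090a9a) (nat_lit 0) (p (nat_lit 0x89098a888a1a) (nat_lit 0) (p (nat_lit 0x108890a08079a) (nat_lit 0) (p (nat_lit 0x88088987871a) (nat_lit 0) (p (nat_lit 0x8000080000000078907088a) (nat_lit 0) (p (nat_lit 0x8000080000000070886860a) (nat_lit 0) (p (nat_lit 0x10708060782) (nat_lit 0) (p (nat_lit 0x8687858702) (nat_lit 0) (p (nat_lit 0x10607050482) (nat_lit 0) (p (nat_lit 0x8586848402) (nat_lit 0) (p (nat_lit 0x160004) (nat_lit 0) (p (nat_lit 0x50612) (nat_lit 0) (p (nat_lit 0x40592) (nat_lit 0) (p (nat_lit 0x40492) (nat_lit 0) (p (nat_lit 0x30412) (nat_lit 0) (p (nat_lit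 0x30212) (nat_lit 0) (p (nat_lit 0x20192) (nat_lit 0) (p (nat_lit 0x20092) (nat_lit 0) (p (nat_lit 0x10012) (nat_lit 0) pn))))))))))))))))))))))))))) :=
  Cl.node (nat_lit 0x380c2) (nat_lit 1) (by decide +kernel) (ClAll.succ ClAll.zero n158)

def n208 : Cl (O (nat_lit 6)) (R (nat_lit 102673))
    (p (nat_lit 0x109) (nat_lit 0) (p (nat_lit 0x101) (nat_lit 0) (p (nat_lit 0x81) (nat_lit 1) (p (nat_lit 0xc1) (nat_lit 1) (p (nat_lit 0x119) (nat_lit 1) (p (nat_lit 0xd1) (nat_lit 0) (p (nat_lit 0x89) (nat_lit 0) (p (nat_lit 0x41) (nat_lit 0) (p (nat_lit 0x1098a0b090a9a) (nat_lit 0) (p (nat_lit 0x89098a888a1a) (nat_lit 0) (p (nat_lit 0x108890a08079a) (nat_lit 0) (p (nat_lit 0x88088987871a) (nat_lit 0) (p (nat_lit 0x8000080000000078907088a) (nat_lit 0) (p (nat_lit 0x8000080000000070886860a) (nat_lit 0) (p (nat_lit 0x10708060782) (nat_lit 0) (p (nat_lit 0x8687858702) (nat_lit 0) (p (nat_lit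 0x10607050482) (nat_lit 0) (p (nat_lit 0x8586848402) (nat_lit 0) (p (nat_lit 0x160004) (nat_lit 0) (p (nat_lit 0x50612) (nat_lit 0) (p (nat_lit 0x40592) (nat_lit 0) (p (nat_lit 0x40492) (nat_lit 0) (p (nat_lit 0x30412) (nat_lit 0) (p (nat_lit 0x30212) (nat_lit 0) (p (nat_lit 0x20192) (nat_lit 0) (p (nat_lit 0x20092) (nat_lit 0) (p (nat_lit 0x10012) (nat_lit 0) pn))))))))))))))))))))))))))) :=
  Cl.node (nat_lit 0x44c2a) (nat_lit 12) (by decide +kernel) (ClAll.succ (ClAll.succ (ClAll.succ (ClAll.succ (ClAll.succ (ClAll.succ (ClAll.succ (ClAll.succ (ClAll.succ (ClAll.succ (ClAll.succ (ClAll.succ ClAll.zero s163) n159) s166) s167) s168) s169) s170) s171) s172) s173) s174) s175)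

def n209 : Cl (O (nat_lit 6)) (R (nat_lit 102673))
    (p (nat_lit 0x109) (nat_lit 1) (p (nat_lit 0x101) (nat_lit 0) (p (nat_lit 0x81) (nat_lit 1) (p (nat_lit 0xc1) (nat_lit 1) (p (nat_lit 0x119) (nat_lit 1) (p (nat_lit 0xd1) (nat_lit 0) (p (nat_lit 0x89) (nat_lit 0) (p (nat_lit 0x41) (nat_lit 0) (p (nat_lit 0x1098a0b090a9a) (nat_lit 0) (p (nat_lit 0x89098a888a1a) (nat_lit 0) (p (nat_lit 0x108890a08079a) (nat_lit 0) (p (nat_lit 0x88088987871a) (nat_lit 0) (p (nat_lit 0x8000080000000078907088a) (nat_lit 0) (p (nat_lit 0x8000080000000070886860a) (nat_lit 0) (p (nat_lit 0x10708060782) (nat_lit 0) (p (nat_lit 0x8687858702) (nat_lit 0) (p (nat_lit 0x10607050482) (nat_lit 0) (p (nat_lit 0x8586848402) (nat_lit 0) (p (nat_lit 0x160004) (nat_lit 0) (p (nat_lit 0x50612) (nat_lit 0) (p (nat_lit 0x40592) (nat_lit 0) (p (nat_lit 0x40492) (nat_lit 0) (p (nat_lit 0x30412) (nat_lit 0) (p (nat_lit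 0x30212) (nat_lit 0) (p (nat_lit 0x20192) (nat_lit 0) (p (nat_lit 0x20092) (nat_lit 0) (p (nat_lit 0x10012) (nat_lit 0) pn))))))))))))))))))))))))))) :=
  Cl.node (nat_lit 0x444aa) (nat_lit 12) (by decide +kernel) (ClAll.succ (ClAll.succ (ClAll.succ (ClAll.succ (ClAll.succ (ClAll.succ (ClAll.succ (ClAll.succ (ClAll.succ (ClAll.succ (ClAll.succ (ClAll.succ ClAll.zero s176) s177) s178) s179) s180) s181) s182) n160) s187) s188) s189) s190)

def n210 : Cl (O (nat_lit 6)) (R (nat_lit 102673))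
    (p (nat_lit 0x20000c) (nat_lit 0) (p (nat_lit 0xc1) (nat_lit 1) (p (nat_lit 0x109) (nat_lit 1) (p (nat_lit 0x101) (nat_lit 0) (p (nat_lit 0x111) (nat_lit 0) (p (nat_lit 0xd1) (nat_lit 1) (p (nat_lit 0x89) (nat_lit 0) (p (nat_lit 0x41) (nat_lit 0) (p (nat_lit 0x1098a0b090a9a) (nat_lit 0) (p (nat_lit 0x89098a888a1a) (nat_lit 0) (p (nat_lit 0x108890a08079a) (nat_lit 0) (p (nat_lit 0x88088987871a) (nat_lit 0) (p (nat_lit 0x8000080000000078907088a) (nat_lit 0) (p (nat_lit 0x8000080000000070886860a) (nat_lit 0) (p (nat_lit 0x10708060782) (nat_lit 0) (p (nat_lit 0x8687858702) (nat_lit 0) (p (nat_lit 0x10607050482) (nat_lit 0) (p (nat_lit 0x8586848402) (nat_lit 0) (p (nat_lit 0x160004) (nat_lit 0) (p (nat_lit 0x50612) (nat_lit 0) (p (nat_lit 0x40592) (nat_lit 0) (p (nat_lit 0x40492) (nat_lit 0) (p (nat_lit 0x30412) (nat_lit 0) (p (nat_lit 0x30212) (nat_lit 0) (p (nat_lit 0x20192) (nat_lit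 0) (p (nat_lit 0x20092) (nat_lit 0) (p (nat_lit 0x10012) (nat_lit 0) pn))))))))))))))))))))))))))) :=
  Cl.node (nat_lit 0x200014) (nat_lit 2) (by decide +kernel) (ClAll.succ (ClAll.succ ClAll.zero n161) s219)

def n211 : Cl (O (nat_lit 6)) (R (nat_lit 102673))
    (p (nat_lit 0x20000c) (nat_lit 0) (p (nat_lit 0x119) (nat_lit 0) (p (nat_lit 0x81) (nat_lit 0) (p (nat_lit 0x101) (nat_lit 1) (p (nat_lit 0x111) (nat_lit 0) (p (nat_lit 0xd1) (nat_lit 1) (p (nat_lit 0x89) (nat_lit 0) (p (nat_lit 0x41) (nat_lit 0) (p (nat_lit 0x1098a0b090a9a) (nat_lit 0) (p (nat_lit 0x89098a888a1a) (nat_lit 0) (p (nat_lit 0x108890a08079a) (nat_lit 0) (p (nat_lit 0x88088987871a) (nat_lit 0) (p (nat_lit 0x8000080000000078907088a) (nat_lit 0) (p (nat_lit 0x8000080000000070886860a) (nat_lit 0) (p (nat_lit 0x10708060782) (nat_lit 0) (p (nat_lit 0x8687858702) (nat_lit 0) (p (nat_lit 0x10607050482) (nat_lit 0)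 (p (nat_lit 0x8586848402) (nat_lit 0) (p (nat_lit 0x160004) (nat_lit 0) (p (nat_lit 0x50612) (nat_lit 0) (p (nat_lit 0x40592) (nat_lit 0) (p (nat_lit 0x40492) (nat_lit 0) (p (nat_lit 0x30412) (nat_lit 0) (p (nat_lit 0x30212) (nat_lit 0) (p (nat_lit 0x20192) (nat_lit 0) (p (nat_lit 0x20092) (nat_lit 0) (p (nat_lit 0x10012) (nat_lit 0) pn))))))))))))))))))))))))))) :=
  Cl.node (nat_lit 0x200014) (nat_lit 2) (by decide +kernel) (ClAll.succ (ClAll.succ ClAll.zero n162) s234)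

def n212 : Cl (O (nat_lit 6)) (R (nat_lit 102673))
    (p (nat_lit 0x119) (nat_lit 0) (p (nat_lit 0xc1) (nat_lit 0) (p (nat_lit 0x81) (nat_lit 1) (p (nat_lit 0x101) (nat_lit 1) (p (nat_lit 0x111) (nat_lit 0) (p (nat_lit 0xd1) (nat_lit 1) (p (nat_lit 0x89) (nat_lit 0) (p (nat_lit 0x41) (nat_lit 0) (p (nat_lit 0x1098a0b090a9a) (nat_lit 0) (p (nat_lit 0x89098a888a1a) (nat_lit 0) (p (nat_lit 0x108890a08079a) (nat_lit 0) (p (nat_lit 0x88088987871a) (nat_lit 0) (p (nat_lit 0x8000080000000078907088a) (nat_lit 0) (p (nat_lit 0x8000080000000070886860a) (nat_lit 0) (p (nat_lit 0x10708060782) (nat_lit 0) (p (nat_lit 0x8687858702) (nat_lit 0) (p (nat_lit 0x10607050482) (nat_lit 0) (p (nat_lit 0x8586848402) (nat_lit 0) (p (nat_lit 0x160004) (nat_lit 0) (p (nat_lit 0x50612) (nat_lit 0) (p (nat_lit 0x40592) (nat_lit 0) (p (nat_lit 0x40492) (nat_lit 0) (p (nat_lit 0x30412) (nat_lit 0) (p (nat_lit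 0x30212) (nat_lit 0) (p (nat_lit 0x20192) (nat_lit 0) (p (nat_lit 0x20092) (nat_lit 0) (p (nat_lit 0x10012) (nat_lit 0) pn))))))))))))))))))))))))))) :=
  Cl.node (nat_lit 0x444aa) (nat_lit 12) (by decide +kernel) (ClAll.succ (ClAll.succ (ClAll.succ (ClAll.succ (ClAll.succ (ClAll.succ (ClAll.succ (ClAll.succ (ClAll.succ (ClAll.succ (ClAll.succ (ClAll.succ ClAll.zero s248) s249) s250) s251) s252) s253) s254) n163) s257) s258) s259) s260)

def n213 : Cl (O (nat_lit 6)) (R (nat_lit 102673))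
    (p (nat_lit 0x119) (nat_lit 1) (p (nat_lit 0xc1) (nat_lit 0) (p (nat_lit 0x81) (nat_lit 1) (p (nat_lit 0x101) (nat_lit 1) (p (nat_lit 0x111) (nat_lit 0) (p (nat_lit 0xd1) (nat_lit 1) (p (nat_lit 0x89) (nat_lit 0) (p (nat_lit 0x41) (nat_lit 0) (p (nat_lit 0x1098a0b090a9a) (nat_lit 0) (p (nat_lit 0x89098a888a1a) (nat_lit 0) (p (nat_lit 0x108890a08079a) (nat_lit 0) (p (nat_lit 0x88088987871a) (nat_lit 0) (p (nat_lit 0x8000080000000078907088a) (nat_lit 0) (p (nat_lit 0x8000080000000070886860a) (nat_lit 0) (p (nat_lit 0x10708060782) (nat_lit 0) (p (nat_lit 0x8687858702) (nat_lit 0) (p (nat_lit 0x10607050482) (nat_lit 0) (p (nat_lit 0x8586848402) (nat_lit 0) (p (nat_lit 0x160004) (nat_lit 0) (p (nat_lit 0x50612) (nat_lit 0) (p (nat_lit 0x40592) (nat_lit 0) (p (nat_lit 0x40492) (nat_lit 0) (p (nat_lit 0x30412) (nat_lit 0) (p (nat_lit 0x30212) (nat_lit 0) (p (nat_lit 0x20192) (nat_lit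 0) (p (nat_lit 0x20092) (nat_lit 0) (p (nat_lit 0x10012) (nat_lit 0) pn))))))))))))))))))))))))))) :=
  Cl.node (nat_lit 0x3cc2a) (nat_lit 12) (by decide +kernel) (ClAll.succ (ClAll.succ (ClAll.succ (ClAll.succ (ClAll.succ (ClAll.succ (ClAll.succ (ClAll.succ (ClAll.succ (ClAll.succ (ClAll.succ (ClAll.succ ClAll.zero s261) s262) n164) s265) s266) s267) s268) s269) s270) s271) s272) s273)

def n214 : Cl (O (nat_lit 6)) (R (nat_lit 102673))
    (p (nat_lit 0xd1) (nat_lit 1) (p (nat_lit 0x111) (nat_lit 1) (p (nat_lit 0x109) (nat_lit 0) (p (nat_lit 0x101) (nat_lit 0) (p (nat_lit 0x119) (nat_lit 0) (p (nat_lit 0xc9) (nat_lit 0) (p (nat_lit 0x89) (nat_lit 1) (p (nat_lit 0x41) (nat_lit 0) (p (nat_lit 0x1098a0b090a9a) (nat_lit 0) (p (nat_lit 0x89098a888a1a) (nat_lit 0) (p (nat_lit 0x108890a08079a) (nat_lit 0) (p (nat_lit 0x88088987871a) (nat_lit 0) (p (nat_lit 0x8000080000000078907088a) (nat_lit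 0) (p (nat_lit 0x8000080000000070886860a) (nat_lit 0) (p (nat_lit 0x10708060782) (nat_lit 0) (p (nat_lit 0x8687858702) (nat_lit 0) (p (nat_lit 0x10607050482) (nat_lit 0) (p (nat_lit 0x8586848402) (nat_lit 0) (p (nat_lit 0x160004) (nat_lit 0) (p (nat_lit 0x50612) (nat_lit 0) (p (nat_lit 0x40592) (nat_lit 0) (p (nat_lit 0x40492) (nat_lit 0) (p (nat_lit 0x30412) (nat_lit 0) (p (nat_lit 0x30212) (nat_lit 0) (p (nat_lit 0x20192) (nat_lit 0) (p (nat_lit 0x20092) (nat_lit 0) (p (nat_lit 0x10012) (nat_lit 0) pn))))))))))))))))))))))))))) :=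
  Cl.node (nat_lit 0x444aa) (nat_lit 12) (by decide +kernel) (ClAll.succ (ClAll.succ (ClAll.succ (ClAll.succ (ClAll.succ (ClAll.succ (ClAll.succ (ClAll.succ (ClAll.succ (ClAll.succ (ClAll.succ (ClAll.succ ClAll.zero s292) s293) s294) s295) s296) s297) s298) n165) s316) s317) s318) s319)

def n215 : Cl (O (nat_lit 6)) (R (nat_lit 102673))
    (p (nat_lit 0x20000c) (nat_lit 0) (p (nat_lit 0xd1) (nat_lit 0) (p (nat_lit 0x109) (nat_lit 1) (p (nat_lit 0x101) (nat_lit 0) (p (nat_lit 0x119) (nat_lit 0) (p (nat_lit 0xc9) (nat_lit 0) (p (nat_lit 0x89) (nat_lit 1) (p (nat_lit 0x41) (nat_lit 0) (p (nat_lit 0x1098a0b090a9a) (nat_lit 0) (p (nat_lit 0x89098a888a1a) (nat_lit 0) (p (nat_lit 0x108890a08079a) (nat_lit 0) (p (nat_lit 0x88088987871a) (nat_lit 0) (p (nat_lit 0x8000080000000078907088a) (nat_lit 0) (p (nat_lit 0x8000080000000070886860a) (nat_lit 0) (p (nat_lit 0x10708060782) (nat_lit 0)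 (p (nat_lit 0x8687858702) (nat_lit 0) (p (nat_lit 0x10607050482) (nat_lit 0) (p (nat_lit 0x8586848402) (nat_lit 0) (p (nat_lit 0x160004) (nat_lit 0) (p (nat_lit 0x50612) (nat_lit 0) (p (nat_lit 0x40592) (nat_lit 0) (p (nat_lit 0x40492) (nat_lit 0) (p (nat_lit 0x30412) (nat_lit 0) (p (nat_lit 0x30212) (nat_lit 0) (p (nat_lit 0x20192) (nat_lit 0) (p (nat_lit 0x20092) (nat_lit 0) (p (nat_lit 0x10012) (nat_lit 0) pn))))))))))))))))))))))))))) :=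
  Cl.node (nat_lit 0x200014) (nat_lit 2) (by decide +kernel) (ClAll.succ (ClAll.succ ClAll.zero n166) s334)

def n216 : Cl (O (nat_lit 6)) (R (nat_lit 102673))
    (p (nat_lit 0x444aa) (nat_lit 7) (p (nat_lit 0xd1) (nat_lit 1) (p (nat_lit 0x109) (nat_lit 1) (p (nat_lit 0x101) (nat_lit 0) (p (nat_lit 0x119) (nat_lit 0) (p (nat_lit 0xc9) (nat_lit 0) (p (nat_lit 0x89) (nat_lit 1) (p (nat_lit 0x41) (nat_lit 0) (p (nat_lit 0x1098a0b090a9a) (nat_lit 0) (p (nat_lit 0x89098a888a1a) (nat_lit 0) (p (nat_lit 0x108890a08079a) (nat_lit 0) (p (nat_lit 0x88088987871a) (nat_lit 0) (p (nat_lit 0x8000080000000078907088a) (nat_lit 0) (p (nat_lit 0x8000080000000070886860a) (nat_lit 0) (p (nat_lit 0x10708060782) (nat_lit 0) (p (nat_lit 0x8687858702) (nat_lit 0) (p (nat_lit 0x10607050482) (nat_lit 0) (p (nat_lit 0x8586848402) (nat_lit 0) (p (nat_lit 0x160004) (nat_lit 0) (p (nat_lit 0x50612) (nat_lit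 0) (p (nat_lit 0x40592) (nat_lit 0) (p (nat_lit 0x40492) (nat_lit 0) (p (nat_lit 0x30412) (nat_lit 0) (p (nat_lit 0x30212) (nat_lit 0) (p (nat_lit 0x20192) (nat_lit 0) (p (nat_lit 0x20092) (nat_lit 0) (p (nat_lit 0x10012) (nat_lit 0) pn))))))))))))))))))))))))))) :=
  Cl.node (nat_lit 0x380c2) (nat_lit 2) (by decide +kernel) (ClAll.succ (ClAll.succ ClAll.zero n167) n168)

def n217 : Cl (O (nat_lit 6)) (R (nat_lit 102673))
    (p (nat_lit 0x20000c) (nat_lit 0) (p (nat_lit 0xd1) (nat_lit 0) (p (nat_lit 0xc1) (nat_lit 0) (p (nat_lit 0x101) (nat_lit 1) (p (nat_lit 0x119) (nat_lit 0) (p (nat_lit 0xc9) (nat_lit 0) (p (nat_lit 0x89) (nat_lit 1) (p (nat_lit 0x41) (nat_lit 0) (p (nat_lit 0x1098a0b090a9a) (nat_lit 0) (p (nat_lit 0x89098a888a1a) (nat_lit 0) (p (nat_lit 0x108890a08079a) (nat_lit 0) (p (nat_lit 0x88088987871a) (nat_lit 0) (p (nat_lit 0x8000080000000078907088a) (nat_lit 0) (p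 (nat_lit 0x8000080000000070886860a) (nat_lit 0) (p (nat_lit 0x10708060782) (nat_lit 0) (p (nat_lit 0x8687858702) (nat_lit 0) (p (nat_lit 0x10607050482) (nat_lit 0) (p (nat_lit 0x8586848402) (nat_lit 0) (p (nat_lit 0x160004) (nat_lit 0) (p (nat_lit 0x50612) (nat_lit 0) (p (nat_lit 0x40592) (nat_lit 0) (p (nat_lit 0x40492) (nat_lit 0) (p (nat_lit 0x30412) (nat_lit 0) (p (nat_lit 0x30212) (nat_lit 0) (p (nat_lit 0x20192) (nat_lit 0) (p (nat_lit 0x20092) (nat_lit 0) (p (nat_lit 0x10012) (nat_lit 0) pn))))))))))))))))))))))))))) :=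
  Cl.node (nat_lit 0x200014) (nat_lit 2) (by decide +kernel) (ClAll.succ (ClAll.succ ClAll.zero n169) s381)

def n218 : Cl (O (nat_lit 6)) (R (nat_lit 102673))
    (p (nat_lit 0x109) (nat_lit 0) (p (nat_lit 0xd1) (nat_lit 1) (p (nat_lit 0xc1) (nat_lit 0) (p (nat_lit 0x101) (nat_lit 1) (p (nat_lit 0x119) (nat_lit 0) (p (nat_lit 0xc9) (nat_lit 0) (p (nat_lit 0x89) (nat_lit 1) (p (nat_lit 0x41) (nat_lit 0) (p (nat_lit 0x1098a0b090a9a) (nat_lit 0) (p (nat_lit 0x89098a888a1a) (nat_lit 0) (p (nat_lit 0x108890a08079a) (nat_lit 0) (p (nat_lit 0x88088987871a) (nat_lit 0) (p (nat_lit 0x8000080000000078907088a) (nat_lit 0) (p (nat_lit 0x8000080000000070886860a) (nat_lit 0) (p (nat_lit 0x10708060782) (nat_lit 0) (p (nat_lit 0x8687858702) (nat_lit 0) (p (nat_lit 0x10607050482) (nat_lit 0) (p (nat_lit 0x8586848402) (nat_lit 0) (p (nat_lit 0x160004) (nat_lit 0) (p (nat_lit 0x50612) (nat_lit 0)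 (p (nat_lit 0x40592) (nat_lit 0) (p (nat_lit 0x40492) (nat_lit 0) (p (nat_lit 0x30412) (nat_lit 0) (p (nat_lit 0x30212) (nat_lit 0) (p (nat_lit 0x20192) (nat_lit 0) (p (nat_lit 0x20092) (nat_lit 0) (p (nat_lit 0x10012) (nat_lit 0) pn))))))))))))))))))))))))))) :=
  Cl.node (nat_lit 0x111) (nat_lit 2) (by decide +kernel) (ClAll.succ (ClAll.succ ClAll.zero s383) n170)

def n219 : Cl (O (nat_lit 6)) (R (nat_lit 102673))
    (p (nat_lit 0x109) (nat_lit 1) (p (nat_lit 0xd1) (nat_lit 1) (p (nat_lit 0xc1) (nat_lit 0) (p (nat_lit 0x101) (nat_lit 1) (p (nat_lit 0x119) (nat_lit 0) (p (nat_lit 0xc9) (nat_lit 0) (p (nat_lit 0x89) (nat_lit 1) (p (nat_lit 0x41) (nat_lit 0) (p (nat_lit 0x1098a0b090a9a) (nat_lit 0) (p (nat_lit 0x89098a888a1a) (nat_lit 0) (p (nat_lit 0x108890a08079a) (nat_lit 0) (p (nat_lit 0x88088987871a) (nat_lit 0) (p (nat_lit 0x8000080000000078907088a) (nat_lit 0) (p (nat_lit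 0x8000080000000070886860a) (nat_lit 0) (p (nat_lit 0x10708060782) (nat_lit 0) (p (nat_lit 0x8687858702) (nat_lit 0) (p (nat_lit 0x10607050482) (nat_lit 0) (p (nat_lit 0x8586848402) (nat_lit 0) (p (nat_lit 0x160004) (nat_lit 0) (p (nat_lit 0x50612) (nat_lit 0) (p (nat_lit 0x40592) (nat_lit 0) (p (nat_lit 0x40492) (nat_lit 0) (p (nat_lit 0x30412) (nat_lit 0) (p (nat_lit 0x30212) (nat_lit 0) (p (nat_lit 0x20192) (nat_lit 0) (p (nat_lit 0x20092) (nat_lit 0) (p (nat_lit 0x10012) (nat_lit 0) pn))))))))))))))))))))))))))) :=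
  Cl.node (nat_lit 0x81) (nat_lit 2) (by decide +kernel) (ClAll.succ (ClAll.succ ClAll.zero n171) s393)

def n220 : Cl (O (nat_lit 6)) (R (nat_lit 102673))
    (p (nat_lit 0x444aa) (nat_lit 7) (p (nat_lit 0x111) (nat_lit 1) (p (nat_lit 0xd1) (nat_lit 1) (p (nat_lit 0xc1) (nat_lit 0) (p (nat_lit 0x119) (nat_lit 1) (p (nat_lit 0xc9) (nat_lit 0) (p (nat_lit 0x89) (nat_lit 1) (p (nat_lit 0x41) (nat_lit 0) (p (nat_lit 0x1098a0b090a9a) (nat_lit 0) (p (nat_lit 0x89098a888a1a) (nat_lit 0) (p (nat_lit 0x108890a08079a) (nat_lit 0) (p (nat_lit 0x88088987871a) (nat_lit 0) (p (nat_lit 0x8000080000000078907088a) (nat_lit 0) (p (nat_lit 0x8000080000000070886860a) (nat_lit 0) (p (nat_lit 0x10708060782) (nat_lit 0) (p (nat_lit 0x8687858702) (nat_lit 0) (p (nat_lit 0x10607050482) (nat_lit 0) (p (nat_lit 0x8586848402) (nat_lit 0) (p (nat_lit 0x160004) (nat_lit 0) (p (nat_lit 0x50612) (nat_lit 0) (p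 (nat_lit 0x40592) (nat_lit 0) (p (nat_lit 0x40492) (nat_lit 0) (p (nat_lit 0x30412) (nat_lit 0) (p (nat_lit 0x30212) (nat_lit 0) (p (nat_lit 0x20192) (nat_lit 0) (p (nat_lit 0x20092) (nat_lit 0) (p (nat_lit 0x10012) (nat_lit 0) pn))))))))))))))))))))))))))) :=
  Cl.node (nat_lit 0x380c2) (nat_lit 2) (by decide +kernel) (ClAll.succ (ClAll.succ ClAll.zero s404) n172)

def n221 : Cl (O (nat_lit 6)) (R (nat_lit 102673))
    (p (nat_lit 0x444aa) (nat_lit 7) (p (nat_lit 0x111) (nat_lit 1) (p (nat_lit 0x101) (nat_lit 0) (p (nat_lit 0xc1) (nat_lit 1) (p (nat_lit 0x119) (nat_lit 1) (p (nat_lit 0xc9) (nat_lit 0) (p (nat_lit 0x89) (nat_lit 1) (p (nat_lit 0x41) (nat_lit 0) (p (nat_lit 0x1098a0b090a9a) (nat_lit 0) (p (nat_lit 0x89098a888a1a) (nat_lit 0) (p (nat_lit 0x108890a08079a) (nat_lit 0) (p (nat_lit 0x88088987871a) (nat_lit 0) (p (nat_lit 0x8000080000000078907088a) (nat_lit 0) (p (nat_lit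 0x8000080000000070886860a) (nat_lit 0) (p (nat_lit 0x10708060782) (nat_lit 0) (p (nat_lit 0x8687858702) (nat_lit 0) (p (nat_lit 0x10607050482) (nat_lit 0) (p (nat_lit 0x8586848402) (nat_lit 0) (p (nat_lit 0x160004) (nat_lit 0) (p (nat_lit 0x50612) (nat_lit 0) (p (nat_lit 0x40592) (nat_lit 0) (p (nat_lit 0x40492) (nat_lit 0) (p (nat_lit 0x30412) (nat_lit 0) (p (nat_lit 0x30212) (nat_lit 0) (p (nat_lit 0x20192) (nat_lit 0) (p (nat_lit 0x20092) (nat_lit 0) (p (nat_lit 0x10012) (nat_lit 0) pn))))))))))))))))))))))))))) :=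
  Cl.node (nat_lit 0x380c2) (nat_lit 2) (by decide +kernel) (ClAll.succ (ClAll.succ ClAll.zero n173) n174)

def n222 : Cl (O (nat_lit 6)) (R (nat_lit 102673))
    (p (nat_lit 0x444aa) (nat_lit 7) (p (nat_lit 0x119) (nat_lit 1) (p (nat_lit 0x111) (nat_lit 0) (p (nat_lit 0x101) (nat_lit 0) (p (nat_lit 0x109) (nat_lit 0) (p (nat_lit 0xc9) (nat_lit 1) (p (nat_lit 0x89) (nat_lit 1) (p (nat_lit 0x41) (nat_lit 0) (p (nat_lit 0x1098a0b090a9a) (nat_lit 0) (p (nat_lit 0x89098a888a1a) (nat_lit 0) (p (nat_lit 0x108890a08079a) (nat_lit 0) (p (nat_lit 0x88088987871a) (nat_lit 0) (p (nat_lit 0x8000080000000078907088a) (nat_lit 0) (p (nat_lit 0x8000080000000070886860a) (nat_lit 0) (p (nat_lit 0x10708060782) (nat_lit 0) (p (nat_lit 0x8687858702) (nat_lit 0) (p (nat_lit 0x10607050482) (nat_lit 0) (p (nat_lit 0x8586848402) (nat_lit 0) (p (nat_lit 0x160004) (nat_lit 0) (p (nat_lit 0x50612) (nat_lit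 0) (p (nat_lit 0x40592) (nat_lit 0) (p (nat_lit 0x40492) (nat_lit 0) (p (nat_lit 0x30412) (nat_lit 0) (p (nat_lit 0x30212) (nat_lit 0) (p (nat_lit 0x20192) (nat_lit 0) (p (nat_lit 0x20092) (nat_lit 0) (p (nat_lit 0x10012) (nat_lit 0) pn))))))))))))))))))))))))))) :=
  Cl.node (nat_lit 0x380c2) (nat_lit 2) (by decide +kernel) (ClAll.succ (ClAll.succ ClAll.zero n175) s458)

def n223 : Cl (O (nat_lit 6)) (R (nat_lit 102673))
    (p (nat_lit 0x111) (nat_lit 0) (p (nat_lit 0x89) (nat_lit 0) (p (nat_lit 0x109) (nat_lit 1) (p (nat_lit 0x101) (nat_lit 0) (p (nat_lit 0x119) (nat_lit 0) (p (nat_lit 0xd1) (nat_lit 0) (p (nat_lit 0x81) (nat_lit 0) (p (nat_lit 0x41) (nat_lit 1) (p (nat_lit 0x1098a0b090a9a) (nat_lit 0) (p (nat_lit 0x89098a888a1a) (nat_lit 0) (p (nat_lit 0x108890a08079a) (nat_lit 0) (p (nat_lit 0x88088987871a) (nat_lit 0) (p (nat_lit 0x8000080000000078907088a) (nat_lit 0) (p (nat_lit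 0x8000080000000070886860a) (nat_lit 0) (p (nat_lit 0x10708060782) (nat_lit 0) (p (nat_lit 0x8687858702) (nat_lit 0) (p (nat_lit 0x10607050482) (nat_lit 0) (p (nat_lit 0x8586848402) (nat_lit 0) (p (nat_lit 0x160004) (nat_lit 0) (p (nat_lit 0x50612) (nat_lit 0) (p (nat_lit 0x40592) (nat_lit 0) (p (nat_lit 0x40492) (nat_lit 0) (p (nat_lit 0x30412) (nat_lit 0) (p (nat_lit 0x30212) (nat_lit 0) (p (nat_lit 0x20192) (nat_lit 0) (p (nat_lit 0x20092) (nat_lit 0) (p (nat_lit 0x10012) (nat_lit 0) pn))))))))))))))))))))))))))) :=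
  Cl.node (nat_lit 0x4c42a) (nat_lit 12) (by decide +kernel) (ClAll.succ (ClAll.succ (ClAll.succ (ClAll.succ (ClAll.succ (ClAll.succ (ClAll.succ (ClAll.succ (ClAll.succ (ClAll.succ (ClAll.succ (ClAll.succ ClAll.zero s468) s469) s470) s471) s472) s473) s474) s475) s476) s477) n176) s494)

def n224 : Cl (O (nat_lit 6)) (R (nat_lit 102673))
    (p (nat_lit 0x111) (nat_lit 1) (p (nat_lit 0x89) (nat_lit 0) (p (nat_lit 0x109) (nat_lit 1) (p (nat_lit 0x101) (nat_lit 0) (p (nat_lit 0x119) (nat_lit 0) (p (nat_lit 0xd1) (nat_lit 0) (p (nat_lit 0x81) (nat_lit 0) (p (nat_lit 0x41) (nat_lit 1) (p (nat_lit 0x1098a0b090a9a) (nat_lit 0) (p (nat_lit 0x89098a888a1a) (nat_lit 0) (p (nat_lit 0x108890a08079a) (nat_lit 0) (p (nat_lit 0x88088987871a) (nat_lit 0) (p (nat_lit 0x8000080000000078907088a) (nat_lit 0) (p (nat_lit 0x8000080000000070886860a) (nat_lit 0) (p (nat_lit 0x10708060782) (nat_lit 0) (p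 (nat_lit 0x8687858702) (nat_lit 0) (p (nat_lit 0x10607050482) (nat_lit 0) (p (nat_lit 0x8586848402) (nat_lit 0) (p (nat_lit 0x160004) (nat_lit 0) (p (nat_lit 0x50612) (nat_lit 0) (p (nat_lit 0x40592) (nat_lit 0) (p (nat_lit 0x40492) (nat_lit 0) (p (nat_lit 0x30412) (nat_lit 0) (p (nat_lit 0x30212) (nat_lit 0) (p (nat_lit 0x20192) (nat_lit 0) (p (nat_lit 0x20092) (nat_lit 0) (p (nat_lit 0x10012) (nat_lit 0) pn))))))))))))))))))))))))))) :=
  Cl.node (nat_lit 0x4c42a) (nat_lit 12) (by decide +kernel) (ClAll.succ (ClAll.succ (ClAll.succ (ClAll.succ (ClAll.succ (ClAll.succ (ClAll.succ (ClAll.succ (ClAll.succ (ClAll.succ (ClAll.succ (ClAll.succ ClAll.zero s495) s496) s497) s498) s499) s500) s501) s502) s503) s504) n177) s507)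

def n225 : Cl (O (nat_lit 6)) (R (nat_lit 102673))
    (p (nat_lit 0xc9) (nat_lit 0) (p (nat_lit 0x89) (nat_lit 1) (p (nat_lit 0x109) (nat_lit 1) (p (nat_lit 0x101) (nat_lit 0) (p (nat_lit 0x119) (nat_lit 0) (p (nat_lit 0xd1) (nat_lit 0) (p (nat_lit 0x81) (nat_lit 0) (p (nat_lit 0x41) (nat_lit 1) (p (nat_lit 0x1098a0b090a9a) (nat_lit 0) (p (nat_lit 0x89098a888a1a) (nat_lit 0) (p (nat_lit 0x108890a08079a) (nat_lit 0) (p (nat_lit 0x88088987871a) (nat_lit 0) (p (nat_lit 0x8000080000000078907088a) (nat_lit 0) (p (nat_lit 0x8000080000000070886860a) (nat_lit 0) (p (nat_lit 0x10708060782) (nat_lit 0) (p (nat_lit 0x8687858702) (nat_lit 0) (p (nat_lit 0x10607050482) (nat_lit 0) (p (nat_lit 0x8586848402) (nat_lit 0) (p (nat_lit 0x160004) (nat_lit 0) (p (nat_lit 0x50612) (nat_lit 0) (p (nat_lit 0x40592) (nat_lit 0) (p (nat_lit 0x40492) (nat_lit 0) (p (nat_lit 0x30412) (nat_lit 0) (p (nat_lit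 0x30212) (nat_lit 0) (p (nat_lit 0x20192) (nat_lit 0) (p (nat_lit 0x20092) (nat_lit 0) (p (nat_lit 0x10012) (nat_lit 0) pn))))))))))))))))))))))))))) :=
  Cl.node (nat_lit 0x4c42a) (nat_lit 12) (by decide +kernel) (ClAll.succ (ClAll.succ (ClAll.succ (ClAll.succ (ClAll.succ (ClAll.succ (ClAll.succ (ClAll.succ (ClAll.succ (ClAll.succ (ClAll.succ (ClAll.succ ClAll.zero s508) s509) s510) s511) s512) s513) s514) s515) s516) s517) n178) s536)

def n226 : Cl (O (nat_lit 6)) (R (nat_lit 102673))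
    (p (nat_lit 0x111) (nat_lit 0) (p (nat_lit 0x89) (nat_lit 0) (p (nat_lit 0xc1) (nat_lit 0) (p (nat_lit 0x101) (nat_lit 1) (p (nat_lit 0x119) (nat_lit 0) (p (nat_lit 0xd1) (nat_lit 0) (p (nat_lit 0x81) (nat_lit 0) (p (nat_lit 0x41) (nat_lit 1) (p (nat_lit 0x1098a0b090a9a) (nat_lit 0) (p (nat_lit 0x89098a888a1a) (nat_lit 0) (p (nat_lit 0x108890a08079a) (nat_lit 0) (p (nat_lit 0x88088987871a) (nat_lit 0) (p (nat_lit 0x8000080000000078907088a) (nat_lit 0) (p (nat_lit 0x8000080000000070886860a) (nat_lit 0) (p (nat_lit 0x10708060782) (nat_lit 0) (p (nat_lit 0x8687858702) (nat_lit 0) (p (nat_lit 0x10607050482) (nat_lit 0) (p (nat_lit 0x8586848402) (nat_lit 0) (p (nat_lit 0x160004) (nat_lit 0) (p (nat_lit 0x50612) (nat_lit 0) (p (nat_lit 0x40592) (nat_lit 0) (p (nat_lit 0x40492) (nat_lit 0) (p (nat_lit 0x30412) (nat_lit 0) (p (nat_lit 0x30212) (nat_lit 0) (p (nat_lit 0x20192) (nat_lit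 0) (p (nat_lit 0x20092) (nat_lit 0) (p (nat_lit 0x10012) (nat_lit 0) pn))))))))))))))))))))))))))) :=
  Cl.node (nat_lit 0xc9) (nat_lit 2) (by decide +kernel) (ClAll.succ (ClAll.succ ClAll.zero s538) n179)

def n227 : Cl (O (nat_lit 6)) (R (nat_lit 102673))
    (p (nat_lit 0xc9) (nat_lit 0) (p (nat_lit 0x89) (nat_lit 1) (p (nat_lit 0xc1) (nat_lit 0) (p (nat_lit 0x101) (nat_lit 1) (p (nat_lit 0x119) (nat_lit 0) (p (nat_lit 0xd1) (nat_lit 0) (p (nat_lit 0x81) (nat_lit 0) (p (nat_lit 0x41) (nat_lit 1) (p (nat_lit 0x1098a0b090a9a) (nat_lit 0) (p (nat_lit 0x89098a888a1a) (nat_lit 0) (p (nat_lit 0x108890a08079a) (nat_lit 0) (p (nat_lit 0x88088987871a) (nat_lit 0) (p (nat_lit 0x8000080000000078907088a) (nat_lit 0) (p (nat_lit 0x8000080000000070886860a) (nat_lit 0) (p (nat_lit 0x10708060782) (nat_lit 0) (p (nat_lit 0x8687858702) (nat_lit 0) (p (nat_lit 0x10607050482) (nat_lit 0) (p (nat_lit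 0x8586848402) (nat_lit 0) (p (nat_lit 0x160004) (nat_lit 0) (p (nat_lit 0x50612) (nat_lit 0) (p (nat_lit 0x40592) (nat_lit 0) (p (nat_lit 0x40492) (nat_lit 0) (p (nat_lit 0x30412) (nat_lit 0) (p (nat_lit 0x30212) (nat_lit 0) (p (nat_lit 0x20192) (nat_lit 0) (p (nat_lit 0x20092) (nat_lit 0) (p (nat_lit 0x10012) (nat_lit 0) pn))))))))))))))))))))))))))) :=
  Cl.node (nat_lit 0x4c42a) (nat_lit 12) (by decide +kernel) (ClAll.succ (ClAll.succ (ClAll.succ (ClAll.succ (ClAll.succ (ClAll.succ (ClAll.succ (ClAll.succ (ClAll.succ (ClAll.succ (ClAll.succ (ClAll.succ ClAll.zero s542) s543) s544) s545) s546) s547) s548) s549) s550) s551) n180) s559)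

def n228 : Cl (O (nat_lit 6)) (R (nat_lit 102673))
    (p (nat_lit 0xc9) (nat_lit 1) (p (nat_lit 0x89) (nat_lit 1) (p (nat_lit 0xc1) (nat_lit 0) (p (nat_lit 0x101) (nat_lit 1) (p (nat_lit 0x119) (nat_lit 0) (p (nat_lit 0xd1) (nat_lit 0) (p (nat_lit 0x81) (nat_lit 0) (p (nat_lit 0x41) (nat_lit 1) (p (nat_lit 0x1098a0b090a9a) (nat_lit 0) (p (nat_lit 0x89098a888a1a) (nat_lit 0) (p (nat_lit 0x108890a08079a) (nat_lit 0) (p (nat_lit 0x88088987871a) (nat_lit 0) (p (nat_lit 0x8000080000000078907088a) (nat_lit 0) (p (nat_lit 0x8000080000000070886860a) (nat_lit 0) (p (nat_lit 0x10708060782) (nat_lit 0) (p (nat_lit 0x8687858702) (nat_lit 0) (p (nat_lit 0x10607050482) (nat_lit 0) (p (nat_lit 0x8586848402) (nat_lit 0) (p (nat_lit 0x160004) (nat_lit 0) (p (nat_lit 0x50612) (nat_lit 0) (p (nat_lit 0x40592) (nat_lit 0) (p (nat_lit 0x40492) (nat_lit 0) (p (nat_lit 0x30412) (nat_lit 0) (p (nat_lit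 0x30212) (nat_lit 0) (p (nat_lit 0x20192) (nat_lit 0) (p (nat_lit 0x20092) (nat_lit 0) (p (nat_lit 0x10012) (nat_lit 0) pn))))))))))))))))))))))))))) :=
  Cl.node (nat_lit 0x4c42a) (nat_lit 12) (by decide +kernel) (ClAll.succ (ClAll.succ (ClAll.succ (ClAll.succ (ClAll.succ (ClAll.succ (ClAll.succ (ClAll.succ (ClAll.succ (ClAll.succ (ClAll.succ (ClAll.succ ClAll.zero s560) s561) s562) s563) s564) s565) s566) s567) s568) s569) n181) s572)

def n229 : Cl (O (nat_lit 6)) (R (nat_lit 102673))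
    (p (nat_lit 0x3cc2a) (nat_lit 2) (p (nat_lit 0x89) (nat_lit 0) (p (nat_lit 0xc1) (nat_lit 1) (p (nat_lit 0x101) (nat_lit 1) (p (nat_lit 0x119) (nat_lit 0) (p (nat_lit 0xd1) (nat_lit 0) (p (nat_lit 0x81) (nat_lit 0) (p (nat_lit 0x41) (nat_lit 1) (p (nat_lit 0x1098a0b090a9a) (nat_lit 0) (p (nat_lit 0x89098a888a1a) (nat_lit 0) (p (nat_lit 0x108890a08079a) (nat_lit 0) (p (nat_lit 0x88088987871a) (nat_lit 0) (p (nat_lit 0x8000080000000078907088a) (nat_lit 0) (p (nat_lit 0x8000080000000070886860a) (nat_lit 0) (p (nat_lit 0x10708060782) (nat_lit 0) (p (nat_lit 0x8687858702) (nat_lit 0) (p (nat_lit 0x10607050482) (nat_lit 0) (p (nat_lit 0x8586848402) (nat_lit 0) (p (nat_lit 0x160004) (nat_lit 0) (p (nat_lit 0x50612) (nat_lit 0) (p (nat_lit 0x40592) (nat_lit 0) (p (nat_lit 0x40492) (nat_lit 0) (p (nat_lit 0x30412) (nat_lit 0) (p (nat_lit 0x30212) (nat_lit 0) (p (nat_lit 0x20192) (nat_lit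 0) (p (nat_lit 0x20092) (nat_lit 0) (p (nat_lit 0x10012) (nat_lit 0) pn))))))))))))))))))))))))))) :=
  Cl.node (nat_lit 0x380c2) (nat_lit 1) (by decide +kernel) (ClAll.succ ClAll.zero n182)

def n230 : Cl (O (nat_lit 6)) (R (nat_lit 102673))
    (p (nat_lit 0x3c4aa) (nat_lit 7) (p (nat_lit 0x89) (nat_lit 1) (p (nat_lit 0xc1) (nat_lit 1) (p (nat_lit 0x101) (nat_lit 1) (p (nat_lit 0x119) (nat_lit 0) (p (nat_lit 0xd1) (nat_lit 0) (p (nat_lit 0x81) (nat_lit 0) (p (nat_lit 0x41) (nat_lit 1) (p (nat_lit 0x1098a0b090a9a) (nat_lit 0) (p (nat_lit 0x89098a888a1a) (nat_lit 0) (p (nat_lit 0x108890a08079a) (nat_lit 0) (p (nat_lit 0x88088987871a) (nat_lit 0) (p (nat_lit 0x8000080000000078907088a) (nat_lit 0) (p (nat_lit 0x8000080000000070886860a) (nat_lit 0) (p (nat_lit 0x10708060782) (nat_lit 0) (p (nat_lit 0x8687858702) (nat_lit 0) (p (nat_lit 0x10607050482) (nat_lit 0) (p (nat_lit 0x8586848402)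 (nat_lit 0) (p (nat_lit 0x160004) (nat_lit 0) (p (nat_lit 0x50612) (nat_lit 0) (p (nat_lit 0x40592) (nat_lit 0) (p (nat_lit 0x40492) (nat_lit 0) (p (nat_lit 0x30412) (nat_lit 0) (p (nat_lit 0x30212) (nat_lit 0) (p (nat_lit 0x20192) (nat_lit 0) (p (nat_lit 0x20092) (nat_lit 0) (p (nat_lit 0x10012) (nat_lit 0) pn))))))))))))))))))))))))))) :=
  Cl.node (nat_lit 0x380c2) (nat_lit 2) (by decide +kernel) (ClAll.succ (ClAll.succ ClAll.zero s594) s595)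

def n231 : Cl (O (nat_lit 6)) (R (nat_lit 102673))
    (p (nat_lit 0x3c4aa) (nat_lit 8) (p (nat_lit 0x89) (nat_lit 1) (p (nat_lit 0xc1) (nat_lit 1) (p (nat_lit 0x101) (nat_lit 1) (p (nat_lit 0x119) (nat_lit 0) (p (nat_lit 0xd1) (nat_lit 0) (p (nat_lit 0x81) (nat_lit 0) (p (nat_lit 0x41) (nat_lit 1) (p (nat_lit 0x1098a0b090a9a) (nat_lit 0) (p (nat_lit 0x89098a888a1a) (nat_lit 0) (p (nat_lit 0x108890a08079a) (nat_lit 0) (p (nat_lit 0x88088987871a) (nat_lit 0) (p (nat_lit 0x8000080000000078907088a) (nat_lit 0) (p (nat_lit 0x8000080000000070886860a) (nat_lit 0) (p (nat_lit 0x10708060782) (nat_lit 0) (p (nat_lit 0x8687858702) (nat_lit 0) (p (nat_lit 0x10607050482) (nat_lit 0) (p (nat_lit 0x8586848402) (nat_lit 0) (p (nat_lit 0x160004) (nat_lit 0) (p (nat_lit 0x50612) (nat_lit 0) (p (nat_lit 0x40592) (nat_lit 0) (p (nat_lit 0x40492) (nat_lit 0) (p (nat_lit 0x30412) (nat_lit 0) (p (nat_lit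 0x30212) (nat_lit 0) (p (nat_lit 0x20192) (nat_lit 0) (p (nat_lit 0x20092) (nat_lit 0) (p (nat_lit 0x10012) (nat_lit 0) pn))))))))))))))))))))))))))) :=
  Cl.node (nat_lit 0x380c2) (nat_lit 2) (by decide +kernel) (ClAll.succ (ClAll.succ ClAll.zero n183) s598)

def n232 : Cl (O (nat_lit 6)) (R (nat_lit 102673))
    (p (nat_lit 0x109) (nat_lit 0) (p (nat_lit 0x89) (nat_lit 1) (p (nat_lit 0xc9) (nat_lit 1) (p (nat_lit 0xc1) (nat_lit 0) (p (nat_lit 0x119) (nat_lit 1) (p (nat_lit 0xd1) (nat_lit 0) (p (nat_lit 0x81) (nat_lit 0) (p (nat_lit 0x41) (nat_lit 1) (p (nat_lit 0x1098a0b090a9a) (nat_lit 0) (p (nat_lit 0x89098a888a1a) (nat_lit 0) (p (nat_lit 0x108890a08079a) (nat_lit 0) (p (nat_lit 0x88088987871a) (nat_lit 0) (p (nat_lit 0x8000080000000078907088a) (nat_lit 0) (p (nat_lit 0x8000080000000070886860a) (nat_lit 0) (p (nat_lit 0x10708060782) (nat_lit 0) (p (nat_lit 0x8687858702) (nat_lit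 0) (p (nat_lit 0x10607050482) (nat_lit 0) (p (nat_lit 0x8586848402) (nat_lit 0) (p (nat_lit 0x160004) (nat_lit 0) (p (nat_lit 0x50612) (nat_lit 0) (p (nat_lit 0x40592) (nat_lit 0) (p (nat_lit 0x40492) (nat_lit 0) (p (nat_lit 0x30412) (nat_lit 0) (p (nat_lit 0x30212) (nat_lit 0) (p (nat_lit 0x20192) (nat_lit 0) (p (nat_lit 0x20092) (nat_lit 0) (p (nat_lit 0x10012) (nat_lit 0) pn))))))))))))))))))))))))))) :=
  Cl.node (nat_lit 0x44c2a) (nat_lit 12) (by decide +kernel) (ClAll.succ (ClAll.succ (ClAll.succ (ClAll.succ (ClAll.succ (ClAll.succ (ClAll.succ (ClAll.succ (ClAll.succ (ClAll.succ (ClAll.succ (ClAll.succ ClAll.zero s604) s605) s606) s607) s608) s609) s610) s611) s612) s613) s614) s615)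

def n233 : Cl (O (nat_lit 6)) (R (nat_lit 102673))
    (p (nat_lit 0x109) (nat_lit 1) (p (nat_lit 0x89) (nat_lit 1) (p (nat_lit 0xc9) (nat_lit 1) (p (nat_lit 0xc1) (nat_lit 0) (p (nat_lit 0x119) (nat_lit 1) (p (nat_lit 0xd1) (nat_lit 0) (p (nat_lit 0x81) (nat_lit 0) (p (nat_lit 0x41) (nat_lit 1) (p (nat_lit 0x1098a0b090a9a) (nat_lit 0) (p (nat_lit 0x89098a888a1a) (nat_lit 0) (p (nat_lit 0x108890a08079a) (nat_lit 0) (p (nat_lit 0x88088987871a) (nat_lit 0) (p (nat_lit 0x8000080000000078907088a) (nat_lit 0) (p (nat_lit 0x8000080000000070886860a) (nat_lit 0) (p (nat_lit 0x10708060782) (nat_lit 0) (p (nat_lit 0x8687858702) (nat_lit 0) (p (nat_lit 0x10607050482) (nat_lit 0) (p (nat_lit 0x8586848402) (nat_lit 0) (p (nat_lit 0x160004) (nat_lit 0) (p (nat_lit 0x50612) (nat_lit 0) (p (nat_lit 0x40592) (nat_lit 0) (p (nat_lit 0x40492) (nat_lit 0) (p (nat_lit 0x30412) (nat_lit 0) (p (nat_lit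 0x30212) (nat_lit 0) (p (nat_lit 0x20192) (nat_lit 0) (p (nat_lit 0x20092) (nat_lit 0) (p (nat_lit 0x10012) (nat_lit 0) pn))))))))))))))))))))))))))) :=
  Cl.node (nat_lit 0x3c4aa) (nat_lit 12) (by decide +kernel) (ClAll.succ (ClAll.succ (ClAll.succ (ClAll.succ (ClAll.succ (ClAll.succ (ClAll.succ (ClAll.succ (ClAll.succ (ClAll.succ (ClAll.succ (ClAll.succ ClAll.zero s616) s617) s618) s619) s620) s621) s622) s623) n184) s627) s628) s629)

def n234 : Cl (O (nat_lit 6)) (R (nat_lit 102673))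
    (p (nat_lit 0x109) (nat_lit 0) (p (nat_lit 0x89) (nat_lit 1) (p (nat_lit 0x101) (nat_lit 0) (p (nat_lit 0xc1) (nat_lit 1) (p (nat_lit 0x119) (nat_lit 1) (p (nat_lit 0xd1) (nat_lit 0) (p (nat_lit 0x81) (nat_lit 0) (p (nat_lit 0x41) (nat_lit 1) (p (nat_lit 0x1098a0b090a9a) (nat_lit 0) (p (nat_lit 0x89098a888a1a) (nat_lit 0) (p (nat_lit 0x108890a08079a) (nat_lit 0) (p (nat_lit 0x88088987871a) (nat_lit 0) (p (nat_lit 0x8000080000000078907088a) (nat_lit 0) (p (nat_lit 0x8000080000000070886860a) (nat_lit 0) (p (nat_lit 0x10708060782) (nat_lit 0) (p (nat_lit 0x8687858702) (nat_lit 0) (p (nat_lit 0x10607050482) (nat_lit 0) (p (nat_lit 0x8586848402) (nat_lit 0) (p (nat_lit 0x160004) (nat_lit 0) (p (nat_lit 0x50612) (nat_lit 0) (p (nat_lit 0x40592) (nat_lit 0) (p (nat_lit 0x40492) (nat_lit 0) (p (nat_lit 0x30412) (nat_lit 0) (p (nat_lit 0x30212) (nat_lit 0) (p (nat_lit 0x20192) (nat_lit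 0) (p (nat_lit 0x20092) (nat_lit 0) (p (nat_lit 0x10012) (nat_lit 0) pn))))))))))))))))))))))))))) :=
  Cl.node (nat_lit 0x111) (nat_lit 2) (by decide +kernel) (ClAll.succ (ClAll.succ ClAll.zero n185) n186)

def n235 : Cl (O (nat_lit 6)) (R (nat_lit 102673))
    (p (nat_lit 0x109) (nat_lit 1) (p (nat_lit 0x89) (nat_lit 1) (p (nat_lit 0x101) (nat_lit 0) (p (nat_lit 0xc1) (nat_lit 1) (p (nat_lit 0x119) (nat_lit 1) (p (nat_lit 0xd1) (nat_lit 0) (p (nat_lit 0x81) (nat_lit 0) (p (nat_lit 0x41) (nat_lit 1) (p (nat_lit 0x1098a0b090a9a) (nat_lit 0) (p (nat_lit 0x89098a888a1a) (nat_lit 0) (p (nat_lit 0x108890a08079a) (nat_lit 0) (p (nat_lit 0x88088987871a) (nat_lit 0) (p (nat_lit 0x8000080000000078907088a) (nat_lit 0) (p (nat_lit 0x8000080000000070886860a) (nat_lit 0) (p (nat_lit 0x10708060782) (nat_lit 0) (p (nat_lit 0x8687858702) (nat_lit 0) (p (nat_lit 0x10607050482) (nat_lit 0) (p (nat_lit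 0x8586848402) (nat_lit 0) (p (nat_lit 0x160004) (nat_lit 0) (p (nat_lit 0x50612) (nat_lit 0) (p (nat_lit 0x40592) (nat_lit 0) (p (nat_lit 0x40492) (nat_lit 0) (p (nat_lit 0x30412) (nat_lit 0) (p (nat_lit 0x30212) (nat_lit 0) (p (nat_lit 0x20192) (nat_lit 0) (p (nat_lit 0x20092) (nat_lit 0) (p (nat_lit 0x10012) (nat_lit 0) pn))))))))))))))))))))))))))) :=
  Cl.node (nat_lit 0x3c4aa) (nat_lit 12) (by decide +kernel) (ClAll.succ (ClAll.succ (ClAll.succ (ClAll.succ (ClAll.succ (ClAll.succ (ClAll.succ (ClAll.succ (ClAll.succ (ClAll.succ (ClAll.succ (ClAll.succ ClAll.zero s645) s646) s647) s648) s649) s650) s651) s652) n187) s657) s658) s659)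

def n236 : Cl (O (nat_lit 6)) (R (nat_lit 102673))
    (p (nat_lit 0x3c4aa) (nat_lit 8) (p (nat_lit 0x89) (nat_lit 1) (p (nat_lit 0x101) (nat_lit 1) (p (nat_lit 0xc1) (nat_lit 1) (p (nat_lit 0x119) (nat_lit 1) (p (nat_lit 0xd1) (nat_lit 0) (p (nat_lit 0x81) (nat_lit 0) (p (nat_lit 0x41) (nat_lit 1) (p (nat_lit 0x1098a0b090a9a) (nat_lit 0) (p (nat_lit 0x89098a888a1a) (nat_lit 0) (p (nat_lit 0x108890a08079a) (nat_lit 0) (p (nat_lit 0x88088987871a) (nat_lit 0) (p (nat_lit 0x8000080000000078907088a) (nat_lit 0) (p (nat_lit 0x8000080000000070886860a) (nat_lit 0) (p (nat_lit 0x10708060782) (nat_lit 0) (p (nat_lit 0x8687858702) (nat_lit 0) (p (nat_lit 0x10607050482) (nat_lit 0) (p (nat_lit 0x8586848402) (nat_lit 0) (p (nat_lit 0x160004) (nat_lit 0) (p (nat_lit 0x50612) (nat_lit 0) (p (nat_lit 0x40592) (nat_lit 0) (p (nat_lit 0x40492) (nat_lit 0) (p (nat_lit 0x30412) (nat_lit 0) (p (nat_lit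 0x30212) (nat_lit 0) (p (nat_lit 0x20192) (nat_lit 0) (p (nat_lit 0x20092) (nat_lit 0) (p (nat_lit 0x10012) (nat_lit 0) pn))))))))))))))))))))))))))) :=
  Cl.node (nat_lit 0x380c2) (nat_lit 2) (by decide +kernel) (ClAll.succ (ClAll.succ ClAll.zero n188) s671)

def n237 : Cl (O (nat_lit 6)) (R (nat_lit 102673))
    (p (nat_lit 0xc9) (nat_lit 0) (p (nat_lit 0x89) (nat_lit 1) (p (nat_lit 0x109) (nat_lit 1) (p (nat_lit 0x101) (nat_lit 0) (p (nat_lit 0x111) (nat_lit 0) (p (nat_lit 0xd1) (nat_lit 1) (p (nat_lit 0x81) (nat_lit 0) (p (nat_lit 0x41) (nat_lit 1) (p (nat_lit 0x1098a0b090a9a) (nat_lit 0) (p (nat_lit 0x89098a888a1a) (nat_lit 0) (p (nat_lit 0x108890a08079a) (nat_lit 0) (p (nat_lit 0x88088987871a) (nat_lit 0) (p (nat_lit 0x8000080000000078907088a) (nat_lit 0) (p (nat_lit 0x8000080000000070886860a) (nat_lit 0) (p (nat_lit 0x10708060782) (nat_lit 0) (p (nat_lit 0x8687858702) (nat_lit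 0) (p (nat_lit 0x10607050482) (nat_lit 0) (p (nat_lit 0x8586848402) (nat_lit 0) (p (nat_lit 0x160004) (nat_lit 0) (p (nat_lit 0x50612) (nat_lit 0) (p (nat_lit 0x40592) (nat_lit 0) (p (nat_lit 0x40492) (nat_lit 0) (p (nat_lit 0x30412) (nat_lit 0) (p (nat_lit 0x30212) (nat_lit 0) (p (nat_lit 0x20192) (nat_lit 0) (p (nat_lit 0x20092) (nat_lit 0) (p (nat_lit 0x10012) (nat_lit 0) pn))))))))))))))))))))))))))) :=
  Cl.node (nat_lit 0x119) (nat_lit 2) (by decide +kernel) (ClAll.succ (ClAll.succ ClAll.zero n189) n190)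

def n238 : Cl (O (nat_lit 6)) (R (nat_lit 102673))
    (p (nat_lit 0x380c2) (nat_lit 0) (p (nat_lit 0x3cc2a) (nat_lit 1) (p (nat_lit 0x89) (nat_lit 0) (p (nat_lit 0x101) (nat_lit 1) (p (nat_lit 0x111) (nat_lit 0) (p (nat_lit 0xd1) (nat_lit 1) (p (nat_lit 0x81) (nat_lit 0) (p (nat_lit 0x41) (nat_lit 1) (p (nat_lit 0x1098a0b090a9a) (nat_lit 0) (p (nat_lit 0x89098a888a1a) (nat_lit 0) (p (nat_lit 0x108890a08079a) (nat_lit 0) (p (nat_lit 0x88088987871a) (nat_lit 0) (p (nat_lit 0x8000080000000078907088a) (nat_lit 0) (p (nat_lit 0x8000080000000070886860a) (nat_lit 0) (p (nat_lit 0x10708060782) (nat_lit 0) (p (nat_lit 0x8687858702) (nat_lit 0) (p (nat_lit 0x10607050482) (nat_lit 0) (p (nat_lit 0x8586848402) (nat_lit 0) (p (nat_lit 0x160004) (nat_lit 0) (p (nat_lit 0x50612) (nat_lit 0) (p (nat_lit 0x40592) (nat_lit 0) (p (nat_lit 0x40492) (nat_lit 0) (p (nat_lit 0x30412) (nat_lit 0) (p (nat_lit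 0x30212) (nat_lit 0) (p (nat_lit 0x20192) (nat_lit 0) (p (nat_lit 0x20092) (nat_lit 0) (p (nat_lit 0x10012) (nat_lit 0) pn))))))))))))))))))))))))))) :=
  Cl.node (nat_lit 0xb0004) (nat_lit 2) (by decide +kernel) (ClAll.succ (ClAll.succ ClAll.zero s724) s725)

def n239 : Cl (O (nat_lit 6)) (R (nat_lit 102673))
    (p (nat_lit 0x3cc2a) (nat_lit 1) (p (nat_lit 0xc9) (nat_lit 0) (p (nat_lit 0x89) (nat_lit 1) (p (nat_lit 0x101) (nat_lit 1) (p (nat_lit 0x111) (nat_lit 0) (p (nat_lit 0xd1) (nat_lit 1) (p (nat_lit 0x81) (nat_lit 0) (p (nat_lit 0x41) (nat_lit 1) (p (nat_lit 0x1098a0b090a9a) (nat_lit 0) (p (nat_lit 0x89098a888a1a) (nat_lit 0) (p (nat_lit 0x108890a08079a) (nat_lit 0) (p (nat_lit 0x88088987871a) (nat_lit 0) (p (nat_lit 0x8000080000000078907088a) (nat_lit 0) (p (nat_lit 0x8000080000000070886860a) (nat_lit 0) (p (nat_lit 0x10708060782) (nat_lit 0) (p (nat_lit 0x8687858702) (nat_lit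 0) (p (nat_lit 0x10607050482) (nat_lit 0) (p (nat_lit 0x8586848402) (nat_lit 0) (p (nat_lit 0x160004) (nat_lit 0) (p (nat_lit 0x50612) (nat_lit 0) (p (nat_lit 0x40592) (nat_lit 0) (p (nat_lit 0x40492) (nat_lit 0) (p (nat_lit 0x30412) (nat_lit 0) (p (nat_lit 0x30212) (nat_lit 0) (p (nat_lit 0x20192) (nat_lit 0) (p (nat_lit 0x20092) (nat_lit 0) (p (nat_lit 0x10012) (nat_lit 0) pn))))))))))))))))))))))))))) :=
  Cl.node (nat_lit 0x380c2) (nat_lit 1) (by decide +kernel) (ClAll.succ ClAll.zero n191)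

def n240 : Cl (O (nat_lit 6)) (R (nat_lit 102673))
    (p (nat_lit 0x3cc2a) (nat_lit 2) (p (nat_lit 0xc9) (nat_lit 0) (p (nat_lit 0x89) (nat_lit 1) (p (nat_lit 0x101) (nat_lit 1) (p (nat_lit 0x111) (nat_lit 0) (p (nat_lit 0xd1) (nat_lit 1) (p (nat_lit 0x81) (nat_lit 0) (p (nat_lit 0x41) (nat_lit 1) (p (nat_lit 0x1098a0b090a9a) (nat_lit 0) (p (nat_lit 0x89098a888a1a) (nat_lit 0) (p (nat_lit 0x108890a08079a) (nat_lit 0) (p (nat_lit 0x88088987871a) (nat_lit 0) (p (nat_lit 0x8000080000000078907088a) (nat_lit 0) (p (nat_lit 0x8000080000000070886860a) (nat_lit 0) (p (nat_lit 0x10708060782) (nat_lit 0) (p (nat_lit 0x8687858702) (nat_lit 0) (p (nat_lit 0x10607050482) (nat_lit 0) (p (nat_lit 0x8586848402) (nat_lit 0) (p (nat_lit 0x160004) (nat_lit 0) (p (nat_lit 0x50612) (nat_lit 0) (p (nat_lit 0x40592) (nat_lit 0) (p (nat_lit 0x40492) (nat_lit 0) (p (nat_lit 0x30412) (nat_lit 0) (p (nat_lit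 0x30212) (nat_lit 0) (p (nat_lit 0x20192) (nat_lit 0) (p (nat_lit 0x20092) (nat_lit 0) (p (nat_lit 0x10012) (nat_lit 0) pn))))))))))))))))))))))))))) :=
  Cl.node (nat_lit 0x380c2) (nat_lit 1) (by decide +kernel) (ClAll.succ ClAll.zero n192)

def n241 : Cl (O (nat_lit 6)) (R (nat_lit 102673))
    (p (nat_lit 0x3cc2a) (nat_lit 2) (p (nat_lit 0x109) (nat_lit 0) (p (nat_lit 0xc9) (nat_lit 1) (p (nat_lit 0x89) (nat_lit 1) (p (nat_lit 0x111) (nat_lit 1) (p (nat_lit 0xd1) (nat_lit 1) (p (nat_lit 0x81) (nat_lit 0) (p (nat_lit 0x41) (nat_lit 1) (p (nat_lit 0x1098a0b090a9a) (nat_lit 0) (p (nat_lit 0x89098a888a1a) (nat_lit 0) (p (nat_lit 0x108890a08079a) (nat_lit 0) (p (nat_lit 0x88088987871a) (nat_lit 0) (p (nat_lit 0x8000080000000078907088a) (nat_lit 0) (p (nat_lit 0x8000080000000070886860a) (nat_lit 0) (p (nat_lit 0x10708060782) (nat_lit 0) (p (nat_lit 0x8687858702) (nat_lit 0) (p (nat_lit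 0x10607050482) (nat_lit 0) (p (nat_lit 0x8586848402) (nat_lit 0) (p (nat_lit 0x160004) (nat_lit 0) (p (nat_lit 0x50612) (nat_lit 0) (p (nat_lit 0x40592) (nat_lit 0) (p (nat_lit 0x40492) (nat_lit 0) (p (nat_lit 0x30412) (nat_lit 0) (p (nat_lit 0x30212) (nat_lit 0) (p (nat_lit 0x20192) (nat_lit 0) (p (nat_lit 0x20092) (nat_lit 0) (p (nat_lit 0x10012) (nat_lit 0) pn))))))))))))))))))))))))))) :=
  Cl.node (nat_lit 0x380c2) (nat_lit 1) (by decide +kernel) (ClAll.succ ClAll.zero n193)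

def n242 : Cl (O (nat_lit 6)) (R (nat_lit 102673))
    (p (nat_lit 0xd1) (nat_lit 1) (p (nat_lit 0x111) (nat_lit 1) (p (nat_lit 0x109) (nat_lit 0) (p (nat_lit 0x101) (nat_lit 0) (p (nat_lit 0x119) (nat_lit 0) (p (nat_lit 0xc1) (nat_lit 0) (p (nat_lit 0x81) (nat_lit 1) (p (nat_lit 0x41) (nat_lit 1) (p (nat_lit 0x1098a0b090a9a) (nat_lit 0) (p (nat_lit 0x89098a888a1a) (nat_lit 0) (p (nat_lit 0x108890a08079a) (nat_lit 0) (p (nat_lit 0x88088987871a) (nat_lit 0) (p (nat_lit 0x8000080000000078907088a) (nat_lit 0) (p (nat_lit 0x8000080000000070886860a) (nat_lit 0) (p (nat_lit 0x10708060782) (nat_lit 0) (p (nat_lit 0x8687858702) (nat_lit 0) (p (nat_lit 0x10607050482) (nat_lit 0) (p (nat_lit 0x8586848402) (nat_lit 0) (p (nat_lit 0x160004) (nat_lit 0) (p (nat_lit 0x50612) (nat_lit 0) (p (nat_lit 0x40592) (nat_lit 0) (p (nat_lit 0x40492) (nat_lit 0) (p (nat_lit 0x30412) (nat_lit 0) (p (nat_lit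 0x30212) (nat_lit 0) (p (nat_lit 0x20192) (nat_lit 0) (p (nat_lit 0x20092) (nat_lit 0) (p (nat_lit 0x10012) (nat_lit 0) pn))))))))))))))))))))))))))) :=
  Cl.node (nat_lit 0x3c4aa) (nat_lit 12) (by decide +kernel) (ClAll.succ (ClAll.succ (ClAll.succ (ClAll.succ (ClAll.succ (ClAll.succ (ClAll.succ (ClAll.succ (ClAll.succ (ClAll.succ (ClAll.succ (ClAll.succ ClAll.zero s776) s777) s778) s779) s780) s781) s782) n194) n195) s789) s790) s791)

def n243 : Cl (O (nat_lit 6)) (R (nat_lit 102673))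
    (p (nat_lit 0xd1) (nat_lit 1) (p (nat_lit 0xc9) (nat_lit 0) (p (nat_lit 0x109) (nat_lit 1) (p (nat_lit 0x101) (nat_lit 0) (p (nat_lit 0x119) (nat_lit 0) (p (nat_lit 0xc1) (nat_lit 0) (p (nat_lit 0x81) (nat_lit 1) (p (nat_lit 0x41) (nat_lit 1) (p (nat_lit 0x1098a0b090a9a) (nat_lit 0) (p (nat_lit 0x89098a888a1a) (nat_lit 0) (p (nat_lit 0x108890a08079a) (nat_lit 0) (p (nat_lit 0x88088987871a) (nat_lit 0) (p (nat_lit 0x8000080000000078907088a) (nat_lit 0) (p (nat_lit 0x8000080000000070886860a) (nat_lit 0) (p (nat_lit 0x10708060782) (nat_lit 0) (p (nat_lit 0x8687858702) (nat_lit 0) (p (nat_lit 0x10607050482) (nat_lit 0) (p (nat_lit 0x8586848402) (nat_lit 0) (p (nat_lit 0x160004) (nat_lit 0) (p (nat_lit 0x50612) (nat_lit 0) (p (nat_lit 0x40592) (nat_lit 0) (p (nat_lit 0x40492) (nat_lit 0) (p (nat_lit 0x30412) (nat_lit 0) (p (nat_lit 0x30212) (nat_lit 0) (p (nat_lit 0x20192) (nat_lit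 0) (p (nat_lit 0x20092) (nat_lit 0) (p (nat_lit 0x10012) (nat_lit 0) pn))))))))))))))))))))))))))) :=
  Cl.node (nat_lit 0x3c4aa) (nat_lit 12) (by decide +kernel) (ClAll.succ (ClAll.succ (ClAll.succ (ClAll.succ (ClAll.succ (ClAll.succ (ClAll.succ (ClAll.succ (ClAll.succ (ClAll.succ (ClAll.succ (ClAll.succ ClAll.zero s793) s794) s795) s796) s797) s798) s799) s800) n196) s803) s804) s805)

def n244 : Cl (O (nat_lit 6)) (R (nat_lit 102673))
    (p (nat_lit 0x44c2a) (nat_lit 0) (p (nat_lit 0xd1) (nat_lit 0) (p (nat_lit 0xc9) (nat_lit 0) (p (nat_lit 0x101) (nat_lit 1) (p (nat_lit 0x119) (nat_lit 0) (p (nat_lit 0xc1) (nat_lit 0) (p (nat_lit 0x81) (nat_lit 1) (p (nat_lit 0x41) (nat_lit 1) (p (nat_lit 0x1098a0b090a9a) (nat_lit 0) (p (nat_lit 0x89098a888a1a) (nat_lit 0) (p (nat_lit 0x108890a08079a) (nat_lit 0) (p (nat_lit 0x88088987871a) (nat_lit 0) (p (nat_lit 0x8000080000000078907088a)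 (nat_lit 0) (p (nat_lit 0x8000080000000070886860a) (nat_lit 0) (p (nat_lit 0x10708060782) (nat_lit 0) (p (nat_lit 0x8687858702) (nat_lit 0) (p (nat_lit 0x10607050482) (nat_lit 0) (p (nat_lit 0x8586848402) (nat_lit 0) (p (nat_lit 0x160004) (nat_lit 0) (p (nat_lit 0x50612) (nat_lit 0) (p (nat_lit 0x40592) (nat_lit 0) (p (nat_lit 0x40492) (nat_lit 0) (p (nat_lit 0x30412) (nat_lit 0) (p (nat_lit 0x30212) (nat_lit 0) (p (nat_lit 0x20192) (nat_lit 0) (p (nat_lit 0x20092) (nat_lit 0) (p (nat_lit 0x10012) (nat_lit 0) pn))))))))))))))))))))))))))) :=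
  Cl.node (nat_lit 0x380c2) (nat_lit 2) (by decide +kernel) (ClAll.succ (ClAll.succ ClAll.zero n197) s809)

def n245 : Cl (O (nat_lit 6)) (R (nat_lit 102673))
    (p (nat_lit 0x44c2a) (nat_lit 1) (p (nat_lit 0xd1) (nat_lit 0) (p (nat_lit 0xc9) (nat_lit 0) (p (nat_lit 0x101) (nat_lit 1) (p (nat_lit 0x119) (nat_lit 0) (p (nat_lit 0xc1) (nat_lit 0) (p (nat_lit 0x81) (nat_lit 1) (p (nat_lit 0x41) (nat_lit 1) (p (nat_lit 0x1098a0b090a9a) (nat_lit 0) (p (nat_lit 0x89098a888a1a) (nat_lit 0) (p (nat_lit 0x108890a08079a) (nat_lit 0) (p (nat_lit 0x88088987871a) (nat_lit 0) (p (nat_lit 0x8000080000000078907088a) (nat_lit 0) (p (nat_lit 0x8000080000000070886860a) (nat_lit 0) (p (nat_lit 0x10708060782) (nat_lit 0) (p (nat_lit 0x8687858702) (nat_lit 0) (p (nat_lit 0x10607050482) (nat_lit 0) (p (nat_lit 0x8586848402) (nat_lit 0) (p (nat_lit 0x160004) (nat_lit 0) (p (nat_lit 0x50612) (nat_lit 0)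 (p (nat_lit 0x40592) (nat_lit 0) (p (nat_lit 0x40492) (nat_lit 0) (p (nat_lit 0x30412) (nat_lit 0) (p (nat_lit 0x30212) (nat_lit 0) (p (nat_lit 0x20192) (nat_lit 0) (p (nat_lit 0x20092) (nat_lit 0) (p (nat_lit 0x10012) (nat_lit 0) pn))))))))))))))))))))))))))) :=
  Cl.node (nat_lit 0x380c2) (nat_lit 1) (by decide +kernel) (ClAll.succ ClAll.zero n198)

def n246 : Cl (O (nat_lit 6)) (R (nat_lit 102673))
    (p (nat_lit 0x3c4aa) (nat_lit 7) (p (nat_lit 0xd1) (nat_lit 1) (p (nat_lit 0xc9) (nat_lit 0) (p (nat_lit 0x101) (nat_lit 1) (p (nat_lit 0x119) (nat_lit 0) (p (nat_lit 0xc1) (nat_lit 0) (p (nat_lit 0x81) (nat_lit 1) (p (nat_lit 0x41) (nat_lit 1) (p (nat_lit 0x1098a0b090a9a) (nat_lit 0) (p (nat_lit 0x89098a888a1a) (nat_lit 0) (p (nat_lit 0x108890a08079a) (nat_lit 0) (p (nat_lit 0x88088987871a) (nat_lit 0) (p (nat_lit 0x8000080000000078907088a) (nat_lit 0) (p (nat_lit 0x8000080000000070886860a)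 (nat_lit 0) (p (nat_lit 0x10708060782) (nat_lit 0) (p (nat_lit 0x8687858702) (nat_lit 0) (p (nat_lit 0x10607050482) (nat_lit 0) (p (nat_lit 0x8586848402) (nat_lit 0) (p (nat_lit 0x160004) (nat_lit 0) (p (nat_lit 0x50612) (nat_lit 0) (p (nat_lit 0x40592) (nat_lit 0) (p (nat_lit 0x40492) (nat_lit 0) (p (nat_lit 0x30412) (nat_lit 0) (p (nat_lit 0x30212) (nat_lit 0) (p (nat_lit 0x20192) (nat_lit 0) (p (nat_lit 0x20092) (nat_lit 0) (p (nat_lit 0x10012) (nat_lit 0) pn))))))))))))))))))))))))))) :=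
  Cl.node (nat_lit 0x380c2) (nat_lit 2) (by decide +kernel) (ClAll.succ (ClAll.succ ClAll.zero s829) s830)

def n247 : Cl (O (nat_lit 6)) (R (nat_lit 102673))
    (p (nat_lit 0x89) (nat_lit 0) (p (nat_lit 0x111) (nat_lit 1) (p (nat_lit 0xd1) (nat_lit 1) (p (nat_lit 0xc9) (nat_lit 0) (p (nat_lit 0x119) (nat_lit 1) (p (nat_lit 0xc1) (nat_lit 0) (p (nat_lit 0x81) (nat_lit 1) (p (nat_lit 0x41) (nat_lit 1) (p (nat_lit 0x1098a0b090a9a) (nat_lit 0) (p (nat_lit 0x89098a888a1a) (nat_lit 0) (p (nat_lit 0x108890a08079a) (nat_lit 0) (p (nat_lit 0x88088987871a) (nat_lit 0) (p (nat_lit 0x8000080000000078907088a) (nat_lit 0) (p (nat_lit 0x8000080000000070886860a) (nat_lit 0) (p (nat_lit 0x10708060782) (nat_lit 0) (p (nat_lit 0x8687858702) (nat_lit 0) (p (nat_lit 0x10607050482) (nat_lit 0) (p (nat_lit 0x8586848402) (nat_lit 0) (p (nat_lit 0x160004) (nat_lit 0) (p (nat_lit 0x50612) (nat_lit 0) (p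 (nat_lit 0x40592) (nat_lit 0) (p (nat_lit 0x40492) (nat_lit 0) (p (nat_lit 0x30412) (nat_lit 0) (p (nat_lit 0x30212) (nat_lit 0) (p (nat_lit 0x20192) (nat_lit 0) (p (nat_lit 0x20092) (nat_lit 0) (p (nat_lit 0x10012) (nat_lit 0) pn))))))))))))))))))))))))))) :=
  Cl.node (nat_lit 0x81) (nat_lit 2) (by decide +kernel) (ClAll.succ (ClAll.succ ClAll.zero s838) s839)

def n248 : Cl (O (nat_lit 6)) (R (nat_lit 102673))
    (p (nat_lit 0xc9) (nat_lit 1) (p (nat_lit 0x109) (nat_lit 1) (p (nat_lit 0x101) (nat_lit 0) (p (nat_lit 0x119) (nat_lit 0) (p (nat_lit 0xd1) (nat_lit 0) (p (nat_lit 0x89) (nat_lit 0) (p (nat_lit 0x41) (nat_lit 0) (p (nat_lit 0x1098a0b090a9a) (nat_lit 0) (p (nat_lit 0x89098a888a1a) (nat_lit 0) (p (nat_lit 0x108890a08079a) (nat_lit 0) (p (nat_lit 0x88088987871a) (nat_lit 0) (p (nat_lit 0x8000080000000078907088a) (nat_lit 0) (p (nat_lit 0x8000080000000070886860a) (nat_lit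 0) (p (nat_lit 0x10708060782) (nat_lit 0) (p (nat_lit 0x8687858702) (nat_lit 0) (p (nat_lit 0x10607050482) (nat_lit 0) (p (nat_lit 0x8586848402) (nat_lit 0) (p (nat_lit 0x160004) (nat_lit 0) (p (nat_lit 0x50612) (nat_lit 0) (p (nat_lit 0x40592) (nat_lit 0) (p (nat_lit 0x40492) (nat_lit 0) (p (nat_lit 0x30412) (nat_lit 0) (p (nat_lit 0x30212) (nat_lit 0) (p (nat_lit 0x20192) (nat_lit 0) (p (nat_lit 0x20092) (nat_lit 0) (p (nat_lit 0x10012) (nat_lit 0) pn)))))))))))))))))))))))))) :=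
  Cl.node (nat_lit 0x81) (nat_lit 2) (by decide +kernel) (ClAll.succ (ClAll.succ ClAll.zero n199) n200)

def n249 : Cl (O (nat_lit 6)) (R (nat_lit 102673))
    (p (nat_lit 0xc9) (nat_lit 0) (p (nat_lit 0x81) (nat_lit 0) (p (nat_lit 0x101) (nat_lit 1) (p (nat_lit 0x119) (nat_lit 0) (p (nat_lit 0xd1) (nat_lit 0) (p (nat_lit 0x89) (nat_lit 0) (p (nat_lit 0x41) (nat_lit 0) (p (nat_lit 0x1098a0b090a9a) (nat_lit 0) (p (nat_lit 0x89098a888a1a) (nat_lit 0) (p (nat_lit 0x108890a08079a) (nat_lit 0) (p (nat_lit 0x88088987871a) (nat_lit 0) (p (nat_lit 0x8000080000000078907088a) (nat_lit 0) (p (nat_lit 0x8000080000000070886860a) (nat_lit 0) (p (nat_lit 0x10708060782) (nat_lit 0) (p (nat_lit 0x8687858702) (nat_lit 0) (p (nat_lit 0x10607050482) (nat_lit 0) (p (nat_lit 0x8586848402) (nat_lit 0) (p (nat_lit 0x160004) (nat_lit 0) (p (nat_lit 0x50612) (nat_lit 0) (p (nat_lit 0x40592) (nat_lit 0) (p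 (nat_lit 0x40492) (nat_lit 0) (p (nat_lit 0x30412) (nat_lit 0) (p (nat_lit 0x30212) (nat_lit 0) (p (nat_lit 0x20192) (nat_lit 0) (p (nat_lit 0x20092) (nat_lit 0) (p (nat_lit 0x10012) (nat_lit 0) pn)))))))))))))))))))))))))) :=
  Cl.node (nat_lit 0x111) (nat_lit 2) (by decide +kernel) (ClAll.succ (ClAll.succ ClAll.zero n201) s66)

def n250 : Cl (O (nat_lit 6)) (R (nat_lit 102673))
    (p (nat_lit 0xc9) (nat_lit 1) (p (nat_lit 0x81) (nat_lit 0) (p (nat_lit 0x101) (nat_lit 1) (p (nat_lit 0x119) (nat_lit 0) (p (nat_lit 0xd1) (nat_lit 0) (p (nat_lit 0x89) (nat_lit 0) (p (nat_lit 0x41) (nat_lit 0) (p (nat_lit 0x1098a0b090a9a) (nat_lit 0) (p (nat_lit 0x89098a888a1a) (nat_lit 0) (p (nat_lit 0x108890a08079a) (nat_lit 0) (p (nat_lit 0x88088987871a) (nat_lit 0) (p (nat_lit 0x8000080000000078907088a) (nat_lit 0) (p (nat_lit 0x8000080000000070886860a) (nat_lit 0) (p (nat_lit 0x10708060782) (nat_lit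 0) (p (nat_lit 0x8687858702) (nat_lit 0) (p (nat_lit 0x10607050482) (nat_lit 0) (p (nat_lit 0x8586848402) (nat_lit 0) (p (nat_lit 0x160004) (nat_lit 0) (p (nat_lit 0x50612) (nat_lit 0) (p (nat_lit 0x40592) (nat_lit 0) (p (nat_lit 0x40492) (nat_lit 0) (p (nat_lit 0x30412) (nat_lit 0) (p (nat_lit 0x30212) (nat_lit 0) (p (nat_lit 0x20192) (nat_lit 0) (p (nat_lit 0x20092) (nat_lit 0) (p (nat_lit 0x10012) (nat_lit 0) pn)))))))))))))))))))))))))) :=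
  Cl.node (nat_lit 0x111) (nat_lit 2) (by decide +kernel) (ClAll.succ (ClAll.succ ClAll.zero n202) n203)

def n251 : Cl (O (nat_lit 6)) (R (nat_lit 102673))
    (p (nat_lit 0xc1) (nat_lit 0) (p (nat_lit 0x81) (nat_lit 1) (p (nat_lit 0x101) (nat_lit 1) (p (nat_lit 0x119) (nat_lit 0) (p (nat_lit 0xd1) (nat_lit 0) (p (nat_lit 0x89) (nat_lit 0) (p (nat_lit 0x41) (nat_lit 0) (p (nat_lit 0x1098a0b090a9a) (nat_lit 0) (p (nat_lit 0x89098a888a1a) (nat_lit 0) (p (nat_lit 0x108890a08079a) (nat_lit 0) (p (nat_lit 0x88088987871a) (nat_lit 0) (p (nat_lit 0x8000080000000078907088a) (nat_lit 0) (p (nat_lit 0x8000080000000070886860a) (nat_lit 0) (p (nat_lit 0x10708060782) (nat_lit 0) (p (nat_lit 0x8687858702) (nat_lit 0) (p (nat_lit 0x10607050482) (nat_lit 0) (p (nat_lit 0x8586848402) (nat_lit 0) (p (nat_lit 0x160004) (nat_lit 0) (p (nat_lit 0x50612) (nat_lit 0) (p (nat_lit 0x40592) (nat_lit 0) (p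 (nat_lit 0x40492) (nat_lit 0) (p (nat_lit 0x30412) (nat_lit 0) (p (nat_lit 0x30212) (nat_lit 0) (p (nat_lit 0x20192) (nat_lit 0) (p (nat_lit 0x20092) (nat_lit 0) (p (nat_lit 0x10012) (nat_lit 0) pn)))))))))))))))))))))))))) :=
  Cl.node (nat_lit 0xc9) (nat_lit 2) (by decide +kernel) (ClAll.succ (ClAll.succ ClAll.zero n204) n205)

def n252 : Cl (O (nat_lit 6)) (R (nat_lit 102673))
    (p (nat_lit 0x109) (nat_lit 1) (p (nat_lit 0xc9) (nat_lit 1) (p (nat_lit 0xc1) (nat_lit 0) (p (nat_lit 0x119) (nat_lit 1) (p (nat_lit 0xd1) (nat_lit 0) (p (nat_lit 0x89) (nat_lit 0) (p (nat_lit 0x41) (nat_lit 0) (p (nat_lit 0x1098a0b090a9a) (nat_lit 0) (p (nat_lit 0x89098a888a1a) (nat_lit 0) (p (nat_lit 0x108890a08079a) (nat_lit 0) (p (nat_lit 0x88088987871a) (nat_lit 0) (p (nat_lit 0x8000080000000078907088a) (nat_lit 0) (p (nat_lit 0x8000080000000070886860a) (nat_lit 0) (p (nat_lit 0x10708060782) (nat_lit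 0) (p (nat_lit 0x8687858702) (nat_lit 0) (p (nat_lit 0x10607050482) (nat_lit 0) (p (nat_lit 0x8586848402) (nat_lit 0) (p (nat_lit 0x160004) (nat_lit 0) (p (nat_lit 0x50612) (nat_lit 0) (p (nat_lit 0x40592) (nat_lit 0) (p (nat_lit 0x40492) (nat_lit 0) (p (nat_lit 0x30412) (nat_lit 0) (p (nat_lit 0x30212) (nat_lit 0) (p (nat_lit 0x20192) (nat_lit 0) (p (nat_lit 0x20092) (nat_lit 0) (p (nat_lit 0x10012) (nat_lit 0) pn)))))))))))))))))))))))))) :=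
  Cl.node (nat_lit 0x3cc2a) (nat_lit 12) (by decide +kernel) (ClAll.succ (ClAll.succ (ClAll.succ (ClAll.succ (ClAll.succ (ClAll.succ (ClAll.succ (ClAll.succ (ClAll.succ (ClAll.succ (ClAll.succ (ClAll.succ ClAll.zero s117) s118) n206) s137) s138) s139) s140) s141) s142) s143) s144) s145)

def n253 : Cl (O (nat_lit 6)) (R (nat_lit 102673))
    (p (nat_lit 0x109) (nat_lit 1) (p (nat_lit 0x81) (nat_lit 0) (p (nat_lit 0xc1) (nat_lit 1) (p (nat_lit 0x119) (nat_lit 1) (p (nat_lit 0xd1) (nat_lit 0) (p (nat_lit 0x89) (nat_lit 0) (p (nat_lit 0x41) (nat_lit 0) (p (nat_lit 0x1098a0b090a9a) (nat_lit 0) (p (nat_lit 0x89098a888a1a) (nat_lit 0) (p (nat_lit 0x108890a08079a) (nat_lit 0) (p (nat_lit 0x88088987871a) (nat_lit 0) (p (nat_lit 0x8000080000000078907088a) (nat_lit 0) (p (nat_lit 0x8000080000000070886860a) (nat_lit 0) (p (nat_lit 0x10708060782) (nat_lit 0) (p (nat_lit 0x8687858702) (nat_lit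 0) (p (nat_lit 0x10607050482) (nat_lit 0) (p (nat_lit 0x8586848402) (nat_lit 0) (p (nat_lit 0x160004) (nat_lit 0) (p (nat_lit 0x50612) (nat_lit 0) (p (nat_lit 0x40592) (nat_lit 0) (p (nat_lit 0x40492) (nat_lit 0) (p (nat_lit 0x30412) (nat_lit 0) (p (nat_lit 0x30212) (nat_lit 0) (p (nat_lit 0x20192) (nat_lit 0) (p (nat_lit 0x20092) (nat_lit 0) (p (nat_lit 0x10012) (nat_lit 0) pn)))))))))))))))))))))))))) :=
  Cl.node (nat_lit 0x3cc2a) (nat_lit 12) (by decide +kernel) (ClAll.succ (ClAll.succ (ClAll.succ (ClAll.succ (ClAll.succ (ClAll.succ (ClAll.succ (ClAll.succ (ClAll.succ (ClAll.succ (ClAll.succ (ClAll.succ ClAll.zero s147) s148) n207) s154) s155) s156) s157) s158) s159) s160) s161) s162)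

def n254 : Cl (O (nat_lit 6)) (R (nat_lit 102673))
    (p (nat_lit 0x101) (nat_lit 0) (p (nat_lit 0x81) (nat_lit 1) (p (nat_lit 0xc1) (nat_lit 1) (p (nat_lit 0x119) (nat_lit 1) (p (nat_lit 0xd1) (nat_lit 0) (p (nat_lit 0x89) (nat_lit 0) (p (nat_lit 0x41) (nat_lit 0) (p (nat_lit 0x1098a0b090a9a) (nat_lit 0) (p (nat_lit 0x89098a888a1a) (nat_lit 0) (p (nat_lit 0x108890a08079a) (nat_lit 0) (p (nat_lit 0x88088987871a) (nat_lit 0) (p (nat_lit 0x8000080000000078907088a) (nat_lit 0) (p (nat_lit 0x8000080000000070886860a) (nat_lit 0) (p (nat_lit 0x10708060782) (nat_lit 0) (p (nat_lit 0x8687858702) (nat_lit 0) (p (nat_lit 0x10607050482) (nat_lit 0) (p (nat_lit 0x8586848402) (nat_lit 0) (p (nat_lit 0x160004) (nat_lit 0) (p (nat_lit 0x50612) (nat_lit 0) (p (nat_lit 0x40592) (nat_lit 0) (p (nat_lit 0x40492) (nat_lit 0) (p (nat_lit 0x30412) (nat_lit 0) (p (nat_lit 0x30212) (nat_lit 0) (p (nat_lit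 0x20192) (nat_lit 0) (p (nat_lit 0x20092) (nat_lit 0) (p (nat_lit 0x10012) (nat_lit 0) pn)))))))))))))))))))))))))) :=
  Cl.node (nat_lit 0x109) (nat_lit 2) (by decide +kernel) (ClAll.succ (ClAll.succ ClAll.zero n208) n209)

def n255 : Cl (O (nat_lit 6)) (R (nat_lit 102673))
    (p (nat_lit 0x101) (nat_lit 1) (p (nat_lit 0x81) (nat_lit 1) (p (nat_lit 0xc1) (nat_lit 1) (p (nat_lit 0x119) (nat_lit 1) (p (nat_lit 0xd1) (nat_lit 0) (p (nat_lit 0x89) (nat_lit 0) (p (nat_lit 0x41) (nat_lit 0) (p (nat_lit 0x1098a0b090a9a) (nat_lit 0) (p (nat_lit 0x89098a888a1a) (nat_lit 0) (p (nat_lit 0x108890a08079a) (nat_lit 0) (p (nat_lit 0x88088987871a) (nat_lit 0) (p (nat_lit 0x8000080000000078907088a) (nat_lit 0) (p (nat_lit 0x8000080000000070886860a) (nat_lit 0) (p (nat_lit 0x10708060782) (nat_lit 0) (p (nat_lit 0x8687858702) (nat_lit 0) (p (nat_lit 0x10607050482) (nat_lit 0) (p (nat_lit 0x8586848402)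 (nat_lit 0) (p (nat_lit 0x160004) (nat_lit 0) (p (nat_lit 0x50612) (nat_lit 0) (p (nat_lit 0x40592) (nat_lit 0) (p (nat_lit 0x40492) (nat_lit 0) (p (nat_lit 0x30412) (nat_lit 0) (p (nat_lit 0x30212) (nat_lit 0) (p (nat_lit 0x20192) (nat_lit 0) (p (nat_lit 0x20092) (nat_lit 0) (p (nat_lit 0x10012) (nat_lit 0) pn)))))))))))))))))))))))))) :=
  Cl.node (nat_lit 0x444aa) (nat_lit 12) (by decide +kernel) (ClAll.succ (ClAll.succ (ClAll.succ (ClAll.succ (ClAll.succ (ClAll.succ (ClAll.succ (ClAll.succ (ClAll.succ (ClAll.succ (ClAll.succ (ClAll.succ ClAll.zero s191) s192) s193) s194) s195) s196) s197) s198) s199) s200) s201) s202)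

def n256 : Cl (O (nat_lit 6)) (R (nat_lit 102673))
    (p (nat_lit 0xc1) (nat_lit 1) (p (nat_lit 0x109) (nat_lit 1) (p (nat_lit 0x101) (nat_lit 0) (p (nat_lit 0x111) (nat_lit 0) (p (nat_lit 0xd1) (nat_lit 1) (p (nat_lit 0x89) (nat_lit 0) (p (nat_lit 0x41) (nat_lit 0) (p (nat_lit 0x1098a0b090a9a) (nat_lit 0) (p (nat_lit 0x89098a888a1a) (nat_lit 0) (p (nat_lit 0x108890a08079a) (nat_lit 0) (p (nat_lit 0x88088987871a) (nat_lit 0) (p (nat_lit 0x8000080000000078907088a) (nat_lit 0) (p (nat_lit 0x8000080000000070886860a) (nat_lit 0) (p (nat_lit 0x10708060782) (nat_lit 0) (p (nat_lit 0x8687858702) (nat_lit 0) (p (nat_lit 0x10607050482) (nat_lit 0) (p (nat_lit 0x8586848402) (nat_lit 0) (p (nat_lit 0x160004) (nat_lit 0) (p (nat_lit 0x50612) (nat_lit 0) (p (nat_lit 0x40592) (nat_lit 0) (p (nat_lit 0x40492) (nat_lit 0) (p (nat_lit 0x30412) (nat_lit 0) (p (nat_lit 0x30212) (nat_lit 0) (p (nat_lit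 0x20192) (nat_lit 0) (p (nat_lit 0x20092) (nat_lit 0) (p (nat_lit 0x10012) (nat_lit 0) pn)))))))))))))))))))))))))) :=
  Cl.node (nat_lit 0x20000c) (nat_lit 2) (by decide +kernel) (ClAll.succ (ClAll.succ ClAll.zero n210) s220)

def n257 : Cl (O (nat_lit 6)) (R (nat_lit 102673))
    (p (nat_lit 0x119) (nat_lit 0) (p (nat_lit 0x81) (nat_lit 0) (p (nat_lit 0x101) (nat_lit 1) (p (nat_lit 0x111) (nat_lit 0) (p (nat_lit 0xd1) (nat_lit 1) (p (nat_lit 0x89) (nat_lit 0) (p (nat_lit 0x41) (nat_lit 0) (p (nat_lit 0x1098a0b090a9a) (nat_lit 0) (p (nat_lit 0x89098a888a1a) (nat_lit 0) (p (nat_lit 0x108890a08079a) (nat_lit 0) (p (nat_lit 0x88088987871a) (nat_lit 0) (p (nat_lit 0x8000080000000078907088a) (nat_lit 0) (p (nat_lit 0x8000080000000070886860a) (nat_lit 0) (p (nat_lit 0x10708060782) (nat_lit 0) (p (nat_lit 0x8687858702) (nat_lit 0) (p (nat_lit 0x10607050482) (nat_lit 0) (p (nat_lit 0x8586848402)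 (nat_lit 0) (p (nat_lit 0x160004) (nat_lit 0) (p (nat_lit 0x50612) (nat_lit 0) (p (nat_lit 0x40592) (nat_lit 0) (p (nat_lit 0x40492) (nat_lit 0) (p (nat_lit 0x30412) (nat_lit 0) (p (nat_lit 0x30212) (nat_lit 0) (p (nat_lit 0x20192) (nat_lit 0) (p (nat_lit 0x20092) (nat_lit 0) (p (nat_lit 0x10012) (nat_lit 0) pn)))))))))))))))))))))))))) :=
  Cl.node (nat_lit 0x20000c) (nat_lit 2) (by decide +kernel) (ClAll.succ (ClAll.succ ClAll.zero n211) s235)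

def n258 : Cl (O (nat_lit 6)) (R (nat_lit 102673))
    (p (nat_lit 0x119) (nat_lit 1) (p (nat_lit 0x81) (nat_lit 0) (p (nat_lit 0x101) (nat_lit 1) (p (nat_lit 0x111) (nat_lit 0) (p (nat_lit 0xd1) (nat_lit 1) (p (nat_lit 0x89) (nat_lit 0) (p (nat_lit 0x41) (nat_lit 0) (p (nat_lit 0x1098a0b090a9a) (nat_lit 0) (p (nat_lit 0x89098a888a1a) (nat_lit 0) (p (nat_lit 0x108890a08079a) (nat_lit 0) (p (nat_lit 0x88088987871a) (nat_lit 0) (p (nat_lit 0x8000080000000078907088a) (nat_lit 0) (p (nat_lit 0x8000080000000070886860a) (nat_lit 0) (p (nat_lit 0x10708060782) (nat_lit 0) (p (nat_lit 0x8687858702) (nat_lit 0) (p (nat_lit 0x10607050482) (nat_lit 0) (p (nat_lit 0x8586848402) (nat_lit 0) (p (nat_lit 0x160004) (nat_lit 0) (p (nat_lit 0x50612) (nat_lit 0) (p (nat_lit 0x40592) (nat_lit 0) (p (nat_lit 0x40492) (nat_lit 0) (p (nat_lit 0x30412) (nat_lit 0) (p (nat_lit 0x30212) (nat_lit 0) (p (nat_lit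 0x20192) (nat_lit 0) (p (nat_lit 0x20092) (nat_lit 0) (p (nat_lit 0x10012) (nat_lit 0) pn)))))))))))))))))))))))))) :=
  Cl.node (nat_lit 0x3cc2a) (nat_lit 12) (by decide +kernel) (ClAll.succ (ClAll.succ (ClAll.succ (ClAll.succ (ClAll.succ (ClAll.succ (ClAll.succ (ClAll.succ (ClAll.succ (ClAll.succ (ClAll.succ (ClAll.succ ClAll.zero s236) s237) s238) s239) s240) s241) s242) s243) s244) s245) s246) s247)

def n259 : Cl (O (nat_lit 6)) (R (nat_lit 102673))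
    (p (nat_lit 0xc1) (nat_lit 0) (p (nat_lit 0x81) (nat_lit 1) (p (nat_lit 0x101) (nat_lit 1) (p (nat_lit 0x111) (nat_lit 0) (p (nat_lit 0xd1) (nat_lit 1) (p (nat_lit 0x89) (nat_lit 0) (p (nat_lit 0x41) (nat_lit 0) (p (nat_lit 0x1098a0b090a9a) (nat_lit 0) (p (nat_lit 0x89098a888a1a) (nat_lit 0) (p (nat_lit 0x108890a08079a) (nat_lit 0) (p (nat_lit 0x88088987871a) (nat_lit 0) (p (nat_lit 0x8000080000000078907088a) (nat_lit 0) (p (nat_lit 0x8000080000000070886860a) (nat_lit 0) (p (nat_lit 0x10708060782) (nat_lit 0) (p (nat_lit 0x8687858702) (nat_lit 0) (p (nat_lit 0x10607050482) (nat_lit 0) (p (nat_lit 0x8586848402) (nat_lit 0) (p (nat_lit 0x160004) (nat_lit 0) (p (nat_lit 0x50612) (nat_lit 0) (p (nat_lit 0x40592) (nat_lit 0) (p (nat_lit 0x40492) (nat_lit 0) (p (nat_lit 0x30412) (nat_lit 0) (p (nat_lit 0x30212) (nat_lit 0) (p (nat_lit 0x20192) (nat_lit 0) (p (nat_lit 0x20092) (nat_lit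 0) (p (nat_lit 0x10012) (nat_lit 0) pn)))))))))))))))))))))))))) :=
  Cl.node (nat_lit 0x119) (nat_lit 2) (by decide +kernel) (ClAll.succ (ClAll.succ ClAll.zero n212) n213)

def n260 : Cl (O (nat_lit 6)) (R (nat_lit 102673))
    (p (nat_lit 0x101) (nat_lit 0) (p (nat_lit 0xc1) (nat_lit 1) (p (nat_lit 0x81) (nat_lit 1) (p (nat_lit 0x111) (nat_lit 1) (p (nat_lit 0xd1) (nat_lit 1) (p (nat_lit 0x89) (nat_lit 0) (p (nat_lit 0x41) (nat_lit 0) (p (nat_lit 0x1098a0b090a9a) (nat_lit 0) (p (nat_lit 0x89098a888a1a) (nat_lit 0) (p (nat_lit 0x108890a08079a) (nat_lit 0) (p (nat_lit 0x88088987871a) (nat_lit 0) (p (nat_lit 0x8000080000000078907088a) (nat_lit 0) (p (nat_lit 0x8000080000000070886860a) (nat_lit 0) (p (nat_lit 0x10708060782) (nat_lit 0) (p (nat_lit 0x8687858702) (nat_lit 0) (p (nat_lit 0x10607050482) (nat_lit 0) (p (nat_lit 0x8586848402) (nat_lit 0) (p (nat_lit 0x160004) (nat_lit 0)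 (p (nat_lit 0x50612) (nat_lit 0) (p (nat_lit 0x40592) (nat_lit 0) (p (nat_lit 0x40492) (nat_lit 0) (p (nat_lit 0x30412) (nat_lit 0) (p (nat_lit 0x30212) (nat_lit 0) (p (nat_lit 0x20192) (nat_lit 0) (p (nat_lit 0x20092) (nat_lit 0) (p (nat_lit 0x10012) (nat_lit 0) pn)))))))))))))))))))))))))) :=
  Cl.node (nat_lit 0x3cc2a) (nat_lit 12) (by decide +kernel) (ClAll.succ (ClAll.succ (ClAll.succ (ClAll.succ (ClAll.succ (ClAll.succ (ClAll.succ (ClAll.succ (ClAll.succ (ClAll.succ (ClAll.succ (ClAll.succ ClAll.zero s277) s278) s279) s280) s281) s282) s283) s284) s285) s286) s287) s288)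

def n261 : Cl (O (nat_lit 6)) (R (nat_lit 102673))
    (p (nat_lit 0x111) (nat_lit 1) (p (nat_lit 0x109) (nat_lit 0) (p (nat_lit 0x101) (nat_lit 0) (p (nat_lit 0x119) (nat_lit 0) (p (nat_lit 0xc9) (nat_lit 0) (p (nat_lit 0x89) (nat_lit 1) (p (nat_lit 0x41) (nat_lit 0) (p (nat_lit 0x1098a0b090a9a) (nat_lit 0) (p (nat_lit 0x89098a888a1a) (nat_lit 0) (p (nat_lit 0x108890a08079a) (nat_lit 0) (p (nat_lit 0x88088987871a) (nat_lit 0) (p (nat_lit 0x8000080000000078907088a) (nat_lit 0) (p (nat_lit 0x8000080000000070886860a) (nat_lit 0) (p (nat_lit 0x10708060782) (nat_lit 0) (p (nat_lit 0x8687858702) (nat_lit 0) (p (nat_lit 0x10607050482) (nat_lit 0) (p (nat_lit 0x8586848402) (nat_lit 0) (p (nat_lit 0x160004) (nat_lit 0) (p (nat_lit 0x50612) (nat_lit 0) (p (nat_lit 0x40592) (nat_lit 0) (p (nat_lit 0x40492) (nat_lit 0) (p (nat_lit 0x30412) (nat_lit 0) (p (nat_lit 0x30212) (nat_lit 0) (p (nat_lit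 0x20192) (nat_lit 0) (p (nat_lit 0x20092) (nat_lit 0) (p (nat_lit 0x10012) (nat_lit 0) pn)))))))))))))))))))))))))) :=
  Cl.node (nat_lit 0xd1) (nat_lit 2) (by decide +kernel) (ClAll.succ (ClAll.succ ClAll.zero s291) n214)

def n262 : Cl (O (nat_lit 6)) (R (nat_lit 102673))
    (p (nat_lit 0xd1) (nat_lit 0) (p (nat_lit 0x109) (nat_lit 1) (p (nat_lit 0x101) (nat_lit 0) (p (nat_lit 0x119) (nat_lit 0) (p (nat_lit 0xc9) (nat_lit 0) (p (nat_lit 0x89) (nat_lit 1) (p (nat_lit 0x41) (nat_lit 0) (p (nat_lit 0x1098a0b090a9a) (nat_lit 0) (p (nat_lit 0x89098a888a1a) (nat_lit 0) (p (nat_lit 0x108890a08079a) (nat_lit 0) (p (nat_lit 0x88088987871a) (nat_lit 0) (p (nat_lit 0x8000080000000078907088a) (nat_lit 0) (p (nat_lit 0x8000080000000070886860a) (nat_lit 0) (p (nat_lit 0x10708060782) (nat_lit 0) (p (nat_lit 0x8687858702) (nat_lit 0) (p (nat_lit 0x10607050482) (nat_lit 0) (p (nat_lit 0x8586848402)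 (nat_lit 0) (p (nat_lit 0x160004) (nat_lit 0) (p (nat_lit 0x50612) (nat_lit 0) (p (nat_lit 0x40592) (nat_lit 0) (p (nat_lit 0x40492) (nat_lit 0) (p (nat_lit 0x30412) (nat_lit 0) (p (nat_lit 0x30212) (nat_lit 0) (p (nat_lit 0x20192) (nat_lit 0) (p (nat_lit 0x20092) (nat_lit 0) (p (nat_lit 0x10012) (nat_lit 0) pn)))))))))))))))))))))))))) :=
  Cl.node (nat_lit 0x20000c) (nat_lit 2) (by decide +kernel) (ClAll.succ (ClAll.succ ClAll.zero n215) s335)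

def n263 : Cl (O (nat_lit 6)) (R (nat_lit 102673))
    (p (nat_lit 0xd1) (nat_lit 1) (p (nat_lit 0x109) (nat_lit 1) (p (nat_lit 0x101) (nat_lit 0) (p (nat_lit 0x119) (nat_lit 0) (p (nat_lit 0xc9) (nat_lit 0) (p (nat_lit 0x89) (nat_lit 1) (p (nat_lit 0x41) (nat_lit 0) (p (nat_lit 0x1098a0b090a9a) (nat_lit 0) (p (nat_lit 0x89098a888a1a) (nat_lit 0) (p (nat_lit 0x108890a08079a) (nat_lit 0) (p (nat_lit 0x88088987871a) (nat_lit 0) (p (nat_lit 0x8000080000000078907088a) (nat_lit 0) (p (nat_lit 0x8000080000000070886860a) (nat_lit 0) (p (nat_lit 0x10708060782) (nat_lit 0) (p (nat_lit 0x8687858702) (nat_lit 0) (p (nat_lit 0x10607050482) (nat_lit 0) (p (nat_lit 0x8586848402) (nat_lit 0) (p (nat_lit 0x160004) (nat_lit 0) (p (nat_lit 0x50612) (nat_lit 0) (p (nat_lit 0x40592) (nat_lit 0) (p (nat_lit 0x40492) (nat_lit 0) (p (nat_lit 0x30412) (nat_lit 0) (p (nat_lit 0x30212) (nat_lit 0) (p (nat_lit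 0x20192) (nat_lit 0) (p (nat_lit 0x20092) (nat_lit 0) (p (nat_lit 0x10012) (nat_lit 0) pn)))))))))))))))))))))))))) :=
  Cl.node (nat_lit 0x444aa) (nat_lit 12) (by decide +kernel) (ClAll.succ (ClAll.succ (ClAll.succ (ClAll.succ (ClAll.succ (ClAll.succ (ClAll.succ (ClAll.succ (ClAll.succ (ClAll.succ (ClAll.succ (ClAll.succ ClAll.zero s336) s337) s338) s339) s340) s341) s342) n216) s362) s363) s364) s365)

def n264 : Cl (O (nat_lit 6)) (R (nat_lit 102673))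
    (p (nat_lit 0xd1) (nat_lit 0) (p (nat_lit 0xc1) (nat_lit 0) (p (nat_lit 0x101) (nat_lit 1) (p (nat_lit 0x119) (nat_lit 0) (p (nat_lit 0xc9) (nat_lit 0) (p (nat_lit 0x89) (nat_lit 1) (p (nat_lit 0x41) (nat_lit 0) (p (nat_lit 0x1098a0b090a9a) (nat_lit 0) (p (nat_lit 0x89098a888a1a) (nat_lit 0) (p (nat_lit 0x108890a08079a) (nat_lit 0) (p (nat_lit 0x88088987871a) (nat_lit 0) (p (nat_lit 0x8000080000000078907088a) (nat_lit 0) (p (nat_lit 0x8000080000000070886860a) (nat_lit 0) (p (nat_lit 0x10708060782) (nat_lit 0) (p (nat_lit 0x8687858702) (nat_lit 0) (p (nat_lit 0x10607050482) (nat_lit 0) (p (nat_lit 0x8586848402) (nat_lit 0) (p (nat_lit 0x160004) (nat_lit 0) (p (nat_lit 0x50612) (nat_lit 0) (p (nat_lit 0x40592) (nat_lit 0) (p (nat_lit 0x40492) (nat_lit 0) (p (nat_lit 0x30412) (nat_lit 0) (p (nat_lit 0x30212) (nat_lit 0) (p (nat_lit 0x20192) (nat_lit 0) (p (nat_lit 0x20092) (nat_lit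 0) (p (nat_lit 0x10012) (nat_lit 0) pn)))))))))))))))))))))))))) :=
  Cl.node (nat_lit 0x20000c) (nat_lit 2) (by decide +kernel) (ClAll.succ (ClAll.succ ClAll.zero n217) s382)

def n265 : Cl (O (nat_lit 6)) (R (nat_lit 102673))
    (p (nat_lit 0xd1) (nat_lit 1) (p (nat_lit 0xc1) (nat_lit 0) (p (nat_lit 0x101) (nat_lit 1) (p (nat_lit 0x119) (nat_lit 0) (p (nat_lit 0xc9) (nat_lit 0) (p (nat_lit 0x89) (nat_lit 1) (p (nat_lit 0x41) (nat_lit 0) (p (nat_lit 0x1098a0b090a9a) (nat_lit 0) (p (nat_lit 0x89098a888a1a) (nat_lit 0) (p (nat_lit 0x108890a08079a) (nat_lit 0) (p (nat_lit 0x88088987871a) (nat_lit 0) (p (nat_lit 0x8000080000000078907088a) (nat_lit 0) (p (nat_lit 0x8000080000000070886860a) (nat_lit 0) (p (nat_lit 0x10708060782) (nat_lit 0) (p (nat_lit 0x8687858702) (nat_lit 0) (p (nat_lit 0x10607050482) (nat_lit 0) (p (nat_lit 0x8586848402) (nat_lit 0) (p (nat_lit 0x160004) (nat_lit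 0) (p (nat_lit 0x50612) (nat_lit 0) (p (nat_lit 0x40592) (nat_lit 0) (p (nat_lit 0x40492) (nat_lit 0) (p (nat_lit 0x30412) (nat_lit 0) (p (nat_lit 0x30212) (nat_lit 0) (p (nat_lit 0x20192) (nat_lit 0) (p (nat_lit 0x20092) (nat_lit 0) (p (nat_lit 0x10012) (nat_lit 0) pn)))))))))))))))))))))))))) :=
  Cl.node (nat_lit 0x109) (nat_lit 2) (by decide +kernel) (ClAll.succ (ClAll.succ ClAll.zero n218) n219)

def n266 : Cl (O (nat_lit 6)) (R (nat_lit 102673))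
    (p (nat_lit 0x111) (nat_lit 1) (p (nat_lit 0xd1) (nat_lit 1) (p (nat_lit 0xc1) (nat_lit 0) (p (nat_lit 0x119) (nat_lit 1) (p (nat_lit 0xc9) (nat_lit 0) (p (nat_lit 0x89) (nat_lit 1) (p (nat_lit 0x41) (nat_lit 0) (p (nat_lit 0x1098a0b090a9a) (nat_lit 0) (p (nat_lit 0x89098a888a1a) (nat_lit 0) (p (nat_lit 0x108890a08079a) (nat_lit 0) (p (nat_lit 0x88088987871a) (nat_lit 0) (p (nat_lit 0x8000080000000078907088a) (nat_lit 0) (p (nat_lit 0x8000080000000070886860a) (nat_lit 0) (p (nat_lit 0x10708060782) (nat_lit 0) (p (nat_lit 0x8687858702) (nat_lit 0) (p (nat_lit 0x10607050482) (nat_lit 0) (p (nat_lit 0x8586848402) (nat_lit 0) (p (nat_lit 0x160004) (nat_lit 0) (p (nat_lit 0x50612) (nat_lit 0) (p (nat_lit 0x40592) (nat_lit 0) (p (nat_lit 0x40492) (nat_lit 0) (p (nat_lit 0x30412) (nat_lit 0) (p (nat_lit 0x30212) (nat_lit 0) (p (nat_lit 0x20192) (nat_lit 0) (p (nat_lit 0x20092) (nat_lit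 0) (p (nat_lit 0x10012) (nat_lit 0) pn)))))))))))))))))))))))))) :=
  Cl.node (nat_lit 0x444aa) (nat_lit 12) (by decide +kernel) (ClAll.succ (ClAll.succ (ClAll.succ (ClAll.succ (ClAll.succ (ClAll.succ (ClAll.succ (ClAll.succ (ClAll.succ (ClAll.succ (ClAll.succ (ClAll.succ ClAll.zero s397) s398) s399) s400) s401) s402) s403) n220) s410) s411) s412) s413)

def n267 : Cl (O (nat_lit 6)) (R (nat_lit 102673))
    (p (nat_lit 0x111) (nat_lit 0) (p (nat_lit 0x101) (nat_lit 0) (p (nat_lit 0xc1) (nat_lit 1) (p (nat_lit 0x119) (nat_lit 1) (p (nat_lit 0xc9) (nat_lit 0) (p (nat_lit 0x89) (nat_lit 1) (p (nat_lit 0x41) (nat_lit 0) (p (nat_lit 0x1098a0b090a9a) (nat_lit 0) (p (nat_lit 0x89098a888a1a) (nat_lit 0) (p (nat_lit 0x108890a08079a) (nat_lit 0) (p (nat_lit 0x88088987871a) (nat_lit 0) (p (nat_lit 0x8000080000000078907088a) (nat_lit 0) (p (nat_lit 0x8000080000000070886860a) (nat_lit 0) (p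 (nat_lit 0x10708060782) (nat_lit 0) (p (nat_lit 0x8687858702) (nat_lit 0) (p (nat_lit 0x10607050482) (nat_lit 0) (p (nat_lit 0x8586848402) (nat_lit 0) (p (nat_lit 0x160004) (nat_lit 0) (p (nat_lit 0x50612) (nat_lit 0) (p (nat_lit 0x40592) (nat_lit 0) (p (nat_lit 0x40492) (nat_lit 0) (p (nat_lit 0x30412) (nat_lit 0) (p (nat_lit 0x30212) (nat_lit 0) (p (nat_lit 0x20192) (nat_lit 0) (p (nat_lit 0x20092) (nat_lit 0) (p (nat_lit 0x10012) (nat_lit 0) pn)))))))))))))))))))))))))) :=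
  Cl.node (nat_lit 0x44c2a) (nat_lit 12) (by decide +kernel) (ClAll.succ (ClAll.succ (ClAll.succ (ClAll.succ (ClAll.succ (ClAll.succ (ClAll.succ (ClAll.succ (ClAll.succ (ClAll.succ (ClAll.succ (ClAll.succ ClAll.zero s414) s415) s416) s417) s418) s419) s420) s421) s422) s423) s424) s425)

def n268 : Cl (O (nat_lit 6)) (R (nat_lit 102673))
    (p (nat_lit 0x111) (nat_lit 1) (p (nat_lit 0x101) (nat_lit 0) (p (nat_lit 0xc1) (nat_lit 1) (p (nat_lit 0x119) (nat_lit 1) (p (nat_lit 0xc9) (nat_lit 0) (p (nat_lit 0x89) (nat_lit 1) (p (nat_lit 0x41) (nat_lit 0) (p (nat_lit 0x1098a0b090a9a) (nat_lit 0) (p (nat_lit 0x89098a888a1a) (nat_lit 0) (p (nat_lit 0x108890a08079a) (nat_lit 0) (p (nat_lit 0x88088987871a) (nat_lit 0) (p (nat_lit 0x8000080000000078907088a) (nat_lit 0) (p (nat_lit 0x8000080000000070886860a) (nat_lit 0) (p (nat_lit 0x10708060782) (nat_lit 0) (p (nat_lit 0x8687858702) (nat_lit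 0) (p (nat_lit 0x10607050482) (nat_lit 0) (p (nat_lit 0x8586848402) (nat_lit 0) (p (nat_lit 0x160004) (nat_lit 0) (p (nat_lit 0x50612) (nat_lit 0) (p (nat_lit 0x40592) (nat_lit 0) (p (nat_lit 0x40492) (nat_lit 0) (p (nat_lit 0x30412) (nat_lit 0) (p (nat_lit 0x30212) (nat_lit 0) (p (nat_lit 0x20192) (nat_lit 0) (p (nat_lit 0x20092) (nat_lit 0) (p (nat_lit 0x10012) (nat_lit 0) pn)))))))))))))))))))))))))) :=
  Cl.node (nat_lit 0x444aa) (nat_lit 12) (by decide +kernel) (ClAll.succ (ClAll.succ (ClAll.succ (ClAll.succ (ClAll.succ (ClAll.succ (ClAll.succ (ClAll.succ (ClAll.succ (ClAll.succ (ClAll.succ (ClAll.succ ClAll.zero s426) s427) s428) s429) s430) s431) s432) n221) s438) s439) s440) s441)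

def n269 : Cl (O (nat_lit 6)) (R (nat_lit 102673))
    (p (nat_lit 0x119) (nat_lit 1) (p (nat_lit 0x111) (nat_lit 0) (p (nat_lit 0x101) (nat_lit 0) (p (nat_lit 0x109) (nat_lit 0) (p (nat_lit 0xc9) (nat_lit 1) (p (nat_lit 0x89) (nat_lit 1) (p (nat_lit 0x41) (nat_lit 0) (p (nat_lit 0x1098a0b090a9a) (nat_lit 0) (p (nat_lit 0x89098a888a1a) (nat_lit 0) (p (nat_lit 0x108890a08079a) (nat_lit 0) (p (nat_lit 0x88088987871a) (nat_lit 0) (p (nat_lit 0x8000080000000078907088a) (nat_lit 0) (p (nat_lit 0x8000080000000070886860a) (nat_lit 0) (p (nat_lit 0x10708060782) (nat_lit 0) (p (nat_lit 0x8687858702) (nat_lit 0) (p (nat_lit 0x10607050482) (nat_lit 0) (p (nat_lit 0x8586848402) (nat_lit 0) (p (nat_lit 0x160004) (nat_lit 0) (p (nat_lit 0x50612) (nat_lit 0) (p (nat_lit 0x40592) (nat_lit 0) (p (nat_lit 0x40492) (nat_lit 0) (p (nat_lit 0x30412) (nat_lit 0) (p (nat_lit 0x30212) (nat_lit 0) (p (nat_lit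 0x20192) (nat_lit 0) (p (nat_lit 0x20092) (nat_lit 0) (p (nat_lit 0x10012) (nat_lit 0) pn)))))))))))))))))))))))))) :=
  Cl.node (nat_lit 0x444aa) (nat_lit 12) (by decide +kernel) (ClAll.succ (ClAll.succ (ClAll.succ (ClAll.succ (ClAll.succ (ClAll.succ (ClAll.succ (ClAll.succ (ClAll.succ (ClAll.succ (ClAll.succ (ClAll.succ ClAll.zero s444) s445) s446) s447) s448) s449) s450) n222) s459) s460) s461) s462)

def n270 : Cl (O (nat_lit 6)) (R (nat_lit 102673))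
    (p (nat_lit 0x89) (nat_lit 0) (p (nat_lit 0x109) (nat_lit 1) (p (nat_lit 0x101) (nat_lit 0) (p (nat_lit 0x119) (nat_lit 0) (p (nat_lit 0xd1) (nat_lit 0) (p (nat_lit 0x81) (nat_lit 0) (p (nat_lit 0x41) (nat_lit 1) (p (nat_lit 0x1098a0b090a9a) (nat_lit 0) (p (nat_lit 0x89098a888a1a) (nat_lit 0) (p (nat_lit 0x108890a08079a) (nat_lit 0) (p (nat_lit 0x88088987871a) (nat_lit 0) (p (nat_lit 0x8000080000000078907088a) (nat_lit 0) (p (nat_lit 0x8000080000000070886860a) (nat_lit 0) (p (nat_lit 0x10708060782) (nat_lit 0) (p (nat_lit 0x8687858702) (nat_lit 0) (p (nat_lit 0x10607050482) (nat_lit 0) (p (nat_lit 0x8586848402) (nat_lit 0) (p (nat_lit 0x160004) (nat_lit 0) (p (nat_lit 0x50612) (nat_lit 0) (p (nat_lit 0x40592) (nat_lit 0) (p (nat_lit 0x40492) (nat_lit 0) (p (nat_lit 0x30412) (nat_lit 0) (p (nat_lit 0x30212) (nat_lit 0) (p (nat_lit 0x20192) (nat_lit 0) (p (nat_lit 0x20092) (nat_lit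 0) (p (nat_lit 0x10012) (nat_lit 0) pn)))))))))))))))))))))))))) :=
  Cl.node (nat_lit 0x111) (nat_lit 2) (by decide +kernel) (ClAll.succ (ClAll.succ ClAll.zero n223) n224)

def n271 : Cl (O (nat_lit 6)) (R (nat_lit 102673))
    (p (nat_lit 0x89) (nat_lit 1) (p (nat_lit 0x109) (nat_lit 1) (p (nat_lit 0x101) (nat_lit 0) (p (nat_lit 0x119) (nat_lit 0) (p (nat_lit 0xd1) (nat_lit 0) (p (nat_lit 0x81) (nat_lit 0) (p (nat_lit 0x41) (nat_lit 1) (p (nat_lit 0x1098a0b090a9a) (nat_lit 0) (p (nat_lit 0x89098a888a1a) (nat_lit 0) (p (nat_lit 0x108890a08079a) (nat_lit 0) (p (nat_lit 0x88088987871a) (nat_lit 0) (p (nat_lit 0x8000080000000078907088a) (nat_lit 0) (p (nat_lit 0x8000080000000070886860a) (nat_lit 0) (p (nat_lit 0x10708060782) (nat_lit 0) (p (nat_lit 0x8687858702) (nat_lit 0) (p (nat_lit 0x10607050482) (nat_lit 0) (p (nat_lit 0x8586848402) (nat_lit 0) (p (nat_lit 0x160004) (nat_lit 0)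 (p (nat_lit 0x50612) (nat_lit 0) (p (nat_lit 0x40592) (nat_lit 0) (p (nat_lit 0x40492) (nat_lit 0) (p (nat_lit 0x30412) (nat_lit 0) (p (nat_lit 0x30212) (nat_lit 0) (p (nat_lit 0x20192) (nat_lit 0) (p (nat_lit 0x20092) (nat_lit 0) (p (nat_lit 0x10012) (nat_lit 0) pn)))))))))))))))))))))))))) :=
  Cl.node (nat_lit 0xc9) (nat_lit 2) (by decide +kernel) (ClAll.succ (ClAll.succ ClAll.zero n225) s537)

def n272 : Cl (O (nat_lit 6)) (R (nat_lit 102673))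
    (p (nat_lit 0x89) (nat_lit 0) (p (nat_lit 0xc1) (nat_lit 0) (p (nat_lit 0x101) (nat_lit 1) (p (nat_lit 0x119) (nat_lit 0) (p (nat_lit 0xd1) (nat_lit 0) (p (nat_lit 0x81) (nat_lit 0) (p (nat_lit 0x41) (nat_lit 1) (p (nat_lit 0x1098a0b090a9a) (nat_lit 0) (p (nat_lit 0x89098a888a1a) (nat_lit 0) (p (nat_lit 0x108890a08079a) (nat_lit 0) (p (nat_lit 0x88088987871a) (nat_lit 0) (p (nat_lit 0x8000080000000078907088a) (nat_lit 0) (p (nat_lit 0x8000080000000070886860a) (nat_lit 0) (p (nat_lit 0x10708060782) (nat_lit 0) (p (nat_lit 0x8687858702) (nat_lit 0) (p (nat_lit 0x10607050482) (nat_lit 0) (p (nat_lit 0x8586848402) (nat_lit 0) (p (nat_lit 0x160004) (nat_lit 0) (p (nat_lit 0x50612) (nat_lit 0) (p (nat_lit 0x40592) (nat_lit 0) (p (nat_lit 0x40492) (nat_lit 0) (p (nat_lit 0x30412) (nat_lit 0) (p (nat_lit 0x30212) (nat_lit 0) (p (nat_lit 0x20192) (nat_lit 0) (p (nat_lit 0x20092) (nat_lit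 0) (p (nat_lit 0x10012) (nat_lit 0) pn)))))))))))))))))))))))))) :=
  Cl.node (nat_lit 0x111) (nat_lit 2) (by decide +kernel) (ClAll.succ (ClAll.succ ClAll.zero n226) s541)

def n273 : Cl (O (nat_lit 6)) (R (nat_lit 102673))
    (p (nat_lit 0x89) (nat_lit 1) (p (nat_lit 0xc1) (nat_lit 0) (p (nat_lit 0x101) (nat_lit 1) (p (nat_lit 0x119) (nat_lit 0) (p (nat_lit 0xd1) (nat_lit 0) (p (nat_lit 0x81) (nat_lit 0) (p (nat_lit 0x41) (nat_lit 1) (p (nat_lit 0x1098a0b090a9a) (nat_lit 0) (p (nat_lit 0x89098a888a1a) (nat_lit 0) (p (nat_lit 0x108890a08079a) (nat_lit 0) (p (nat_lit 0x88088987871a) (nat_lit 0) (p (nat_lit 0x8000080000000078907088a) (nat_lit 0) (p (nat_lit 0x8000080000000070886860a) (nat_lit 0) (p (nat_lit 0x10708060782) (nat_lit 0) (p (nat_lit 0x8687858702) (nat_lit 0) (p (nat_lit 0x10607050482) (nat_lit 0) (p (nat_lit 0x8586848402) (nat_lit 0) (p (nat_lit 0x160004) (nat_lit 0)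 (p (nat_lit 0x50612) (nat_lit 0) (p (nat_lit 0x40592) (nat_lit 0) (p (nat_lit 0x40492) (nat_lit 0) (p (nat_lit 0x30412) (nat_lit 0) (p (nat_lit 0x30212) (nat_lit 0) (p (nat_lit 0x20192) (nat_lit 0) (p (nat_lit 0x20092) (nat_lit 0) (p (nat_lit 0x10012) (nat_lit 0) pn)))))))))))))))))))))))))) :=
  Cl.node (nat_lit 0xc9) (nat_lit 2) (by decide +kernel) (ClAll.succ (ClAll.succ ClAll.zero n227) n228)

def n274 : Cl (O (nat_lit 6)) (R (nat_lit 102673))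
    (p (nat_lit 0x89) (nat_lit 0) (p (nat_lit 0xc1) (nat_lit 1) (p (nat_lit 0x101) (nat_lit 1) (p (nat_lit 0x119) (nat_lit 0) (p (nat_lit 0xd1) (nat_lit 0) (p (nat_lit 0x81) (nat_lit 0) (p (nat_lit 0x41) (nat_lit 1) (p (nat_lit 0x1098a0b090a9a) (nat_lit 0) (p (nat_lit 0x89098a888a1a) (nat_lit 0) (p (nat_lit 0x108890a08079a) (nat_lit 0) (p (nat_lit 0x88088987871a) (nat_lit 0) (p (nat_lit 0x8000080000000078907088a) (nat_lit 0) (p (nat_lit 0x8000080000000070886860a) (nat_lit 0) (p (nat_lit 0x10708060782) (nat_lit 0) (p (nat_lit 0x8687858702) (nat_lit 0) (p (nat_lit 0x10607050482) (nat_lit 0) (p (nat_lit 0x8586848402) (nat_lit 0) (p (nat_lit 0x160004) (nat_lit 0) (p (nat_lit 0x50612) (nat_lit 0) (p (nat_lit 0x40592) (nat_lit 0) (p (nat_lit 0x40492) (nat_lit 0) (p (nat_lit 0x30412) (nat_lit 0) (p (nat_lit 0x30212) (nat_lit 0) (p (nat_lit 0x20192) (nat_lit 0) (p (nat_lit 0x20092) (nat_lit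 0) (p (nat_lit 0x10012) (nat_lit 0) pn)))))))))))))))))))))))))) :=
  Cl.node (nat_lit 0x3cc2a) (nat_lit 12) (by decide +kernel) (ClAll.succ (ClAll.succ (ClAll.succ (ClAll.succ (ClAll.succ (ClAll.succ (ClAll.succ (ClAll.succ (ClAll.succ (ClAll.succ (ClAll.succ (ClAll.succ ClAll.zero s573) s574) n229) s578) s579) s580) s581) s582) s583) s584) s585) s586)

def n275 : Cl (O (nat_lit 6)) (R (nat_lit 102673))
    (p (nat_lit 0x89) (nat_lit 1) (p (nat_lit 0xc1) (nat_lit 1) (p (nat_lit 0x101) (nat_lit 1) (p (nat_lit 0x119) (nat_lit 0) (p (nat_lit 0xd1) (nat_lit 0) (p (nat_lit 0x81) (nat_lit 0) (p (nat_lit 0x41) (nat_lit 1) (p (nat_lit 0x1098a0b090a9a) (nat_lit 0) (p (nat_lit 0x89098a888a1a) (nat_lit 0) (p (nat_lit 0x108890a08079a) (nat_lit 0) (p (nat_lit 0x88088987871a) (nat_lit 0) (p (nat_lit 0x8000080000000078907088a) (nat_lit 0) (p (nat_lit 0x8000080000000070886860a) (nat_lit 0) (p (nat_lit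 0x10708060782) (nat_lit 0) (p (nat_lit 0x8687858702) (nat_lit 0) (p (nat_lit 0x10607050482) (nat_lit 0) (p (nat_lit 0x8586848402) (nat_lit 0) (p (nat_lit 0x160004) (nat_lit 0) (p (nat_lit 0x50612) (nat_lit 0) (p (nat_lit 0x40592) (nat_lit 0) (p (nat_lit 0x40492) (nat_lit 0) (p (nat_lit 0x30412) (nat_lit 0) (p (nat_lit 0x30212) (nat_lit 0) (p (nat_lit 0x20192) (nat_lit 0) (p (nat_lit 0x20092) (nat_lit 0) (p (nat_lit 0x10012) (nat_lit 0) pn)))))))))))))))))))))))))) :=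
  Cl.node (nat_lit 0x3c4aa) (nat_lit 12) (by decide +kernel) (ClAll.succ (ClAll.succ (ClAll.succ (ClAll.succ (ClAll.succ (ClAll.succ (ClAll.succ (ClAll.succ (ClAll.succ (ClAll.succ (ClAll.succ (ClAll.succ ClAll.zero s587) s588) s589) s590) s591) s592) s593) n230) n231) s599) s600) s601)

def n276 : Cl (O (nat_lit 6)) (R (nat_lit 102673))
    (p (nat_lit 0x89) (nat_lit 1) (p (nat_lit 0xc9) (nat_lit 1) (p (nat_lit 0xc1) (nat_lit 0) (p (nat_lit 0x119) (nat_lit 1) (p (nat_lit 0xd1) (nat_lit 0) (p (nat_lit 0x81) (nat_lit 0) (p (nat_lit 0x41) (nat_lit 1) (p (nat_lit 0x1098a0b090a9a) (nat_lit 0) (p (nat_lit 0x89098a888a1a) (nat_lit 0) (p (nat_lit 0x108890a08079a) (nat_lit 0) (p (nat_lit 0x88088987871a) (nat_lit 0) (p (nat_lit 0x8000080000000078907088a) (nat_lit 0) (p (nat_lit 0x8000080000000070886860a) (nat_lit 0) (p (nat_lit 0x10708060782) (nat_lit 0) (p (nat_lit 0x8687858702) (nat_lit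 0) (p (nat_lit 0x10607050482) (nat_lit 0) (p (nat_lit 0x8586848402) (nat_lit 0) (p (nat_lit 0x160004) (nat_lit 0) (p (nat_lit 0x50612) (nat_lit 0) (p (nat_lit 0x40592) (nat_lit 0) (p (nat_lit 0x40492) (nat_lit 0) (p (nat_lit 0x30412) (nat_lit 0) (p (nat_lit 0x30212) (nat_lit 0) (p (nat_lit 0x20192) (nat_lit 0) (p (nat_lit 0x20092) (nat_lit 0) (p (nat_lit 0x10012) (nat_lit 0) pn)))))))))))))))))))))))))) :=
  Cl.node (nat_lit 0x109) (nat_lit 2) (by decide +kernel) (ClAll.succ (ClAll.succ ClAll.zero n232) n233)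

def n277 : Cl (O (nat_lit 6)) (R (nat_lit 102673))
    (p (nat_lit 0x89) (nat_lit 1) (p (nat_lit 0x101) (nat_lit 0) (p (nat_lit 0xc1) (nat_lit 1) (p (nat_lit 0x119) (nat_lit 1) (p (nat_lit 0xd1) (nat_lit 0) (p (nat_lit 0x81) (nat_lit 0) (p (nat_lit 0x41) (nat_lit 1) (p (nat_lit 0x1098a0b090a9a) (nat_lit 0) (p (nat_lit 0x89098a888a1a) (nat_lit 0) (p (nat_lit 0x108890a08079a) (nat_lit 0) (p (nat_lit 0x88088987871a) (nat_lit 0) (p (nat_lit 0x8000080000000078907088a) (nat_lit 0) (p (nat_lit 0x8000080000000070886860a) (nat_lit 0) (p (nat_lit 0x10708060782) (nat_lit 0) (p (nat_lit 0x8687858702) (nat_lit 0) (p (nat_lit 0x10607050482) (nat_lit 0) (p (nat_lit 0x8586848402) (nat_lit 0) (p (nat_lit 0x160004) (nat_lit 0) (p (nat_lit 0x50612) (nat_lit 0) (p (nat_lit 0x40592) (nat_lit 0) (p (nat_lit 0x40492) (nat_lit 0) (p (nat_lit 0x30412) (nat_lit 0) (p (nat_lit 0x30212) (nat_lit 0) (p (nat_lit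 0x20192) (nat_lit 0) (p (nat_lit 0x20092) (nat_lit 0) (p (nat_lit 0x10012) (nat_lit 0) pn)))))))))))))))))))))))))) :=
  Cl.node (nat_lit 0x109) (nat_lit 2) (by decide +kernel) (ClAll.succ (ClAll.succ ClAll.zero n234) n235)

def n278 : Cl (O (nat_lit 6)) (R (nat_lit 102673))
    (p (nat_lit 0x89) (nat_lit 1) (p (nat_lit 0x101) (nat_lit 1) (p (nat_lit 0xc1) (nat_lit 1) (p (nat_lit 0x119) (nat_lit 1) (p (nat_lit 0xd1) (nat_lit 0) (p (nat_lit 0x81) (nat_lit 0) (p (nat_lit 0x41) (nat_lit 1) (p (nat_lit 0x1098a0b090a9a) (nat_lit 0) (p (nat_lit 0x89098a888a1a) (nat_lit 0) (p (nat_lit 0x108890a08079a) (nat_lit 0) (p (nat_lit 0x88088987871a) (nat_lit 0) (p (nat_lit 0x8000080000000078907088a) (nat_lit 0) (p (nat_lit 0x8000080000000070886860a) (nat_lit 0) (p (nat_lit 0x10708060782) (nat_lit 0) (p (nat_lit 0x8687858702) (nat_lit 0) (p (nat_lit 0x10607050482) (nat_lit 0) (p (nat_lit 0x8586848402)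 (nat_lit 0) (p (nat_lit 0x160004) (nat_lit 0) (p (nat_lit 0x50612) (nat_lit 0) (p (nat_lit 0x40592) (nat_lit 0) (p (nat_lit 0x40492) (nat_lit 0) (p (nat_lit 0x30412) (nat_lit 0) (p (nat_lit 0x30212) (nat_lit 0) (p (nat_lit 0x20192) (nat_lit 0) (p (nat_lit 0x20092) (nat_lit 0) (p (nat_lit 0x10012) (nat_lit 0) pn)))))))))))))))))))))))))) :=
  Cl.node (nat_lit 0x3c4aa) (nat_lit 12) (by decide +kernel) (ClAll.succ (ClAll.succ (ClAll.succ (ClAll.succ (ClAll.succ (ClAll.succ (ClAll.succ (ClAll.succ (ClAll.succ (ClAll.succ (ClAll.succ (ClAll.succ ClAll.zero s661) s662) s663) s664) s665) s666) s667) s668) n236) s672) s673) s674)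

def n279 : Cl (O (nat_lit 6)) (R (nat_lit 102673))
    (p (nat_lit 0x89) (nat_lit 1) (p (nat_lit 0x109) (nat_lit 1) (p (nat_lit 0x101) (nat_lit 0) (p (nat_lit 0x111) (nat_lit 0) (p (nat_lit 0xd1) (nat_lit 1) (p (nat_lit 0x81) (nat_lit 0) (p (nat_lit 0x41) (nat_lit 1) (p (nat_lit 0x1098a0b090a9a) (nat_lit 0) (p (nat_lit 0x89098a888a1a) (nat_lit 0) (p (nat_lit 0x108890a08079a) (nat_lit 0) (p (nat_lit 0x88088987871a) (nat_lit 0) (p (nat_lit 0x8000080000000078907088a) (nat_lit 0) (p (nat_lit 0x8000080000000070886860a) (nat_lit 0) (p (nat_lit 0x10708060782) (nat_lit 0) (p (nat_lit 0x8687858702) (nat_lit 0) (p (nat_lit 0x10607050482) (nat_lit 0) (p (nat_lit 0x8586848402) (nat_lit 0) (p (nat_lit 0x160004) (nat_lit 0) (p (nat_lit 0x50612) (nat_lit 0) (p (nat_lit 0x40592) (nat_lit 0) (p (nat_lit 0x40492) (nat_lit 0) (p (nat_lit 0x30412) (nat_lit 0) (p (nat_lit 0x30212) (nat_lit 0) (p (nat_lit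 0x20192) (nat_lit 0) (p (nat_lit 0x20092) (nat_lit 0) (p (nat_lit 0x10012) (nat_lit 0) pn)))))))))))))))))))))))))) :=
  Cl.node (nat_lit 0xc9) (nat_lit 2) (by decide +kernel) (ClAll.succ (ClAll.succ ClAll.zero n237) s722)

def n280 : Cl (O (nat_lit 6)) (R (nat_lit 102673))
    (p (nat_lit 0x3cc2a) (nat_lit 1) (p (nat_lit 0x89) (nat_lit 0) (p (nat_lit 0x101) (nat_lit 1) (p (nat_lit 0x111) (nat_lit 0) (p (nat_lit 0xd1) (nat_lit 1) (p (nat_lit 0x81) (nat_lit 0) (p (nat_lit 0x41) (nat_lit 1) (p (nat_lit 0x1098a0b090a9a) (nat_lit 0) (p (nat_lit 0x89098a888a1a) (nat_lit 0) (p (nat_lit 0x108890a08079a) (nat_lit 0) (p (nat_lit 0x88088987871a) (nat_lit 0) (p (nat_lit 0x8000080000000078907088a) (nat_lit 0) (p (nat_lit 0x8000080000000070886860a) (nat_lit 0) (p (nat_lit 0x10708060782) (nat_lit 0) (p (nat_lit 0x8687858702) (nat_lit 0) (p (nat_lit 0x10607050482) (nat_lit 0) (p (nat_lit 0x8586848402)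 (nat_lit 0) (p (nat_lit 0x160004) (nat_lit 0) (p (nat_lit 0x50612) (nat_lit 0) (p (nat_lit 0x40592) (nat_lit 0) (p (nat_lit 0x40492) (nat_lit 0) (p (nat_lit 0x30412) (nat_lit 0) (p (nat_lit 0x30212) (nat_lit 0) (p (nat_lit 0x20192) (nat_lit 0) (p (nat_lit 0x20092) (nat_lit 0) (p (nat_lit 0x10012) (nat_lit 0) pn)))))))))))))))))))))))))) :=
  Cl.node (nat_lit 0x380c2) (nat_lit 1) (by decide +kernel) (ClAll.succ ClAll.zero n238)

def n281 : Cl (O (nat_lit 6)) (R (nat_lit 102673))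
    (p (nat_lit 0xc9) (nat_lit 0) (p (nat_lit 0x89) (nat_lit 1) (p (nat_lit 0x101) (nat_lit 1) (p (nat_lit 0x111) (nat_lit 0) (p (nat_lit 0xd1) (nat_lit 1) (p (nat_lit 0x81) (nat_lit 0) (p (nat_lit 0x41) (nat_lit 1) (p (nat_lit 0x1098a0b090a9a) (nat_lit 0) (p (nat_lit 0x89098a888a1a) (nat_lit 0) (p (nat_lit 0x108890a08079a) (nat_lit 0) (p (nat_lit 0x88088987871a) (nat_lit 0) (p (nat_lit 0x8000080000000078907088a) (nat_lit 0) (p (nat_lit 0x8000080000000070886860a) (nat_lit 0) (p (nat_lit 0x10708060782) (nat_lit 0) (p (nat_lit 0x8687858702) (nat_lit 0) (p (nat_lit 0x10607050482) (nat_lit 0) (p (nat_lit 0x8586848402) (nat_lit 0) (p (nat_lit 0x160004) (nat_lit 0) (p (nat_lit 0x50612) (nat_lit 0) (p (nat_lit 0x40592) (nat_lit 0) (p (nat_lit 0x40492) (nat_lit 0) (p (nat_lit 0x30412) (nat_lit 0) (p (nat_lit 0x30212) (nat_lit 0) (p (nat_lit 0x20192) (nat_lit 0) (p (nat_lit 0x20092) (nat_lit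 0) (p (nat_lit 0x10012) (nat_lit 0) pn)))))))))))))))))))))))))) :=
  Cl.node (nat_lit 0x3cc2a) (nat_lit 12) (by decide +kernel) (ClAll.succ (ClAll.succ (ClAll.succ (ClAll.succ (ClAll.succ (ClAll.succ (ClAll.succ (ClAll.succ (ClAll.succ (ClAll.succ (ClAll.succ (ClAll.succ ClAll.zero s736) n239) n240) s747) s748) s749) s750) s751) s752) s753) s754) s755)

def n282 : Cl (O (nat_lit 6)) (R (nat_lit 102673))
    (p (nat_lit 0x109) (nat_lit 0) (p (nat_lit 0xc9) (nat_lit 1) (p (nat_lit 0x89) (nat_lit 1) (p (nat_lit 0x111) (nat_lit 1) (p (nat_lit 0xd1) (nat_lit 1) (p (nat_lit 0x81) (nat_lit 0) (p (nat_lit 0x41) (nat_lit 1) (p (nat_lit 0x1098a0b090a9a) (nat_lit 0) (p (nat_lit 0x89098a888a1a) (nat_lit 0) (p (nat_lit 0x108890a08079a) (nat_lit 0) (p (nat_lit 0x88088987871a) (nat_lit 0) (p (nat_lit 0x8000080000000078907088a) (nat_lit 0) (p (nat_lit 0x8000080000000070886860a) (nat_lit 0) (p (nat_lit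 0x10708060782) (nat_lit 0) (p (nat_lit 0x8687858702) (nat_lit 0) (p (nat_lit 0x10607050482) (nat_lit 0) (p (nat_lit 0x8586848402) (nat_lit 0) (p (nat_lit 0x160004) (nat_lit 0) (p (nat_lit 0x50612) (nat_lit 0) (p (nat_lit 0x40592) (nat_lit 0) (p (nat_lit 0x40492) (nat_lit 0) (p (nat_lit 0x30412) (nat_lit 0) (p (nat_lit 0x30212) (nat_lit 0) (p (nat_lit 0x20192) (nat_lit 0) (p (nat_lit 0x20092) (nat_lit 0) (p (nat_lit 0x10012) (nat_lit 0) pn)))))))))))))))))))))))))) :=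
  Cl.node (nat_lit 0x3cc2a) (nat_lit 12) (by decide +kernel) (ClAll.succ (ClAll.succ (ClAll.succ (ClAll.succ (ClAll.succ (ClAll.succ (ClAll.succ (ClAll.succ (ClAll.succ (ClAll.succ (ClAll.succ (ClAll.succ ClAll.zero s759) s760) n241) s764) s765) s766) s767) s768) s769) s770) s771) s772)

def n283 : Cl (O (nat_lit 6)) (R (nat_lit 102673))
    (p (nat_lit 0x111) (nat_lit 1) (p (nat_lit 0x109) (nat_lit 0) (p (nat_lit 0x101) (nat_lit 0) (p (nat_lit 0x119) (nat_lit 0) (p (nat_lit 0xc1) (nat_lit 0) (p (nat_lit 0x81) (nat_lit 1) (p (nat_lit 0x41) (nat_lit 1) (p (nat_lit 0x1098a0b090a9a) (nat_lit 0) (p (nat_lit 0x89098a888a1a) (nat_lit 0) (p (nat_lit 0x108890a08079a) (nat_lit 0) (p (nat_lit 0x88088987871a) (nat_lit 0) (p (nat_lit 0x8000080000000078907088a) (nat_lit 0) (p (nat_lit 0x8000080000000070886860a) (nat_lit 0) (p (nat_lit 0x10708060782) (nat_lit 0) (p (nat_lit 0x8687858702) (nat_lit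 0) (p (nat_lit 0x10607050482) (nat_lit 0) (p (nat_lit 0x8586848402) (nat_lit 0) (p (nat_lit 0x160004) (nat_lit 0) (p (nat_lit 0x50612) (nat_lit 0) (p (nat_lit 0x40592) (nat_lit 0) (p (nat_lit 0x40492) (nat_lit 0) (p (nat_lit 0x30412) (nat_lit 0) (p (nat_lit 0x30212) (nat_lit 0) (p (nat_lit 0x20192) (nat_lit 0) (p (nat_lit 0x20092) (nat_lit 0) (p (nat_lit 0x10012) (nat_lit 0) pn)))))))))))))))))))))))))) :=
  Cl.node (nat_lit 0xd1) (nat_lit 2) (by decide +kernel) (ClAll.succ (ClAll.succ ClAll.zero s775) n242)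

def n284 : Cl (O (nat_lit 6)) (R (nat_lit 102673))
    (p (nat_lit 0xc9) (nat_lit 0) (p (nat_lit 0x109) (nat_lit 1) (p (nat_lit 0x101) (nat_lit 0) (p (nat_lit 0x119) (nat_lit 0) (p (nat_lit 0xc1) (nat_lit 0) (p (nat_lit 0x81) (nat_lit 1) (p (nat_lit 0x41) (nat_lit 1) (p (nat_lit 0x1098a0b090a9a) (nat_lit 0) (p (nat_lit 0x89098a888a1a) (nat_lit 0) (p (nat_lit 0x108890a08079a) (nat_lit 0) (p (nat_lit 0x88088987871a) (nat_lit 0) (p (nat_lit 0x8000080000000078907088a) (nat_lit 0) (p (nat_lit 0x8000080000000070886860a) (nat_lit 0) (p (nat_lit 0x10708060782) (nat_lit 0) (p (nat_lit 0x8687858702) (nat_lit 0) (p (nat_lit 0x10607050482) (nat_lit 0) (p (nat_lit 0x8586848402) (nat_lit 0) (p (nat_lit 0x160004) (nat_lit 0) (p (nat_lit 0x50612) (nat_lit 0) (p (nat_lit 0x40592) (nat_lit 0) (p (nat_lit 0x40492) (nat_lit 0) (p (nat_lit 0x30412) (nat_lit 0) (p (nat_lit 0x30212) (nat_lit 0) (p (nat_lit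 0x20192) (nat_lit 0) (p (nat_lit 0x20092) (nat_lit 0) (p (nat_lit 0x10012) (nat_lit 0) pn)))))))))))))))))))))))))) :=
  Cl.node (nat_lit 0xd1) (nat_lit 2) (by decide +kernel) (ClAll.succ (ClAll.succ ClAll.zero s792) n243)

def n285 : Cl (O (nat_lit 6)) (R (nat_lit 102673))
    (p (nat_lit 0xd1) (nat_lit 0) (p (nat_lit 0xc9) (nat_lit 0) (p (nat_lit 0x101) (nat_lit 1) (p (nat_lit 0x119) (nat_lit 0) (p (nat_lit 0xc1) (nat_lit 0) (p (nat_lit 0x81) (nat_lit 1) (p (nat_lit 0x41) (nat_lit 1) (p (nat_lit 0x1098a0b090a9a) (nat_lit 0) (p (nat_lit 0x89098a888a1a) (nat_lit 0) (p (nat_lit 0x108890a08079a) (nat_lit 0) (p (nat_lit 0x88088987871a) (nat_lit 0) (p (nat_lit 0x8000080000000078907088a) (nat_lit 0) (p (nat_lit 0x8000080000000070886860a) (nat_lit 0) (p (nat_lit 0x10708060782) (nat_lit 0) (p (nat_lit 0x8687858702) (nat_lit 0) (p (nat_lit 0x10607050482) (nat_lit 0) (p (nat_lit 0x8586848402)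 (nat_lit 0) (p (nat_lit 0x160004) (nat_lit 0) (p (nat_lit 0x50612) (nat_lit 0) (p (nat_lit 0x40592) (nat_lit 0) (p (nat_lit 0x40492) (nat_lit 0) (p (nat_lit 0x30412) (nat_lit 0) (p (nat_lit 0x30212) (nat_lit 0) (p (nat_lit 0x20192) (nat_lit 0) (p (nat_lit 0x20092) (nat_lit 0) (p (nat_lit 0x10012) (nat_lit 0) pn)))))))))))))))))))))))))) :=
  Cl.node (nat_lit 0x44c2a) (nat_lit 12) (by decide +kernel) (ClAll.succ (ClAll.succ (ClAll.succ (ClAll.succ (ClAll.succ (ClAll.succ (ClAll.succ (ClAll.succ (ClAll.succ (ClAll.succ (ClAll.succ (ClAll.succ ClAll.zero n244) n245) s812) s813) s814) s815) s816) s817) s818) s819) s820) s821)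

def n286 : Cl (O (nat_lit 6)) (R (nat_lit 102673))
    (p (nat_lit 0xd1) (nat_lit 1) (p (nat_lit 0xc9) (nat_lit 0) (p (nat_lit 0x101) (nat_lit 1) (p (nat_lit 0x119) (nat_lit 0) (p (nat_lit 0xc1) (nat_lit 0) (p (nat_lit 0x81) (nat_lit 1) (p (nat_lit 0x41) (nat_lit 1) (p (nat_lit 0x1098a0b090a9a) (nat_lit 0) (p (nat_lit 0x89098a888a1a) (nat_lit 0) (p (nat_lit 0x108890a08079a) (nat_lit 0) (p (nat_lit 0x88088987871a) (nat_lit 0) (p (nat_lit 0x8000080000000078907088a) (nat_lit 0) (p (nat_lit 0x8000080000000070886860a) (nat_lit 0) (p (nat_lit 0x10708060782) (nat_lit 0) (p (nat_lit 0x8687858702) (nat_lit 0) (p (nat_lit 0x10607050482) (nat_lit 0) (p (nat_lit 0x8586848402) (nat_lit 0) (p (nat_lit 0x160004) (nat_lit 0) (p (nat_lit 0x50612) (nat_lit 0) (p (nat_lit 0x40592) (nat_lit 0) (p (nat_lit 0x40492) (nat_lit 0) (p (nat_lit 0x30412) (nat_lit 0) (p (nat_lit 0x30212) (nat_lit 0) (p (nat_lit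 0x20192) (nat_lit 0) (p (nat_lit 0x20092) (nat_lit 0) (p (nat_lit 0x10012) (nat_lit 0) pn)))))))))))))))))))))))))) :=
  Cl.node (nat_lit 0x3c4aa) (nat_lit 12) (by decide +kernel) (ClAll.succ (ClAll.succ (ClAll.succ (ClAll.succ (ClAll.succ (ClAll.succ (ClAll.succ (ClAll.succ (ClAll.succ (ClAll.succ (ClAll.succ (ClAll.succ ClAll.zero s822) s823) s824) s825) s826) s827) s828) n246) s831) s832) s833) s834)

def n287 : Cl (O (nat_lit 6)) (R (nat_lit 102673))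
    (p (nat_lit 0x111) (nat_lit 1) (p (nat_lit 0xd1) (nat_lit 1) (p (nat_lit 0xc9) (nat_lit 0) (p (nat_lit 0x119) (nat_lit 1) (p (nat_lit 0xc1) (nat_lit 0) (p (nat_lit 0x81) (nat_lit 1) (p (nat_lit 0x41) (nat_lit 1) (p (nat_lit 0x1098a0b090a9a) (nat_lit 0) (p (nat_lit 0x89098a888a1a) (nat_lit 0) (p (nat_lit 0x108890a08079a) (nat_lit 0) (p (nat_lit 0x88088987871a) (nat_lit 0) (p (nat_lit 0x8000080000000078907088a) (nat_lit 0) (p (nat_lit 0x8000080000000070886860a) (nat_lit 0) (p (nat_lit 0x10708060782) (nat_lit 0) (p (nat_lit 0x8687858702) (nat_lit 0) (p (nat_lit 0x10607050482) (nat_lit 0) (p (nat_lit 0x8586848402) (nat_lit 0) (p (nat_lit 0x160004) (nat_lit 0) (p (nat_lit 0x50612) (nat_lit 0) (p (nat_lit 0x40592) (nat_lit 0) (p (nat_lit 0x40492) (nat_lit 0) (p (nat_lit 0x30412) (nat_lit 0) (p (nat_lit 0x30212) (nat_lit 0) (p (nat_lit 0x20192) (nat_lit 0) (p (nat_lit 0x20092) (nat_lit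 0) (p (nat_lit 0x10012) (nat_lit 0) pn)))))))))))))))))))))))))) :=
  Cl.node (nat_lit 0x89) (nat_lit 2) (by decide +kernel) (ClAll.succ (ClAll.succ ClAll.zero n247) s840)

def n288 : Cl (O (nat_lit 6)) (R (nat_lit 102673))
    (p (nat_lit 0x111) (nat_lit 0) (p (nat_lit 0x109) (nat_lit 0) (p (nat_lit 0xc9) (nat_lit 1) (p (nat_lit 0x119) (nat_lit 1) (p (nat_lit 0xc1) (nat_lit 0) (p (nat_lit 0x81) (nat_lit 1) (p (nat_lit 0x41) (nat_lit 1) (p (nat_lit 0x1098a0b090a9a) (nat_lit 0) (p (nat_lit 0x89098a888a1a) (nat_lit 0) (p (nat_lit 0x108890a08079a) (nat_lit 0) (p (nat_lit 0x88088987871a) (nat_lit 0) (p (nat_lit 0x8000080000000078907088a) (nat_lit 0) (p (nat_lit 0x8000080000000070886860a) (nat_lit 0) (p (nat_lit 0x10708060782) (nat_lit 0) (p (nat_lit 0x8687858702) (nat_lit 0) (p (nat_lit 0x10607050482) (nat_lit 0) (p (nat_lit 0x8586848402) (nat_lit 0) (p (nat_lit 0x160004) (nat_lit 0)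 (p (nat_lit 0x50612) (nat_lit 0) (p (nat_lit 0x40592) (nat_lit 0) (p (nat_lit 0x40492) (nat_lit 0) (p (nat_lit 0x30412) (nat_lit 0) (p (nat_lit 0x30212) (nat_lit 0) (p (nat_lit 0x20192) (nat_lit 0) (p (nat_lit 0x20092) (nat_lit 0) (p (nat_lit 0x10012) (nat_lit 0) pn)))))))))))))))))))))))))) :=
  Cl.node (nat_lit 0x44c2a) (nat_lit 12) (by decide +kernel) (ClAll.succ (ClAll.succ (ClAll.succ (ClAll.succ (ClAll.succ (ClAll.succ (ClAll.succ (ClAll.succ (ClAll.succ (ClAll.succ (ClAll.succ (ClAll.succ ClAll.zero s841) s842) s843) s844) s845) s846) s847) s848) s849) s850) s851) s852)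

def n289 : Cl (O (nat_lit 6)) (R (nat_lit 102673))
    (p (nat_lit 0x111) (nat_lit 1) (p (nat_lit 0x109) (nat_lit 0) (p (nat_lit 0xc9) (nat_lit 1) (p (nat_lit 0x119) (nat_lit 1) (p (nat_lit 0xc1) (nat_lit 0) (p (nat_lit 0x81) (nat_lit 1) (p (nat_lit 0x41) (nat_lit 1) (p (nat_lit 0x1098a0b090a9a) (nat_lit 0) (p (nat_lit 0x89098a888a1a) (nat_lit 0) (p (nat_lit 0x108890a08079a) (nat_lit 0) (p (nat_lit 0x88088987871a) (nat_lit 0) (p (nat_lit 0x8000080000000078907088a) (nat_lit 0) (p (nat_lit 0x8000080000000070886860a) (nat_lit 0) (p (nat_lit 0x10708060782) (nat_lit 0) (p (nat_lit 0x8687858702) (nat_lit 0) (p (nat_lit 0x10607050482) (nat_lit 0) (p (nat_lit 0x8586848402) (nat_lit 0) (p (nat_lit 0x160004) (nat_lit 0) (p (nat_lit 0x50612) (nat_lit 0) (p (nat_lit 0x40592) (nat_lit 0) (p (nat_lit 0x40492) (nat_lit 0) (p (nat_lit 0x30412) (nat_lit 0) (p (nat_lit 0x30212) (nat_lit 0) (p (nat_lit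 0x20192) (nat_lit 0) (p (nat_lit 0x20092) (nat_lit 0) (p (nat_lit 0x10012) (nat_lit 0) pn)))))))))))))))))))))))))) :=
  Cl.node (nat_lit 0x3c4aa) (nat_lit 12) (by decide +kernel) (ClAll.succ (ClAll.succ (ClAll.succ (ClAll.succ (ClAll.succ (ClAll.succ (ClAll.succ (ClAll.succ (ClAll.succ (ClAll.succ (ClAll.succ (ClAll.succ ClAll.zero s853) s854) s855) s856) s857) s858) s859) s860) s861) s862) s863) s864)

def n290 : Cl (O (nat_lit 6)) (R (nat_lit 102673))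
    (p (nat_lit 0x109) (nat_lit 1) (p (nat_lit 0x101) (nat_lit 0) (p (nat_lit 0x119) (nat_lit 0) (p (nat_lit 0xd1) (nat_lit 0) (p (nat_lit 0x89) (nat_lit 0) (p (nat_lit 0x41) (nat_lit 0) (p (nat_lit 0x1098a0b090a9a) (nat_lit 0) (p (nat_lit 0x89098a888a1a) (nat_lit 0) (p (nat_lit 0x108890a08079a) (nat_lit 0) (p (nat_lit 0x88088987871a) (nat_lit 0) (p (nat_lit 0x8000080000000078907088a) (nat_lit 0) (p (nat_lit 0x8000080000000070886860a) (nat_lit 0) (p (nat_lit 0x10708060782) (nat_lit 0) (p (nat_lit 0x8687858702) (nat_lit 0) (p (nat_lit 0x10607050482) (nat_lit 0) (p (nat_lit 0x8586848402) (nat_lit 0) (p (nat_lit 0x160004) (nat_lit 0) (p (nat_lit 0x50612) (nat_lit 0) (p (nat_lit 0x40592) (nat_lit 0) (p (nat_lit 0x40492) (nat_lit 0) (p (nat_lit 0x30412) (nat_lit 0) (p (nat_lit 0x30212) (nat_lit 0) (p (nat_lit 0x20192) (nat_lit 0) (p (nat_lit 0x20092) (nat_lit 0) (p (nat_lit 0x10012) (nat_lit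 0) pn))))))))))))))))))))))))) :=
  Cl.node (nat_lit 0xc9) (nat_lit 2) (by decide +kernel) (ClAll.succ (ClAll.succ ClAll.zero s1) n248)

def n291 : Cl (O (nat_lit 6)) (R (nat_lit 102673))
    (p (nat_lit 0x81) (nat_lit 0) (p (nat_lit 0x101) (nat_lit 1) (p (nat_lit 0x119) (nat_lit 0) (p (nat_lit 0xd1) (nat_lit 0) (p (nat_lit 0x89) (nat_lit 0) (p (nat_lit 0x41) (nat_lit 0) (p (nat_lit 0x1098a0b090a9a) (nat_lit 0) (p (nat_lit 0x89098a888a1a) (nat_lit 0) (p (nat_lit 0x108890a08079a) (nat_lit 0) (p (nat_lit 0x88088987871a) (nat_lit 0) (p (nat_lit 0x8000080000000078907088a) (nat_lit 0) (p (nat_lit 0x8000080000000070886860a) (nat_lit 0) (p (nat_lit 0x10708060782) (nat_lit 0) (p (nat_lit 0x8687858702) (nat_lit 0) (p (nat_lit 0x10607050482) (nat_lit 0) (p (nat_lit 0x8586848402) (nat_lit 0) (p (nat_lit 0x160004) (nat_lit 0) (p (nat_lit 0x50612) (nat_lit 0) (p (nat_lit 0x40592) (nat_lit 0)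 (p (nat_lit 0x40492) (nat_lit 0) (p (nat_lit 0x30412) (nat_lit 0) (p (nat_lit 0x30212) (nat_lit 0) (p (nat_lit 0x20192) (nat_lit 0) (p (nat_lit 0x20092) (nat_lit 0) (p (nat_lit 0x10012) (nat_lit 0) pn))))))))))))))))))))))))) :=
  Cl.node (nat_lit 0xc9) (nat_lit 2) (by decide +kernel) (ClAll.succ (ClAll.succ ClAll.zero n249) n250)

def n292 : Cl (O (nat_lit 6)) (R (nat_lit 102673))
    (p (nat_lit 0x81) (nat_lit 1) (p (nat_lit 0x101) (nat_lit 1) (p (nat_lit 0x119) (nat_lit 0) (p (nat_lit 0xd1) (nat_lit 0) (p (nat_lit 0x89) (nat_lit 0) (p (nat_lit 0x41) (nat_lit 0) (p (nat_lit 0x1098a0b090a9a) (nat_lit 0) (p (nat_lit 0x89098a888a1a) (nat_lit 0) (p (nat_lit 0x108890a08079a) (nat_lit 0) (p (nat_lit 0x88088987871a) (nat_lit 0) (p (nat_lit 0x8000080000000078907088a) (nat_lit 0) (p (nat_lit 0x8000080000000070886860a) (nat_lit 0) (p (nat_lit 0x10708060782) (nat_lit 0) (p (nat_lit 0x8687858702)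 (nat_lit 0) (p (nat_lit 0x10607050482) (nat_lit 0) (p (nat_lit 0x8586848402) (nat_lit 0) (p (nat_lit 0x160004) (nat_lit 0) (p (nat_lit 0x50612) (nat_lit 0) (p (nat_lit 0x40592) (nat_lit 0) (p (nat_lit 0x40492) (nat_lit 0) (p (nat_lit 0x30412) (nat_lit 0) (p (nat_lit 0x30212) (nat_lit 0) (p (nat_lit 0x20192) (nat_lit 0) (p (nat_lit 0x20092) (nat_lit 0) (p (nat_lit 0x10012) (nat_lit 0) pn))))))))))))))))))))))))) :=
  Cl.node (nat_lit 0xc1) (nat_lit 2) (by decide +kernel) (ClAll.succ (ClAll.succ ClAll.zero n251) s114)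

def n293 : Cl (O (nat_lit 6)) (R (nat_lit 102673))
    (p (nat_lit 0xc9) (nat_lit 1) (p (nat_lit 0xc1) (nat_lit 0) (p (nat_lit 0x119) (nat_lit 1) (p (nat_lit 0xd1) (nat_lit 0) (p (nat_lit 0x89) (nat_lit 0) (p (nat_lit 0x41) (nat_lit 0) (p (nat_lit 0x1098a0b090a9a) (nat_lit 0) (p (nat_lit 0x89098a888a1a) (nat_lit 0) (p (nat_lit 0x108890a08079a) (nat_lit 0) (p (nat_lit 0x88088987871a) (nat_lit 0) (p (nat_lit 0x8000080000000078907088a) (nat_lit 0) (p (nat_lit 0x8000080000000070886860a) (nat_lit 0) (p (nat_lit 0x10708060782) (nat_lit 0) (p (nat_lit 0x8687858702) (nat_lit 0) (p (nat_lit 0x10607050482) (nat_lit 0) (p (nat_lit 0x8586848402) (nat_lit 0) (p (nat_lit 0x160004) (nat_lit 0) (p (nat_lit 0x50612) (nat_lit 0) (p (nat_lit 0x40592) (nat_lit 0) (p (nat_lit 0x40492) (nat_lit 0) (p (nat_lit 0x30412) (nat_lit 0) (p (nat_lit 0x30212) (nat_lit 0) (p (nat_lit 0x20192) (nat_lit 0) (p (nat_lit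 0x20092) (nat_lit 0) (p (nat_lit 0x10012) (nat_lit 0) pn))))))))))))))))))))))))) :=
  Cl.node (nat_lit 0x109) (nat_lit 2) (by decide +kernel) (ClAll.succ (ClAll.succ ClAll.zero s116) n252)

def n294 : Cl (O (nat_lit 6)) (R (nat_lit 102673))
    (p (nat_lit 0x81) (nat_lit 0) (p (nat_lit 0xc1) (nat_lit 1) (p (nat_lit 0x119) (nat_lit 1) (p (nat_lit 0xd1) (nat_lit 0) (p (nat_lit 0x89) (nat_lit 0) (p (nat_lit 0x41) (nat_lit 0) (p (nat_lit 0x1098a0b090a9a) (nat_lit 0) (p (nat_lit 0x89098a888a1a) (nat_lit 0) (p (nat_lit 0x108890a08079a) (nat_lit 0) (p (nat_lit 0x88088987871a) (nat_lit 0) (p (nat_lit 0x8000080000000078907088a) (nat_lit 0) (p (nat_lit 0x8000080000000070886860a) (nat_lit 0) (p (nat_lit 0x10708060782) (nat_lit 0) (p (nat_lit 0x8687858702) (nat_lit 0) (p (nat_lit 0x10607050482) (nat_lit 0) (p (nat_lit 0x8586848402) (nat_lit 0) (p (nat_lit 0x160004) (nat_lit 0) (p (nat_lit 0x50612)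 (nat_lit 0) (p (nat_lit 0x40592) (nat_lit 0) (p (nat_lit 0x40492) (nat_lit 0) (p (nat_lit 0x30412) (nat_lit 0) (p (nat_lit 0x30212) (nat_lit 0) (p (nat_lit 0x20192) (nat_lit 0) (p (nat_lit 0x20092) (nat_lit 0) (p (nat_lit 0x10012) (nat_lit 0) pn))))))))))))))))))))))))) :=
  Cl.node (nat_lit 0x109) (nat_lit 2) (by decide +kernel) (ClAll.succ (ClAll.succ ClAll.zero s146) n253)

def n295 : Cl (O (nat_lit 6)) (R (nat_lit 102673))
    (p (nat_lit 0x81) (nat_lit 1) (p (nat_lit 0xc1) (nat_lit 1) (p (nat_lit 0x119) (nat_lit 1) (p (nat_lit 0xd1) (nat_lit 0) (p (nat_lit 0x89) (nat_lit 0) (p (nat_lit 0x41) (nat_lit 0) (p (nat_lit 0x1098a0b090a9a) (nat_lit 0) (p (nat_lit 0x89098a888a1a) (nat_lit 0) (p (nat_lit 0x108890a08079a) (nat_lit 0) (p (nat_lit 0x88088987871a) (nat_lit 0) (p (nat_lit 0x8000080000000078907088a) (nat_lit 0) (p (nat_lit 0x8000080000000070886860a) (nat_lit 0) (p (nat_lit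 0x10708060782) (nat_lit 0) (p (nat_lit 0x8687858702) (nat_lit 0) (p (nat_lit 0x10607050482) (nat_lit 0) (p (nat_lit 0x8586848402) (nat_lit 0) (p (nat_lit 0x160004) (nat_lit 0) (p (nat_lit 0x50612) (nat_lit 0) (p (nat_lit 0x40592) (nat_lit 0) (p (nat_lit 0x40492) (nat_lit 0) (p (nat_lit 0x30412) (nat_lit 0) (p (nat_lit 0x30212) (nat_lit 0) (p (nat_lit 0x20192) (nat_lit 0) (p (nat_lit 0x20092) (nat_lit 0) (p (nat_lit 0x10012) (nat_lit 0) pn))))))))))))))))))))))))) :=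
  Cl.node (nat_lit 0x101) (nat_lit 2) (by decide +kernel) (ClAll.succ (ClAll.succ ClAll.zero n254) n255)

def n296 : Cl (O (nat_lit 6)) (R (nat_lit 102673))
    (p (nat_lit 0x109) (nat_lit 1) (p (nat_lit 0x101) (nat_lit 0) (p (nat_lit 0x111) (nat_lit 0) (p (nat_lit 0xd1) (nat_lit 1) (p (nat_lit 0x89) (nat_lit 0) (p (nat_lit 0x41) (nat_lit 0) (p (nat_lit 0x1098a0b090a9a) (nat_lit 0) (p (nat_lit 0x89098a888a1a) (nat_lit 0) (p (nat_lit 0x108890a08079a) (nat_lit 0) (p (nat_lit 0x88088987871a) (nat_lit 0) (p (nat_lit 0x8000080000000078907088a) (nat_lit 0) (p (nat_lit 0x8000080000000070886860a) (nat_lit 0) (p (nat_lit 0x10708060782) (nat_lit 0) (p (nat_lit 0x8687858702) (nat_lit 0) (p (nat_lit 0x10607050482) (nat_lit 0) (p (nat_lit 0x8586848402) (nat_lit 0) (p (nat_lit 0x160004) (nat_lit 0) (p (nat_lit 0x50612) (nat_lit 0) (p (nat_lit 0x40592) (nat_lit 0) (p (nat_lit 0x40492) (nat_lit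 0) (p (nat_lit 0x30412) (nat_lit 0) (p (nat_lit 0x30212) (nat_lit 0) (p (nat_lit 0x20192) (nat_lit 0) (p (nat_lit 0x20092) (nat_lit 0) (p (nat_lit 0x10012) (nat_lit 0) pn))))))))))))))))))))))))) :=
  Cl.node (nat_lit 0xc1) (nat_lit 2) (by decide +kernel) (ClAll.succ (ClAll.succ ClAll.zero s204) n256)

def n297 : Cl (O (nat_lit 6)) (R (nat_lit 102673))
    (p (nat_lit 0x81) (nat_lit 0) (p (nat_lit 0x101) (nat_lit 1) (p (nat_lit 0x111) (nat_lit 0) (p (nat_lit 0xd1) (nat_lit 1) (p (nat_lit 0x89) (nat_lit 0) (p (nat_lit 0x41) (nat_lit 0) (p (nat_lit 0x1098a0b090a9a) (nat_lit 0) (p (nat_lit 0x89098a888a1a) (nat_lit 0) (p (nat_lit 0x108890a08079a) (nat_lit 0) (p (nat_lit 0x88088987871a) (nat_lit 0) (p (nat_lit 0x8000080000000078907088a) (nat_lit 0) (p (nat_lit 0x8000080000000070886860a) (nat_lit 0) (p (nat_lit 0x10708060782) (nat_lit 0) (p (nat_lit 0x8687858702) (nat_lit 0) (p (nat_lit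 0x10607050482) (nat_lit 0) (p (nat_lit 0x8586848402) (nat_lit 0) (p (nat_lit 0x160004) (nat_lit 0) (p (nat_lit 0x50612) (nat_lit 0) (p (nat_lit 0x40592) (nat_lit 0) (p (nat_lit 0x40492) (nat_lit 0) (p (nat_lit 0x30412) (nat_lit 0) (p (nat_lit 0x30212) (nat_lit 0) (p (nat_lit 0x20192) (nat_lit 0) (p (nat_lit 0x20092) (nat_lit 0) (p (nat_lit 0x10012) (nat_lit 0) pn))))))))))))))))))))))))) :=
  Cl.node (nat_lit 0x119) (nat_lit 2) (by decide +kernel) (ClAll.succ (ClAll.succ ClAll.zero n257) n258)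

def n298 : Cl (O (nat_lit 6)) (R (nat_lit 102673))
    (p (nat_lit 0x81) (nat_lit 1) (p (nat_lit 0x101) (nat_lit 1) (p (nat_lit 0x111) (nat_lit 0) (p (nat_lit 0xd1) (nat_lit 1) (p (nat_lit 0x89) (nat_lit 0) (p (nat_lit 0x41) (nat_lit 0) (p (nat_lit 0x1098a0b090a9a) (nat_lit 0) (p (nat_lit 0x89098a888a1a) (nat_lit 0) (p (nat_lit 0x108890a08079a) (nat_lit 0) (p (nat_lit 0x88088987871a) (nat_lit 0) (p (nat_lit 0x8000080000000078907088a) (nat_lit 0) (p (nat_lit 0x8000080000000070886860a) (nat_lit 0) (p (nat_lit 0x10708060782) (nat_lit 0) (p (nat_lit 0x8687858702) (nat_lit 0) (p (nat_lit 0x10607050482) (nat_lit 0) (p (nat_lit 0x8586848402) (nat_lit 0) (p (nat_lit 0x160004) (nat_lit 0) (p (nat_lit 0x50612) (nat_lit 0) (p (nat_lit 0x40592) (nat_lit 0) (p (nat_lit 0x40492) (nat_lit 0) (p (nat_lit 0x30412) (nat_lit 0) (p (nat_lit 0x30212) (nat_lit 0) (p (nat_lit 0x20192) (nat_lit 0) (p (nat_lit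 0x20092) (nat_lit 0) (p (nat_lit 0x10012) (nat_lit 0) pn))))))))))))))))))))))))) :=
  Cl.node (nat_lit 0xc1) (nat_lit 2) (by decide +kernel) (ClAll.succ (ClAll.succ ClAll.zero n259) s274)

def n299 : Cl (O (nat_lit 6)) (R (nat_lit 102673))
    (p (nat_lit 0xc1) (nat_lit 1) (p (nat_lit 0x81) (nat_lit 1) (p (nat_lit 0x111) (nat_lit 1) (p (nat_lit 0xd1) (nat_lit 1) (p (nat_lit 0x89) (nat_lit 0) (p (nat_lit 0x41) (nat_lit 0) (p (nat_lit 0x1098a0b090a9a) (nat_lit 0) (p (nat_lit 0x89098a888a1a) (nat_lit 0) (p (nat_lit 0x108890a08079a) (nat_lit 0) (p (nat_lit 0x88088987871a) (nat_lit 0) (p (nat_lit 0x8000080000000078907088a) (nat_lit 0) (p (nat_lit 0x8000080000000070886860a) (nat_lit 0) (p (nat_lit 0x10708060782) (nat_lit 0) (p (nat_lit 0x8687858702) (nat_lit 0) (p (nat_lit 0x10607050482) (nat_lit 0) (p (nat_lit 0x8586848402) (nat_lit 0) (p (nat_lit 0x160004) (nat_lit 0) (p (nat_lit 0x50612)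 (nat_lit 0) (p (nat_lit 0x40592) (nat_lit 0) (p (nat_lit 0x40492) (nat_lit 0) (p (nat_lit 0x30412) (nat_lit 0) (p (nat_lit 0x30212) (nat_lit 0) (p (nat_lit 0x20192) (nat_lit 0) (p (nat_lit 0x20092) (nat_lit 0) (p (nat_lit 0x10012) (nat_lit 0) pn))))))))))))))))))))))))) :=
  Cl.node (nat_lit 0x101) (nat_lit 2) (by decide +kernel) (ClAll.succ (ClAll.succ ClAll.zero n260) s289)

def n300 : Cl (O (nat_lit 6)) (R (nat_lit 102673))
    (p (nat_lit 0x109) (nat_lit 0) (p (nat_lit 0x101) (nat_lit 0) (p (nat_lit 0x119) (nat_lit 0) (p (nat_lit 0xc9) (nat_lit 0) (p (nat_lit 0x89) (nat_lit 1) (p (nat_lit 0x41) (nat_lit 0) (p (nat_lit 0x1098a0b090a9a) (nat_lit 0) (p (nat_lit 0x89098a888a1a) (nat_lit 0) (p (nat_lit 0x108890a08079a) (nat_lit 0) (p (nat_lit 0x88088987871a) (nat_lit 0) (p (nat_lit 0x8000080000000078907088a) (nat_lit 0) (p (nat_lit 0x8000080000000070886860a) (nat_lit 0) (p (nat_lit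 0x10708060782) (nat_lit 0) (p (nat_lit 0x8687858702) (nat_lit 0) (p (nat_lit 0x10607050482) (nat_lit 0) (p (nat_lit 0x8586848402) (nat_lit 0) (p (nat_lit 0x160004) (nat_lit 0) (p (nat_lit 0x50612) (nat_lit 0) (p (nat_lit 0x40592) (nat_lit 0) (p (nat_lit 0x40492) (nat_lit 0) (p (nat_lit 0x30412) (nat_lit 0) (p (nat_lit 0x30212) (nat_lit 0) (p (nat_lit 0x20192) (nat_lit 0) (p (nat_lit 0x20092) (nat_lit 0) (p (nat_lit 0x10012) (nat_lit 0) pn))))))))))))))))))))))))) :=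
  Cl.node (nat_lit 0x111) (nat_lit 2) (by decide +kernel) (ClAll.succ (ClAll.succ ClAll.zero s290) n261)

def n301 : Cl (O (nat_lit 6)) (R (nat_lit 102673))
    (p (nat_lit 0x109) (nat_lit 1) (p (nat_lit 0x101) (nat_lit 0) (p (nat_lit 0x119) (nat_lit 0) (p (nat_lit 0xc9) (nat_lit 0) (p (nat_lit 0x89) (nat_lit 1) (p (nat_lit 0x41) (nat_lit 0) (p (nat_lit 0x1098a0b090a9a) (nat_lit 0) (p (nat_lit 0x89098a888a1a) (nat_lit 0) (p (nat_lit 0x108890a08079a) (nat_lit 0) (p (nat_lit 0x88088987871a) (nat_lit 0) (p (nat_lit 0x8000080000000078907088a) (nat_lit 0) (p (nat_lit 0x8000080000000070886860a) (nat_lit 0) (p (nat_lit 0x10708060782) (nat_lit 0) (p (nat_lit 0x8687858702) (nat_lit 0) (p (nat_lit 0x10607050482) (nat_lit 0) (p (nat_lit 0x8586848402) (nat_lit 0) (p (nat_lit 0x160004) (nat_lit 0) (p (nat_lit 0x50612) (nat_lit 0) (p (nat_lit 0x40592) (nat_lit 0) (p (nat_lit 0x40492) (nat_lit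 0) (p (nat_lit 0x30412) (nat_lit 0) (p (nat_lit 0x30212) (nat_lit 0) (p (nat_lit 0x20192) (nat_lit 0) (p (nat_lit 0x20092) (nat_lit 0) (p (nat_lit 0x10012) (nat_lit 0) pn))))))))))))))))))))))))) :=
  Cl.node (nat_lit 0xd1) (nat_lit 2) (by decide +kernel) (ClAll.succ (ClAll.succ ClAll.zero n262) n263)

def n302 : Cl (O (nat_lit 6)) (R (nat_lit 102673))
    (p (nat_lit 0xc1) (nat_lit 0) (p (nat_lit 0x101) (nat_lit 1) (p (nat_lit 0x119) (nat_lit 0) (p (nat_lit 0xc9) (nat_lit 0) (p (nat_lit 0x89) (nat_lit 1) (p (nat_lit 0x41) (nat_lit 0) (p (nat_lit 0x1098a0b090a9a) (nat_lit 0) (p (nat_lit 0x89098a888a1a) (nat_lit 0) (p (nat_lit 0x108890a08079a) (nat_lit 0) (p (nat_lit 0x88088987871a) (nat_lit 0) (p (nat_lit 0x8000080000000078907088a) (nat_lit 0) (p (nat_lit 0x8000080000000070886860a) (nat_lit 0) (p (nat_lit 0x10708060782) (nat_lit 0) (p (nat_lit 0x8687858702) (nat_lit 0) (p (nat_lit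 0x10607050482) (nat_lit 0) (p (nat_lit 0x8586848402) (nat_lit 0) (p (nat_lit 0x160004) (nat_lit 0) (p (nat_lit 0x50612) (nat_lit 0) (p (nat_lit 0x40592) (nat_lit 0) (p (nat_lit 0x40492) (nat_lit 0) (p (nat_lit 0x30412) (nat_lit 0) (p (nat_lit 0x30212) (nat_lit 0) (p (nat_lit 0x20192) (nat_lit 0) (p (nat_lit 0x20092) (nat_lit 0) (p (nat_lit 0x10012) (nat_lit 0) pn))))))))))))))))))))))))) :=
  Cl.node (nat_lit 0xd1) (nat_lit 2) (by decide +kernel) (ClAll.succ (ClAll.succ ClAll.zero n264) n265)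

def n303 : Cl (O (nat_lit 6)) (R (nat_lit 102673))
    (p (nat_lit 0xd1) (nat_lit 1) (p (nat_lit 0xc1) (nat_lit 0) (p (nat_lit 0x119) (nat_lit 1) (p (nat_lit 0xc9) (nat_lit 0) (p (nat_lit 0x89) (nat_lit 1) (p (nat_lit 0x41) (nat_lit 0) (p (nat_lit 0x1098a0b090a9a) (nat_lit 0) (p (nat_lit 0x89098a888a1a) (nat_lit 0) (p (nat_lit 0x108890a08079a) (nat_lit 0) (p (nat_lit 0x88088987871a) (nat_lit 0) (p (nat_lit 0x8000080000000078907088a) (nat_lit 0) (p (nat_lit 0x8000080000000070886860a) (nat_lit 0) (p (nat_lit 0x10708060782) (nat_lit 0) (p (nat_lit 0x8687858702) (nat_lit 0) (p (nat_lit 0x10607050482) (nat_lit 0) (p (nat_lit 0x8586848402) (nat_lit 0) (p (nat_lit 0x160004) (nat_lit 0) (p (nat_lit 0x50612) (nat_lit 0) (p (nat_lit 0x40592) (nat_lit 0) (p (nat_lit 0x40492) (nat_lit 0) (p (nat_lit 0x30412) (nat_lit 0) (p (nat_lit 0x30212) (nat_lit 0) (p (nat_lit 0x20192) (nat_lit 0) (p (nat_lit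 0x20092) (nat_lit 0) (p (nat_lit 0x10012) (nat_lit 0) pn))))))))))))))))))))))))) :=
  Cl.node (nat_lit 0x111) (nat_lit 2) (by decide +kernel) (ClAll.succ (ClAll.succ ClAll.zero s396) n266)

def n304 : Cl (O (nat_lit 6)) (R (nat_lit 102673))
    (p (nat_lit 0x101) (nat_lit 0) (p (nat_lit 0xc1) (nat_lit 1) (p (nat_lit 0x119) (nat_lit 1) (p (nat_lit 0xc9) (nat_lit 0) (p (nat_lit 0x89) (nat_lit 1) (p (nat_lit 0x41) (nat_lit 0) (p (nat_lit 0x1098a0b090a9a) (nat_lit 0) (p (nat_lit 0x89098a888a1a) (nat_lit 0) (p (nat_lit 0x108890a08079a) (nat_lit 0) (p (nat_lit 0x88088987871a) (nat_lit 0) (p (nat_lit 0x8000080000000078907088a) (nat_lit 0) (p (nat_lit 0x8000080000000070886860a) (nat_lit 0) (p (nat_lit 0x10708060782) (nat_lit 0) (p (nat_lit 0x8687858702) (nat_lit 0) (p (nat_lit 0x10607050482) (nat_lit 0) (p (nat_lit 0x8586848402) (nat_lit 0) (p (nat_lit 0x160004) (nat_lit 0) (p (nat_lit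 0x50612) (nat_lit 0) (p (nat_lit 0x40592) (nat_lit 0) (p (nat_lit 0x40492) (nat_lit 0) (p (nat_lit 0x30412) (nat_lit 0) (p (nat_lit 0x30212) (nat_lit 0) (p (nat_lit 0x20192) (nat_lit 0) (p (nat_lit 0x20092) (nat_lit 0) (p (nat_lit 0x10012) (nat_lit 0) pn))))))))))))))))))))))))) :=
  Cl.node (nat_lit 0x111) (nat_lit 2) (by decide +kernel) (ClAll.succ (ClAll.succ ClAll.zero n267) n268)

def n305 : Cl (O (nat_lit 6)) (R (nat_lit 102673))
    (p (nat_lit 0x111) (nat_lit 0) (p (nat_lit 0x101) (nat_lit 0) (p (nat_lit 0x109) (nat_lit 0) (p (nat_lit 0xc9) (nat_lit 1) (p (nat_lit 0x89) (nat_lit 1) (p (nat_lit 0x41) (nat_lit 0) (p (nat_lit 0x1098a0b090a9a) (nat_lit 0) (p (nat_lit 0x89098a888a1a) (nat_lit 0) (p (nat_lit 0x108890a08079a) (nat_lit 0) (p (nat_lit 0x88088987871a) (nat_lit 0) (p (nat_lit 0x8000080000000078907088a) (nat_lit 0) (p (nat_lit 0x8000080000000070886860a) (nat_lit 0) (p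 (nat_lit 0x10708060782) (nat_lit 0) (p (nat_lit 0x8687858702) (nat_lit 0) (p (nat_lit 0x10607050482) (nat_lit 0) (p (nat_lit 0x8586848402) (nat_lit 0) (p (nat_lit 0x160004) (nat_lit 0) (p (nat_lit 0x50612) (nat_lit 0) (p (nat_lit 0x40592) (nat_lit 0) (p (nat_lit 0x40492) (nat_lit 0) (p (nat_lit 0x30412) (nat_lit 0) (p (nat_lit 0x30212) (nat_lit 0) (p (nat_lit 0x20192) (nat_lit 0) (p (nat_lit 0x20092) (nat_lit 0) (p (nat_lit 0x10012) (nat_lit 0) pn))))))))))))))))))))))))) :=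
  Cl.node (nat_lit 0x119) (nat_lit 2) (by decide +kernel) (ClAll.succ (ClAll.succ ClAll.zero s443) n269)

def n306 : Cl (O (nat_lit 6)) (R (nat_lit 102673))
    (p (nat_lit 0x111) (nat_lit 1) (p (nat_lit 0x101) (nat_lit 0) (p (nat_lit 0x109) (nat_lit 0) (p (nat_lit 0xc9) (nat_lit 1) (p (nat_lit 0x89) (nat_lit 1) (p (nat_lit 0x41) (nat_lit 0) (p (nat_lit 0x1098a0b090a9a) (nat_lit 0) (p (nat_lit 0x89098a888a1a) (nat_lit 0) (p (nat_lit 0x108890a08079a) (nat_lit 0) (p (nat_lit 0x88088987871a) (nat_lit 0) (p (nat_lit 0x8000080000000078907088a) (nat_lit 0) (p (nat_lit 0x8000080000000070886860a) (nat_lit 0) (p (nat_lit 0x10708060782) (nat_lit 0) (p (nat_lit 0x8687858702) (nat_lit 0) (p (nat_lit 0x10607050482) (nat_lit 0) (p (nat_lit 0x8586848402) (nat_lit 0) (p (nat_lit 0x160004) (nat_lit 0) (p (nat_lit 0x50612) (nat_lit 0) (p (nat_lit 0x40592) (nat_lit 0) (p (nat_lit 0x40492) (nat_lit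 0) (p (nat_lit 0x30412) (nat_lit 0) (p (nat_lit 0x30212) (nat_lit 0) (p (nat_lit 0x20192) (nat_lit 0) (p (nat_lit 0x20092) (nat_lit 0) (p (nat_lit 0x10012) (nat_lit 0) pn))))))))))))))))))))))))) :=
  Cl.node (nat_lit 0x81) (nat_lit 2) (by decide +kernel) (ClAll.succ (ClAll.succ ClAll.zero s463) s464)

def n307 : Cl (O (nat_lit 6)) (R (nat_lit 102673))
    (p (nat_lit 0x109) (nat_lit 1) (p (nat_lit 0x101) (nat_lit 0) (p (nat_lit 0x119) (nat_lit 0) (p (nat_lit 0xd1) (nat_lit 0) (p (nat_lit 0x81) (nat_lit 0) (p (nat_lit 0x41) (nat_lit 1) (p (nat_lit 0x1098a0b090a9a) (nat_lit 0) (p (nat_lit 0x89098a888a1a) (nat_lit 0) (p (nat_lit 0x108890a08079a) (nat_lit 0) (p (nat_lit 0x88088987871a) (nat_lit 0) (p (nat_lit 0x8000080000000078907088a) (nat_lit 0) (p (nat_lit 0x8000080000000070886860a) (nat_lit 0) (p (nat_lit 0x10708060782) (nat_lit 0) (p (nat_lit 0x8687858702) (nat_lit 0) (p (nat_lit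 0x10607050482) (nat_lit 0) (p (nat_lit 0x8586848402) (nat_lit 0) (p (nat_lit 0x160004) (nat_lit 0) (p (nat_lit 0x50612) (nat_lit 0) (p (nat_lit 0x40592) (nat_lit 0) (p (nat_lit 0x40492) (nat_lit 0) (p (nat_lit 0x30412) (nat_lit 0) (p (nat_lit 0x30212) (nat_lit 0) (p (nat_lit 0x20192) (nat_lit 0) (p (nat_lit 0x20092) (nat_lit 0) (p (nat_lit 0x10012) (nat_lit 0) pn))))))))))))))))))))))))) :=
  Cl.node (nat_lit 0x89) (nat_lit 2) (by decide +kernel) (ClAll.succ (ClAll.succ ClAll.zero n270) n271)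

def n308 : Cl (O (nat_lit 6)) (R (nat_lit 102673))
    (p (nat_lit 0xc1) (nat_lit 0) (p (nat_lit 0x101) (nat_lit 1) (p (nat_lit 0x119) (nat_lit 0) (p (nat_lit 0xd1) (nat_lit 0) (p (nat_lit 0x81) (nat_lit 0) (p (nat_lit 0x41) (nat_lit 1) (p (nat_lit 0x1098a0b090a9a) (nat_lit 0) (p (nat_lit 0x89098a888a1a) (nat_lit 0) (p (nat_lit 0x108890a08079a) (nat_lit 0) (p (nat_lit 0x88088987871a) (nat_lit 0) (p (nat_lit 0x8000080000000078907088a) (nat_lit 0) (p (nat_lit 0x8000080000000070886860a) (nat_lit 0) (p (nat_lit 0x10708060782) (nat_lit 0) (p (nat_lit 0x8687858702) (nat_lit 0) (p (nat_lit 0x10607050482) (nat_lit 0) (p (nat_lit 0x8586848402) (nat_lit 0) (p (nat_lit 0x160004) (nat_lit 0) (p (nat_lit 0x50612) (nat_lit 0) (p (nat_lit 0x40592) (nat_lit 0) (p (nat_lit 0x40492) (nat_lit 0) (p (nat_lit 0x30412) (nat_lit 0) (p (nat_lit 0x30212) (nat_lit 0) (p (nat_lit 0x20192) (nat_lit 0) (p (nat_lit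 0x20092) (nat_lit 0) (p (nat_lit 0x10012) (nat_lit 0) pn))))))))))))))))))))))))) :=
  Cl.node (nat_lit 0x89) (nat_lit 2) (by decide +kernel) (ClAll.succ (ClAll.succ ClAll.zero n272) n273)

def n309 : Cl (O (nat_lit 6)) (R (nat_lit 102673))
    (p (nat_lit 0xc1) (nat_lit 1) (p (nat_lit 0x101) (nat_lit 1) (p (nat_lit 0x119) (nat_lit 0) (p (nat_lit 0xd1) (nat_lit 0) (p (nat_lit 0x81) (nat_lit 0) (p (nat_lit 0x41) (nat_lit 1) (p (nat_lit 0x1098a0b090a9a) (nat_lit 0) (p (nat_lit 0x89098a888a1a) (nat_lit 0) (p (nat_lit 0x108890a08079a) (nat_lit 0) (p (nat_lit 0x88088987871a) (nat_lit 0) (p (nat_lit 0x8000080000000078907088a) (nat_lit 0) (p (nat_lit 0x8000080000000070886860a) (nat_lit 0) (p (nat_lit 0x10708060782) (nat_lit 0) (p (nat_lit 0x8687858702) (nat_lit 0) (p (nat_lit 0x10607050482) (nat_lit 0) (p (nat_lit 0x8586848402) (nat_lit 0) (p (nat_lit 0x160004) (nat_lit 0) (p (nat_lit 0x50612)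 (nat_lit 0) (p (nat_lit 0x40592) (nat_lit 0) (p (nat_lit 0x40492) (nat_lit 0) (p (nat_lit 0x30412) (nat_lit 0) (p (nat_lit 0x30212) (nat_lit 0) (p (nat_lit 0x20192) (nat_lit 0) (p (nat_lit 0x20092) (nat_lit 0) (p (nat_lit 0x10012) (nat_lit 0) pn))))))))))))))))))))))))) :=
  Cl.node (nat_lit 0x89) (nat_lit 2) (by decide +kernel) (ClAll.succ (ClAll.succ ClAll.zero n274) n275)

def n310 : Cl (O (nat_lit 6)) (R (nat_lit 102673))
    (p (nat_lit 0xc9) (nat_lit 1) (p (nat_lit 0xc1) (nat_lit 0) (p (nat_lit 0x119) (nat_lit 1) (p (nat_lit 0xd1) (nat_lit 0) (p (nat_lit 0x81) (nat_lit 0) (p (nat_lit 0x41) (nat_lit 1) (p (nat_lit 0x1098a0b090a9a) (nat_lit 0) (p (nat_lit 0x89098a888a1a) (nat_lit 0) (p (nat_lit 0x108890a08079a) (nat_lit 0) (p (nat_lit 0x88088987871a) (nat_lit 0) (p (nat_lit 0x8000080000000078907088a) (nat_lit 0) (p (nat_lit 0x8000080000000070886860a) (nat_lit 0) (p (nat_lit 0x10708060782)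 (nat_lit 0) (p (nat_lit 0x8687858702) (nat_lit 0) (p (nat_lit 0x10607050482) (nat_lit 0) (p (nat_lit 0x8586848402) (nat_lit 0) (p (nat_lit 0x160004) (nat_lit 0) (p (nat_lit 0x50612) (nat_lit 0) (p (nat_lit 0x40592) (nat_lit 0) (p (nat_lit 0x40492) (nat_lit 0) (p (nat_lit 0x30412) (nat_lit 0) (p (nat_lit 0x30212) (nat_lit 0) (p (nat_lit 0x20192) (nat_lit 0) (p (nat_lit 0x20092) (nat_lit 0) (p (nat_lit 0x10012) (nat_lit 0) pn))))))))))))))))))))))))) :=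
  Cl.node (nat_lit 0x89) (nat_lit 2) (by decide +kernel) (ClAll.succ (ClAll.succ ClAll.zero s603) n276)

def n311 : Cl (O (nat_lit 6)) (R (nat_lit 102673))
    (p (nat_lit 0x101) (nat_lit 0) (p (nat_lit 0xc1) (nat_lit 1) (p (nat_lit 0x119) (nat_lit 1) (p (nat_lit 0xd1) (nat_lit 0) (p (nat_lit 0x81) (nat_lit 0) (p (nat_lit 0x41) (nat_lit 1) (p (nat_lit 0x1098a0b090a9a) (nat_lit 0) (p (nat_lit 0x89098a888a1a) (nat_lit 0) (p (nat_lit 0x108890a08079a) (nat_lit 0) (p (nat_lit 0x88088987871a) (nat_lit 0) (p (nat_lit 0x8000080000000078907088a) (nat_lit 0) (p (nat_lit 0x8000080000000070886860a) (nat_lit 0) (p (nat_lit 0x10708060782) (nat_lit 0) (p (nat_lit 0x8687858702) (nat_lit 0) (p (nat_lit 0x10607050482) (nat_lit 0) (p (nat_lit 0x8586848402) (nat_lit 0) (p (nat_lit 0x160004) (nat_lit 0) (p (nat_lit 0x50612) (nat_lit 0) (p (nat_lit 0x40592) (nat_lit 0) (p (nat_lit 0x40492) (nat_lit 0)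 (p (nat_lit 0x30412) (nat_lit 0) (p (nat_lit 0x30212) (nat_lit 0) (p (nat_lit 0x20192) (nat_lit 0) (p (nat_lit 0x20092) (nat_lit 0) (p (nat_lit 0x10012) (nat_lit 0) pn))))))))))))))))))))))))) :=
  Cl.node (nat_lit 0x89) (nat_lit 2) (by decide +kernel) (ClAll.succ (ClAll.succ ClAll.zero s630) n277)

def n312 : Cl (O (nat_lit 6)) (R (nat_lit 102673))
    (p (nat_lit 0x101) (nat_lit 1) (p (nat_lit 0xc1) (nat_lit 1) (p (nat_lit 0x119) (nat_lit 1) (p (nat_lit 0xd1) (nat_lit 0) (p (nat_lit 0x81) (nat_lit 0) (p (nat_lit 0x41) (nat_lit 1) (p (nat_lit 0x1098a0b090a9a) (nat_lit 0) (p (nat_lit 0x89098a888a1a) (nat_lit 0) (p (nat_lit 0x108890a08079a) (nat_lit 0) (p (nat_lit 0x88088987871a) (nat_lit 0) (p (nat_lit 0x8000080000000078907088a) (nat_lit 0) (p (nat_lit 0x8000080000000070886860a) (nat_lit 0) (p (nat_lit 0x10708060782) (nat_lit 0) (p (nat_lit 0x8687858702) (nat_lit 0) (p (nat_lit 0x10607050482)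 (nat_lit 0) (p (nat_lit 0x8586848402) (nat_lit 0) (p (nat_lit 0x160004) (nat_lit 0) (p (nat_lit 0x50612) (nat_lit 0) (p (nat_lit 0x40592) (nat_lit 0) (p (nat_lit 0x40492) (nat_lit 0) (p (nat_lit 0x30412) (nat_lit 0) (p (nat_lit 0x30212) (nat_lit 0) (p (nat_lit 0x20192) (nat_lit 0) (p (nat_lit 0x20092) (nat_lit 0) (p (nat_lit 0x10012) (nat_lit 0) pn))))))))))))))))))))))))) :=
  Cl.node (nat_lit 0x89) (nat_lit 2) (by decide +kernel) (ClAll.succ (ClAll.succ ClAll.zero s660) n278)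

def n313 : Cl (O (nat_lit 6)) (R (nat_lit 102673))
    (p (nat_lit 0x109) (nat_lit 1) (p (nat_lit 0x101) (nat_lit 0) (p (nat_lit 0x111) (nat_lit 0) (p (nat_lit 0xd1) (nat_lit 1) (p (nat_lit 0x81) (nat_lit 0) (p (nat_lit 0x41) (nat_lit 1) (p (nat_lit 0x1098a0b090a9a) (nat_lit 0) (p (nat_lit 0x89098a888a1a) (nat_lit 0) (p (nat_lit 0x108890a08079a) (nat_lit 0) (p (nat_lit 0x88088987871a) (nat_lit 0) (p (nat_lit 0x8000080000000078907088a) (nat_lit 0) (p (nat_lit 0x8000080000000070886860a) (nat_lit 0) (p (nat_lit 0x10708060782) (nat_lit 0) (p (nat_lit 0x8687858702) (nat_lit 0) (p (nat_lit 0x10607050482) (nat_lit 0) (p (nat_lit 0x8586848402) (nat_lit 0) (p (nat_lit 0x160004) (nat_lit 0) (p (nat_lit 0x50612) (nat_lit 0) (p (nat_lit 0x40592) (nat_lit 0) (p (nat_lit 0x40492) (nat_lit 0) (p (nat_lit 0x30412) (nat_lit 0) (p (nat_lit 0x30212) (nat_lit 0) (p (nat_lit 0x20192) (nat_lit 0) (p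 (nat_lit 0x20092) (nat_lit 0) (p (nat_lit 0x10012) (nat_lit 0) pn))))))))))))))))))))))))) :=
  Cl.node (nat_lit 0x89) (nat_lit 2) (by decide +kernel) (ClAll.succ (ClAll.succ ClAll.zero s676) n279)

def n314 : Cl (O (nat_lit 6)) (R (nat_lit 102673))
    (p (nat_lit 0x89) (nat_lit 0) (p (nat_lit 0x101) (nat_lit 1) (p (nat_lit 0x111) (nat_lit 0) (p (nat_lit 0xd1) (nat_lit 1) (p (nat_lit 0x81) (nat_lit 0) (p (nat_lit 0x41) (nat_lit 1) (p (nat_lit 0x1098a0b090a9a) (nat_lit 0) (p (nat_lit 0x89098a888a1a) (nat_lit 0) (p (nat_lit 0x108890a08079a) (nat_lit 0) (p (nat_lit 0x88088987871a) (nat_lit 0) (p (nat_lit 0x8000080000000078907088a) (nat_lit 0) (p (nat_lit 0x8000080000000070886860a) (nat_lit 0) (p (nat_lit 0x10708060782) (nat_lit 0) (p (nat_lit 0x8687858702) (nat_lit 0) (p (nat_lit 0x10607050482) (nat_lit 0) (p (nat_lit 0x8586848402) (nat_lit 0) (p (nat_lit 0x160004) (nat_lit 0) (p (nat_lit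 0x50612) (nat_lit 0) (p (nat_lit 0x40592) (nat_lit 0) (p (nat_lit 0x40492) (nat_lit 0) (p (nat_lit 0x30412) (nat_lit 0) (p (nat_lit 0x30212) (nat_lit 0) (p (nat_lit 0x20192) (nat_lit 0) (p (nat_lit 0x20092) (nat_lit 0) (p (nat_lit 0x10012) (nat_lit 0) pn))))))))))))))))))))))))) :=
  Cl.node (nat_lit 0x3cc2a) (nat_lit 12) (by decide +kernel) (ClAll.succ (ClAll.succ (ClAll.succ (ClAll.succ (ClAll.succ (ClAll.succ (ClAll.succ (ClAll.succ (ClAll.succ (ClAll.succ (ClAll.succ (ClAll.succ ClAll.zero s723) n280) s726) s727) s728) s729) s730) s731) s732) s733) s734) s735)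

def n315 : Cl (O (nat_lit 6)) (R (nat_lit 102673))
    (p (nat_lit 0x89) (nat_lit 1) (p (nat_lit 0x101) (nat_lit 1) (p (nat_lit 0x111) (nat_lit 0) (p (nat_lit 0xd1) (nat_lit 1) (p (nat_lit 0x81) (nat_lit 0) (p (nat_lit 0x41) (nat_lit 1) (p (nat_lit 0x1098a0b090a9a) (nat_lit 0) (p (nat_lit 0x89098a888a1a) (nat_lit 0) (p (nat_lit 0x108890a08079a) (nat_lit 0) (p (nat_lit 0x88088987871a) (nat_lit 0) (p (nat_lit 0x8000080000000078907088a) (nat_lit 0) (p (nat_lit 0x8000080000000070886860a) (nat_lit 0) (p (nat_lit 0x10708060782) (nat_lit 0) (p (nat_lit 0x8687858702) (nat_lit 0) (p (nat_lit 0x10607050482) (nat_lit 0) (p (nat_lit 0x8586848402) (nat_lit 0) (p (nat_lit 0x160004) (nat_lit 0) (p (nat_lit 0x50612) (nat_lit 0) (p (nat_lit 0x40592) (nat_lit 0) (p (nat_lit 0x40492) (nat_lit 0) (p (nat_lit 0x30412) (nat_lit 0) (p (nat_lit 0x30212) (nat_lit 0) (p (nat_lit 0x20192) (nat_lit 0) (p (nat_lit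 0x20092) (nat_lit 0) (p (nat_lit 0x10012) (nat_lit 0) pn))))))))))))))))))))))))) :=
  Cl.node (nat_lit 0xc9) (nat_lit 2) (by decide +kernel) (ClAll.succ (ClAll.succ ClAll.zero n281) s756)

def n316 : Cl (O (nat_lit 6)) (R (nat_lit 102673))
    (p (nat_lit 0xc9) (nat_lit 1) (p (nat_lit 0x89) (nat_lit 1) (p (nat_lit 0x111) (nat_lit 1) (p (nat_lit 0xd1) (nat_lit 1) (p (nat_lit 0x81) (nat_lit 0) (p (nat_lit 0x41) (nat_lit 1) (p (nat_lit 0x1098a0b090a9a) (nat_lit 0) (p (nat_lit 0x89098a888a1a) (nat_lit 0) (p (nat_lit 0x108890a08079a) (nat_lit 0) (p (nat_lit 0x88088987871a) (nat_lit 0) (p (nat_lit 0x8000080000000078907088a) (nat_lit 0) (p (nat_lit 0x8000080000000070886860a) (nat_lit 0) (p (nat_lit 0x10708060782) (nat_lit 0) (p (nat_lit 0x8687858702) (nat_lit 0) (p (nat_lit 0x10607050482) (nat_lit 0) (p (nat_lit 0x8586848402) (nat_lit 0) (p (nat_lit 0x160004) (nat_lit 0) (p (nat_lit 0x50612)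 (nat_lit 0) (p (nat_lit 0x40592) (nat_lit 0) (p (nat_lit 0x40492) (nat_lit 0) (p (nat_lit 0x30412) (nat_lit 0) (p (nat_lit 0x30212) (nat_lit 0) (p (nat_lit 0x20192) (nat_lit 0) (p (nat_lit 0x20092) (nat_lit 0) (p (nat_lit 0x10012) (nat_lit 0) pn))))))))))))))))))))))))) :=
  Cl.node (nat_lit 0x109) (nat_lit 2) (by decide +kernel) (ClAll.succ (ClAll.succ ClAll.zero n282) s773)

def n317 : Cl (O (nat_lit 6)) (R (nat_lit 102673))
    (p (nat_lit 0x109) (nat_lit 0) (p (nat_lit 0x101) (nat_lit 0) (p (nat_lit 0x119) (nat_lit 0) (p (nat_lit 0xc1) (nat_lit 0) (p (nat_lit 0x81) (nat_lit 1) (p (nat_lit 0x41) (nat_lit 1) (p (nat_lit 0x1098a0b090a9a) (nat_lit 0) (p (nat_lit 0x89098a888a1a) (nat_lit 0) (p (nat_lit 0x108890a08079a) (nat_lit 0) (p (nat_lit 0x88088987871a) (nat_lit 0) (p (nat_lit 0x8000080000000078907088a) (nat_lit 0) (p (nat_lit 0x8000080000000070886860a) (nat_lit 0) (p (nat_lit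 0x10708060782) (nat_lit 0) (p (nat_lit 0x8687858702) (nat_lit 0) (p (nat_lit 0x10607050482) (nat_lit 0) (p (nat_lit 0x8586848402) (nat_lit 0) (p (nat_lit 0x160004) (nat_lit 0) (p (nat_lit 0x50612) (nat_lit 0) (p (nat_lit 0x40592) (nat_lit 0) (p (nat_lit 0x40492) (nat_lit 0) (p (nat_lit 0x30412) (nat_lit 0) (p (nat_lit 0x30212) (nat_lit 0) (p (nat_lit 0x20192) (nat_lit 0) (p (nat_lit 0x20092) (nat_lit 0) (p (nat_lit 0x10012) (nat_lit 0) pn))))))))))))))))))))))))) :=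
  Cl.node (nat_lit 0x111) (nat_lit 2) (by decide +kernel) (ClAll.succ (ClAll.succ ClAll.zero s774) n283)

def n318 : Cl (O (nat_lit 6)) (R (nat_lit 102673))
    (p (nat_lit 0x109) (nat_lit 1) (p (nat_lit 0x101) (nat_lit 0) (p (nat_lit 0x119) (nat_lit 0) (p (nat_lit 0xc1) (nat_lit 0) (p (nat_lit 0x81) (nat_lit 1) (p (nat_lit 0x41) (nat_lit 1) (p (nat_lit 0x1098a0b090a9a) (nat_lit 0) (p (nat_lit 0x89098a888a1a) (nat_lit 0) (p (nat_lit 0x108890a08079a) (nat_lit 0) (p (nat_lit 0x88088987871a) (nat_lit 0) (p (nat_lit 0x8000080000000078907088a) (nat_lit 0) (p (nat_lit 0x8000080000000070886860a) (nat_lit 0) (p (nat_lit 0x10708060782) (nat_lit 0) (p (nat_lit 0x8687858702) (nat_lit 0) (p (nat_lit 0x10607050482) (nat_lit 0) (p (nat_lit 0x8586848402) (nat_lit 0) (p (nat_lit 0x160004) (nat_lit 0) (p (nat_lit 0x50612) (nat_lit 0) (p (nat_lit 0x40592) (nat_lit 0) (p (nat_lit 0x40492) (nat_lit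 0) (p (nat_lit 0x30412) (nat_lit 0) (p (nat_lit 0x30212) (nat_lit 0) (p (nat_lit 0x20192) (nat_lit 0) (p (nat_lit 0x20092) (nat_lit 0) (p (nat_lit 0x10012) (nat_lit 0) pn))))))))))))))))))))))))) :=
  Cl.node (nat_lit 0xc9) (nat_lit 2) (by decide +kernel) (ClAll.succ (ClAll.succ ClAll.zero n284) s806)

def n319 : Cl (O (nat_lit 6)) (R (nat_lit 102673))
    (p (nat_lit 0xc9) (nat_lit 0) (p (nat_lit 0x101) (nat_lit 1) (p (nat_lit 0x119) (nat_lit 0) (p (nat_lit 0xc1) (nat_lit 0) (p (nat_lit 0x81) (nat_lit 1) (p (nat_lit 0x41) (nat_lit 1) (p (nat_lit 0x1098a0b090a9a) (nat_lit 0) (p (nat_lit 0x89098a888a1a) (nat_lit 0) (p (nat_lit 0x108890a08079a) (nat_lit 0) (p (nat_lit 0x88088987871a) (nat_lit 0) (p (nat_lit 0x8000080000000078907088a) (nat_lit 0) (p (nat_lit 0x8000080000000070886860a) (nat_lit 0) (p (nat_lit 0x10708060782) (nat_lit 0) (p (nat_lit 0x8687858702) (nat_lit 0) (p (nat_lit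 0x10607050482) (nat_lit 0) (p (nat_lit 0x8586848402) (nat_lit 0) (p (nat_lit 0x160004) (nat_lit 0) (p (nat_lit 0x50612) (nat_lit 0) (p (nat_lit 0x40592) (nat_lit 0) (p (nat_lit 0x40492) (nat_lit 0) (p (nat_lit 0x30412) (nat_lit 0) (p (nat_lit 0x30212) (nat_lit 0) (p (nat_lit 0x20192) (nat_lit 0) (p (nat_lit 0x20092) (nat_lit 0) (p (nat_lit 0x10012) (nat_lit 0) pn))))))))))))))))))))))))) :=
  Cl.node (nat_lit 0xd1) (nat_lit 2) (by decide +kernel) (ClAll.succ (ClAll.succ ClAll.zero n285) n286)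

def n320 : Cl (O (nat_lit 6)) (R (nat_lit 102673))
    (p (nat_lit 0xd1) (nat_lit 1) (p (nat_lit 0xc9) (nat_lit 0) (p (nat_lit 0x119) (nat_lit 1) (p (nat_lit 0xc1) (nat_lit 0) (p (nat_lit 0x81) (nat_lit 1) (p (nat_lit 0x41) (nat_lit 1) (p (nat_lit 0x1098a0b090a9a) (nat_lit 0) (p (nat_lit 0x89098a888a1a) (nat_lit 0) (p (nat_lit 0x108890a08079a) (nat_lit 0) (p (nat_lit 0x88088987871a) (nat_lit 0) (p (nat_lit 0x8000080000000078907088a) (nat_lit 0) (p (nat_lit 0x8000080000000070886860a) (nat_lit 0) (p (nat_lit 0x10708060782) (nat_lit 0) (p (nat_lit 0x8687858702) (nat_lit 0) (p (nat_lit 0x10607050482) (nat_lit 0) (p (nat_lit 0x8586848402) (nat_lit 0) (p (nat_lit 0x160004) (nat_lit 0) (p (nat_lit 0x50612) (nat_lit 0) (p (nat_lit 0x40592) (nat_lit 0) (p (nat_lit 0x40492) (nat_lit 0) (p (nat_lit 0x30412) (nat_lit 0) (p (nat_lit 0x30212) (nat_lit 0) (p (nat_lit 0x20192) (nat_lit 0) (p (nat_lit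 0x20092) (nat_lit 0) (p (nat_lit 0x10012) (nat_lit 0) pn))))))))))))))))))))))))) :=
  Cl.node (nat_lit 0x111) (nat_lit 2) (by decide +kernel) (ClAll.succ (ClAll.succ ClAll.zero s837) n287)

def n321 : Cl (O (nat_lit 6)) (R (nat_lit 102673))
    (p (nat_lit 0x109) (nat_lit 0) (p (nat_lit 0xc9) (nat_lit 1) (p (nat_lit 0x119) (nat_lit 1) (p (nat_lit 0xc1) (nat_lit 0) (p (nat_lit 0x81) (nat_lit 1) (p (nat_lit 0x41) (nat_lit 1) (p (nat_lit 0x1098a0b090a9a) (nat_lit 0) (p (nat_lit 0x89098a888a1a) (nat_lit 0) (p (nat_lit 0x108890a08079a) (nat_lit 0) (p (nat_lit 0x88088987871a) (nat_lit 0) (p (nat_lit 0x8000080000000078907088a) (nat_lit 0) (p (nat_lit 0x8000080000000070886860a) (nat_lit 0) (p (nat_lit 0x10708060782) (nat_lit 0) (p (nat_lit 0x8687858702) (nat_lit 0) (p (nat_lit 0x10607050482) (nat_lit 0) (p (nat_lit 0x8586848402) (nat_lit 0) (p (nat_lit 0x160004) (nat_lit 0) (p (nat_lit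 0x50612) (nat_lit 0) (p (nat_lit 0x40592) (nat_lit 0) (p (nat_lit 0x40492) (nat_lit 0) (p (nat_lit 0x30412) (nat_lit 0) (p (nat_lit 0x30212) (nat_lit 0) (p (nat_lit 0x20192) (nat_lit 0) (p (nat_lit 0x20092) (nat_lit 0) (p (nat_lit 0x10012) (nat_lit 0) pn))))))))))))))))))))))))) :=
  Cl.node (nat_lit 0x111) (nat_lit 2) (by decide +kernel) (ClAll.succ (ClAll.succ ClAll.zero n288) n289)

def n322 : Cl (O (nat_lit 6)) (R (nat_lit 102673))
    (p (nat_lit 0x109) (nat_lit 1) (p (nat_lit 0xc9) (nat_lit 1) (p (nat_lit 0x119) (nat_lit 1) (p (nat_lit 0xc1) (nat_lit 0) (p (nat_lit 0x81) (nat_lit 1) (p (nat_lit 0x41) (nat_lit 1) (p (nat_lit 0x1098a0b090a9a) (nat_lit 0) (p (nat_lit 0x89098a888a1a) (nat_lit 0) (p (nat_lit 0x108890a08079a) (nat_lit 0) (p (nat_lit 0x88088987871a) (nat_lit 0) (p (nat_lit 0x8000080000000078907088a) (nat_lit 0) (p (nat_lit 0x8000080000000070886860a) (nat_lit 0) (p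 (nat_lit 0x10708060782) (nat_lit 0) (p (nat_lit 0x8687858702) (nat_lit 0) (p (nat_lit 0x10607050482) (nat_lit 0) (p (nat_lit 0x8586848402) (nat_lit 0) (p (nat_lit 0x160004) (nat_lit 0) (p (nat_lit 0x50612) (nat_lit 0) (p (nat_lit 0x40592) (nat_lit 0) (p (nat_lit 0x40492) (nat_lit 0) (p (nat_lit 0x30412) (nat_lit 0) (p (nat_lit 0x30212) (nat_lit 0) (p (nat_lit 0x20192) (nat_lit 0) (p (nat_lit 0x20092) (nat_lit 0) (p (nat_lit 0x10012) (nat_lit 0) pn))))))))))))))))))))))))) :=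
  Cl.node (nat_lit 0x3c4aa) (nat_lit 12) (by decide +kernel) (ClAll.succ (ClAll.succ (ClAll.succ (ClAll.succ (ClAll.succ (ClAll.succ (ClAll.succ (ClAll.succ (ClAll.succ (ClAll.succ (ClAll.succ (ClAll.succ ClAll.zero s865) s866) s867) s868) s869) s870) s871) s872) s873) s874) s875) s876)

def n323 : Cl (O (nat_lit 6)) (R (nat_lit 102673))
    (p (nat_lit 0x101) (nat_lit 0) (p (nat_lit 0x119) (nat_lit 0) (p (nat_lit 0xd1) (nat_lit 0) (p (nat_lit 0x89) (nat_lit 0) (p (nat_lit 0x41) (nat_lit 0) (p (nat_lit 0x1098a0b090a9a) (nat_lit 0) (p (nat_lit 0x89098a888a1a) (nat_lit 0) (p (nat_lit 0x108890a08079a) (nat_lit 0) (p (nat_lit 0x88088987871a) (nat_lit 0) (p (nat_lit 0x8000080000000078907088a) (nat_lit 0) (p (nat_lit 0x8000080000000070886860a) (nat_lit 0) (p (nat_lit 0x10708060782) (nat_lit 0) (p (nat_lit 0x8687858702) (nat_lit 0) (p (nat_lit 0x10607050482) (nat_lit 0) (p (nat_lit 0x8586848402)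 (nat_lit 0) (p (nat_lit 0x160004) (nat_lit 0) (p (nat_lit 0x50612) (nat_lit 0) (p (nat_lit 0x40592) (nat_lit 0) (p (nat_lit 0x40492) (nat_lit 0) (p (nat_lit 0x30412) (nat_lit 0) (p (nat_lit 0x30212) (nat_lit 0) (p (nat_lit 0x20192) (nat_lit 0) (p (nat_lit 0x20092) (nat_lit 0) (p (nat_lit 0x10012) (nat_lit 0) pn)))))))))))))))))))))))) :=
  Cl.node (nat_lit 0x109) (nat_lit 2) (by decide +kernel) (ClAll.succ (ClAll.succ ClAll.zero s0) n290)

def n324 : Cl (O (nat_lit 6)) (R (nat_lit 102673))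
    (p (nat_lit 0x101) (nat_lit 1) (p (nat_lit 0x119) (nat_lit 0) (p (nat_lit 0xd1) (nat_lit 0) (p (nat_lit 0x89) (nat_lit 0) (p (nat_lit 0x41) (nat_lit 0) (p (nat_lit 0x1098a0b090a9a) (nat_lit 0) (p (nat_lit 0x89098a888a1a) (nat_lit 0) (p (nat_lit 0x108890a08079a) (nat_lit 0) (p (nat_lit 0x88088987871a) (nat_lit 0) (p (nat_lit 0x8000080000000078907088a) (nat_lit 0) (p (nat_lit 0x8000080000000070886860a) (nat_lit 0) (p (nat_lit 0x10708060782) (nat_lit 0) (p (nat_lit 0x8687858702) (nat_lit 0) (p (nat_lit 0x10607050482) (nat_lit 0) (p (nat_lit 0x8586848402) (nat_lit 0) (p (nat_lit 0x160004) (nat_lit 0) (p (nat_lit 0x50612) (nat_lit 0) (p (nat_lit 0x40592) (nat_lit 0) (p (nat_lit 0x40492) (nat_lit 0) (p (nat_lit 0x30412) (nat_lit 0) (p (nat_lit 0x30212) (nat_lit 0) (p (nat_lit 0x20192) (nat_lit 0) (p (nat_lit 0x20092) (nat_lit 0) (p (nat_lit 0x10012) (nat_lit 0) pn))))))))))))))))))))))))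 :=
  Cl.node (nat_lit 0x81) (nat_lit 2) (by decide +kernel) (ClAll.succ (ClAll.succ ClAll.zero n291) n292)

def n325 : Cl (O (nat_lit 6)) (R (nat_lit 102673))
    (p (nat_lit 0xc1) (nat_lit 0) (p (nat_lit 0x119) (nat_lit 1) (p (nat_lit 0xd1) (nat_lit 0) (p (nat_lit 0x89) (nat_lit 0) (p (nat_lit 0x41) (nat_lit 0) (p (nat_lit 0x1098a0b090a9a) (nat_lit 0) (p (nat_lit 0x89098a888a1a) (nat_lit 0) (p (nat_lit 0x108890a08079a) (nat_lit 0) (p (nat_lit 0x88088987871a) (nat_lit 0) (p (nat_lit 0x8000080000000078907088a) (nat_lit 0) (p (nat_lit 0x8000080000000070886860a) (nat_lit 0) (p (nat_lit 0x10708060782) (nat_lit 0) (p (nat_lit 0x8687858702) (nat_lit 0) (p (nat_lit 0x10607050482) (nat_lit 0) (p (nat_lit 0x8586848402) (nat_lit 0) (p (nat_lit 0x160004) (nat_lit 0) (p (nat_lit 0x50612) (nat_lit 0) (p (nat_lit 0x40592) (nat_lit 0) (p (nat_lit 0x40492) (nat_lit 0) (p (nat_lit 0x30412) (nat_lit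 0) (p (nat_lit 0x30212) (nat_lit 0) (p (nat_lit 0x20192) (nat_lit 0) (p (nat_lit 0x20092) (nat_lit 0) (p (nat_lit 0x10012) (nat_lit 0) pn)))))))))))))))))))))))) :=
  Cl.node (nat_lit 0xc9) (nat_lit 2) (by decide +kernel) (ClAll.succ (ClAll.succ ClAll.zero s115) n293)

def n326 : Cl (O (nat_lit 6)) (R (nat_lit 102673))
    (p (nat_lit 0xc1) (nat_lit 1) (p (nat_lit 0x119) (nat_lit 1) (p (nat_lit 0xd1) (nat_lit 0) (p (nat_lit 0x89) (nat_lit 0) (p (nat_lit 0x41) (nat_lit 0) (p (nat_lit 0x1098a0b090a9a) (nat_lit 0) (p (nat_lit 0x89098a888a1a) (nat_lit 0) (p (nat_lit 0x108890a08079a) (nat_lit 0) (p (nat_lit 0x88088987871a) (nat_lit 0) (p (nat_lit 0x8000080000000078907088a) (nat_lit 0) (p (nat_lit 0x8000080000000070886860a) (nat_lit 0) (p (nat_lit 0x10708060782) (nat_lit 0) (p (nat_lit 0x8687858702) (nat_lit 0) (p (nat_lit 0x10607050482) (nat_lit 0) (p (nat_lit 0x8586848402) (nat_lit 0)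 (p (nat_lit 0x160004) (nat_lit 0) (p (nat_lit 0x50612) (nat_lit 0) (p (nat_lit 0x40592) (nat_lit 0) (p (nat_lit 0x40492) (nat_lit 0) (p (nat_lit 0x30412) (nat_lit 0) (p (nat_lit 0x30212) (nat_lit 0) (p (nat_lit 0x20192) (nat_lit 0) (p (nat_lit 0x20092) (nat_lit 0) (p (nat_lit 0x10012) (nat_lit 0) pn)))))))))))))))))))))))) :=
  Cl.node (nat_lit 0x81) (nat_lit 2) (by decide +kernel) (ClAll.succ (ClAll.succ ClAll.zero n294) n295)

def n327 : Cl (O (nat_lit 6)) (R (nat_lit 102673))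
    (p (nat_lit 0x101) (nat_lit 0) (p (nat_lit 0x111) (nat_lit 0) (p (nat_lit 0xd1) (nat_lit 1) (p (nat_lit 0x89) (nat_lit 0) (p (nat_lit 0x41) (nat_lit 0) (p (nat_lit 0x1098a0b090a9a) (nat_lit 0) (p (nat_lit 0x89098a888a1a) (nat_lit 0) (p (nat_lit 0x108890a08079a) (nat_lit 0) (p (nat_lit 0x88088987871a) (nat_lit 0) (p (nat_lit 0x8000080000000078907088a) (nat_lit 0) (p (nat_lit 0x8000080000000070886860a) (nat_lit 0) (p (nat_lit 0x10708060782) (nat_lit 0) (p (nat_lit 0x8687858702) (nat_lit 0) (p (nat_lit 0x10607050482) (nat_lit 0) (p (nat_lit 0x8586848402) (nat_lit 0) (p (nat_lit 0x160004) (nat_lit 0) (p (nat_lit 0x50612) (nat_lit 0) (p (nat_lit 0x40592) (nat_lit 0) (p (nat_lit 0x40492) (nat_lit 0) (p (nat_lit 0x30412) (nat_lit 0) (p (nat_lit 0x30212) (nat_lit 0) (p (nat_lit 0x20192) (nat_lit 0) (p (nat_lit 0x20092) (nat_lit 0) (p (nat_lit 0x10012) (nat_lit 0) pn))))))))))))))))))))))))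 :=
  Cl.node (nat_lit 0x109) (nat_lit 2) (by decide +kernel) (ClAll.succ (ClAll.succ ClAll.zero s203) n296)

def n328 : Cl (O (nat_lit 6)) (R (nat_lit 102673))
    (p (nat_lit 0x101) (nat_lit 1) (p (nat_lit 0x111) (nat_lit 0) (p (nat_lit 0xd1) (nat_lit 1) (p (nat_lit 0x89) (nat_lit 0) (p (nat_lit 0x41) (nat_lit 0) (p (nat_lit 0x1098a0b090a9a) (nat_lit 0) (p (nat_lit 0x89098a888a1a) (nat_lit 0) (p (nat_lit 0x108890a08079a) (nat_lit 0) (p (nat_lit 0x88088987871a) (nat_lit 0) (p (nat_lit 0x8000080000000078907088a) (nat_lit 0) (p (nat_lit 0x8000080000000070886860a) (nat_lit 0) (p (nat_lit 0x10708060782) (nat_lit 0) (p (nat_lit 0x8687858702) (nat_lit 0) (p (nat_lit 0x10607050482) (nat_lit 0) (p (nat_lit 0x8586848402) (nat_lit 0) (p (nat_lit 0x160004) (nat_lit 0) (p (nat_lit 0x50612) (nat_lit 0) (p (nat_lit 0x40592) (nat_lit 0) (p (nat_lit 0x40492) (nat_lit 0) (p (nat_lit 0x30412) (nat_lit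 0) (p (nat_lit 0x30212) (nat_lit 0) (p (nat_lit 0x20192) (nat_lit 0) (p (nat_lit 0x20092) (nat_lit 0) (p (nat_lit 0x10012) (nat_lit 0) pn)))))))))))))))))))))))) :=
  Cl.node (nat_lit 0x81) (nat_lit 2) (by decide +kernel) (ClAll.succ (ClAll.succ ClAll.zero n297) n298)

def n329 : Cl (O (nat_lit 6)) (R (nat_lit 102673))
    (p (nat_lit 0x81) (nat_lit 1) (p (nat_lit 0x111) (nat_lit 1) (p (nat_lit 0xd1) (nat_lit 1) (p (nat_lit 0x89) (nat_lit 0) (p (nat_lit 0x41) (nat_lit 0) (p (nat_lit 0x1098a0b090a9a) (nat_lit 0) (p (nat_lit 0x89098a888a1a) (nat_lit 0) (p (nat_lit 0x108890a08079a) (nat_lit 0) (p (nat_lit 0x88088987871a) (nat_lit 0) (p (nat_lit 0x8000080000000078907088a) (nat_lit 0) (p (nat_lit 0x8000080000000070886860a) (nat_lit 0) (p (nat_lit 0x10708060782) (nat_lit 0) (p (nat_lit 0x8687858702) (nat_lit 0) (p (nat_lit 0x10607050482) (nat_lit 0) (p (nat_lit 0x8586848402) (nat_lit 0)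 (p (nat_lit 0x160004) (nat_lit 0) (p (nat_lit 0x50612) (nat_lit 0) (p (nat_lit 0x40592) (nat_lit 0) (p (nat_lit 0x40492) (nat_lit 0) (p (nat_lit 0x30412) (nat_lit 0) (p (nat_lit 0x30212) (nat_lit 0) (p (nat_lit 0x20192) (nat_lit 0) (p (nat_lit 0x20092) (nat_lit 0) (p (nat_lit 0x10012) (nat_lit 0) pn)))))))))))))))))))))))) :=
  Cl.node (nat_lit 0xc1) (nat_lit 2) (by decide +kernel) (ClAll.succ (ClAll.succ ClAll.zero s276) n299)

def n330 : Cl (O (nat_lit 6)) (R (nat_lit 102673))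
    (p (nat_lit 0x101) (nat_lit 0) (p (nat_lit 0x119) (nat_lit 0) (p (nat_lit 0xc9) (nat_lit 0) (p (nat_lit 0x89) (nat_lit 1) (p (nat_lit 0x41) (nat_lit 0) (p (nat_lit 0x1098a0b090a9a) (nat_lit 0) (p (nat_lit 0x89098a888a1a) (nat_lit 0) (p (nat_lit 0x108890a08079a) (nat_lit 0) (p (nat_lit 0x88088987871a) (nat_lit 0) (p (nat_lit 0x8000080000000078907088a) (nat_lit 0) (p (nat_lit 0x8000080000000070886860a) (nat_lit 0) (p (nat_lit 0x10708060782) (nat_lit 0) (p (nat_lit 0x8687858702) (nat_lit 0) (p (nat_lit 0x10607050482) (nat_lit 0) (p (nat_lit 0x8586848402) (nat_lit 0) (p (nat_lit 0x160004) (nat_lit 0) (p (nat_lit 0x50612) (nat_lit 0) (p (nat_lit 0x40592) (nat_lit 0) (p (nat_lit 0x40492) (nat_lit 0) (p (nat_lit 0x30412) (nat_lit 0) (p (nat_lit 0x30212) (nat_lit 0) (p (nat_lit 0x20192) (nat_lit 0) (p (nat_lit 0x20092) (nat_lit 0) (p (nat_lit 0x10012) (nat_lit 0) pn))))))))))))))))))))))))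 :=
  Cl.node (nat_lit 0x109) (nat_lit 2) (by decide +kernel) (ClAll.succ (ClAll.succ ClAll.zero n300) n301)

def n331 : Cl (O (nat_lit 6)) (R (nat_lit 102673))
    (p (nat_lit 0x101) (nat_lit 1) (p (nat_lit 0x119) (nat_lit 0) (p (nat_lit 0xc9) (nat_lit 0) (p (nat_lit 0x89) (nat_lit 1) (p (nat_lit 0x41) (nat_lit 0) (p (nat_lit 0x1098a0b090a9a) (nat_lit 0) (p (nat_lit 0x89098a888a1a) (nat_lit 0) (p (nat_lit 0x108890a08079a) (nat_lit 0) (p (nat_lit 0x88088987871a) (nat_lit 0) (p (nat_lit 0x8000080000000078907088a) (nat_lit 0) (p (nat_lit 0x8000080000000070886860a) (nat_lit 0) (p (nat_lit 0x10708060782) (nat_lit 0) (p (nat_lit 0x8687858702) (nat_lit 0) (p (nat_lit 0x10607050482) (nat_lit 0) (p (nat_lit 0x8586848402) (nat_lit 0) (p (nat_lit 0x160004) (nat_lit 0) (p (nat_lit 0x50612) (nat_lit 0) (p (nat_lit 0x40592) (nat_lit 0) (p (nat_lit 0x40492) (nat_lit 0) (p (nat_lit 0x30412) (nat_lit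 0) (p (nat_lit 0x30212) (nat_lit 0) (p (nat_lit 0x20192) (nat_lit 0) (p (nat_lit 0x20092) (nat_lit 0) (p (nat_lit 0x10012) (nat_lit 0) pn)))))))))))))))))))))))) :=
  Cl.node (nat_lit 0xc1) (nat_lit 2) (by decide +kernel) (ClAll.succ (ClAll.succ ClAll.zero n302) s394)

def n332 : Cl (O (nat_lit 6)) (R (nat_lit 102673))
    (p (nat_lit 0xc1) (nat_lit 0) (p (nat_lit 0x119) (nat_lit 1) (p (nat_lit 0xc9) (nat_lit 0) (p (nat_lit 0x89) (nat_lit 1) (p (nat_lit 0x41) (nat_lit 0) (p (nat_lit 0x1098a0b090a9a) (nat_lit 0) (p (nat_lit 0x89098a888a1a) (nat_lit 0) (p (nat_lit 0x108890a08079a) (nat_lit 0) (p (nat_lit 0x88088987871a) (nat_lit 0) (p (nat_lit 0x8000080000000078907088a) (nat_lit 0) (p (nat_lit 0x8000080000000070886860a) (nat_lit 0) (p (nat_lit 0x10708060782) (nat_lit 0) (p (nat_lit 0x8687858702) (nat_lit 0) (p (nat_lit 0x10607050482) (nat_lit 0) (p (nat_lit 0x8586848402) (nat_lit 0)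 (p (nat_lit 0x160004) (nat_lit 0) (p (nat_lit 0x50612) (nat_lit 0) (p (nat_lit 0x40592) (nat_lit 0) (p (nat_lit 0x40492) (nat_lit 0) (p (nat_lit 0x30412) (nat_lit 0) (p (nat_lit 0x30212) (nat_lit 0) (p (nat_lit 0x20192) (nat_lit 0) (p (nat_lit 0x20092) (nat_lit 0) (p (nat_lit 0x10012) (nat_lit 0) pn)))))))))))))))))))))))) :=
  Cl.node (nat_lit 0xd1) (nat_lit 2) (by decide +kernel) (ClAll.succ (ClAll.succ ClAll.zero s395) n303)

def n333 : Cl (O (nat_lit 6)) (R (nat_lit 102673))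
    (p (nat_lit 0xc1) (nat_lit 1) (p (nat_lit 0x119) (nat_lit 1) (p (nat_lit 0xc9) (nat_lit 0) (p (nat_lit 0x89) (nat_lit 1) (p (nat_lit 0x41) (nat_lit 0) (p (nat_lit 0x1098a0b090a9a) (nat_lit 0) (p (nat_lit 0x89098a888a1a) (nat_lit 0) (p (nat_lit 0x108890a08079a) (nat_lit 0) (p (nat_lit 0x88088987871a) (nat_lit 0) (p (nat_lit 0x8000080000000078907088a) (nat_lit 0) (p (nat_lit 0x8000080000000070886860a) (nat_lit 0) (p (nat_lit 0x10708060782) (nat_lit 0) (p (nat_lit 0x8687858702) (nat_lit 0) (p (nat_lit 0x10607050482) (nat_lit 0) (p (nat_lit 0x8586848402) (nat_lit 0) (p (nat_lit 0x160004) (nat_lit 0) (p (nat_lit 0x50612) (nat_lit 0) (p (nat_lit 0x40592) (nat_lit 0) (p (nat_lit 0x40492) (nat_lit 0) (p (nat_lit 0x30412) (nat_lit 0) (p (nat_lit 0x30212) (nat_lit 0) (p (nat_lit 0x20192) (nat_lit 0) (p (nat_lit 0x20092) (nat_lit 0) (p (nat_lit 0x10012) (nat_lit 0) pn))))))))))))))))))))))))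 :=
  Cl.node (nat_lit 0x101) (nat_lit 2) (by decide +kernel) (ClAll.succ (ClAll.succ ClAll.zero n304) s442)

def n334 : Cl (O (nat_lit 6)) (R (nat_lit 102673))
    (p (nat_lit 0x101) (nat_lit 0) (p (nat_lit 0x109) (nat_lit 0) (p (nat_lit 0xc9) (nat_lit 1) (p (nat_lit 0x89) (nat_lit 1) (p (nat_lit 0x41) (nat_lit 0) (p (nat_lit 0x1098a0b090a9a) (nat_lit 0) (p (nat_lit 0x89098a888a1a) (nat_lit 0) (p (nat_lit 0x108890a08079a) (nat_lit 0) (p (nat_lit 0x88088987871a) (nat_lit 0) (p (nat_lit 0x8000080000000078907088a) (nat_lit 0) (p (nat_lit 0x8000080000000070886860a) (nat_lit 0) (p (nat_lit 0x10708060782) (nat_lit 0) (p (nat_lit 0x8687858702) (nat_lit 0) (p (nat_lit 0x10607050482) (nat_lit 0) (p (nat_lit 0x8586848402) (nat_lit 0) (p (nat_lit 0x160004) (nat_lit 0) (p (nat_lit 0x50612) (nat_lit 0) (p (nat_lit 0x40592) (nat_lit 0) (p (nat_lit 0x40492) (nat_lit 0) (p (nat_lit 0x30412) (nat_lit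 0) (p (nat_lit 0x30212) (nat_lit 0) (p (nat_lit 0x20192) (nat_lit 0) (p (nat_lit 0x20092) (nat_lit 0) (p (nat_lit 0x10012) (nat_lit 0) pn)))))))))))))))))))))))) :=
  Cl.node (nat_lit 0x111) (nat_lit 2) (by decide +kernel) (ClAll.succ (ClAll.succ ClAll.zero n305) n306)

def n335 : Cl (O (nat_lit 6)) (R (nat_lit 102673))
    (p (nat_lit 0x101) (nat_lit 0) (p (nat_lit 0x119) (nat_lit 0) (p (nat_lit 0xd1) (nat_lit 0) (p (nat_lit 0x81) (nat_lit 0) (p (nat_lit 0x41) (nat_lit 1) (p (nat_lit 0x1098a0b090a9a) (nat_lit 0) (p (nat_lit 0x89098a888a1a) (nat_lit 0) (p (nat_lit 0x108890a08079a) (nat_lit 0) (p (nat_lit 0x88088987871a) (nat_lit 0) (p (nat_lit 0x8000080000000078907088a) (nat_lit 0) (p (nat_lit 0x8000080000000070886860a) (nat_lit 0) (p (nat_lit 0x10708060782) (nat_lit 0) (p (nat_lit 0x8687858702) (nat_lit 0) (p (nat_lit 0x10607050482) (nat_lit 0) (p (nat_lit 0x8586848402) (nat_lit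 0) (p (nat_lit 0x160004) (nat_lit 0) (p (nat_lit 0x50612) (nat_lit 0) (p (nat_lit 0x40592) (nat_lit 0) (p (nat_lit 0x40492) (nat_lit 0) (p (nat_lit 0x30412) (nat_lit 0) (p (nat_lit 0x30212) (nat_lit 0) (p (nat_lit 0x20192) (nat_lit 0) (p (nat_lit 0x20092) (nat_lit 0) (p (nat_lit 0x10012) (nat_lit 0) pn)))))))))))))))))))))))) :=
  Cl.node (nat_lit 0x109) (nat_lit 2) (by decide +kernel) (ClAll.succ (ClAll.succ ClAll.zero s467) n307)

def n336 : Cl (O (nat_lit 6)) (R (nat_lit 102673))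
    (p (nat_lit 0x101) (nat_lit 1) (p (nat_lit 0x119) (nat_lit 0) (p (nat_lit 0xd1) (nat_lit 0) (p (nat_lit 0x81) (nat_lit 0) (p (nat_lit 0x41) (nat_lit 1) (p (nat_lit 0x1098a0b090a9a) (nat_lit 0) (p (nat_lit 0x89098a888a1a) (nat_lit 0) (p (nat_lit 0x108890a08079a) (nat_lit 0) (p (nat_lit 0x88088987871a) (nat_lit 0) (p (nat_lit 0x8000080000000078907088a) (nat_lit 0) (p (nat_lit 0x8000080000000070886860a) (nat_lit 0) (p (nat_lit 0x10708060782) (nat_lit 0) (p (nat_lit 0x8687858702) (nat_lit 0) (p (nat_lit 0x10607050482) (nat_lit 0) (p (nat_lit 0x8586848402) (nat_lit 0) (p (nat_lit 0x160004) (nat_lit 0) (p (nat_lit 0x50612) (nat_lit 0) (p (nat_lit 0x40592) (nat_lit 0) (p (nat_lit 0x40492) (nat_lit 0) (p (nat_lit 0x30412) (nat_lit 0) (p (nat_lit 0x30212) (nat_lit 0) (p (nat_lit 0x20192) (nat_lit 0) (p (nat_lit 0x20092) (nat_lit 0) (p (nat_lit 0x10012) (nat_lit 0) pn))))))))))))))))))))))))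 :=
  Cl.node (nat_lit 0xc1) (nat_lit 2) (by decide +kernel) (ClAll.succ (ClAll.succ ClAll.zero n308) n309)

def n337 : Cl (O (nat_lit 6)) (R (nat_lit 102673))
    (p (nat_lit 0xc1) (nat_lit 0) (p (nat_lit 0x119) (nat_lit 1) (p (nat_lit 0xd1) (nat_lit 0) (p (nat_lit 0x81) (nat_lit 0) (p (nat_lit 0x41) (nat_lit 1) (p (nat_lit 0x1098a0b090a9a) (nat_lit 0) (p (nat_lit 0x89098a888a1a) (nat_lit 0) (p (nat_lit 0x108890a08079a) (nat_lit 0) (p (nat_lit 0x88088987871a) (nat_lit 0) (p (nat_lit 0x8000080000000078907088a) (nat_lit 0) (p (nat_lit 0x8000080000000070886860a) (nat_lit 0) (p (nat_lit 0x10708060782) (nat_lit 0) (p (nat_lit 0x8687858702) (nat_lit 0) (p (nat_lit 0x10607050482) (nat_lit 0) (p (nat_lit 0x8586848402) (nat_lit 0) (p (nat_lit 0x160004) (nat_lit 0) (p (nat_lit 0x50612) (nat_lit 0) (p (nat_lit 0x40592) (nat_lit 0) (p (nat_lit 0x40492) (nat_lit 0) (p (nat_lit 0x30412) (nat_lit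 0) (p (nat_lit 0x30212) (nat_lit 0) (p (nat_lit 0x20192) (nat_lit 0) (p (nat_lit 0x20092) (nat_lit 0) (p (nat_lit 0x10012) (nat_lit 0) pn)))))))))))))))))))))))) :=
  Cl.node (nat_lit 0xc9) (nat_lit 2) (by decide +kernel) (ClAll.succ (ClAll.succ ClAll.zero s602) n310)

def n338 : Cl (O (nat_lit 6)) (R (nat_lit 102673))
    (p (nat_lit 0xc1) (nat_lit 1) (p (nat_lit 0x119) (nat_lit 1) (p (nat_lit 0xd1) (nat_lit 0) (p (nat_lit 0x81) (nat_lit 0) (p (nat_lit 0x41) (nat_lit 1) (p (nat_lit 0x1098a0b090a9a) (nat_lit 0) (p (nat_lit 0x89098a888a1a) (nat_lit 0) (p (nat_lit 0x108890a08079a) (nat_lit 0) (p (nat_lit 0x88088987871a) (nat_lit 0) (p (nat_lit 0x8000080000000078907088a) (nat_lit 0) (p (nat_lit 0x8000080000000070886860a) (nat_lit 0) (p (nat_lit 0x10708060782) (nat_lit 0) (p (nat_lit 0x8687858702) (nat_lit 0) (p (nat_lit 0x10607050482) (nat_lit 0) (p (nat_lit 0x8586848402) (nat_lit 0)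 (p (nat_lit 0x160004) (nat_lit 0) (p (nat_lit 0x50612) (nat_lit 0) (p (nat_lit 0x40592) (nat_lit 0) (p (nat_lit 0x40492) (nat_lit 0) (p (nat_lit 0x30412) (nat_lit 0) (p (nat_lit 0x30212) (nat_lit 0) (p (nat_lit 0x20192) (nat_lit 0) (p (nat_lit 0x20092) (nat_lit 0) (p (nat_lit 0x10012) (nat_lit 0) pn)))))))))))))))))))))))) :=
  Cl.node (nat_lit 0x101) (nat_lit 2) (by decide +kernel) (ClAll.succ (ClAll.succ ClAll.zero n311) n312)

def n339 : Cl (O (nat_lit 6)) (R (nat_lit 102673))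
    (p (nat_lit 0x101) (nat_lit 0) (p (nat_lit 0x111) (nat_lit 0) (p (nat_lit 0xd1) (nat_lit 1) (p (nat_lit 0x81) (nat_lit 0) (p (nat_lit 0x41) (nat_lit 1) (p (nat_lit 0x1098a0b090a9a) (nat_lit 0) (p (nat_lit 0x89098a888a1a) (nat_lit 0) (p (nat_lit 0x108890a08079a) (nat_lit 0) (p (nat_lit 0x88088987871a) (nat_lit 0) (p (nat_lit 0x8000080000000078907088a) (nat_lit 0) (p (nat_lit 0x8000080000000070886860a) (nat_lit 0) (p (nat_lit 0x10708060782) (nat_lit 0) (p (nat_lit 0x8687858702) (nat_lit 0) (p (nat_lit 0x10607050482) (nat_lit 0) (p (nat_lit 0x8586848402) (nat_lit 0) (p (nat_lit 0x160004) (nat_lit 0) (p (nat_lit 0x50612) (nat_lit 0) (p (nat_lit 0x40592) (nat_lit 0) (p (nat_lit 0x40492) (nat_lit 0) (p (nat_lit 0x30412) (nat_lit 0) (p (nat_lit 0x30212) (nat_lit 0) (p (nat_lit 0x20192) (nat_lit 0) (p (nat_lit 0x20092) (nat_lit 0) (p (nat_lit 0x10012) (nat_lit 0) pn))))))))))))))))))))))))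 :=
  Cl.node (nat_lit 0x109) (nat_lit 2) (by decide +kernel) (ClAll.succ (ClAll.succ ClAll.zero s675) n313)

def n340 : Cl (O (nat_lit 6)) (R (nat_lit 102673))
    (p (nat_lit 0x101) (nat_lit 1) (p (nat_lit 0x111) (nat_lit 0) (p (nat_lit 0xd1) (nat_lit 1) (p (nat_lit 0x81) (nat_lit 0) (p (nat_lit 0x41) (nat_lit 1) (p (nat_lit 0x1098a0b090a9a) (nat_lit 0) (p (nat_lit 0x89098a888a1a) (nat_lit 0) (p (nat_lit 0x108890a08079a) (nat_lit 0) (p (nat_lit 0x88088987871a) (nat_lit 0) (p (nat_lit 0x8000080000000078907088a) (nat_lit 0) (p (nat_lit 0x8000080000000070886860a) (nat_lit 0) (p (nat_lit 0x10708060782) (nat_lit 0) (p (nat_lit 0x8687858702) (nat_lit 0) (p (nat_lit 0x10607050482) (nat_lit 0) (p (nat_lit 0x8586848402) (nat_lit 0) (p (nat_lit 0x160004) (nat_lit 0) (p (nat_lit 0x50612) (nat_lit 0) (p (nat_lit 0x40592) (nat_lit 0) (p (nat_lit 0x40492) (nat_lit 0) (p (nat_lit 0x30412) (nat_lit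 0) (p (nat_lit 0x30212) (nat_lit 0) (p (nat_lit 0x20192) (nat_lit 0) (p (nat_lit 0x20092) (nat_lit 0) (p (nat_lit 0x10012) (nat_lit 0) pn)))))))))))))))))))))))) :=
  Cl.node (nat_lit 0x89) (nat_lit 2) (by decide +kernel) (ClAll.succ (ClAll.succ ClAll.zero n314) n315)

def n341 : Cl (O (nat_lit 6)) (R (nat_lit 102673))
    (p (nat_lit 0x89) (nat_lit 1) (p (nat_lit 0x111) (nat_lit 1) (p (nat_lit 0xd1) (nat_lit 1) (p (nat_lit 0x81) (nat_lit 0) (p (nat_lit 0x41) (nat_lit 1) (p (nat_lit 0x1098a0b090a9a) (nat_lit 0) (p (nat_lit 0x89098a888a1a) (nat_lit 0) (p (nat_lit 0x108890a08079a) (nat_lit 0) (p (nat_lit 0x88088987871a) (nat_lit 0) (p (nat_lit 0x8000080000000078907088a) (nat_lit 0) (p (nat_lit 0x8000080000000070886860a) (nat_lit 0) (p (nat_lit 0x10708060782) (nat_lit 0) (p (nat_lit 0x8687858702) (nat_lit 0) (p (nat_lit 0x10607050482) (nat_lit 0) (p (nat_lit 0x8586848402) (nat_lit 0)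 (p (nat_lit 0x160004) (nat_lit 0) (p (nat_lit 0x50612) (nat_lit 0) (p (nat_lit 0x40592) (nat_lit 0) (p (nat_lit 0x40492) (nat_lit 0) (p (nat_lit 0x30412) (nat_lit 0) (p (nat_lit 0x30212) (nat_lit 0) (p (nat_lit 0x20192) (nat_lit 0) (p (nat_lit 0x20092) (nat_lit 0) (p (nat_lit 0x10012) (nat_lit 0) pn)))))))))))))))))))))))) :=
  Cl.node (nat_lit 0xc9) (nat_lit 2) (by decide +kernel) (ClAll.succ (ClAll.succ ClAll.zero s758) n316)

def n342 : Cl (O (nat_lit 6)) (R (nat_lit 102673))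
    (p (nat_lit 0x101) (nat_lit 0) (p (nat_lit 0x119) (nat_lit 0) (p (nat_lit 0xc1) (nat_lit 0) (p (nat_lit 0x81) (nat_lit 1) (p (nat_lit 0x41) (nat_lit 1) (p (nat_lit 0x1098a0b090a9a) (nat_lit 0) (p (nat_lit 0x89098a888a1a) (nat_lit 0) (p (nat_lit 0x108890a08079a) (nat_lit 0) (p (nat_lit 0x88088987871a) (nat_lit 0) (p (nat_lit 0x8000080000000078907088a) (nat_lit 0) (p (nat_lit 0x8000080000000070886860a) (nat_lit 0) (p (nat_lit 0x10708060782) (nat_lit 0) (p (nat_lit 0x8687858702) (nat_lit 0) (p (nat_lit 0x10607050482) (nat_lit 0) (p (nat_lit 0x8586848402) (nat_lit 0) (p (nat_lit 0x160004) (nat_lit 0) (p (nat_lit 0x50612) (nat_lit 0) (p (nat_lit 0x40592) (nat_lit 0) (p (nat_lit 0x40492) (nat_lit 0) (p (nat_lit 0x30412) (nat_lit 0) (p (nat_lit 0x30212) (nat_lit 0) (p (nat_lit 0x20192) (nat_lit 0) (p (nat_lit 0x20092) (nat_lit 0) (p (nat_lit 0x10012) (nat_lit 0) pn))))))))))))))))))))))))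 :=
  Cl.node (nat_lit 0x109) (nat_lit 2) (by decide +kernel) (ClAll.succ (ClAll.succ ClAll.zero n317) n318)

def n343 : Cl (O (nat_lit 6)) (R (nat_lit 102673))
    (p (nat_lit 0x101) (nat_lit 1) (p (nat_lit 0x119) (nat_lit 0) (p (nat_lit 0xc1) (nat_lit 0) (p (nat_lit 0x81) (nat_lit 1) (p (nat_lit 0x41) (nat_lit 1) (p (nat_lit 0x1098a0b090a9a) (nat_lit 0) (p (nat_lit 0x89098a888a1a) (nat_lit 0) (p (nat_lit 0x108890a08079a) (nat_lit 0) (p (nat_lit 0x88088987871a) (nat_lit 0) (p (nat_lit 0x8000080000000078907088a) (nat_lit 0) (p (nat_lit 0x8000080000000070886860a) (nat_lit 0) (p (nat_lit 0x10708060782) (nat_lit 0) (p (nat_lit 0x8687858702) (nat_lit 0) (p (nat_lit 0x10607050482) (nat_lit 0) (p (nat_lit 0x8586848402) (nat_lit 0) (p (nat_lit 0x160004) (nat_lit 0) (p (nat_lit 0x50612) (nat_lit 0) (p (nat_lit 0x40592) (nat_lit 0) (p (nat_lit 0x40492) (nat_lit 0) (p (nat_lit 0x30412) (nat_lit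 0) (p (nat_lit 0x30212) (nat_lit 0) (p (nat_lit 0x20192) (nat_lit 0) (p (nat_lit 0x20092) (nat_lit 0) (p (nat_lit 0x10012) (nat_lit 0) pn)))))))))))))))))))))))) :=
  Cl.node (nat_lit 0xc9) (nat_lit 2) (by decide +kernel) (ClAll.succ (ClAll.succ ClAll.zero n319) s835)

def n344 : Cl (O (nat_lit 6)) (R (nat_lit 102673))
    (p (nat_lit 0xc9) (nat_lit 0) (p (nat_lit 0x119) (nat_lit 1) (p (nat_lit 0xc1) (nat_lit 0) (p (nat_lit 0x81) (nat_lit 1) (p (nat_lit 0x41) (nat_lit 1) (p (nat_lit 0x1098a0b090a9a) (nat_lit 0) (p (nat_lit 0x89098a888a1a) (nat_lit 0) (p (nat_lit 0x108890a08079a) (nat_lit 0) (p (nat_lit 0x88088987871a) (nat_lit 0) (p (nat_lit 0x8000080000000078907088a) (nat_lit 0) (p (nat_lit 0x8000080000000070886860a) (nat_lit 0) (p (nat_lit 0x10708060782) (nat_lit 0) (p (nat_lit 0x8687858702) (nat_lit 0) (p (nat_lit 0x10607050482) (nat_lit 0) (p (nat_lit 0x8586848402) (nat_lit 0)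 (p (nat_lit 0x160004) (nat_lit 0) (p (nat_lit 0x50612) (nat_lit 0) (p (nat_lit 0x40592) (nat_lit 0) (p (nat_lit 0x40492) (nat_lit 0) (p (nat_lit 0x30412) (nat_lit 0) (p (nat_lit 0x30212) (nat_lit 0) (p (nat_lit 0x20192) (nat_lit 0) (p (nat_lit 0x20092) (nat_lit 0) (p (nat_lit 0x10012) (nat_lit 0) pn)))))))))))))))))))))))) :=
  Cl.node (nat_lit 0xd1) (nat_lit 2) (by decide +kernel) (ClAll.succ (ClAll.succ ClAll.zero s836) n320)

def n345 : Cl (O (nat_lit 6)) (R (nat_lit 102673))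
    (p (nat_lit 0xc9) (nat_lit 1) (p (nat_lit 0x119) (nat_lit 1) (p (nat_lit 0xc1) (nat_lit 0) (p (nat_lit 0x81) (nat_lit 1) (p (nat_lit 0x41) (nat_lit 1) (p (nat_lit 0x1098a0b090a9a) (nat_lit 0) (p (nat_lit 0x89098a888a1a) (nat_lit 0) (p (nat_lit 0x108890a08079a) (nat_lit 0) (p (nat_lit 0x88088987871a) (nat_lit 0) (p (nat_lit 0x8000080000000078907088a) (nat_lit 0) (p (nat_lit 0x8000080000000070886860a) (nat_lit 0) (p (nat_lit 0x10708060782) (nat_lit 0) (p (nat_lit 0x8687858702) (nat_lit 0) (p (nat_lit 0x10607050482) (nat_lit 0) (p (nat_lit 0x8586848402) (nat_lit 0) (p (nat_lit 0x160004) (nat_lit 0) (p (nat_lit 0x50612) (nat_lit 0) (p (nat_lit 0x40592) (nat_lit 0) (p (nat_lit 0x40492) (nat_lit 0) (p (nat_lit 0x30412) (nat_lit 0) (p (nat_lit 0x30212) (nat_lit 0) (p (nat_lit 0x20192) (nat_lit 0) (p (nat_lit 0x20092) (nat_lit 0) (p (nat_lit 0x10012) (nat_lit 0) pn))))))))))))))))))))))))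 :=
  Cl.node (nat_lit 0x109) (nat_lit 2) (by decide +kernel) (ClAll.succ (ClAll.succ ClAll.zero n321) n322)

def n346 : Cl (O (nat_lit 6)) (R (nat_lit 102673))
    (p (nat_lit 0x109) (nat_lit 0) (p (nat_lit 0x101) (nat_lit 0) (p (nat_lit 0xc1) (nat_lit 1) (p (nat_lit 0x81) (nat_lit 1) (p (nat_lit 0x41) (nat_lit 1) (p (nat_lit 0x1098a0b090a9a) (nat_lit 0) (p (nat_lit 0x89098a888a1a) (nat_lit 0) (p (nat_lit 0x108890a08079a) (nat_lit 0) (p (nat_lit 0x88088987871a) (nat_lit 0) (p (nat_lit 0x8000080000000078907088a) (nat_lit 0) (p (nat_lit 0x8000080000000070886860a) (nat_lit 0) (p (nat_lit 0x10708060782) (nat_lit 0) (p (nat_lit 0x8687858702) (nat_lit 0) (p (nat_lit 0x10607050482) (nat_lit 0) (p (nat_lit 0x8586848402) (nat_lit 0) (p (nat_lit 0x160004) (nat_lit 0) (p (nat_lit 0x50612) (nat_lit 0) (p (nat_lit 0x40592) (nat_lit 0) (p (nat_lit 0x40492) (nat_lit 0) (p (nat_lit 0x30412) (nat_lit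 0) (p (nat_lit 0x30212) (nat_lit 0) (p (nat_lit 0x20192) (nat_lit 0) (p (nat_lit 0x20092) (nat_lit 0) (p (nat_lit 0x10012) (nat_lit 0) pn)))))))))))))))))))))))) :=
  Cl.node (nat_lit 0x111) (nat_lit 2) (by decide +kernel) (ClAll.succ (ClAll.succ ClAll.zero s877) s878)

def n347 : Cl (O (nat_lit 6)) (R (nat_lit 102673))
    (p (nat_lit 0x119) (nat_lit 0) (p (nat_lit 0xd1) (nat_lit 0) (p (nat_lit 0x89) (nat_lit 0) (p (nat_lit 0x41) (nat_lit 0) (p (nat_lit 0x1098a0b090a9a) (nat_lit 0) (p (nat_lit 0x89098a888a1a) (nat_lit 0) (p (nat_lit 0x108890a08079a) (nat_lit 0) (p (nat_lit 0x88088987871a) (nat_lit 0) (p (nat_lit 0x8000080000000078907088a) (nat_lit 0) (p (nat_lit 0x8000080000000070886860a) (nat_lit 0) (p (nat_lit 0x10708060782) (nat_lit 0) (p (nat_lit 0x8687858702) (nat_lit 0) (p (nat_lit 0x10607050482) (nat_lit 0) (p (nat_lit 0x8586848402) (nat_lit 0) (p (nat_lit 0x160004) (nat_lit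 0) (p (nat_lit 0x50612) (nat_lit 0) (p (nat_lit 0x40592) (nat_lit 0) (p (nat_lit 0x40492) (nat_lit 0) (p (nat_lit 0x30412) (nat_lit 0) (p (nat_lit 0x30212) (nat_lit 0) (p (nat_lit 0x20192) (nat_lit 0) (p (nat_lit 0x20092) (nat_lit 0) (p (nat_lit 0x10012) (nat_lit 0) pn))))))))))))))))))))))) :=
  Cl.node (nat_lit 0x101) (nat_lit 2) (by decide +kernel) (ClAll.succ (ClAll.succ ClAll.zero n323) n324)

def n348 : Cl (O (nat_lit 6)) (R (nat_lit 102673))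
    (p (nat_lit 0x119) (nat_lit 1) (p (nat_lit 0xd1) (nat_lit 0) (p (nat_lit 0x89) (nat_lit 0) (p (nat_lit 0x41) (nat_lit 0) (p (nat_lit 0x1098a0b090a9a) (nat_lit 0) (p (nat_lit 0x89098a888a1a) (nat_lit 0) (p (nat_lit 0x108890a08079a) (nat_lit 0) (p (nat_lit 0x88088987871a) (nat_lit 0) (p (nat_lit 0x8000080000000078907088a) (nat_lit 0) (p (nat_lit 0x8000080000000070886860a) (nat_lit 0) (p (nat_lit 0x10708060782) (nat_lit 0) (p (nat_lit 0x8687858702) (nat_lit 0) (p (nat_lit 0x10607050482) (nat_lit 0) (p (nat_lit 0x8586848402) (nat_lit 0) (p (nat_lit 0x160004) (nat_lit 0) (p (nat_lit 0x50612) (nat_lit 0) (p (nat_lit 0x40592) (nat_lit 0) (p (nat_lit 0x40492) (nat_lit 0) (p (nat_lit 0x30412) (nat_lit 0) (p (nat_lit 0x30212) (nat_lit 0) (p (nat_lit 0x20192) (nat_lit 0) (p (nat_lit 0x20092) (nat_lit 0) (p (nat_lit 0x10012) (nat_lit 0) pn))))))))))))))))))))))) :=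
  Cl.node (nat_lit 0xc1) (nat_lit 2) (by decide +kernel) (ClAll.succ (ClAll.succ ClAll.zero n325) n326)

def n349 : Cl (O (nat_lit 6)) (R (nat_lit 102673))
    (p (nat_lit 0x111) (nat_lit 0) (p (nat_lit 0xd1) (nat_lit 1) (p (nat_lit 0x89) (nat_lit 0) (p (nat_lit 0x41) (nat_lit 0) (p (nat_lit 0x1098a0b090a9a) (nat_lit 0) (p (nat_lit 0x89098a888a1a) (nat_lit 0) (p (nat_lit 0x108890a08079a) (nat_lit 0) (p (nat_lit 0x88088987871a) (nat_lit 0) (p (nat_lit 0x8000080000000078907088a) (nat_lit 0) (p (nat_lit 0x8000080000000070886860a) (nat_lit 0) (p (nat_lit 0x10708060782) (nat_lit 0) (p (nat_lit 0x8687858702) (nat_lit 0) (p (nat_lit 0x10607050482) (nat_lit 0) (p (nat_lit 0x8586848402) (nat_lit 0) (p (nat_lit 0x160004) (nat_lit 0) (p (nat_lit 0x50612) (nat_lit 0) (p (nat_lit 0x40592) (nat_lit 0) (p (nat_lit 0x40492) (nat_lit 0) (p (nat_lit 0x30412) (nat_lit 0) (p (nat_lit 0x30212) (nat_lit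 0) (p (nat_lit 0x20192) (nat_lit 0) (p (nat_lit 0x20092) (nat_lit 0) (p (nat_lit 0x10012) (nat_lit 0) pn))))))))))))))))))))))) :=
  Cl.node (nat_lit 0x101) (nat_lit 2) (by decide +kernel) (ClAll.succ (ClAll.succ ClAll.zero n327) n328)

def n350 : Cl (O (nat_lit 6)) (R (nat_lit 102673))
    (p (nat_lit 0x111) (nat_lit 1) (p (nat_lit 0xd1) (nat_lit 1) (p (nat_lit 0x89) (nat_lit 0) (p (nat_lit 0x41) (nat_lit 0) (p (nat_lit 0x1098a0b090a9a) (nat_lit 0) (p (nat_lit 0x89098a888a1a) (nat_lit 0) (p (nat_lit 0x108890a08079a) (nat_lit 0) (p (nat_lit 0x88088987871a) (nat_lit 0) (p (nat_lit 0x8000080000000078907088a) (nat_lit 0) (p (nat_lit 0x8000080000000070886860a) (nat_lit 0) (p (nat_lit 0x10708060782) (nat_lit 0) (p (nat_lit 0x8687858702) (nat_lit 0) (p (nat_lit 0x10607050482) (nat_lit 0) (p (nat_lit 0x8586848402) (nat_lit 0) (p (nat_lit 0x160004) (nat_lit 0) (p (nat_lit 0x50612) (nat_lit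 0) (p (nat_lit 0x40592) (nat_lit 0) (p (nat_lit 0x40492) (nat_lit 0) (p (nat_lit 0x30412) (nat_lit 0) (p (nat_lit 0x30212) (nat_lit 0) (p (nat_lit 0x20192) (nat_lit 0) (p (nat_lit 0x20092) (nat_lit 0) (p (nat_lit 0x10012) (nat_lit 0) pn))))))))))))))))))))))) :=
  Cl.node (nat_lit 0x81) (nat_lit 2) (by decide +kernel) (ClAll.succ (ClAll.succ ClAll.zero s275) n329)

def n351 : Cl (O (nat_lit 6)) (R (nat_lit 102673))
    (p (nat_lit 0x119) (nat_lit 0) (p (nat_lit 0xc9) (nat_lit 0) (p (nat_lit 0x89) (nat_lit 1) (p (nat_lit 0x41) (nat_lit 0) (p (nat_lit 0x1098a0b090a9a) (nat_lit 0) (p (nat_lit 0x89098a888a1a) (nat_lit 0) (p (nat_lit 0x108890a08079a) (nat_lit 0) (p (nat_lit 0x88088987871a) (nat_lit 0) (p (nat_lit 0x8000080000000078907088a) (nat_lit 0) (p (nat_lit 0x8000080000000070886860a) (nat_lit 0) (p (nat_lit 0x10708060782) (nat_lit 0) (p (nat_lit 0x8687858702) (nat_lit 0) (p (nat_lit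 0x10607050482) (nat_lit 0) (p (nat_lit 0x8586848402) (nat_lit 0) (p (nat_lit 0x160004) (nat_lit 0) (p (nat_lit 0x50612) (nat_lit 0) (p (nat_lit 0x40592) (nat_lit 0) (p (nat_lit 0x40492) (nat_lit 0) (p (nat_lit 0x30412) (nat_lit 0) (p (nat_lit 0x30212) (nat_lit 0) (p (nat_lit 0x20192) (nat_lit 0) (p (nat_lit 0x20092) (nat_lit 0) (p (nat_lit 0x10012) (nat_lit 0) pn))))))))))))))))))))))) :=
  Cl.node (nat_lit 0x101) (nat_lit 2) (by decide +kernel) (ClAll.succ (ClAll.succ ClAll.zero n330) n331)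

def n352 : Cl (O (nat_lit 6)) (R (nat_lit 102673))
    (p (nat_lit 0x119) (nat_lit 1) (p (nat_lit 0xc9) (nat_lit 0) (p (nat_lit 0x89) (nat_lit 1) (p (nat_lit 0x41) (nat_lit 0) (p (nat_lit 0x1098a0b090a9a) (nat_lit 0) (p (nat_lit 0x89098a888a1a) (nat_lit 0) (p (nat_lit 0x108890a08079a) (nat_lit 0) (p (nat_lit 0x88088987871a) (nat_lit 0) (p (nat_lit 0x8000080000000078907088a) (nat_lit 0) (p (nat_lit 0x8000080000000070886860a) (nat_lit 0) (p (nat_lit 0x10708060782) (nat_lit 0) (p (nat_lit 0x8687858702) (nat_lit 0) (p (nat_lit 0x10607050482) (nat_lit 0) (p (nat_lit 0x8586848402) (nat_lit 0) (p (nat_lit 0x160004) (nat_lit 0) (p (nat_lit 0x50612) (nat_lit 0) (p (nat_lit 0x40592) (nat_lit 0) (p (nat_lit 0x40492) (nat_lit 0) (p (nat_lit 0x30412) (nat_lit 0) (p (nat_lit 0x30212) (nat_lit 0) (p (nat_lit 0x20192) (nat_lit 0) (p (nat_lit 0x20092) (nat_lit 0) (p (nat_lit 0x10012) (nat_lit 0)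 pn))))))))))))))))))))))) :=
  Cl.node (nat_lit 0xc1) (nat_lit 2) (by decide +kernel) (ClAll.succ (ClAll.succ ClAll.zero n332) n333)

def n353 : Cl (O (nat_lit 6)) (R (nat_lit 102673))
    (p (nat_lit 0x109) (nat_lit 0) (p (nat_lit 0xc9) (nat_lit 1) (p (nat_lit 0x89) (nat_lit 1) (p (nat_lit 0x41) (nat_lit 0) (p (nat_lit 0x1098a0b090a9a) (nat_lit 0) (p (nat_lit 0x89098a888a1a) (nat_lit 0) (p (nat_lit 0x108890a08079a) (nat_lit 0) (p (nat_lit 0x88088987871a) (nat_lit 0) (p (nat_lit 0x8000080000000078907088a) (nat_lit 0) (p (nat_lit 0x8000080000000070886860a) (nat_lit 0) (p (nat_lit 0x10708060782) (nat_lit 0) (p (nat_lit 0x8687858702) (nat_lit 0) (p (nat_lit 0x10607050482) (nat_lit 0) (p (nat_lit 0x8586848402) (nat_lit 0) (p (nat_lit 0x160004) (nat_lit 0) (p (nat_lit 0x50612) (nat_lit 0) (p (nat_lit 0x40592) (nat_lit 0) (p (nat_lit 0x40492) (nat_lit 0) (p (nat_lit 0x30412) (nat_lit 0)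 (p (nat_lit 0x30212) (nat_lit 0) (p (nat_lit 0x20192) (nat_lit 0) (p (nat_lit 0x20092) (nat_lit 0) (p (nat_lit 0x10012) (nat_lit 0) pn))))))))))))))))))))))) :=
  Cl.node (nat_lit 0x101) (nat_lit 2) (by decide +kernel) (ClAll.succ (ClAll.succ ClAll.zero n334) s465)

def n354 : Cl (O (nat_lit 6)) (R (nat_lit 102673))
    (p (nat_lit 0x119) (nat_lit 0) (p (nat_lit 0xd1) (nat_lit 0) (p (nat_lit 0x81) (nat_lit 0) (p (nat_lit 0x41) (nat_lit 1) (p (nat_lit 0x1098a0b090a9a) (nat_lit 0) (p (nat_lit 0x89098a888a1a) (nat_lit 0) (p (nat_lit 0x108890a08079a) (nat_lit 0) (p (nat_lit 0x88088987871a) (nat_lit 0) (p (nat_lit 0x8000080000000078907088a) (nat_lit 0) (p (nat_lit 0x8000080000000070886860a) (nat_lit 0) (p (nat_lit 0x10708060782) (nat_lit 0) (p (nat_lit 0x8687858702) (nat_lit 0) (p (nat_lit 0x10607050482) (nat_lit 0) (p (nat_lit 0x8586848402) (nat_lit 0) (p (nat_lit 0x160004) (nat_lit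 0) (p (nat_lit 0x50612) (nat_lit 0) (p (nat_lit 0x40592) (nat_lit 0) (p (nat_lit 0x40492) (nat_lit 0) (p (nat_lit 0x30412) (nat_lit 0) (p (nat_lit 0x30212) (nat_lit 0) (p (nat_lit 0x20192) (nat_lit 0) (p (nat_lit 0x20092) (nat_lit 0) (p (nat_lit 0x10012) (nat_lit 0) pn))))))))))))))))))))))) :=
  Cl.node (nat_lit 0x101) (nat_lit 2) (by decide +kernel) (ClAll.succ (ClAll.succ ClAll.zero n335) n336)

def n355 : Cl (O (nat_lit 6)) (R (nat_lit 102673))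
    (p (nat_lit 0x119) (nat_lit 1) (p (nat_lit 0xd1) (nat_lit 0) (p (nat_lit 0x81) (nat_lit 0) (p (nat_lit 0x41) (nat_lit 1) (p (nat_lit 0x1098a0b090a9a) (nat_lit 0) (p (nat_lit 0x89098a888a1a) (nat_lit 0) (p (nat_lit 0x108890a08079a) (nat_lit 0) (p (nat_lit 0x88088987871a) (nat_lit 0) (p (nat_lit 0x8000080000000078907088a) (nat_lit 0) (p (nat_lit 0x8000080000000070886860a) (nat_lit 0) (p (nat_lit 0x10708060782) (nat_lit 0) (p (nat_lit 0x8687858702) (nat_lit 0) (p (nat_lit 0x10607050482) (nat_lit 0) (p (nat_lit 0x8586848402) (nat_lit 0) (p (nat_lit 0x160004) (nat_lit 0) (p (nat_lit 0x50612) (nat_lit 0) (p (nat_lit 0x40592) (nat_lit 0) (p (nat_lit 0x40492) (nat_lit 0) (p (nat_lit 0x30412) (nat_lit 0) (p (nat_lit 0x30212) (nat_lit 0) (p (nat_lit 0x20192) (nat_lit 0) (p (nat_lit 0x20092) (nat_lit 0) (p (nat_lit 0x10012) (nat_lit 0) pn))))))))))))))))))))))) :=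
  Cl.node (nat_lit 0xc1) (nat_lit 2) (by decide +kernel) (ClAll.succ (ClAll.succ ClAll.zero n337) n338)

def n356 : Cl (O (nat_lit 6)) (R (nat_lit 102673))
    (p (nat_lit 0x111) (nat_lit 0) (p (nat_lit 0xd1) (nat_lit 1) (p (nat_lit 0x81) (nat_lit 0) (p (nat_lit 0x41) (nat_lit 1) (p (nat_lit 0x1098a0b090a9a) (nat_lit 0) (p (nat_lit 0x89098a888a1a) (nat_lit 0) (p (nat_lit 0x108890a08079a) (nat_lit 0) (p (nat_lit 0x88088987871a) (nat_lit 0) (p (nat_lit 0x8000080000000078907088a) (nat_lit 0) (p (nat_lit 0x8000080000000070886860a) (nat_lit 0) (p (nat_lit 0x10708060782) (nat_lit 0) (p (nat_lit 0x8687858702) (nat_lit 0) (p (nat_lit 0x10607050482) (nat_lit 0) (p (nat_lit 0x8586848402) (nat_lit 0) (p (nat_lit 0x160004) (nat_lit 0) (p (nat_lit 0x50612) (nat_lit 0) (p (nat_lit 0x40592) (nat_lit 0) (p (nat_lit 0x40492) (nat_lit 0) (p (nat_lit 0x30412) (nat_lit 0) (p (nat_lit 0x30212) (nat_lit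 0) (p (nat_lit 0x20192) (nat_lit 0) (p (nat_lit 0x20092) (nat_lit 0) (p (nat_lit 0x10012) (nat_lit 0) pn))))))))))))))))))))))) :=
  Cl.node (nat_lit 0x101) (nat_lit 2) (by decide +kernel) (ClAll.succ (ClAll.succ ClAll.zero n339) n340)

def n357 : Cl (O (nat_lit 6)) (R (nat_lit 102673))
    (p (nat_lit 0x111) (nat_lit 1) (p (nat_lit 0xd1) (nat_lit 1) (p (nat_lit 0x81) (nat_lit 0) (p (nat_lit 0x41) (nat_lit 1) (p (nat_lit 0x1098a0b090a9a) (nat_lit 0) (p (nat_lit 0x89098a888a1a) (nat_lit 0) (p (nat_lit 0x108890a08079a) (nat_lit 0) (p (nat_lit 0x88088987871a) (nat_lit 0) (p (nat_lit 0x8000080000000078907088a) (nat_lit 0) (p (nat_lit 0x8000080000000070886860a) (nat_lit 0) (p (nat_lit 0x10708060782) (nat_lit 0) (p (nat_lit 0x8687858702) (nat_lit 0) (p (nat_lit 0x10607050482) (nat_lit 0) (p (nat_lit 0x8586848402) (nat_lit 0) (p (nat_lit 0x160004) (nat_lit 0) (p (nat_lit 0x50612) (nat_lit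 0) (p (nat_lit 0x40592) (nat_lit 0) (p (nat_lit 0x40492) (nat_lit 0) (p (nat_lit 0x30412) (nat_lit 0) (p (nat_lit 0x30212) (nat_lit 0) (p (nat_lit 0x20192) (nat_lit 0) (p (nat_lit 0x20092) (nat_lit 0) (p (nat_lit 0x10012) (nat_lit 0) pn))))))))))))))))))))))) :=
  Cl.node (nat_lit 0x89) (nat_lit 2) (by decide +kernel) (ClAll.succ (ClAll.succ ClAll.zero s757) n341)

def n358 : Cl (O (nat_lit 6)) (R (nat_lit 102673))
    (p (nat_lit 0x119) (nat_lit 0) (p (nat_lit 0xc1) (nat_lit 0) (p (nat_lit 0x81) (nat_lit 1) (p (nat_lit 0x41) (nat_lit 1) (p (nat_lit 0x1098a0b090a9a) (nat_lit 0) (p (nat_lit 0x89098a888a1a) (nat_lit 0) (p (nat_lit 0x108890a08079a) (nat_lit 0) (p (nat_lit 0x88088987871a) (nat_lit 0) (p (nat_lit 0x8000080000000078907088a) (nat_lit 0) (p (nat_lit 0x8000080000000070886860a) (nat_lit 0) (p (nat_lit 0x10708060782) (nat_lit 0) (p (nat_lit 0x8687858702) (nat_lit 0) (p (nat_lit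 0x10607050482) (nat_lit 0) (p (nat_lit 0x8586848402) (nat_lit 0) (p (nat_lit 0x160004) (nat_lit 0) (p (nat_lit 0x50612) (nat_lit 0) (p (nat_lit 0x40592) (nat_lit 0) (p (nat_lit 0x40492) (nat_lit 0) (p (nat_lit 0x30412) (nat_lit 0) (p (nat_lit 0x30212) (nat_lit 0) (p (nat_lit 0x20192) (nat_lit 0) (p (nat_lit 0x20092) (nat_lit 0) (p (nat_lit 0x10012) (nat_lit 0) pn))))))))))))))))))))))) :=
  Cl.node (nat_lit 0x101) (nat_lit 2) (by decide +kernel) (ClAll.succ (ClAll.succ ClAll.zero n342) n343)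

def n359 : Cl (O (nat_lit 6)) (R (nat_lit 102673))
    (p (nat_lit 0x119) (nat_lit 1) (p (nat_lit 0xc1) (nat_lit 0) (p (nat_lit 0x81) (nat_lit 1) (p (nat_lit 0x41) (nat_lit 1) (p (nat_lit 0x1098a0b090a9a) (nat_lit 0) (p (nat_lit 0x89098a888a1a) (nat_lit 0) (p (nat_lit 0x108890a08079a) (nat_lit 0) (p (nat_lit 0x88088987871a) (nat_lit 0) (p (nat_lit 0x8000080000000078907088a) (nat_lit 0) (p (nat_lit 0x8000080000000070886860a) (nat_lit 0) (p (nat_lit 0x10708060782) (nat_lit 0) (p (nat_lit 0x8687858702) (nat_lit 0) (p (nat_lit 0x10607050482) (nat_lit 0) (p (nat_lit 0x8586848402) (nat_lit 0) (p (nat_lit 0x160004) (nat_lit 0) (p (nat_lit 0x50612) (nat_lit 0) (p (nat_lit 0x40592) (nat_lit 0) (p (nat_lit 0x40492) (nat_lit 0) (p (nat_lit 0x30412) (nat_lit 0) (p (nat_lit 0x30212) (nat_lit 0) (p (nat_lit 0x20192) (nat_lit 0) (p (nat_lit 0x20092) (nat_lit 0) (p (nat_lit 0x10012) (nat_lit 0)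 pn))))))))))))))))))))))) :=
  Cl.node (nat_lit 0xc9) (nat_lit 2) (by decide +kernel) (ClAll.succ (ClAll.succ ClAll.zero n344) n345)

def n360 : Cl (O (nat_lit 6)) (R (nat_lit 102673))
    (p (nat_lit 0x101) (nat_lit 0) (p (nat_lit 0xc1) (nat_lit 1) (p (nat_lit 0x81) (nat_lit 1) (p (nat_lit 0x41) (nat_lit 1) (p (nat_lit 0x1098a0b090a9a) (nat_lit 0) (p (nat_lit 0x89098a888a1a) (nat_lit 0) (p (nat_lit 0x108890a08079a) (nat_lit 0) (p (nat_lit 0x88088987871a) (nat_lit 0) (p (nat_lit 0x8000080000000078907088a) (nat_lit 0) (p (nat_lit 0x8000080000000070886860a) (nat_lit 0) (p (nat_lit 0x10708060782) (nat_lit 0) (p (nat_lit 0x8687858702) (nat_lit 0) (p (nat_lit 0x10607050482) (nat_lit 0) (p (nat_lit 0x8586848402) (nat_lit 0) (p (nat_lit 0x160004) (nat_lit 0) (p (nat_lit 0x50612) (nat_lit 0) (p (nat_lit 0x40592) (nat_lit 0) (p (nat_lit 0x40492) (nat_lit 0) (p (nat_lit 0x30412) (nat_lit 0)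 (p (nat_lit 0x30212) (nat_lit 0) (p (nat_lit 0x20192) (nat_lit 0) (p (nat_lit 0x20092) (nat_lit 0) (p (nat_lit 0x10012) (nat_lit 0) pn))))))))))))))))))))))) :=
  Cl.node (nat_lit 0x109) (nat_lit 2) (by decide +kernel) (ClAll.succ (ClAll.succ ClAll.zero n346) s879)

def n361 : Cl (O (nat_lit 6)) (R (nat_lit 102673))
    (p (nat_lit 0xd1) (nat_lit 0) (p (nat_lit 0x89) (nat_lit 0) (p (nat_lit 0x41) (nat_lit 0) (p (nat_lit 0x1098a0b090a9a) (nat_lit 0) (p (nat_lit 0x89098a888a1a) (nat_lit 0) (p (nat_lit 0x108890a08079a) (nat_lit 0) (p (nat_lit 0x88088987871a) (nat_lit 0) (p (nat_lit 0x8000080000000078907088a) (nat_lit 0) (p (nat_lit 0x8000080000000070886860a) (nat_lit 0) (p (nat_lit 0x10708060782) (nat_lit 0) (p (nat_lit 0x8687858702) (nat_lit 0) (p (nat_lit 0x10607050482) (nat_lit 0) (p (nat_lit 0x8586848402) (nat_lit 0) (p (nat_lit 0x160004) (nat_lit 0) (p (nat_lit 0x50612) (nat_lit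 0) (p (nat_lit 0x40592) (nat_lit 0) (p (nat_lit 0x40492) (nat_lit 0) (p (nat_lit 0x30412) (nat_lit 0) (p (nat_lit 0x30212) (nat_lit 0) (p (nat_lit 0x20192) (nat_lit 0) (p (nat_lit 0x20092) (nat_lit 0) (p (nat_lit 0x10012) (nat_lit 0) pn)))))))))))))))))))))) :=
  Cl.node (nat_lit 0x119) (nat_lit 2) (by decide +kernel) (ClAll.succ (ClAll.succ ClAll.zero n347) n348)

def n362 : Cl (O (nat_lit 6)) (R (nat_lit 102673))
    (p (nat_lit 0xd1) (nat_lit 1) (p (nat_lit 0x89) (nat_lit 0) (p (nat_lit 0x41) (nat_lit 0) (p (nat_lit 0x1098a0b090a9a) (nat_lit 0) (p (nat_lit 0x89098a888a1a) (nat_lit 0) (p (nat_lit 0x108890a08079a) (nat_lit 0) (p (nat_lit 0x88088987871a) (nat_lit 0) (p (nat_lit 0x8000080000000078907088a) (nat_lit 0) (p (nat_lit 0x8000080000000070886860a) (nat_lit 0) (p (nat_lit 0x10708060782) (nat_lit 0) (p (nat_lit 0x8687858702) (nat_lit 0) (p (nat_lit 0x10607050482) (nat_lit 0)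 (p (nat_lit 0x8586848402) (nat_lit 0) (p (nat_lit 0x160004) (nat_lit 0) (p (nat_lit 0x50612) (nat_lit 0) (p (nat_lit 0x40592) (nat_lit 0) (p (nat_lit 0x40492) (nat_lit 0) (p (nat_lit 0x30412) (nat_lit 0) (p (nat_lit 0x30212) (nat_lit 0) (p (nat_lit 0x20192) (nat_lit 0) (p (nat_lit 0x20092) (nat_lit 0) (p (nat_lit 0x10012) (nat_lit 0) pn)))))))))))))))))))))) :=
  Cl.node (nat_lit 0x111) (nat_lit 2) (by decide +kernel) (ClAll.succ (ClAll.succ ClAll.zero n349) n350)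

def n363 : Cl (O (nat_lit 6)) (R (nat_lit 102673))
    (p (nat_lit 0xc9) (nat_lit 0) (p (nat_lit 0x89) (nat_lit 1) (p (nat_lit 0x41) (nat_lit 0) (p (nat_lit 0x1098a0b090a9a) (nat_lit 0) (p (nat_lit 0x89098a888a1a) (nat_lit 0) (p (nat_lit 0x108890a08079a) (nat_lit 0) (p (nat_lit 0x88088987871a) (nat_lit 0) (p (nat_lit 0x8000080000000078907088a) (nat_lit 0) (p (nat_lit 0x8000080000000070886860a) (nat_lit 0) (p (nat_lit 0x10708060782) (nat_lit 0) (p (nat_lit 0x8687858702) (nat_lit 0) (p (nat_lit 0x10607050482) (nat_lit 0) (p (nat_lit 0x8586848402) (nat_lit 0) (p (nat_lit 0x160004) (nat_lit 0) (p (nat_lit 0x50612) (nat_lit 0) (p (nat_lit 0x40592) (nat_lit 0) (p (nat_lit 0x40492) (nat_lit 0) (p (nat_lit 0x30412) (nat_lit 0) (p (nat_lit 0x30212) (nat_lit 0) (p (nat_lit 0x20192) (nat_lit 0) (p (nat_lit 0x20092) (nat_lit 0) (p (nat_lit 0x10012) (nat_lit 0) pn)))))))))))))))))))))) :=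
  Cl.node (nat_lit 0x119) (nat_lit 2) (by decide +kernel) (ClAll.succ (ClAll.succ ClAll.zero n351) n352)

def n364 : Cl (O (nat_lit 6)) (R (nat_lit 102673))
    (p (nat_lit 0xc9) (nat_lit 1) (p (nat_lit 0x89) (nat_lit 1) (p (nat_lit 0x41) (nat_lit 0) (p (nat_lit 0x1098a0b090a9a) (nat_lit 0) (p (nat_lit 0x89098a888a1a) (nat_lit 0) (p (nat_lit 0x108890a08079a) (nat_lit 0) (p (nat_lit 0x88088987871a) (nat_lit 0) (p (nat_lit 0x8000080000000078907088a) (nat_lit 0) (p (nat_lit 0x8000080000000070886860a) (nat_lit 0) (p (nat_lit 0x10708060782) (nat_lit 0) (p (nat_lit 0x8687858702) (nat_lit 0) (p (nat_lit 0x10607050482) (nat_lit 0) (p (nat_lit 0x8586848402) (nat_lit 0) (p (nat_lit 0x160004) (nat_lit 0) (p (nat_lit 0x50612) (nat_lit 0) (p (nat_lit 0x40592) (nat_lit 0) (p (nat_lit 0x40492) (nat_lit 0) (p (nat_lit 0x30412) (nat_lit 0) (p (nat_lit 0x30212) (nat_lit 0) (p (nat_lit 0x20192) (nat_lit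 0) (p (nat_lit 0x20092) (nat_lit 0) (p (nat_lit 0x10012) (nat_lit 0) pn)))))))))))))))))))))) :=
  Cl.node (nat_lit 0x109) (nat_lit 2) (by decide +kernel) (ClAll.succ (ClAll.succ ClAll.zero n353) s466)

def n365 : Cl (O (nat_lit 6)) (R (nat_lit 102673))
    (p (nat_lit 0xd1) (nat_lit 0) (p (nat_lit 0x81) (nat_lit 0) (p (nat_lit 0x41) (nat_lit 1) (p (nat_lit 0x1098a0b090a9a) (nat_lit 0) (p (nat_lit 0x89098a888a1a) (nat_lit 0) (p (nat_lit 0x108890a08079a) (nat_lit 0) (p (nat_lit 0x88088987871a) (nat_lit 0) (p (nat_lit 0x8000080000000078907088a) (nat_lit 0) (p (nat_lit 0x8000080000000070886860a) (nat_lit 0) (p (nat_lit 0x10708060782) (nat_lit 0) (p (nat_lit 0x8687858702) (nat_lit 0) (p (nat_lit 0x10607050482) (nat_lit 0) (p (nat_lit 0x8586848402) (nat_lit 0) (p (nat_lit 0x160004) (nat_lit 0) (p (nat_lit 0x50612) (nat_lit 0) (p (nat_lit 0x40592) (nat_lit 0) (p (nat_lit 0x40492) (nat_lit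 0) (p (nat_lit 0x30412) (nat_lit 0) (p (nat_lit 0x30212) (nat_lit 0) (p (nat_lit 0x20192) (nat_lit 0) (p (nat_lit 0x20092) (nat_lit 0) (p (nat_lit 0x10012) (nat_lit 0) pn)))))))))))))))))))))) :=
  Cl.node (nat_lit 0x119) (nat_lit 2) (by decide +kernel) (ClAll.succ (ClAll.succ ClAll.zero n354) n355)

def n366 : Cl (O (nat_lit 6)) (R (nat_lit 102673))
    (p (nat_lit 0xd1) (nat_lit 1) (p (nat_lit 0x81) (nat_lit 0) (p (nat_lit 0x41) (nat_lit 1) (p (nat_lit 0x1098a0b090a9a) (nat_lit 0) (p (nat_lit 0x89098a888a1a) (nat_lit 0) (p (nat_lit 0x108890a08079a) (nat_lit 0) (p (nat_lit 0x88088987871a) (nat_lit 0) (p (nat_lit 0x8000080000000078907088a) (nat_lit 0) (p (nat_lit 0x8000080000000070886860a) (nat_lit 0) (p (nat_lit 0x10708060782) (nat_lit 0) (p (nat_lit 0x8687858702) (nat_lit 0) (p (nat_lit 0x10607050482) (nat_lit 0) (p (nat_lit 0x8586848402) (nat_lit 0) (p (nat_lit 0x160004) (nat_lit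 0) (p (nat_lit 0x50612) (nat_lit 0) (p (nat_lit 0x40592) (nat_lit 0) (p (nat_lit 0x40492) (nat_lit 0) (p (nat_lit 0x30412) (nat_lit 0) (p (nat_lit 0x30212) (nat_lit 0) (p (nat_lit 0x20192) (nat_lit 0) (p (nat_lit 0x20092) (nat_lit 0) (p (nat_lit 0x10012) (nat_lit 0) pn)))))))))))))))))))))) :=
  Cl.node (nat_lit 0x111) (nat_lit 2) (by decide +kernel) (ClAll.succ (ClAll.succ ClAll.zero n356) n357)

def n367 : Cl (O (nat_lit 6)) (R (nat_lit 102673))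
    (p (nat_lit 0xc1) (nat_lit 0) (p (nat_lit 0x81) (nat_lit 1) (p (nat_lit 0x41) (nat_lit 1) (p (nat_lit 0x1098a0b090a9a) (nat_lit 0) (p (nat_lit 0x89098a888a1a) (nat_lit 0) (p (nat_lit 0x108890a08079a) (nat_lit 0) (p (nat_lit 0x88088987871a) (nat_lit 0) (p (nat_lit 0x8000080000000078907088a) (nat_lit 0) (p (nat_lit 0x8000080000000070886860a) (nat_lit 0) (p (nat_lit 0x10708060782) (nat_lit 0) (p (nat_lit 0x8687858702) (nat_lit 0) (p (nat_lit 0x10607050482) (nat_lit 0) (p (nat_lit 0x8586848402) (nat_lit 0) (p (nat_lit 0x160004) (nat_lit 0) (p (nat_lit 0x50612) (nat_lit 0) (p (nat_lit 0x40592) (nat_lit 0) (p (nat_lit 0x40492) (nat_lit 0) (p (nat_lit 0x30412) (nat_lit 0) (p (nat_lit 0x30212) (nat_lit 0) (p (nat_lit 0x20192) (nat_lit 0) (p (nat_lit 0x20092) (nat_lit 0) (p (nat_lit 0x10012) (nat_lit 0) pn)))))))))))))))))))))) :=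
  Cl.node (nat_lit 0x119) (nat_lit 2) (by decide +kernel) (ClAll.succ (ClAll.succ ClAll.zero n358) n359)

def n368 : Cl (O (nat_lit 6)) (R (nat_lit 102673))
    (p (nat_lit 0xc1) (nat_lit 1) (p (nat_lit 0x81) (nat_lit 1) (p (nat_lit 0x41) (nat_lit 1) (p (nat_lit 0x1098a0b090a9a) (nat_lit 0) (p (nat_lit 0x89098a888a1a) (nat_lit 0) (p (nat_lit 0x108890a08079a) (nat_lit 0) (p (nat_lit 0x88088987871a) (nat_lit 0) (p (nat_lit 0x8000080000000078907088a) (nat_lit 0) (p (nat_lit 0x8000080000000070886860a) (nat_lit 0) (p (nat_lit 0x10708060782) (nat_lit 0) (p (nat_lit 0x8687858702) (nat_lit 0) (p (nat_lit 0x10607050482) (nat_lit 0) (p (nat_lit 0x8586848402) (nat_lit 0) (p (nat_lit 0x160004) (nat_lit 0) (p (nat_lit 0x50612) (nat_lit 0) (p (nat_lit 0x40592) (nat_lit 0) (p (nat_lit 0x40492) (nat_lit 0) (p (nat_lit 0x30412) (nat_lit 0) (p (nat_lit 0x30212) (nat_lit 0) (p (nat_lit 0x20192) (nat_lit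 0) (p (nat_lit 0x20092) (nat_lit 0) (p (nat_lit 0x10012) (nat_lit 0) pn)))))))))))))))))))))) :=
  Cl.node (nat_lit 0x101) (nat_lit 2) (by decide +kernel) (ClAll.succ (ClAll.succ ClAll.zero n360) s880)

def n369 : Cl (O (nat_lit 6)) (R (nat_lit 102673))
    (p (nat_lit 0x89) (nat_lit 0) (p (nat_lit 0x41) (nat_lit 0) (p (nat_lit 0x1098a0b090a9a) (nat_lit 0) (p (nat_lit 0x89098a888a1a) (nat_lit 0) (p (nat_lit 0x108890a08079a) (nat_lit 0) (p (nat_lit 0x88088987871a) (nat_lit 0) (p (nat_lit 0x8000080000000078907088a) (nat_lit 0) (p (nat_lit 0x8000080000000070886860a) (nat_lit 0) (p (nat_lit 0x10708060782) (nat_lit 0) (p (nat_lit 0x8687858702) (nat_lit 0) (p (nat_lit 0x10607050482) (nat_lit 0) (p (nat_lit 0x8586848402) (nat_lit 0) (p (nat_lit 0x160004) (nat_lit 0) (p (nat_lit 0x50612) (nat_lit 0) (p (nat_lit 0x40592) (nat_lit 0) (p (nat_lit 0x40492) (nat_lit 0) (p (nat_lit 0x30412) (nat_lit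 0) (p (nat_lit 0x30212) (nat_lit 0) (p (nat_lit 0x20192) (nat_lit 0) (p (nat_lit 0x20092) (nat_lit 0) (p (nat_lit 0x10012) (nat_lit 0) pn))))))))))))))))))))) :=
  Cl.node (nat_lit 0xd1) (nat_lit 2) (by decide +kernel) (ClAll.succ (ClAll.succ ClAll.zero n361) n362)

def n370 : Cl (O (nat_lit 6)) (R (nat_lit 102673))
    (p (nat_lit 0x89) (nat_lit 1) (p (nat_lit 0x41) (nat_lit 0) (p (nat_lit 0x1098a0b090a9a) (nat_lit 0) (p (nat_lit 0x89098a888a1a) (nat_lit 0) (p (nat_lit 0x108890a08079a) (nat_lit 0) (p (nat_lit 0x88088987871a) (nat_lit 0) (p (nat_lit 0x8000080000000078907088a) (nat_lit 0) (p (nat_lit 0x8000080000000070886860a) (nat_lit 0) (p (nat_lit 0x10708060782) (nat_lit 0) (p (nat_lit 0x8687858702) (nat_lit 0) (p (nat_lit 0x10607050482) (nat_lit 0) (p (nat_lit 0x8586848402) (nat_lit 0) (p (nat_lit 0x160004) (nat_lit 0) (p (nat_lit 0x50612) (nat_lit 0) (p (nat_lit 0x40592) (nat_lit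 0) (p (nat_lit 0x40492) (nat_lit 0) (p (nat_lit 0x30412) (nat_lit 0) (p (nat_lit 0x30212) (nat_lit 0) (p (nat_lit 0x20192) (nat_lit 0) (p (nat_lit 0x20092) (nat_lit 0) (p (nat_lit 0x10012) (nat_lit 0) pn))))))))))))))))))))) :=
  Cl.node (nat_lit 0xc9) (nat_lit 2) (by decide +kernel) (ClAll.succ (ClAll.succ ClAll.zero n363) n364)

def n371 : Cl (O (nat_lit 6)) (R (nat_lit 102673))
    (p (nat_lit 0x81) (nat_lit 0) (p (nat_lit 0x41) (nat_lit 1) (p (nat_lit 0x1098a0b090a9a) (nat_lit 0) (p (nat_lit 0x89098a888a1a) (nat_lit 0) (p (nat_lit 0x108890a08079a) (nat_lit 0) (p (nat_lit 0x88088987871a) (nat_lit 0) (p (nat_lit 0x8000080000000078907088a) (nat_lit 0) (p (nat_lit 0x8000080000000070886860a) (nat_lit 0) (p (nat_lit 0x10708060782) (nat_lit 0) (p (nat_lit 0x8687858702) (nat_lit 0) (p (nat_lit 0x10607050482) (nat_lit 0) (p (nat_lit 0x8586848402) (nat_lit 0) (p (nat_lit 0x160004) (nat_lit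 0) (p (nat_lit 0x50612) (nat_lit 0) (p (nat_lit 0x40592) (nat_lit 0) (p (nat_lit 0x40492) (nat_lit 0) (p (nat_lit 0x30412) (nat_lit 0) (p (nat_lit 0x30212) (nat_lit 0) (p (nat_lit 0x20192) (nat_lit 0) (p (nat_lit 0x20092) (nat_lit 0) (p (nat_lit 0x10012) (nat_lit 0) pn))))))))))))))))))))) :=
  Cl.node (nat_lit 0xd1) (nat_lit 2) (by decide +kernel) (ClAll.succ (ClAll.succ ClAll.zero n365) n366)

def n372 : Cl (O (nat_lit 6)) (R (nat_lit 102673))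
    (p (nat_lit 0x81) (nat_lit 1) (p (nat_lit 0x41) (nat_lit 1) (p (nat_lit 0x1098a0b090a9a) (nat_lit 0) (p (nat_lit 0x89098a888a1a) (nat_lit 0) (p (nat_lit 0x108890a08079a) (nat_lit 0) (p (nat_lit 0x88088987871a) (nat_lit 0) (p (nat_lit 0x8000080000000078907088a) (nat_lit 0) (p (nat_lit 0x8000080000000070886860a) (nat_lit 0) (p (nat_lit 0x10708060782) (nat_lit 0) (p (nat_lit 0x8687858702) (nat_lit 0) (p (nat_lit 0x10607050482) (nat_lit 0) (p (nat_lit 0x8586848402) (nat_lit 0) (p (nat_lit 0x160004) (nat_lit 0) (p (nat_lit 0x50612) (nat_lit 0) (p (nat_lit 0x40592) (nat_lit 0) (p (nat_lit 0x40492) (nat_lit 0) (p (nat_lit 0x30412) (nat_lit 0) (p (nat_lit 0x30212) (nat_lit 0) (p (nat_lit 0x20192) (nat_lit 0) (p (nat_lit 0x20092) (nat_lit 0) (p (nat_lit 0x10012) (nat_lit 0) pn))))))))))))))))))))) :=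
  Cl.node (nat_lit 0xc1) (nat_lit 2) (by decide +kernel) (ClAll.succ (ClAll.succ ClAll.zero n367) n368)

def n373 : Cl (O (nat_lit 6)) (R (nat_lit 102673))
    (p (nat_lit 0x41) (nat_lit 0) (p (nat_lit 0x1098a0b090a9a) (nat_lit 0) (p (nat_lit 0x89098a888a1a) (nat_lit 0) (p (nat_lit 0x108890a08079a) (nat_lit 0) (p (nat_lit 0x88088987871a) (nat_lit 0) (p (nat_lit 0x8000080000000078907088a) (nat_lit 0) (p (nat_lit 0x8000080000000070886860a) (nat_lit 0) (p (nat_lit 0x10708060782) (nat_lit 0) (p (nat_lit 0x8687858702) (nat_lit 0) (p (nat_lit 0x10607050482) (nat_lit 0) (p (nat_lit 0x8586848402) (nat_lit 0) (p (nat_lit 0x160004) (nat_lit 0) (p (nat_lit 0x50612) (nat_lit 0) (p (nat_lit 0x40592) (nat_lit 0) (p (nat_lit 0x40492) (nat_lit 0) (p (nat_lit 0x30412) (nat_lit 0) (p (nat_lit 0x30212) (nat_lit 0) (p (nat_lit 0x20192) (nat_lit 0) (p (nat_lit 0x20092) (nat_lit 0) (p (nat_lit 0x10012)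 (nat_lit 0) pn)))))))))))))))))))) :=
  Cl.node (nat_lit 0x89) (nat_lit 2) (by decide +kernel) (ClAll.succ (ClAll.succ ClAll.zero n369) n370)

def n374 : Cl (O (nat_lit 6)) (R (nat_lit 102673))
    (p (nat_lit 0x41) (nat_lit 1) (p (nat_lit 0x1098a0b090a9a) (nat_lit 0) (p (nat_lit 0x89098a888a1a) (nat_lit 0) (p (nat_lit 0x108890a08079a) (nat_lit 0) (p (nat_lit 0x88088987871a) (nat_lit 0) (p (nat_lit 0x8000080000000078907088a) (nat_lit 0) (p (nat_lit 0x8000080000000070886860a) (nat_lit 0) (p (nat_lit 0x10708060782) (nat_lit 0) (p (nat_lit 0x8687858702) (nat_lit 0) (p (nat_lit 0x10607050482) (nat_lit 0) (p (nat_lit 0x8586848402) (nat_lit 0) (p (nat_lit 0x160004) (nat_lit 0) (p (nat_lit 0x50612) (nat_lit 0) (p (nat_lit 0x40592) (nat_lit 0) (p (nat_lit 0x40492) (nat_lit 0) (p (nat_lit 0x30412) (nat_lit 0) (p (nat_lit 0x30212) (nat_lit 0) (p (nat_lit 0x20192) (nat_lit 0) (p (nat_lit 0x20092)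 (nat_lit 0) (p (nat_lit 0x10012) (nat_lit 0) pn)))))))))))))))))))) :=
  Cl.node (nat_lit 0x81) (nat_lit 2) (by decide +kernel) (ClAll.succ (ClAll.succ ClAll.zero n371) n372)

def n375 : Cl (O (nat_lit 6)) (R (nat_lit 102673))
    (p (nat_lit 0x1098a0b090a9a) (nat_lit 0) (p (nat_lit 0x89098a888a1a) (nat_lit 0) (p (nat_lit 0x108890a08079a) (nat_lit 0) (p (nat_lit 0x88088987871a) (nat_lit 0) (p (nat_lit 0x8000080000000078907088a) (nat_lit 0) (p (nat_lit 0x8000080000000070886860a) (nat_lit 0) (p (nat_lit 0x10708060782) (nat_lit 0) (p (nat_lit 0x8687858702) (nat_lit 0) (p (nat_lit 0x10607050482) (nat_lit 0) (p (nat_lit 0x8586848402) (nat_lit 0) (p (nat_lit 0x160004) (nat_lit 0) (p (nat_lit 0x50612) (nat_lit 0) (p (nat_lit 0x40592) (nat_lit 0) (p (nat_lit 0x40492) (nat_lit 0) (p (nat_lit 0x30412) (nat_lit 0) (p (nat_lit 0x30212) (nat_lit 0) (p (nat_lit 0x20192) (nat_lit 0) (p (nat_lit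 0x20092) (nat_lit 0) (p (nat_lit 0x10012) (nat_lit 0) pn))))))))))))))))))) :=
  Cl.node (nat_lit 0x41) (nat_lit 2) (by decide +kernel) (ClAll.succ (ClAll.succ ClAll.zero n373) n374)

def n376 : Cl (O (nat_lit 6)) (R (nat_lit 102673))
    (p (nat_lit 0x89098a888a1a) (nat_lit 0) (p (nat_lit 0x108890a08079a) (nat_lit 0) (p (nat_lit 0x88088987871a) (nat_lit 0) (p (nat_lit 0x8000080000000078907088a) (nat_lit 0) (p (nat_lit 0x8000080000000070886860a) (nat_lit 0) (p (nat_lit 0x10708060782) (nat_lit 0) (p (nat_lit 0x8687858702) (nat_lit 0) (p (nat_lit 0x10607050482) (nat_lit 0) (p (nat_lit 0x8586848402) (nat_lit 0) (p (nat_lit 0x160004) (nat_lit 0) (p (nat_lit 0x50612) (nat_lit 0) (p (nat_lit 0x40592) (nat_lit 0) (p (nat_lit 0x40492) (nat_lit 0) (p (nat_lit 0x30412) (nat_lit 0) (p (nat_lit 0x30212) (nat_lit 0) (p (nat_lit 0x20192) (nat_lit 0) (p (nat_lit 0x20092) (nat_lit 0) (p (nat_lit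 0x10012) (nat_lit 0) pn)))))))))))))))))) :=
  Cl.node (nat_lit 0x1098a0b090a9a) (nat_lit 1) (by decide +kernel) (ClAll.succ ClAll.zero n375)

def n377 : Cl (O (nat_lit 6)) (R (nat_lit 102673))
    (p (nat_lit 0x108890a08079a) (nat_lit 0) (p (nat_lit 0x88088987871a) (nat_lit 0) (p (nat_lit 0x8000080000000078907088a) (nat_lit 0) (p (nat_lit 0x8000080000000070886860a) (nat_lit 0) (p (nat_lit 0x10708060782) (nat_lit 0) (p (nat_lit 0x8687858702) (nat_lit 0) (p (nat_lit 0x10607050482) (nat_lit 0) (p (nat_lit 0x8586848402) (nat_lit 0) (p (nat_lit 0x160004) (nat_lit 0) (p (nat_lit 0x50612) (nat_lit 0) (p (nat_lit 0x40592) (nat_lit 0) (p (nat_lit 0x40492) (nat_lit 0) (p (nat_lit 0x30412) (nat_lit 0) (p (nat_lit 0x30212) (nat_lit 0) (p (nat_lit 0x20192) (nat_lit 0) (p (nat_lit 0x20092) (nat_lit 0) (p (nat_lit 0x10012) (nat_lit 0) pn))))))))))))))))) :=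
  Cl.node (nat_lit 0x89098a888a1a) (nat_lit 1) (by decide +kernel) (ClAll.succ ClAll.zero n376)

def n378 : Cl (O (nat_lit 6)) (R (nat_lit 102673))
    (p (nat_lit 0x88088987871a) (nat_lit 0) (p (nat_lit 0x8000080000000078907088a) (nat_lit 0) (p (nat_lit 0x8000080000000070886860a) (nat_lit 0) (p (nat_lit 0x10708060782) (nat_lit 0) (p (nat_lit 0x8687858702) (nat_lit 0) (p (nat_lit 0x10607050482) (nat_lit 0) (p (nat_lit 0x8586848402) (nat_lit 0) (p (nat_lit 0x160004) (nat_lit 0) (p (nat_lit 0x50612) (nat_lit 0) (p (nat_lit 0x40592) (nat_lit 0) (p (nat_lit 0x40492) (nat_lit 0) (p (nat_lit 0x30412) (nat_lit 0) (p (nat_lit 0x30212) (nat_lit 0) (p (nat_lit 0x20192) (nat_lit 0) (p (nat_lit 0x20092) (nat_lit 0) (p (nat_lit 0x10012) (nat_lit 0) pn)))))))))))))))) :=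
  Cl.node (nat_lit 0x108890a08079a) (nat_lit 1) (by decide +kernel) (ClAll.succ ClAll.zero n377)

def n379 : Cl (O (nat_lit 6)) (R (nat_lit 102673))
    (p (nat_lit 0x8000080000000078907088a) (nat_lit 0) (p (nat_lit 0x8000080000000070886860a) (nat_lit 0) (p (nat_lit 0x10708060782) (nat_lit 0) (p (nat_lit 0x8687858702) (nat_lit 0) (p (nat_lit 0x10607050482) (nat_lit 0) (p (nat_lit 0x8586848402) (nat_lit 0) (p (nat_lit 0x160004) (nat_lit 0) (p (nat_lit 0x50612) (nat_lit 0) (p (nat_lit 0x40592) (nat_lit 0) (p (nat_lit 0x40492) (nat_lit 0) (p (nat_lit 0x30412) (nat_lit 0) (p (nat_lit 0x30212) (nat_lit 0) (p (nat_lit 0x20192) (nat_lit 0) (p (nat_lit 0x20092) (nat_lit 0) (p (nat_lit 0x10012) (nat_lit 0) pn))))))))))))))) :=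
  Cl.node (nat_lit 0x88088987871a) (nat_lit 1) (by decide +kernel) (ClAll.succ ClAll.zero n378)

def n380 : Cl (O (nat_lit 6)) (R (nat_lit 102673))
    (p (nat_lit 0x8000080000000070886860a) (nat_lit 0) (p (nat_lit 0x10708060782) (nat_lit 0) (p (nat_lit 0x8687858702) (nat_lit 0) (p (nat_lit 0x10607050482) (nat_lit 0) (p (nat_lit 0x8586848402) (nat_lit 0) (p (nat_lit 0x160004) (nat_lit 0) (p (nat_lit 0x50612) (nat_lit 0) (p (nat_lit 0x40592) (nat_lit 0) (p (nat_lit 0x40492) (nat_lit 0) (p (nat_lit 0x30412) (nat_lit 0) (p (nat_lit 0x30212) (nat_lit 0) (p (nat_lit 0x20192) (nat_lit 0) (p (nat_lit 0x20092) (nat_lit 0) (p (nat_lit 0x10012) (nat_lit 0) pn)))))))))))))) :=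
  Cl.node (nat_lit 0x8000080000000078907088a) (nat_lit 1) (by decide +kernel) (ClAll.succ ClAll.zero n379)

def n381 : Cl (O (nat_lit 6)) (R (nat_lit 102673))
    (p (nat_lit 0x10708060782) (nat_lit 0) (p (nat_lit 0x8687858702) (nat_lit 0) (p (nat_lit 0x10607050482) (nat_lit 0) (p (nat_lit 0x8586848402) (nat_lit 0) (p (nat_lit 0x160004) (nat_lit 0) (p (nat_lit 0x50612) (nat_lit 0) (p (nat_lit 0x40592) (nat_lit 0) (p (nat_lit 0x40492) (nat_lit 0) (p (nat_lit 0x30412) (nat_lit 0) (p (nat_lit 0x30212) (nat_lit 0) (p (nat_lit 0x20192) (nat_lit 0) (p (nat_lit 0x20092) (nat_lit 0) (p (nat_lit 0x10012) (nat_lit 0) pn))))))))))))) :=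
  Cl.node (nat_lit 0x8000080000000070886860a) (nat_lit 1) (by decide +kernel) (ClAll.succ ClAll.zero n380)

def n382 : Cl (O (nat_lit 6)) (R (nat_lit 102673))
    (p (nat_lit 0x8687858702) (nat_lit 0) (p (nat_lit 0x10607050482) (nat_lit 0) (p (nat_lit 0x8586848402) (nat_lit 0) (p (nat_lit 0x160004) (nat_lit 0) (p (nat_lit 0x50612) (nat_lit 0) (p (nat_lit 0x40592) (nat_lit 0) (p (nat_lit 0x40492) (nat_lit 0) (p (nat_lit 0x30412) (nat_lit 0) (p (nat_lit 0x30212) (nat_lit 0) (p (nat_lit 0x20192) (nat_lit 0) (p (nat_lit 0x20092) (nat_lit 0) (p (nat_lit 0x10012) (nat_lit 0) pn)))))))))))) :=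
  Cl.node (nat_lit 0x10708060782) (nat_lit 1) (by decide +kernel) (ClAll.succ ClAll.zero n381)

def n383 : Cl (O (nat_lit 6)) (R (nat_lit 102673))
    (p (nat_lit 0x10607050482) (nat_lit 0) (p (nat_lit 0x8586848402) (nat_lit 0) (p (nat_lit 0x160004) (nat_lit 0) (p (nat_lit 0x50612) (nat_lit 0) (p (nat_lit 0x40592) (nat_lit 0) (p (nat_lit 0x40492) (nat_lit 0) (p (nat_lit 0x30412) (nat_lit 0) (p (nat_lit 0x30212) (nat_lit 0) (p (nat_lit 0x20192) (nat_lit 0) (p (nat_lit 0x20092) (nat_lit 0) (p (nat_lit 0x10012) (nat_lit 0) pn))))))))))) :=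
  Cl.node (nat_lit 0x8687858702) (nat_lit 1) (by decide +kernel) (ClAll.succ ClAll.zero n382)

def n384 : Cl (O (nat_lit 6)) (R (nat_lit 102673))
    (p (nat_lit 0x8586848402) (nat_lit 0) (p (nat_lit 0x160004) (nat_lit 0) (p (nat_lit 0x50612) (nat_lit 0) (p (nat_lit 0x40592) (nat_lit 0) (p (nat_lit 0x40492) (nat_lit 0) (p (nat_lit 0x30412) (nat_lit 0) (p (nat_lit 0x30212) (nat_lit 0) (p (nat_lit 0x20192) (nat_lit 0) (p (nat_lit 0x20092) (nat_lit 0) (p (nat_lit 0x10012) (nat_lit 0) pn)))))))))) :=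
  Cl.node (nat_lit 0x10607050482) (nat_lit 1) (by decide +kernel) (ClAll.succ ClAll.zero n383)

def n385 : Cl (O (nat_lit 6)) (R (nat_lit 102673))
    (p (nat_lit 0x160004) (nat_lit 0) (p (nat_lit 0x50612) (nat_lit 0) (p (nat_lit 0x40592) (nat_lit 0) (p (nat_lit 0x40492) (nat_lit 0) (p (nat_lit 0x30412) (nat_lit 0) (p (nat_lit 0x30212) (nat_lit 0) (p (nat_lit 0x20192) (nat_lit 0) (p (nat_lit 0x20092) (nat_lit 0) (p (nat_lit 0x10012) (nat_lit 0) pn))))))))) :=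
  Cl.node (nat_lit 0x8586848402) (nat_lit 1) (by decide +kernel) (ClAll.succ ClAll.zero n384)

def n386 : Cl (O (nat_lit 6)) (R (nat_lit 102673))
    (p (nat_lit 0x50612) (nat_lit 0) (p (nat_lit 0x40592) (nat_lit 0) (p (nat_lit 0x40492) (nat_lit 0) (p (nat_lit 0x30412) (nat_lit 0) (p (nat_lit 0x30212) (nat_lit 0) (p (nat_lit 0x20192) (nat_lit 0) (p (nat_lit 0x20092) (nat_lit 0) (p (nat_lit 0x10012) (nat_lit 0) pn)))))))) :=
  Cl.node (nat_lit 0x160004) (nat_lit 2) (by decide +kernel) (ClAll.succ (ClAll.succ ClAll.zero n385) s881)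

def n387 : Cl (O (nat_lit 6)) (R (nat_lit 102673))
    (p (nat_lit 0x40592) (nat_lit 0) (p (nat_lit 0x40492) (nat_lit 0) (p (nat_lit 0x30412) (nat_lit 0) (p (nat_lit 0x30212) (nat_lit 0) (p (nat_lit 0x20192) (nat_lit 0) (p (nat_lit 0x20092) (nat_lit 0) (p (nat_lit 0x10012) (nat_lit 0) pn))))))) :=
  Cl.node (nat_lit 0x50612) (nat_lit 1) (by decide +kernel) (ClAll.succ ClAll.zero n386)

def n388 : Cl (O (nat_lit 6)) (R (nat_lit 102673))
    (p (nat_lit 0x40492) (nat_lit 0) (p (nat_lit 0x30412) (nat_lit 0) (p (nat_lit 0x30212) (nat_lit 0) (p (nat_lit 0x20192) (nat_lit 0) (p (nat_lit 0x20092) (nat_lit 0) (p (nat_lit 0x10012) (nat_lit 0) pn)))))) :=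
  Cl.node (nat_lit 0x40592) (nat_lit 1) (by decide +kernel) (ClAll.succ ClAll.zero n387)

def n389 : Cl (O (nat_lit 6)) (R (nat_lit 102673))
    (p (nat_lit 0x30412) (nat_lit 0) (p (nat_lit 0x30212) (nat_lit 0) (p (nat_lit 0x20192) (nat_lit 0) (p (nat_lit 0x20092) (nat_lit 0) (p (nat_lit 0x10012) (nat_lit 0) pn))))) :=
  Cl.node (nat_lit 0x40492) (nat_lit 1) (by decide +kernel) (ClAll.succ ClAll.zero n388)

def n390 : Cl (O (nat_lit 6)) (R (nat_lit 102673))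
    (p (nat_lit 0x30212) (nat_lit 0) (p (nat_lit 0x20192) (nat_lit 0) (p (nat_lit 0x20092) (nat_lit 0) (p (nat_lit 0x10012) (nat_lit 0) pn)))) :=
  Cl.node (nat_lit 0x30412) (nat_lit 1) (by decide +kernel) (ClAll.succ ClAll.zero n389)

def n391 : Cl (O (nat_lit 6)) (R (nat_lit 102673))
    (p (nat_lit 0x20192) (nat_lit 0) (p (nat_lit 0x20092) (nat_lit 0) (p (nat_lit 0x10012) (nat_lit 0) pn))) :=
  Cl.node (nat_lit 0x30212) (nat_lit 1) (by decide +kernel) (ClAll.succ ClAll.zero n390)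

def n392 : Cl (O (nat_lit 6)) (R (nat_lit 102673))
    (p (nat_lit 0x20092) (nat_lit 0) (p (nat_lit 0x10012) (nat_lit 0) pn)) :=
  Cl.node (nat_lit 0x20192) (nat_lit 1) (by decide +kernel) (ClAll.succ ClAll.zero n391)

def n393 : Cl (O (nat_lit 6)) (R (nat_lit 102673))
    (p (nat_lit 0x10012) (nat_lit 0) pn) :=
  Cl.node (nat_lit 0x20092) (nat_lit 1) (by decide +kernel) (ClAll.succ ClAll.zero n392)

def n394 : Cl (O (nat_lit 6)) (R (nat_lit 102673))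
    pn :=
  Cl.node (nat_lit 0x10012) (nat_lit 1) (by decide +kernel) (ClAll.succ ClAll.zero n393)

theorem top : Cl (O (nat_lit 6)) (R (nat_lit 102673)) pn := n394

end Pool.Agent.Gen.F5.X12DC13m6
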